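import Pool.Agent.Lib.MP_d03834_ag.Rul.Aid

/-! The amplifier in a weighted plane. -/

set_option autoImplicit false

namespace Pool.Agent.Lib.MP_d03834_ag.Nag

open MvPolynomial Module

/-- the polynomials of weighted degree at most g -/
noncomputable def ampV (ω g : ℕ) : Submodule ℂ P2 where
  carrier := {F | WB ω g F}
  zero_mem' := fun _ _ => rfl
  add_mem' := fun h h' μ hμ => by rw [coeff_add, h μ hμ, h' μ hμ, add_zero]
  smul_mem' := fun c F h μ hμ => by rw [coeff_smul, h μ hμ, smul_zero]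

theorem amp_fin {ω : ℕ} (hω : 0 < ω) (g : ℕ) : FiniteDimensional ℂ (ampV ω g) := by
  refine Submodule.finiteDimensional_of_le (S₂ := restrictTotalDegree (Fin 2) ℂ g) fun F hF => ?_
  rw [mem_restrictTotalDegree, totalDegree, Finset.sup_le_iff]
  intro μ hμ
  rw [Finsupp.sum_fintype _ _ fun _ => rfl, Fin.sum_univ_two]
  by_contra hn
  have : μ 1 ≤ ω * μ 1 := Nat.le_mul_of_pos_left _ hω
  exact mem_support_iff.1 hμ (hF μ (by omega))

theorem amp_rk (r : ℕ) (W : Submodule ℂ P2) (p : Fin r → Fin 2 → ℂ)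
    (h : ∀ F ∈ W, (∀ q, F ∈ aid (p q) ^ 1) → F = 0) : finrank ℂ W ≤ r := by
  let φ : W →ₗ[ℂ] Fin r → ℂ :=
    (LinearMap.pi fun q => (aeval (p q) : P2 →ₐ[ℂ] ℂ).toLinearMap).comp W.subtype
  have hφ : Function.Injective φ := by
    refine LinearMap.ker_eq_bot.1 (LinearMap.ker_eq_bot'.2 ?_)
    rintro ⟨F, hF⟩ h0
    refine Subtype.ext (h F hF fun q => ?_)
    rw [pow_one, aid, RingHom.mem_ker, ← coe_aeval_eq_eval]
    exact congrFun h0 q
  have := LinearMap.finrank_le_finrank_of_injective hφ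
  rwa [Module.finrank_fintype_fun_eq_card, Fintype.card_fin] at this

theorem amp_fix {κ : Type} {n r m ω g : ℕ} {z : κ → ℂ} {μ : κ → ℕ}
    (h : WEmp ω g z μ (Sum.elim (fun _ : Fin n => m) fun _ : Fin r => 1)) :
    ∃ G : MvPolynomial (Fin n × Fin 2) ℂ, G ≠ 0 ∧ ∀ P : Fin n → Fin 2 → ℂ,
      eval (fun ij : Fin n × Fin 2 => P ij.1 ij.2) G ≠ 0 → ∃ Q : Fin r → Fin 2 → ℂ, ∀ F : P2,
        Adm ω g z μ F → (∀ q, F ∈ aid (P q) ^ m) → (∀ q, F ∈ aid (Q q) ^ 1) → F = 0 := by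
  obtain ⟨G, G0, hG⟩ := h
  obtain ⟨x, hx⟩ : ∃ x, eval x G ≠ 0 := by
    by_contra hn
    push Not at hn
    exact G0 (MvPolynomial.funext fun x => by rw [hn, map_zero])
  let Q : Fin r → Fin 2 → ℂ := fun q a => x (.inr q, a)
  let s : (Fin n ⊕ Fin r) × Fin 2 → MvPolynomial (Fin n × Fin 2) ℂ := fun ij =>
    Sum.elim (fun i => X (i, ij.2)) (fun q => C (Q q ij.2)) ij.1
  have e : ∀ y : Fin n × Fin 2 → ℂ, eval y (aeval s G) = eval (fun ij : (Fin n ⊕ Fin r) × Fin 2 =>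
      Sum.elim (fun i a => y (i, a)) Q ij.1 ij.2) G := by
    intro y
    rw [← coe_aeval_eq_eval, ← coe_aeval_eq_eval, RingHom.coe_coe, RingHom.coe_coe,
      ← AlgHom.comp_apply, comp_aeval]
    congr 2
    funext ⟨i, a⟩
    rcases i with i | q <;> simp [s]
  refine ⟨aeval s G, fun h0 => hx ?_, fun P hP => ⟨Q, fun F h1 h2 h3 => ?_⟩⟩
  · have := e fun ij => x (.inl ij.1, ij.2)
    rw [h0, map_zero] at this
    rw [this]
    congr 2
    funext ⟨i, a⟩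
    rcases i with i | q <;> rfl
  rw [e] at hP
  refine hG (Sum.elim P Q) hP F h1 ?_
  rintro (i | q)
  · exact h2 i
  · exact h3 q

theorem amp_cnd {z : ℂ} {W : ℕ} {F : P2} (h : F ∈ Cnd z 0 1 1 W) : F ∈ aid ![z, 0] ^ W := by
  rw [amem]
  intro μ hμ
  have := h μ (by omega)
  simpa [cen] using this

theorem ramp {n c r m ω g : ℕ} (hω : 0 < ω) (hm : 0 < m) (z : Fin c → ℂ) (hz : ∀ l, z l ≠ 0)
    (h : ∀ o : Fin c → Fin 2, WEmp ω g z (fun l => 2 * m + o l)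
      (Sum.elim (fun _ : Fin n => m) fun _ : Fin (r + ∑ l, m * (1 - o l)) => 1)) :
    ∃ p : Fin (n + 4 * c) ⊕ Fin r → Fin 2 → ℂ, ∀ F : P2, WB ω g F →
      (∀ q, F ∈ aid (p q) ^ Sum.elim (fun _ => m) (fun _ => 1) q) → F = 0 := by
  choose G G0 hG using fun o => amp_fix (h o)
  obtain ⟨x, hx⟩ : ∃ x, eval x (∏ o, G o) ≠ 0 := by
    by_contra hn
    push Not at hn
    exact Finset.prod_ne_zero_iff.2 (fun o _ => G0 o)
      (MvPolynomial.funext fun x => by rw [hn, map_zero])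
  rw [map_prod, Finset.prod_ne_zero_iff] at hx
  let P : Fin n → Fin 2 → ℂ := fun q a => x (q, a)
  have := amp_fin hω g
  obtain ⟨τ, hτ⟩ := dirs m c z (α := Unit) (fun _ => ampV ω g ⊓ ⨅ q, Fat (P q) m)
    (fun _ => r) fun _ o => by
    obtain ⟨Q, hQ⟩ := hG o P (hx o (Finset.mem_univ _))
    refine amp_rk _ _ Q ?_
    rintro F ⟨⟨a1, a2⟩, a3⟩ a4
    exact hQ F ⟨a1, fun l => amp_cnd ((Submodule.mem_iInf _).1 a3 l)⟩
      (fun q => (Submodule.mem_iInf _).1 a2 q) a4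
  obtain ⟨s, -, s1⟩ := simple r _ (hτ ())
  obtain ⟨p4, -, a1⟩ := replace m.succ_ne_zero hm.ne' (clu4 m) c z τ hz
    ((ampV ω g ⊓ ⨅ q, Fat (P q) m) ⊓ ⨅ q, Fat (s q) 1) (by rw [inf_right_comm, s1])
  obtain ⟨e⟩ : Nonempty (Fin n ⊕ Fin c × Fin 4 ≃ Fin (n + 4 * c)) :=
    ⟨Fintype.equivFinOfCardEq (by simp; omega)⟩
  refine ⟨Sum.elim (fun l => Sum.elim P p4 (e.symm l)) s, fun F h0 h1 =>
    (Submodule.eq_bot_iff _).1 a1 F ⟨⟨⟨h0, (Submodule.mem_iInf _).2 fun q => ?_⟩,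
      (Submodule.mem_iInf _).2 fun q => h1 (.inr q)⟩, (Submodule.mem_iInf _).2 fun q => ?_⟩⟩
  · have := h1 (.inl (e (.inl q)))
    simp only [Sum.elim_inl, Equiv.symm_apply_apply] at this
    exact this
  · have := h1 (.inl (e (.inr q)))
    simp only [Sum.elim_inl, Sum.elim_inr, Equiv.symm_apply_apply] at this
    exact this

end Pool.Agent.Lib.MP_d03834_ag.Nag
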