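import Pool.Agent.Lib.MP_d03834_ag.Rul.Ar5B

/-! Arithmetic of the model of degree five. -/

set_option autoImplicit false

namespace Pool.Agent.Lib.MP_d03834_ag.Nag

theorem slope5 {n m : ℕ} (hn : 26 ≤ n) (n35 : n ≤ 35) (hm : 0 < m) :
    ∃ N β p : ℕ, 0 < β ∧ 3 * β < N ∧ (n : ℝ) ≤ (4 + p / 5 + β / N) ^ 2 ∧
      ((4 + p / 5 + β / N : ℝ) ^ 2 - n) * m ^ 2 ≤ 0.01 ∧ (5 : ℝ) ≤ 4 + p / 5 + β / N := by
  obtain ⟨p, p1, p2⟩ : ∃ p : ℕ, (20 + p) ^ 2 ≤ 25 * n ∧
      22500 * n < (649 + 30 * p) ^ 2 := ⟨(n - 17) / 2, by interval_cases n <;> norm_num⟩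
  obtain ⟨q, hq⟩ : ∃ q, q = 1000 * m ^ 2 := ⟨_, rfl⟩
  have q0 : 1000 ≤ q := by nlinarith
  have t1 := Nat.sqrt_le' (25 * n * q ^ 2)
  have t2 := Nat.lt_succ_sqrt' (25 * n * q ^ 2)
  generalize Nat.sqrt (25 * n * q ^ 2) = t at t1 t2
  rw [Nat.succ_eq_add_one] at t2
  have q2 : 0 < q ^ 2 := by positivity
  have a1 : (20 + p) * q ≤ t := by
    by_contra c
    have := Nat.pow_le_pow_left (by omega : t + 1 ≤ (20 + p) * q) 2
    have := Nat.mul_le_mul_right (q ^ 2) p1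
    rw [mul_pow] at *
    omega
  have a2 : 30 * t < (649 + 30 * p) * q := by
    by_contra c
    have := Nat.pow_le_pow_left (not_lt.1 c) 2
    have := Nat.mul_lt_mul_of_pos_right p2 q2
    rw [mul_pow, mul_pow] at *
    nlinarith
  have a3 : t ≤ 30 * q := by
    by_contra c
    have := Nat.pow_le_pow_left (not_le.1 c).le 2
    have := Nat.mul_le_mul_right (q ^ 2) n35
    nlinarith
  obtain ⟨β, hβ⟩ : ∃ β, t + 1 = (20 + p) * q + β := ⟨t + 1 - (20 + p) * q, by omega⟩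
  have q1 : (1000 : ℝ) ≤ q := by exact_mod_cast q0
  have e : (4 + p / 5 + β / (5 * q : ℕ) : ℝ) = (t + 1) / (5 * q) := by
    have : (t : ℝ) + 1 = (20 + p) * q + β := by exact_mod_cast hβ
    rw [this]
    push_cast
    field_simp
    ring
  have r1 : (t : ℝ) ^ 2 ≤ 25 * n * q ^ 2 := by exact_mod_cast t1
  have r2 : (25 * n * q ^ 2 : ℝ) < (t + 1) ^ 2 := by exact_mod_cast t2
  have r3 : (t : ℝ) ≤ 30 * q := by exact_mod_cast a3
  have r4 : (q : ℝ) = 1000 * m ^ 2 := by exact_mod_cast hq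
  have r5 : (n : ℝ) ≤ ((t + 1) / (5 * q)) ^ 2 := by
    rw [div_pow, le_div_iff₀ (by positivity)]
    linarith
  refine ⟨5 * q, β, p, by omega, by nlinarith, e ▸ r5, ?_, ?_⟩
  · rw [e, div_pow, div_sub' (by positivity), div_mul_eq_mul_div, div_le_iff₀ (by positivity)]
    have : (m : ℝ) ^ 2 = q / 1000 := by linarith
    rw [this]
    have := mul_le_mul_of_nonneg_right
      (by nlinarith : ((t : ℝ) + 1) ^ 2 - (5 * q) ^ 2 * n ≤ 61 * q) (by linarith : (0 : ℝ) ≤ q)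
    nlinarith
  · rw [e]
    have : (26 : ℝ) ≤ n := by exact_mod_cast hn
    have : (0 : ℝ) ≤ (t + 1) / (5 * q) := by positivity
    by_contra c
    nlinarith

theorem env5 {N β p d m o : ℕ} (hβ : 0 < β) (h3 : 3 * β < N) (hd : 5 * m + 2 ≤ d) (ho : o ≤ 4)
    (t0 : (5 : ℝ) ≤ 4 + p / 5 + β / N) :
    Env5 d m o (5 * (4 + p / 5 + β / N) - 25) ((d - 1) * (1 - β / N)) (Lw 4 2 N β p (2 * d))
      (Rw 4 2 N β p (2 * d) m 4 o) := by
  have n0 : (0 : ℝ) < N := by exact_mod_cast (by omega : 0 < N)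
  have b0 : (0 : ℝ) < β / N := div_pos (by exact_mod_cast hβ) n0
  have b1 : (β / N : ℝ) < 1 / 3 := by
    rw [div_lt_div_iff₀ n0 (by norm_num)]
    exact_mod_cast (by omega : β * 3 < 1 * N)
  have key : ∀ j D, d = 5 * j + D → (Lw 4 2 N β p (2 * d) j : ℝ) + (d - 1) * (1 - β / N) +
      (5 * (4 + p / 5 + β / N) - 25) * j = wl 4 2 N β (2 * D) + (D - 1) * (1 - β / N) := by
    rintro j D rfl
    rw [Lw, show 2 * (5 * j + D) - (2 + 2 * 4) * j = 2 * D by omega]
    push_cast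
    ring
  have big : ∀ D, 3 ≤ D → 0 ≤ (wl 4 2 N β (2 * D) : ℝ) + (D - 1) * (1 - β / N) ∧
      (wl 4 2 N β (2 * D) : ℝ) + (D - 1) * (1 - β / N) < 1 := fun D hD => by
    have e1 : 2 * (2 * D / 4) - kap 4 2 (2 * D) = D - 1 := by
      unfold kap
      split_ifs <;> omega
    have e2 : ((D : ℝ) - 1) * (1 - β / N) = (((D - 1) * (N - β) : ℕ) : ℝ) / N := by
      rw [Nat.cast_mul, Nat.cast_sub (by omega), Nat.cast_sub (by omega)]
      push_cast
      field_simp
    rw [wl, if_neg (by omega), if_neg (by omega), e1, e2,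
      ← Nat.floor_div_eq_div (K := ℝ) ((D - 1) * (N - β)) N]
    have e3 := Nat.floor_le (a := (((D - 1) * (N - β) : ℕ) : ℝ) / N) (by positivity)
    have e4 := Nat.lt_floor_add_one ((((D - 1) * (N - β) : ℕ) : ℝ) / N)
    rw [Int.cast_neg, Int.cast_natCast]
    constructor <;> linarith
  have w0 : wl 4 2 N β (2 * 0) = 0 := if_pos (by norm_num)
  have w1 : wl 4 2 N β (2 * 1) = 0 := if_pos (by norm_num)
  have w2 : wl 4 2 N β (2 * 2) = -1 := by rw [wl, if_neg (by norm_num), if_pos ⟨rfl, rfl⟩]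
  refine ⟨hd, ho, by linarith, fun j hj => ?_, fun j hj a b => ?_, fun j hj => ?_, fun j hj => ?_,
    fun j hj => ?_⟩
  · obtain ⟨D, hD⟩ := Nat.exists_eq_add_of_le hj
    rw [key j D hD]
    rcases Nat.lt_or_ge D 3 with c | c
    · interval_cases D
      · rw [w0]; push_cast; linarith
      · rw [w1]; push_cast; linarith
      · rw [w2]; push_cast; linarith
    · exact (big D c).2
  · obtain ⟨D, hD⟩ := Nat.exists_eq_add_of_le hj
    rw [key j D hD]
    rcases Nat.lt_or_ge D 3 with c | c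
    · obtain rfl : D = 1 := by omega
      rw [w1]; push_cast; linarith
    · exact (big D c).1
  · rw [key j 2 hj.symm, w2]
    push_cast
    constructor <;> linarith
  · rw [key j 0 hj.symm, w0]
    push_cast
    constructor <;> linarith
  · rw [Rw]
    congr 2
    have e1 : smj m 4 o j = if j < m then 8 * (m - j) + o else if j = m then o else 0 := by
      unfold smj
      interval_cases o <;> split_ifs <;> omega
    rw [e1]
    unfold wn kap zcj W5
    split_ifs <;> omega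

theorem sd5 {N β d m o j : ℕ} (hd : 5 * m + 2 ≤ d) (ho : o ≤ 4) :
    Sd 4 2 N β (2 * d - (2 + 2 * 4) * j) (smj m 4 o j) (zcj m 4 o j) := by
  have e1 : smj m 4 o j = if j < m then 8 * (m - j) + o else if j = m then o else 0 := by
    unfold smj
    interval_cases o <;> split_ifs <;> omega
  rw [e1]
  unfold Sd zcj
  generalize (2 * ((2 * d - (2 + 2 * 4) * j) / 4) - kap 4 2 (2 * d - (2 + 2 * 4) * j)) *
    (N - β) % N = x
  split_ifs <;> omega

/-- positions of the fold for small multiplicities -/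
def b5 (n : ℕ) : ℕ := [2991, 1962, 2916, 1852, 2773, 1678, 2569, 1446, 2310, 1161].getD (n - 26) 1

/-- the check of one degree -/
def Chk5 (n m d : ℕ) : Prop := ∀ o < 5, Chk 4 2 10000 (b5 n) ((n - 17) / 2) (2 * d) (n - 16) m 4 o
  (((d + 2) * (d + 1) - n * ((m + 1) * m)) / 2 + m * (4 - o))

instance (n m d : ℕ) : Decidable (Chk5 n m d) := Nat.decidableBallLT _ _

/-- the check of one multiplicity -/
def Chk5m (n m : ℕ) : Prop := ∀ d < 66, (d + 1) * d ≤ n * ((m + 1) * m) →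
  n * ((m + 1) * m) < (d + 3) * (d + 2) → Chk5 n m d

instance (n m : ℕ) : Decidable (Chk5m n m) := Nat.decidableBallLT _ _

theorem fin5 : ∀ n < 36, 26 ≤ n → (0 < b5 n ∧ b5 n < 3000) ∧ ∀ m < 11, 2 ≤ m → Chk5m n m := by
  decide +kernel

theorem ar5 {n m d : ℕ} (h26 : 26 ≤ n) (h35 : n ≤ 35) (hm : 2 ≤ m)
    (h1 : (d + 1).choose 2 ≤ n * (m + 1).choose 2) (h2 : n * (m + 1).choose 2 < (d + 3).choose 2) :
    ∃ N β p : ℕ, 0 < β ∧ 3 * β < N ∧ ∀ o ≤ 4, Good 4 2 N β p (2 * d) (n - 16) m 4 o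
      ((d + 2).choose 2 - n * (m + 1).choose 2 + m * (4 - o)) := by
  have c0 : n * ((m + 1) * m) = 2 * (n * (m + 1).choose 2) := by
    rw [← two_choose m]
    ring
  have c1 := two_choose d
  have c2 : 2 * (d + 2).choose 2 = (d + 2) * (d + 1) := two_choose (d + 1)
  have c3 : 2 * (d + 3).choose 2 = (d + 3) * (d + 2) := two_choose (d + 2)
  rcases Nat.lt_or_ge m 11 with c | c
  · obtain ⟨⟨a1, a2⟩, a3⟩ := fin5 n (by omega) h26
    have a4 : n * ((m + 1) * m) ≤ 35 * (11 * 10) :=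
      Nat.mul_le_mul h35 (Nat.mul_le_mul (by omega) (by omega))
    have a5 : d < 66 := by
      by_contra e
      have := Nat.mul_le_mul (by omega : 66 ≤ d + 1) (by omega : 66 ≤ d)
      omega
    refine ⟨10000, b5 n, (n - 17) / 2, a1, by omega, fun o ho => ?_⟩
    have a6 := (a3 m c hm d a5 (by omega) (by omega) o (by omega)).good
    rwa [c0, ← c2, show (2 * (d + 2).choose 2 - 2 * (n * (m + 1).choose 2)) / 2 =
      (d + 2).choose 2 - n * (m + 1).choose 2 by omega] at a6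
  · obtain ⟨N, β, p, a1, a2, a3, a4, a5⟩ := slope5 h26 h35 (by omega : 0 < m)
    have hd : 5 * m + 2 ≤ d := by
      by_contra e
      have := Nat.mul_le_mul (by omega : d + 3 ≤ 5 * m + 4) (by omega : d + 2 ≤ 5 * m + 3)
      have := Nat.mul_le_mul_right ((m + 1) * m) h26
      nlinarith
    refine ⟨N, β, p, a1, a2, fun o ho => ?_⟩
    have E := env5 a1 a2 hd ho a5
    unfold Good
    rw [show 2 * d / (2 + 2 * 4) = d / 5 by omega]
    exact ⟨E.antiL, E.antiR, fun j _ => sd5 hd ho, E.good rfl c h26 h35 a3 a4 h1 h2⟩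

end Pool.Agent.Lib.MP_d03834_ag.Nag
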