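import Pool.Agent.Lib.MP_d03834_ag.Rul.Col

/-! Tools for the arithmetic of the models. -/

set_option autoImplicit false

namespace Pool.Agent.Lib.MP_d03834_ag.Nag

/-- the number of new columns in the row j at level i -/
def newc (lf rt : ℕ → ℤ) (i j : ℕ) : ℕ :=
  ((if j = 0 then rt i + 1 else min (rt (j + i) + 1) (lf (j - 1))) - lf j).toNat

theorem hl_ub {J : ℕ} {lf rt : ℕ → ℤ} (h2 : Anti J rt) (i : ℕ) :
    hl J lf rt i ≤ ∑ j ∈ Finset.range (J + 1 - i), newc lf rt i j := by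
  unfold hl newc
  simp only [← Int.card_Ico]
  refine le_trans (Finset.card_le_card fun b hb => ?_) Finset.card_biUnion_le
  obtain ⟨j0, h0, hb⟩ := Finset.mem_biUnion.1 hb
  rw [Finset.mem_Icc] at hb
  rw [Finset.mem_range] at h0
  have ex : ∃ j, lf j ≤ b := ⟨j0, hb.1⟩
  have h3 := Nat.find_min' ex hb.1
  have h4 := Col_anti h2 (Nat.add_le_add_right h3 i) (by omega)
  refine Finset.mem_biUnion.2 ⟨Nat.find ex, Finset.mem_range.2 (by omega),
    Finset.mem_Ico.2 ⟨Nat.find_spec ex, ?_⟩⟩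
  split_ifs with h5
  · rw [h5, zero_add] at h4
    omega
  · have := Nat.find_min ex (m := Nat.find ex - 1) (by omega)
    omega

/-- a finite form of the criterion -/
def Chk (ω r N β p g n m c o T : ℕ) : Prop :=
  (∀ j < g / (r + 2 * ω), Lw ω r N β p g (j + 1) ≤ Lw ω r N β p g j) ∧
    (∀ j < g / (r + 2 * ω), Rw ω r N β p g m c o (j + 1) ≤ Rw ω r N β p g m c o j) ∧
    (∀ j < g / (r + 2 * ω) + 1,
      g - (r + 2 * ω) * j < ω ∨ (r = 2 ∧ g - (r + 2 * ω) * j = ω) ∨
        (zcj m c o j ≤ g - (r + 2 * ω) * j - smj m c o j ∧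
          (zcj m c o j < 2 * (g - (r + 2 * ω) * j - smj m c o j) ∨
            (2 * ((g - (r + 2 * ω) * j) / ω) - kap ω r (g - (r + 2 * ω) * j)) * (N - β) % N ≠ 0))) ∧
    ∑ i ∈ Finset.range (g / (r + 2 * ω) + 1), (∑ j ∈ Finset.range (g / (r + 2 * ω) + 1 - i),
      newc (Lw ω r N β p g) (Rw ω r N β p g m c o) i j - n * (m - i)) ≤ T

instance (ω r N β p g n m c o T : ℕ) : Decidable (Chk ω r N β p g n m c o T) := by
  unfold Chk
  infer_instance

theorem Chk.good {ω r N β p g n m c o T : ℕ} (h : Chk ω r N β p g n m c o T) :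
    Good ω r N β p g n m c o T :=
  ⟨h.1, h.2.1, fun j hj => h.2.2.1 j (Nat.lt_succ_of_le hj), le_trans
    (Finset.sum_le_sum fun i _ => Nat.sub_le_sub_right (hl_ub h.2.1 i) _) h.2.2.2⟩

theorem chord {m : ℕ} (x y : ℕ → ℕ) {lo hi : ℝ} (h1 : lo ≤ 0) (h2 : 0 ≤ hi)
    (h : ∀ i < m, lo ≤ (x i : ℝ) - y i ∧ (x i : ℝ) - y i ≤ hi) :
    (hi - lo) * (∑ i ∈ Finset.range m, (x i - y i) : ℕ) ≤
      hi * ((∑ i ∈ Finset.range m, x i : ℕ) - (∑ i ∈ Finset.range m, y i : ℕ) - m * lo) := by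
  induction m with
  | zero => simp
  | succ m ih =>
    have h3 := ih fun i hi => h i (by omega)
    obtain ⟨h4, h5⟩ := h m (by omega)
    rw [Finset.sum_range_succ, Finset.sum_range_succ, Finset.sum_range_succ]
    push_cast at h3 ⊢
    have h6 : (hi - lo) * ((x m - y m : ℕ) : ℝ) ≤ hi * ((x m : ℝ) - y m - lo) := by
      rcases le_total (x m) (y m) with h7 | h7
      · rw [Nat.sub_eq_zero_of_le h7]
        simp only [Nat.cast_zero, mul_zero]
        exact mul_nonneg h2 (by linarith)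
      · rw [Nat.cast_sub h7]
        nlinarith
    linarith

theorem sum_lev (n m : ℕ) : ∑ i ∈ Finset.range m, n * (m - i) = n * (m + 1).choose 2 := by
  rw [← Finset.mul_sum, ← Finset.sum_range_reflect, Nat.choose_two_right, ← Finset.sum_range_id,
    Finset.sum_range_succ', add_zero]
  congr 1
  refine Finset.sum_congr rfl fun i hi => ?_
  have := Finset.mem_range.1 hi
  omega

theorem two_choose (n : ℕ) : 2 * (n + 1).choose 2 = (n + 1) * n := by
  rw [Nat.choose_two_right, Nat.add_sub_cancel, Nat.mul_div_cancel']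
  exact (Nat.even_mul_pred_self (n + 1)).two_dvd

end Pool.Agent.Lib.MP_d03834_ag.Nag
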