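import Pool.Agent.Lib.MP_d03834_ag.Rul.ArK
import Pool.Agent.Lib.MP_d03834_ag.Rul.ArG

/-! Arithmetic of the model of degree nine halves. -/

set_option autoImplicit false

namespace Pool.Agent.Lib.MP_d03834_ag.Nag

open Finset

/-- length of a row without nodes -/
def w9 (x : ℕ) : ℤ := if x < 4 then x + 1 else 2 * x + (x / 4 : ℕ) - 3

/-- the loss caused by the nodes -/
def c9 (m o j : ℕ) : ℤ := if j < m then 12 * (m - j) + 2 * o - 3 else if j = m then o else 0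

lemma Ar9_L (N β p g j : ℕ) :
    Lw 4 1 N β p g j = -(((g - 9 * j) / 4 * (N - β) / N : ℕ) : ℤ) - p * j := by
  change wl 4 1 N β (g - 9 * j) - _ = _
  generalize g - 9 * j = x
  unfold wl kap
  rw [if_pos (rfl : 1 = 1), show 2 * (x / 4) - x / 4 = x / 4 by omega]
  split_ifs with h1 h2
  · rw [Nat.div_eq_of_lt h1]; simp
  · omega
  · rfl

lemma Ar9_sm {m o : ℕ} (ho : o ≤ 3) (j : ℕ) :
    smj m 3 o j = if j ≤ m then 6 * (m - j) + o else 0 := by
  unfold smj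
  interval_cases o <;> simp only [Nat.reduceSub] <;> split_ifs <;> omega

lemma Ar9_R {g m o j : ℕ} (N β p : ℕ) (ho : o ≤ 3) (hg : 9 * m + 4 ≤ g) :
    Rw 4 1 N β p g m 3 o j + 1 = Lw 4 1 N β p g j + w9 (g - 9 * j) - c9 m o j := by
  change Lw 4 1 N β p g j + (wn 4 1 (g - 9 * j) _ _ : ℕ) - 1 + 1 = _
  rw [Ar9_sm ho]
  unfold wn kap zcj w9 c9
  rw [if_pos (rfl : 1 = 1)]
  split_ifs <;> omega

lemma Ar9_Sd {g m o : ℕ} (N β j : ℕ) (ho : o ≤ 3) (hg : 9 * m + 4 ≤ g) :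
    Sd 4 1 N β (g - 9 * j) (smj m 3 o j) (zcj m 3 o j) := by
  rw [Ar9_sm ho]
  unfold Sd zcj
  by_cases h : g - 9 * j < 4
  · exact .inl h
  · refine .inr (.inr ⟨?_, .inl ?_⟩) <;> split_ifs <;> omega

lemma Ar9_w (g : ℕ) : ∑ j ∈ range (g / 9 + 1), w9 (g - 9 * j) =
    ((g / 4 : ℕ) + 1) * (g + 1 - 2 * (g / 4 : ℕ)) := by
  induction g using Nat.strong_induction_on with
  | _ g ih =>
    rcases lt_or_ge g 9 with h | h
    · interval_cases g <;> simp [w9]
    · obtain ⟨x, rfl⟩ := Nat.exists_eq_add_of_le' h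
      rw [show (x + 9) / 9 = x / 9 + 1 by omega, sum_range_succ']
      have e : ∀ j, x + 9 - 9 * (j + 1) = x - 9 * j := fun j => by omega
      simp only [e]
      rw [ih x (by omega), w9, if_neg (by omega), mul_zero, Nat.sub_zero]
      obtain ⟨q, r, hr, rfl⟩ : ∃ q r, r < 4 ∧ x = 4 * q + r :=
        ⟨x / 4, x % 4, by omega, by omega⟩
      rw [show (4 * q + r) / 4 = q by omega]
      rcases lt_or_ge r 3 with h3 | h3
      · rw [show (4 * q + r + 9) / 4 = q + 2 by omega]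
        push_cast
        ring
      · obtain rfl : r = 3 := by omega
        rw [show (4 * q + 3 + 9) / 4 = q + 3 by omega]
        push_cast
        ring

lemma Ar9_c {m o J : ℕ} (h : m ≤ J) :
    ∑ j ∈ range (J + 1), c9 m o j = 6 * m * (m + 1) + (2 * o - 3) * m + o := by
  induction J, h using Nat.le_induction with
  | base =>
    have e : ∀ k ≤ m, ∑ j ∈ range k, c9 m o j = 12 * m * k - 6 * k * (k - 1) + (2 * o - 3) * k := by
      intro k hk
      induction k with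
      | zero => simp
      | succ k ih =>
        rw [sum_range_succ, ih (by omega), c9, if_pos (by omega)]
        push_cast
        ring
    rw [sum_range_succ, e m le_rfl, c9, if_neg (lt_irrefl m), if_pos rfl]
    ring
  | succ k hk ih => rw [sum_range_succ, ih, c9, if_neg (by omega), if_neg (by omega), add_zero]

/-- the numerical data of the model -/
structure D9 (n m d N β p : ℕ) (s ξ η θ : ℝ) : Prop where
  sq : s ^ 2 = n + 12
  s1 : 4.58 ≤ s
  s2 : s ≤ 5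
  th : θ = 9 / 2 * s - 81 / 4
  hp : (p : ℝ) = θ + 9 / 4 * ξ
  x0 : 0 ≤ ξ
  x1 : ξ ≤ 1 / 3
  e0 : -1 / 3 ≤ η
  e1 : η ≤ 1 / 100
  an : 3 * ξ + η < p
  ha : (s ^ 2 - 3 * s) / 2 - 2 + η ≤ 27 / 10
  hb : (3 * s - s ^ 2) / 2 + 19 / 4 + η + θ * (θ + 27 + η) * (4 / 81) ≤ 27 / 10
  fl : ∀ u ≤ d, u * ξ - 1 - η ≤ (u * (N - β) / N : ℕ) ∧ ((u * (N - β) / N : ℕ) : ℝ) ≤ u * ξ
  hm : 10 ≤ m
  hg : 9 * m + 4 ≤ 2 * d
  d1 : (d : ℝ) ≤ s * m + (s - 1) / 2
  d2 : s * m - 3 / 10 ≤ d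

section
variable {n m d N β p o : ℕ} {s ξ η θ : ℝ}

lemma Ar9_u {a : ℕ} (ha : 9 * a ≤ 2 * d) :
    4 * (((2 * d - 9 * a) / 4 : ℕ) : ℝ) ≤ 2 * d - 9 * a ∧
      (2 * d - 9 * a : ℝ) ≤ 4 * (((2 * d - 9 * a) / 4 : ℕ) : ℝ) + 3 := by
  have h1 : 4 * ((2 * d - 9 * a) / 4) + 9 * a ≤ 2 * d := by omega
  have h2 : 2 * d ≤ 4 * ((2 * d - 9 * a) / 4) + 3 + 9 * a := by omega
  generalize (2 * d - 9 * a) / 4 = u at h1 h2
  have h3 : (4 * u + 9 * a : ℝ) ≤ 2 * d := by exact_mod_cast h1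
  have h4 : (2 * d : ℝ) ≤ 4 * u + 3 + 9 * a := by exact_mod_cast h2
  constructor <;> linarith

lemma D9.row (h : D9 n m d N β p s ξ η θ) (ho : o ≤ 3) {a b : ℕ} (ha : 9 * a ≤ 2 * d)
    (hb : 9 * b ≤ 2 * d) :
    (9 / 4 * (2 * d - 9 * a) - 3 - c9 m o a + θ * (b - a) - 7 / 4 - η ≤
      (Rw 4 1 N β p (2 * d) m 3 o a + 1 - Lw 4 1 N β p (2 * d) b : ℤ)) ∧
    (((Rw 4 1 N β p (2 * d) m 3 o a + 1 - Lw 4 1 N β p (2 * d) b : ℤ) : ℝ) ≤
        9 / 4 * (2 * d - 9 * a) - 3 - c9 m o a + θ * (b - a) + 1 + η ∨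
      2 * d - 9 * a < 4 ∧
        ((Rw 4 1 N β p (2 * d) m 3 o a + 1 - Lw 4 1 N β p (2 * d) b : ℤ) : ℝ) ≤
          13 / 12 * (2 * d - 9 * a) + 1 - c9 m o a + θ * (b - a)) := by
  rw [Ar9_R N β p ho h.hg, Ar9_L, Ar9_L]
  obtain ⟨a1, a2⟩ := Ar9_u ha
  obtain ⟨b1, b2⟩ := Ar9_u hb
  obtain ⟨a3, a4⟩ := h.fl ((2 * d - 9 * a) / 4) (by omega)
  obtain ⟨b3, b4⟩ := h.fl ((2 * d - 9 * b) / 4) (by omega)
  have e : ((2 * d - 9 * a : ℕ) : ℝ) = 2 * d - 9 * a := by
    rw [Nat.cast_sub ha]; push_cast; ring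
  have x0 := h.x0
  have x1 := h.x1
  have k1 := mul_le_mul_of_nonneg_right a1 (show 0 ≤ 1 - ξ by linarith)
  have k2 := mul_le_mul_of_nonneg_right a2 (show 0 ≤ 1 - ξ by linarith)
  have k3 := mul_le_mul_of_nonneg_right b1 x0
  have k4 := mul_le_mul_of_nonneg_right b2 x0
  generalize (2 * d - 9 * b) / 4 * (N - β) / N = fb at *
  generalize (2 * d - 9 * b) / 4 = ub at *
  unfold w9
  split_ifs with c
  · have c1 : (2 * d - 9 * a : ℝ) ≤ 3 := by
      rw [← e]; exact_mod_cast Nat.le_of_lt_succ c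
    have c0 : (0 : ℝ) ≤ 2 * d - 9 * a := e ▸ Nat.cast_nonneg _
    have k5 := mul_le_mul_of_nonneg_left x1 c0
    rw [Nat.div_eq_of_lt c] at *
    simp only [zero_mul, Nat.zero_div] at *
    push_cast [e, h.hp] at *
    exact ⟨by linarith, .inr ⟨c, by linarith⟩⟩
  · generalize (2 * d - 9 * a) / 4 * (N - β) / N = fa at *
    generalize (2 * d - 9 * a) / 4 = ua at *
    push_cast [e, h.hp] at *
    exact ⟨by linarith, .inl (by linarith)⟩

lemma D9.antiL (h : D9 n m d N β p s ξ η θ) : Anti (2 * d / 9) (Lw 4 1 N β p (2 * d)) := by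
  intro j hj
  rw [Ar9_L, Ar9_L]
  have a4 := (h.fl ((2 * d - 9 * j) / 4) (by omega)).2
  have b3 := (h.fl ((2 * d - 9 * (j + 1)) / 4) (by omega)).1
  have k : (((2 * d - 9 * j) / 4 : ℕ) : ℝ) ≤ ((2 * d - 9 * (j + 1)) / 4 : ℕ) + 3 := by
    exact_mod_cast (by omega : (2 * d - 9 * j) / 4 ≤ (2 * d - 9 * (j + 1)) / 4 + 3)
  have k1 := mul_le_mul_of_nonneg_right k h.x0
  have k2 := h.an
  generalize (2 * d - 9 * j) / 4 * (N - β) / N = fa at *
  generalize (2 * d - 9 * (j + 1)) / 4 * (N - β) / N = fb at *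
  have k3 : (fa : ℝ) < fb + p + 1 := by linarith
  have k4 : fa < fb + p + 1 := by exact_mod_cast k3
  push_cast
  linarith [show (fa : ℤ) ≤ fb + p by omega]

lemma D9.antiR (h : D9 n m d N β p s ξ η θ) (ho : o ≤ 3) :
    Anti (2 * d / 9) (Rw 4 1 N β p (2 * d) m 3 o) := by
  intro j hj
  have h1 := h.antiL j hj
  have h2 := Ar9_R (j := j) N β p ho h.hg
  have h3 := Ar9_R (j := j + 1) N β p ho h.hg
  have h4 := h.hg
  unfold w9 c9 at h2 h3
  split_ifs at h2 h3 <;> omega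

lemma D9.th0 (h : D9 n m d N β p s ξ η θ) : 9 / 25 ≤ θ := by linarith [h.th, h.s1]

lemma D9.emp (h : D9 n m d N β p s ξ η θ) (ho : o ≤ 3) {a b : ℕ} (ha : 9 * a ≤ 2 * d)
    (hb : b ≤ a) (k : 9 / 4 * (2 * d - 9 * a) < θ * (a - b)) :
    Rw 4 1 N β p (2 * d) m 3 o a < Lw 4 1 N β p (2 * d) b := by
  have c0 : (0 : ℝ) ≤ c9 m o a := by
    have : 0 ≤ c9 m o a := by unfold c9; split_ifs <;> omega
    exact_mod_cast this
  have c1 : (9 * a : ℝ) ≤ 2 * d := by exact_mod_cast ha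
  have k1 : ((Rw 4 1 N β p (2 * d) m 3 o a + 1 - Lw 4 1 N β p (2 * d) b : ℤ) : ℝ) < 1 := by
    rcases (h.row ho ha (b := b) (by omega)).2 with e | e
    · linarith [h.e1]
    · linarith [e.2]
  have k2 : Rw 4 1 N β p (2 * d) m 3 o a + 1 - Lw 4 1 N β p (2 * d) b < 1 := by
    exact_mod_cast k1
  omega

lemma Ar9_nat {z : ℤ} {k : ℕ} {B : ℝ} (h : k ≤ z.toNat) (h1 : (z : ℝ) ≤ B) (h0 : 0 ≤ B) :
    (k : ℝ) ≤ B := by
  rcases le_total z 0 with c | c
  · rw [Int.toNat_of_nonpos c, Nat.le_zero] at h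
    simpa [h] using h0
  · have : (k : ℤ) ≤ z := by omega
    exact le_trans (by exact_mod_cast this) h1

lemma D9.id (h : D9 n m d N β p s ξ η θ) (i : ℝ) : 9 / 4 * (2 * d - 9 * i) - 12 * (m - i) +
    θ * ((9 / 2 * d - θ * i) * (4 / 81) - 2 * i) = n * (m - i) + s * (d - s * m) := by
  rw [h.th, show (n : ℝ) = s ^ 2 - 12 by linarith [h.sq]]
  ring

lemma D9.up (h : D9 n m d N β p s ξ η θ) (ho : o ≤ 3) {i : ℕ} (hi : i < m) :
    (hl (2 * d / 9) (Lw 4 1 N β p (2 * d)) (Rw 4 1 N β p (2 * d) m 3 o) i : ℝ) ≤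
      n * (m - i) + (s * (d - s * m) + (3 * s - s ^ 2) / 2 + 3 - 2 * o + 27 / 10) := by
  have t0 := h.th0
  have hg := h.hg
  have i0 : (0 : ℝ) ≤ i := Nat.cast_nonneg i
  have i1 : (i + 1 : ℝ) ≤ m := by exact_mod_cast hi
  have o3 : (o : ℝ) ≤ 3 := by exact_mod_cast ho
  have s1 := h.s1
  have s2 := h.s2
  have d2 := h.d2
  have q1 : s * (i + 1) ≤ s * m := mul_le_mul_of_nonneg_left i1 (by linarith)
  have q2 : (i : ℝ) ≤ (9 / 2 * d - θ * i) * (4 / 81) := by rw [h.th]; linarith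
  have q3 := Nat.le_floor q2
  have q4 := Nat.floor_le (i0.trans q2)
  have q5 := Nat.lt_floor_add_one ((9 / 2 * d - θ * i) * (4 / 81))
  obtain ⟨j, hj⟩ := Nat.exists_eq_add_of_le' q3
  rw [hj] at q4 q5
  push_cast at q4 q5
  have q6 : 9 * (j + i) ≤ 2 * d := by
    have : (9 * (j + i) : ℝ) ≤ 2 * d := by nlinarith
    exact_mod_cast this
  refine Ar9_nat (hl_up1 h.antiL (h.antiR ho) (j := j) (by omega) fun k k1 k2 =>
    h.emp ho (by omega) (by omega) ?_) ?_ ?_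
  · have : (j + 1 : ℝ) ≤ k := by exact_mod_cast k1
    push_cast
    linarith
  · rcases (h.row ho (a := i) (b := j) (by omega) (by omega)).2 with e | e
    · rw [c9, if_pos hi] at e
      have q7 : θ * (j - i) ≤ θ * ((9 / 2 * d - θ * i) * (4 / 81) - 2 * i) :=
        mul_le_mul_of_nonneg_left (by linarith) (by linarith)
      push_cast at e ⊢
      linarith [h.id i, h.ha]
    · omega
  · have n9 : (8 : ℝ) ≤ n := by nlinarith [h.sq]
    have q8 : (8 : ℝ) * 1 ≤ n * (m - i) := mul_le_mul n9 (by linarith) zero_le_one (by linarith)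
    nlinarith

lemma D9.low (h : D9 n m d N β p s ξ η θ) (ho : o ≤ 3) {i : ℕ} (hi : i < m) :
    n * (m - i) + (s * (d - s * m) + (3 * s - s ^ 2) / 2 + 3 - 2 * o - 27 / 10) ≤
      (hl (2 * d / 9) (Lw 4 1 N β p (2 * d)) (Rw 4 1 N β p (2 * d) m 3 o) i : ℝ) := by
  have t0 := h.th0
  have hg := h.hg
  have i0 : (0 : ℝ) ≤ i := Nat.cast_nonneg i
  have o3 : (o : ℝ) ≤ 3 := by exact_mod_cast ho
  have o0 : (0 : ℝ) ≤ o := Nat.cast_nonneg o
  have e0 := h.e0
  have e1 := h.e1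
  have q0 : 0 ≤ θ * (i + 1) := by positivity
  have q1 := Nat.le_ceil ((9 / 2 * d - θ * (i + 1) - 15 / 4 - o - η) * (4 / 81))
  have q2 := fun k => (Nat.lt_ceil (n := k)
    (a := (9 / 2 * d - θ * (i + 1) - 15 / 4 - o - η) * (4 / 81))).1
  generalize ⌈(9 / 2 * d - θ * (i + 1) - 15 / 4 - o - η) * (4 / 81)⌉₊ = c at q1 q2
  have q3 : ∀ k < c, 9 * k ≤ 2 * d := fun k hk => by
    have := q2 k hk
    have : (9 * k : ℝ) ≤ 2 * d := by linarith
    exact_mod_cast this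
  have q4 : c - 1 - i + i ≤ 2 * d / 9 := by
    have := q3 (c - 1)
    omega
  have q5 := hl_low (lf := Lw 4 1 N β p (2 * d)) (rt := Rw 4 1 N β p (2 * d) m 3 o) q4
    fun j hj => by
      have r1 := q2 (j + 1 + i) (by omega)
      have r0 := q3 (j + 1 + i) (by omega)
      have r2 := (h.row ho r0 (b := j) (by omega)).1
      have r3 : (-1 : ℝ) < (Rw 4 1 N β p (2 * d) m 3 o (j + 1 + i) + 1 -
          Lw 4 1 N β p (2 * d) j : ℤ) := by
        refine lt_of_lt_of_le ?_ r2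
        by_cases c1 : j + 1 + i < m
        · have r4 : (j + 1 + i + 1 : ℝ) ≤ m := by exact_mod_cast c1
          have j0 : (0 : ℝ) ≤ j := Nat.cast_nonneg j
          have r5 : θ * (i + 1) ≤ θ * (m - 1) :=
            mul_le_mul_of_nonneg_left (by linarith) (by linarith)
          have r6 : θ * m = 9 / 2 * (s * m) - 81 / 4 * m := by rw [h.th]; ring
          rw [c9, if_pos c1]
          push_cast
          linarith [h.d2]
        · have r4 : c9 m o (j + 1 + i) ≤ o := by unfold c9; split_ifs <;> omega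
          have r5 : (c9 m o (j + 1 + i) : ℝ) ≤ o := by exact_mod_cast r4
          push_cast at r1 ⊢
          linarith
      have r7 : -1 < Rw 4 1 N β p (2 * d) m 3 o (j + 1 + i) + 1 - Lw 4 1 N β p (2 * d) j := by
        exact_mod_cast r3
      omega
  have q6 := (h.row ho (a := i) (b := c - 1 - i) (by omega) (by omega)).1
  have q7 : (c : ℝ) ≤ (c - 1 - i : ℕ) + 1 + i := by
    exact_mod_cast (by omega : c ≤ c - 1 - i + 1 + i)
  generalize c - 1 - i = j at *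
  have q8 : θ * ((9 / 2 * d - θ * i) * (4 / 81) - 2 * i - (θ + 27 + η) * (4 / 81)) ≤
      θ * (j - i) := mul_le_mul_of_nonneg_left (by linarith) (by linarith)
  refine le_trans ?_ (q6.trans (by exact_mod_cast q5))
  rw [c9, if_pos hi]
  push_cast
  linarith [h.id i, h.hb]

lemma D9.far (h : D9 n m d N β p s ξ η θ) (ho : o ≤ 3) {i j : ℕ} (hi : m ≤ i) (hj : m < j + i)
    (k : j + i ≤ 2 * d / 9) :
    Rw 4 1 N β p (2 * d) m 3 o (j + i) < Lw 4 1 N β p (2 * d) j := by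
  refine h.emp ho (by omega) (by omega) ?_
  have r1 : (m : ℝ) ≤ i := by exact_mod_cast hi
  have r2 : (m + 1 : ℝ) ≤ j + i := by exact_mod_cast hj
  have r5 : θ * m ≤ θ * i := mul_le_mul_of_nonneg_left r1 (by linarith [h.th0])
  have r6 : θ * m = 9 / 2 * (s * m) - 81 / 4 * m := by rw [h.th]; ring
  push_cast
  linarith [h.d1, h.s2]

lemma D9.tip (h : D9 n m d N β p s ξ η θ) (ho : o ≤ 3) :
    (hl (2 * d / 9) (Lw 4 1 N β p (2 * d)) (Rw 4 1 N β p (2 * d) m 3 o) m : ℝ) ≤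
      max 0 (9 / 2 * (d - s * m) - 199 / 100 - o) := by
  have hg := h.hg
  refine Ar9_nat (hl_up1 h.antiL (h.antiR ho) (j := 0) (by omega) fun k k1 k2 =>
    h.far ho le_rfl (by omega) k2) (le_max_of_le_right ?_) (le_max_left _ _)
  rcases (h.row ho (a := m) (b := 0) (by omega) (by omega)).2 with e | e
  · rw [c9, if_neg (lt_irrefl m), if_pos rfl] at e
    have r6 : θ * m = 9 / 2 * (s * m) - 81 / 4 * m := by rw [h.th]; ring
    push_cast at e ⊢
    linarith [h.e1]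
  · omega

lemma Ar9_fin {m o s δ P t T S x : ℝ} (hm : 10 ≤ m) (o0 : 0 ≤ o) (o3 : o ≤ 2 ∨ o = 3)
    (s1 : 4.58 ≤ s) (s2 : s ≤ 5) (d1 : δ ≤ (s - 1) / 2) (d2 : -3 / 10 ≤ δ) (T0 : 0 ≤ T)
    (T1 : m * (s * (δ + 3 / 2 - s / 2)) + (δ + 1) * (δ + 2) / 2 ≤ T)
    (ht : t ≤ max 0 (9 / 2 * δ - 199 / 100 - o)) (hx : x = s * (δ + 3 / 2 - s / 2) + 3 - 2 * o)
    (hS : S = m * x + (δ + 1) * (δ + 2) / 2 - o - t)
    (ch : ∀ lo hi, lo ≤ 0 → 0 ≤ hi → lo ≤ x - 27 / 10 → x + 27 / 10 ≤ hi →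
      (hi - lo) * P ≤ hi * (S - m * lo)) : P + t ≤ T + m * (3 - o) := by
  have m0 : 0 ≤ m * o := by positivity
  rcases le_total 0 (x - 27 / 10) with c1 | c1
  · have := ch 0 (x + 27 / 10) le_rfl (by linarith) c1 le_rfl
    rw [sub_zero, mul_zero, sub_zero] at this
    have := le_of_mul_le_mul_left this (by linarith)
    rw [hS, hx] at this
    linarith
  rcases le_total (x + 27 / 10) 0 with c2 | c2
  · have := ch (x - 27 / 10) 0 c1 le_rfl le_rfl c2
    have hP : P ≤ 0 := by nlinarith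
    refine le_trans (b := t) (by linarith) (ht.trans (max_le ?_ ?_))
    · rcases o3 with e | e <;> nlinarith
    · rcases o3 with e | e
      · nlinarith
      · subst e
        have : δ ≤ 11 / 10 := by nlinarith
        linarith
  have h1 := ch _ _ c1 c2 le_rfl le_rfl
  obtain ⟨M, hM⟩ : ∃ M, M = T + 3 / 20 * m - m * (s * (δ + 3 / 2 - s / 2)) / 2 := ⟨_, rfl⟩
  have o4 : o ≤ 3 := by rcases o3 with e | e <;> linarith
  have k : (δ + 1) * (δ + 2) / 2 ≤ M ∧ 9 / 2 * δ - 199 / 100 ≤ M := by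
    rcases le_total 0 (δ + 3 / 2 - s / 2) with c | c
    · have e1 : 9 * (δ + 3 / 2 - s / 2) ≤ m * s * (δ + 3 / 2 - s / 2) :=
        mul_le_mul_of_nonneg_right (by nlinarith) c
      constructor <;> nlinarith [sq_nonneg δ]
    · have e1 : δ ≤ 1 := by linarith
      constructor <;> nlinarith [sq_nonneg δ]
  have e0 : 0 ≤ (δ + 1) * (δ + 2) / 2 := by nlinarith
  have k2 : t ≤ M := ht.trans (max_le (by linarith) (by linarith))
  have k3 := mul_le_mul_of_nonneg_left (show (δ + 1) * (δ + 2) / 2 - o ≤ M by linarith) c2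
  have k4 := mul_le_mul_of_nonneg_left k2 (show 0 ≤ 27 / 10 - x by linarith)
  rw [hS] at h1
  have k5 : P + t ≤ m * (x + 27 / 10) / 2 + M := by linarith
  rw [hx, hM] at k5
  linarith

lemma Ar9_ch (k : ℕ) : (((k + 1).choose 2 : ℕ) : ℝ) = (k + 1) * k / 2 := by
  have : (2 * ((k + 1).choose 2 : ℕ) : ℝ) = (k + 1) * k := by exact_mod_cast two_choose k
  linarith

lemma D9.tot (h : D9 n m d N β p s ξ η θ) (ho : o ≤ 3) :
    ((∑ i ∈ range (2 * d / 9 + 1),
      hl (2 * d / 9) (Lw 4 1 N β p (2 * d)) (Rw 4 1 N β p (2 * d) m 3 o) i : ℕ) : ℝ) =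
      (d + 2) * (d + 1) / 2 - (6 * m * (m + 1) + (2 * o - 3) * m + o) := by
  have hg := h.hg
  have e : ∀ j, ((Rw 4 1 N β p (2 * d) m 3 o j + 1 - Lw 4 1 N β p (2 * d) j).toNat : ℤ) =
      w9 (2 * d - 9 * j) - c9 m o j := fun j => by
    rw [Int.toNat_of_nonneg (by unfold Rw; omega), Ar9_R N β p ho hg]
    ring
  have e1 : ((∑ i ∈ range (2 * d / 9 + 1),
      hl (2 * d / 9) (Lw 4 1 N β p (2 * d)) (Rw 4 1 N β p (2 * d) m 3 o) i : ℕ) : ℤ) * 2 =
      (d + 2) * (d + 1) - (6 * m * (m + 1) + (2 * o - 3) * m + o) * 2 := by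
    rw [hl_sum h.antiL (h.antiR ho), Nat.cast_sum]
    simp only [e]
    rw [sum_sub_distrib, Ar9_w, Ar9_c (by omega)]
    obtain ⟨q, rfl | rfl⟩ := Nat.even_or_odd' d
    · rw [show 2 * (2 * q) / 4 = q by omega]
      push_cast
      ring
    · rw [show 2 * (2 * q + 1) / 4 = q by omega]
      push_cast
      ring
  generalize (∑ i ∈ range (2 * d / 9 + 1), _ : ℕ) = z at *
  have e2 : (z : ℝ) * 2 = (d + 2) * (d + 1) - (6 * m * (m + 1) + (2 * o - 3) * m + o) * 2 := by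
    exact_mod_cast e1
  linarith

theorem D9.good (h : D9 n m d N β p s ξ η θ) (ho : o ≤ 3) : Good 4 1 N β p (2 * d) n m 3 o
    ((d + 2).choose 2 - (n + 12) * (m + 1).choose 2 + m * (3 - o)) := by
  refine ⟨h.antiL, h.antiR ho, fun j _ => Ar9_Sd N β j ho h.hg, ?_⟩
  change ∑ i ∈ range (2 * d / 9 + 1), (hl (2 * d / 9) _ _ i - _) ≤ _
  have hg := h.hg
  have tot := h.tot ho
  have up := fun i => h.up ho (i := i)
  have low := fun i => h.low ho (i := i)
  have tip := h.tip ho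
  have far : ∀ i, m < i →
      hl (2 * d / 9) (Lw 4 1 N β p (2 * d)) (Rw 4 1 N β p (2 * d) m 3 o) i = 0 :=
    fun i hi => hl_zero fun j hj => h.far ho hi.le (by omega) hj
  generalize hl (2 * d / 9) (Lw 4 1 N β p (2 * d)) (Rw 4 1 N β p (2 * d) m 3 o) = H at *
  have sp : ∀ f : ℕ → ℕ, (∀ i, m < i → f i = 0) →
      ∑ i ∈ range (2 * d / 9 + 1), f i = ∑ i ∈ range m, f i + f m := fun f hf => by
    rw [← sum_range_succ]
    refine (sum_subset (range_subset_range.2 (by omega)) fun i _ hi => hf i ?_).symm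
    rw [mem_range] at hi
    omega
  rw [sp H far, Nat.cast_add] at tot
  rw [sp _ fun i hi => by rw [far i hi, Nat.zero_sub], Nat.sub_self, mul_zero, Nat.sub_zero]
  have o3 : (o : ℝ) ≤ 2 ∨ (o : ℝ) = 3 := by
    rcases ho.lt_or_eq with e | e
    · exact .inl (by exact_mod_cast Nat.le_of_lt_succ e)
    · exact .inr (by exact_mod_cast e)
  have hT : ((d + 2).choose 2 : ℝ) - ((n + 12) * (m + 1).choose 2 : ℕ) ≤
      ((d + 2).choose 2 - (n + 12) * (m + 1).choose 2 : ℕ) := by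
    rw [sub_le_iff_le_add]
    exact_mod_cast le_tsub_add
  generalize (d + 2).choose 2 - (n + 12) * (m + 1).choose 2 = T at *
  have hn : (n : ℝ) = s ^ 2 - 12 := by linarith [h.sq]
  have := Ar9_fin (m := m) (o := o) (s := s) (δ := d - s * m) (t := H m) (T := T)
    (P := (∑ i ∈ range m, (H i - n * (m - i)) : ℕ))
    (S := (∑ i ∈ range m, H i : ℕ) - (∑ i ∈ range m, n * (m - i) : ℕ))
    (by exact_mod_cast h.hm) (Nat.cast_nonneg o) o3 h.s1 h.s2 (by linarith [h.d1])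
    (by linarith [h.d2]) (Nat.cast_nonneg T) ?_ tip rfl ?_ fun lo hi a b c e =>
      chord H (fun i => n * (m - i)) a b fun i k => by
        have := up i k
        have := low i k
        rw [Nat.cast_mul, Nat.cast_sub k.le]
        constructor <;> linarith
  · have e : ((3 - o : ℕ) : ℝ) = 3 - o := by rw [Nat.cast_sub ho]; rfl
    rw [← e] at this
    exact_mod_cast this
  · rw [Ar9_ch (d + 1), Nat.cast_mul, Ar9_ch] at hT
    push_cast at hT
    rw [hn] at hT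
    linarith
  · rw [sum_lev, Nat.cast_mul, Ar9_ch, hn]
    linarith

end

lemma Ar9_ex {ξ : ℝ} (x0 : 1 / 100 ≤ ξ) (x1 : ξ ≤ 1 / 3) {d : ℕ} (hd : 0 < d) :
    ∃ N β : ℕ, β < N ∧ N < 2 * β ∧ ∀ u ≤ d, u * ξ - 1 - 1 / 100 ≤ (u * (N - β) / N : ℕ) ∧
      ((u * (N - β) / N : ℕ) : ℝ) ≤ u * ξ := by
  have d1 : (1 : ℝ) ≤ d := by exact_mod_cast hd
  have a1 := Nat.floor_le (a := ξ * (100 * d)) (by positivity)
  have a2 := Nat.lt_floor_add_one (ξ * (100 * d))
  have a3 : 1 ≤ ⌊ξ * (100 * d)⌋₊ := Nat.le_floor (by push_cast; nlinarith)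
  generalize ⌊ξ * (100 * d)⌋₊ = X at *
  have a4 : 3 * X ≤ 100 * d := by
    have : (3 * X : ℝ) ≤ 100 * d := by nlinarith
    exact_mod_cast this
  refine ⟨100 * d, 100 * d - X, by omega, by omega, fun u hu => ?_⟩
  rw [Nat.sub_sub_self (by omega)]
  have b1 : 100 * d * (u * X / (100 * d)) ≤ u * X := Nat.mul_div_le _ _
  have b2 : u * X < 100 * d * (u * X / (100 * d) + 1) := Nat.lt_mul_div_succ _ (by omega)
  generalize u * X / (100 * d) = z at *
  have b3 : (100 * d * z : ℝ) ≤ u * X := by exact_mod_cast b1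
  have b4 : (u * X : ℝ) < 100 * d * (z + 1) := by exact_mod_cast b2
  have u1 : (u : ℝ) ≤ d := by exact_mod_cast hu
  have u0 : (0 : ℝ) ≤ u := Nat.cast_nonneg u
  have b5 := mul_le_mul_of_nonneg_left a1 u0
  have b6 := mul_le_mul_of_nonneg_left a2.le u0
  constructor
  · refine le_of_mul_le_mul_left (a := (100 * d : ℝ)) ?_ (by positivity)
    linarith
  · refine le_of_mul_le_mul_left (a := (100 * d : ℝ)) ?_ (by positivity)
    linarith

/-- the check for all m less than M -/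
def chk9 (n N β p M : ℕ) : Bool :=
  allB (fun m => allB (fun d => decide (m < 2) || decide (n * ((m + 1) * m) < (d + 1) * d) ||
    decide ((d + 3) * (d + 2) ≤ n * ((m + 1) * m)) || allB (fun o =>
      goodB 4 1 N β p (2 * d) (n - 12) m 3 o
        ((d + 2) * (d + 1) / 2 - n * ((m + 1) * m / 2) + m * (3 - o))) 4) (5 * m + 3)) M

lemma Ar9_small {n N β p M m d : ℕ} (h : chk9 n N β p M = true) (h25 : n ≤ 25) (hm : 2 ≤ m)
    (hM : m < M) (h1 : (d + 1) * d ≤ n * ((m + 1) * m))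
    (h2 : n * ((m + 1) * m) < (d + 3) * (d + 2)) : ∀ o ≤ 3, Good 4 1 N β p (2 * d) (n - 12) m 3 o
      ((d + 2).choose 2 - n * (m + 1).choose 2 + m * (3 - o)) := fun o ho => by
  have hd : d < 5 * m + 3 := by
    by_contra e
    have := Nat.mul_le_mul_right ((m + 1) * m) h25
    nlinarith
  have := (allB_iff _ _).1 ((allB_iff _ _).1 h m hM) d hd
  simp only [Bool.or_eq_true, decide_eq_true_eq, allB_iff] at this
  rw [Nat.choose_two_right, Nat.choose_two_right]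
  exact goodB_sound (this.resolve_left (by omega) o (by omega))

lemma Ar9_21 : chk9 21 4 3 1 21 = true := by decide +kernel
lemma Ar9_22 : chk9 22 10 9 1 10 = true := by decide +kernel
lemma Ar9_23 : chk9 23 3 2 2 10 = true := by decide +kernel
lemma Ar9_24 : chk9 24 10 9 2 10 = true := by decide +kernel
lemma Ar9_25 : chk9 25 3 2 3 10 = true := by decide +kernel

lemma Ar9_d {m d s : ℝ} (hm : 10 ≤ m) (hd : 0 ≤ d) (s1 : 4.58 ≤ s)
    (h1 : (d + 1) * d ≤ s ^ 2 * ((m + 1) * m)) (h2 : s ^ 2 * ((m + 1) * m) < (d + 3) * (d + 2)) :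
    d ≤ s * m + (s - 1) / 2 ∧ s * m - 3 / 10 ≤ d := by
  have k : 45 ≤ s * m := by nlinarith
  constructor <;> by_contra! e
  · have := mul_lt_mul'' (show s * m + (s + 1) / 2 < d + 1 by linarith) e (by linarith)
      (by linarith)
    nlinarith
  · have := mul_lt_mul'' (show d + 3 < s * m + 27 / 10 by linarith)
      (show d + 2 < s * m + 17 / 10 by linarith) (by linarith) (by linarith)
    nlinarith

lemma Ar9_big {n m d p : ℕ} {a b : ℝ} (hm : 10 ≤ m) (hg : 9 * m + 4 ≤ 2 * d)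
    (h1 : (d + 1) * d ≤ (n + 12) * ((m + 1) * m))
    (h2 : (n + 12) * ((m + 1) * m) < (d + 3) * (d + 2)) (a0 : 4.58 ≤ a) (b0 : 0 ≤ b) (b5 : b ≤ 5)
    (ha : a ^ 2 ≤ n + 12) (hb : n + 12 ≤ b ^ 2) (c1 : 2 * b - 9 + 1 / 100 ≤ p * (4 / 9))
    (c2 : p * (4 / 9) ≤ 2 * a - 9 + 33 / 100) (c3 : 1 ≤ p) (c4 : n + 12 - 3 * a ≤ 9.38)
    (c5 : (n + 12) / 2 - 1.4977 * a ≤ 4.7) :
    ∃ N β p : ℕ, β < N ∧ N < 2 * β ∧ ∀ o ≤ 3, Good 4 1 N β p (2 * d) n m 3 o
      ((d + 2).choose 2 - (n + 12) * (m + 1).choose 2 + m * (3 - o)) := by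
  have sq : √((n : ℝ) + 12) ^ 2 = n + 12 := Real.sq_sqrt (by positivity)
  have s1 : a ≤ √((n : ℝ) + 12) := Real.le_sqrt_of_sq_le ha
  have s2 : √((n : ℝ) + 12) ≤ b := Real.sqrt_le_iff.2 ⟨b0, hb⟩
  generalize √((n : ℝ) + 12) = s at *
  obtain ⟨N, β, r1, r2, r3⟩ := Ar9_ex (ξ := p * (4 / 9) - 2 * s + 9) (by linarith) (by linarith)
    (show 0 < d by omega)
  have p1 : (1 : ℝ) ≤ p := by exact_mod_cast c3
  obtain ⟨d1, d2⟩ := Ar9_d (m := m) (d := d) (s := s) (by exact_mod_cast hm) (Nat.cast_nonneg d)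
    (by linarith) (by rw [sq]; exact_mod_cast h1) (by rw [sq]; exact_mod_cast h2)
  exact ⟨N, β, p, r1, r2, fun o => D9.good (θ := 9 / 2 * s - 81 / 4) ⟨sq, by linarith, by linarith,
    rfl, by ring, by linarith, by linarith, by norm_num, le_rfl, by linarith, by linarith,
    by linarith, r3, hm, hg, d1, d2⟩⟩

theorem ar9 {n m d : ℕ} (h21 : 21 ≤ n) (h25 : n ≤ 25) (hm : 2 ≤ m)
    (h1 : (d + 1).choose 2 ≤ n * (m + 1).choose 2) (h2 : n * (m + 1).choose 2 < (d + 3).choose 2) :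
    ∃ N β p : ℕ, β < N ∧ N < 2 * β ∧ ∀ o ≤ 3, Good 4 1 N β p (2 * d) (n - 12) m 3 o
      ((d + 2).choose 2 - n * (m + 1).choose 2 + m * (3 - o)) := by
  have k1 : (d + 1) * d ≤ n * ((m + 1) * m) := by
    rw [← two_choose, ← two_choose, mul_left_comm]
    omega
  have k2 : n * ((m + 1) * m) < (d + 3) * (d + 2) := by
    rw [← two_choose, ← two_choose (d + 2), mul_left_comm]
    exact Nat.mul_lt_mul_of_pos_left h2 two_pos
  have hg : 63 ≤ (4 * n - 81) * m → 9 * m + 4 ≤ 2 * d := fun e => by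
    by_contra e1
    obtain ⟨k, hk⟩ : ∃ k, 4 * n = k + 81 := ⟨4 * n - 81, by omega⟩
    rw [hk, Nat.add_sub_cancel] at e
    have e2 := Nat.mul_le_mul (show 2 * (d + 3) ≤ 9 * (m + 1) by omega)
      (show 2 * (d + 2) ≤ 9 * m + 7 by omega)
    have e3 : 4 * n * ((m + 1) * m) = (k + 81) * ((m + 1) * m) := by rw [hk]
    have e4 := Nat.mul_le_mul_left (m + 1) e
    nlinarith
  interval_cases n
  · rcases lt_or_ge m 21 with e | e
    · exact ⟨4, 3, 1, by decide, by decide, Ar9_small Ar9_21 h25 hm e k1 k2⟩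
    · exact Ar9_big (n := 9) (p := 1) (a := 4.5825) (b := 4.5826) (by omega) (hg (by omega)) k1 k2
        (by norm_num) (by norm_num) (by norm_num) (by norm_num) (by norm_num) (by norm_num)
        (by norm_num) (by norm_num) (by norm_num) (by norm_num)
  · rcases lt_or_ge m 10 with e | e
    · exact ⟨10, 9, 1, by decide, by decide, Ar9_small Ar9_22 h25 hm e k1 k2⟩
    · exact Ar9_big (n := 10) (p := 1) (a := 4.6904) (b := 4.6905) e (hg (by omega)) k1 k2
        (by norm_num) (by norm_num) (by norm_num) (by norm_num) (by norm_num) (by norm_num)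
        (by norm_num) (by norm_num) (by norm_num) (by norm_num)
  · rcases lt_or_ge m 10 with e | e
    · exact ⟨3, 2, 2, by decide, by decide, Ar9_small Ar9_23 h25 hm e k1 k2⟩
    · exact Ar9_big (n := 11) (p := 2) (a := 4.7958) (b := 4.7959) e (hg (by omega)) k1 k2
        (by norm_num) (by norm_num) (by norm_num) (by norm_num) (by norm_num) (by norm_num)
        (by norm_num) (by norm_num) (by norm_num) (by norm_num)
  · rcases lt_or_ge m 10 with e | e
    · exact ⟨10, 9, 2, by decide, by decide, Ar9_small Ar9_24 h25 hm e k1 k2⟩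
    · exact Ar9_big (n := 12) (p := 2) (a := 4.8989) (b := 4.899) e (hg (by omega)) k1 k2
        (by norm_num) (by norm_num) (by norm_num) (by norm_num) (by norm_num) (by norm_num)
        (by norm_num) (by norm_num) (by norm_num) (by norm_num)
  · rcases lt_or_ge m 10 with e | e
    · exact ⟨3, 2, 3, by decide, by decide, Ar9_small Ar9_25 h25 hm e k1 k2⟩
    · obtain ⟨d1, d2⟩ := Ar9_d (m := m) (d := d) (s := 5) (by exact_mod_cast e)
        (Nat.cast_nonneg d) (by norm_num) (by norm_num; exact_mod_cast k1)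
        (by norm_num; exact_mod_cast k2)
      refine ⟨3, 2, 3, by decide, by decide, fun o => D9.good (n := 13) (s := 5) (ξ := 1 / 3)
        (η := -1 / 3) (θ := 9 / 4) ⟨by norm_num, by norm_num, le_rfl, by norm_num, by norm_num,
          by norm_num, le_rfl, le_rfl, by norm_num, by norm_num, by norm_num, by norm_num,
          fun u _ => ?_, e, hg (by omega), d1, d2⟩⟩
      have b1 : 3 * (u * (3 - 2) / 3) ≤ u := by omega
      have b2 : u ≤ 3 * (u * (3 - 2) / 3) + 2 := by omega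
      generalize u * (3 - 2) / 3 = z at *
      have b3 : (3 * z : ℝ) ≤ u := by exact_mod_cast b1
      have b4 : (u : ℝ) ≤ 3 * z + 2 := by exact_mod_cast b2
      constructor <;> linarith

end Pool.Agent.Lib.MP_d03834_ag.Nag
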