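import Pool.Agent.Lib.MP_d03834_ag.Rul.Ar4
import Pool.Agent.Lib.MP_d03834_ag.Rul.Ar9
import Pool.Agent.Lib.MP_d03834_ag.Rul.Ar5

/-! Arithmetic of the three models. -/
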