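import Pool.Agent.Lib.MP_d03834_ag.Rul.Aid
import Pool.Agent.Lib.MP_d03834_ag.Nag.Gen

/-! From weighted polynomials to plane curves. -/

set_option autoImplicit false

namespace Pool.Agent.Lib.MP_d03834_ag.Nag

open MvPolynomial Module

/-- the substitution of 1 for the last variable -/
noncomputable def planeDh : MvPolynomial (Fin 3) ℂ →ₐ[ℂ] P2 := aeval ![X 0, X 1, 1]

lemma plane_mon (a b : ℕ) (c : ℂ) : (monomial (ex a b) c : P2) = C c * (X 0 ^ a * X 1 ^ b) := by
  rw [monomial_eq, Finsupp.prod_fintype _ _ fun _ => pow_zero _, Fin.prod_univ_two, ex_zero,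
    ex_one]

lemma planeDh_monomial (ν : Fin 3 →₀ ℕ) (c : ℂ) :
    planeDh (monomial ν c) = monomial (ex (ν 0) (ν 1)) c := by
  rw [planeDh, aeval_monomial, plane_mon, Finsupp.prod_fintype _ _ fun _ => pow_zero _,
    Fin.prod_univ_three]
  simp

lemma planeDh_coeff (F : MvPolynomial (Fin 3) ℂ) (μ : Fin 2 →₀ ℕ) :
    coeff μ (planeDh F) =
      ∑ ν ∈ F.support, if ν 0 = μ 0 ∧ ν 1 = μ 1 then coeff ν F else 0 := by
  classical
  conv_lhs => rw [F.as_sum, map_sum, coeff_sum]
  refine Finset.sum_congr rfl fun ν _ => ?_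
  rw [planeDh_monomial, coeff_monomial]
  by_cases h : ν 0 = μ 0 ∧ ν 1 = μ 1
  · rw [if_pos h, if_pos (ex_eq h.1 h.2)]
  · rw [if_neg h, if_neg fun e => h ⟨by rw [← e, ex_zero], by rw [← e, ex_one]⟩]

lemma plane_deg {d : ℕ} {F : MvPolynomial (Fin 3) ℂ} (hF : F.IsHomogeneous d) {ν : Fin 3 →₀ ℕ}
    (h : ν ∈ F.support) : ν 0 + ν 1 + ν 2 = d := by
  have h1 : ν.degree = d := by
    by_contra hn
    exact mem_support_iff.1 h (hF.coeff_eq_zero hn)
  rwa [Finsupp.degree_eq_sum, Fin.sum_univ_three] at h1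

lemma planeDh_mem (p : Fin 2 → ℂ) (m : ℕ) {F : MvPolynomial (Fin 3) ℂ} (h : F ∈ hid p ^ m) :
    planeDh F ∈ aid p ^ m := by
  have h1 : (hid p).map planeDh ≤ aid p := by
    rw [hid, Ideal.map_span, Ideal.span_le]
    rintro _ ⟨x, hx | hx, rfl⟩
    · rw [hx]
      simp [planeDh, aid, RingHom.mem_ker]
    · rw [Set.mem_singleton_iff.1 hx]
      simp [planeDh, aid, RingHom.mem_ker]
  have h2 := Ideal.mem_map_of_mem planeDh h
  rw [Ideal.map_pow] at h2
  exact Ideal.pow_right_mono h1 m h2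

theorem plane1 {ι : Type} [Fintype ι] {d : ℕ} {m : ι → ℕ} (p : ι → Fin 2 → ℂ)
    (h : ∀ F : P2, WB 1 d F → (∀ q, F ∈ aid (p q) ^ m q) → F = 0) : Emp d m := by
  refine gen d m p fun F hF hm => ?_
  have h0 := h (planeDh F) (fun μ hμ => by
    rw [planeDh_coeff]
    refine Finset.sum_eq_zero fun ν hν => if_neg fun e => ?_
    have := plane_deg hF hν
    omega) fun q => planeDh_mem _ _ (hm q)
  by_contra hn
  obtain ⟨ν, hν⟩ := ne_zero_iff.1 hn
  have h1 := planeDh_coeff F (ex (ν 0) (ν 1))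
  rw [h0, coeff_zero, Finset.sum_eq_single ν, if_pos ⟨rfl, rfl⟩] at h1
  · exact hν h1.symm
  · intro ν' hν' hne
    refine if_neg fun e => hne ?_
    have h2 := plane_deg hF hν'
    have h3 := plane_deg hF (mem_support_iff.2 hν)
    rw [ex_zero, ex_one] at e
    ext i
    fin_cases i
    · exact e.1
    · exact e.2
    · change ν' 2 = ν 2
      omega
  · intro hx
    exact absurd (mem_support_iff.2 hν) hx

/-- the deformation of the monomials -/
noncomputable def planePhi (η : ℂ) : P2 →ₗ[ℂ] P2 :=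
  (basisMonomials (Fin 2) ℂ).constr ℂ fun μ =>
    X 1 ^ μ 1 * X 0 ^ (μ 0 % 2) * (X 0 ^ 2 + η • X 1) ^ (μ 0 / 2)

lemma planePhi_monomial (η : ℂ) (μ : Fin 2 →₀ ℕ) (c : ℂ) : planePhi η (monomial μ c) =
    c • (X 1 ^ μ 1 * X 0 ^ (μ 0 % 2) * (X 0 ^ 2 + η • X 1) ^ (μ 0 / 2)) := by
  have : (monomial μ c : P2) = c • basisMonomials (Fin 2) ℂ μ := by
    simp [smul_monomial]
  rw [this, map_smul, planePhi, Module.Basis.constr_basis]

lemma planePhi_zero (F : P2) : planePhi 0 F = F := by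
  induction F using MvPolynomial.induction_on' with
  | add p q hp hq => rw [map_add, hp, hq]
  | monomial μ c =>
    have e : μ = ex (μ 0) (μ 1) := ex_eq rfl rfl
    rw [planePhi_monomial, zero_smul, add_zero, ← pow_mul, mul_assoc, ← pow_add, Nat.mod_add_div,
      smul_eq_C_mul]
    conv_rhs => rw [e, plane_mon]
    ring

lemma plane_cont (f : P2 →ₗ[ℂ] ℂ) (b c : P2) (k : ℕ) (a : P2) :
    Continuous fun η : ℂ => f (a * (b + η • c) ^ k) := by
  induction k generalizing a with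
  | zero => simpa using continuous_const
  | succ k ih =>
    have e : (fun η : ℂ => f (a * (b + η • c) ^ (k + 1))) = fun η : ℂ =>
        f (a * b * (b + η • c) ^ k) + η * f (a * c * (b + η • c) ^ k) := by
      funext η
      rw [← smul_eq_mul η, ← map_smul, ← map_add]
      congr 1
      simp only [smul_eq_C_mul]
      ring
    rw [e]
    exact (ih _).add (continuous_id.mul (ih _))

lemma planePhi_cont (f : P2 →ₗ[ℂ] ℂ) (F : P2) : Continuous fun η : ℂ => f (planePhi η F) := by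
  induction F using MvPolynomial.induction_on' with
  | add p q hp hq =>
    simp only [map_add]
    exact hp.add hq
  | monomial μ c =>
    simp only [planePhi_monomial, map_smul, smul_eq_mul]
    exact continuous_const.mul (plane_cont f _ _ _ _)

/-- the polynomials of weighted degree at most 2 d -/
noncomputable def planeV (d : ℕ) : Submodule ℂ P2 :=
  restrictSupport ℂ {μ : Fin 2 →₀ ℕ | μ 0 + 4 * μ 1 ≤ 2 * d}

lemma planeV_wb {d : ℕ} {F : P2} (h : F ∈ planeV d) : WB 4 (2 * d) F := fun μ hμ => by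
  by_contra hn
  have := (mem_restrictSupport_iff ℂ).1 h (mem_support_iff.2 hn)
  simp only [Set.mem_ofPred_eq] at this
  omega

lemma planeV_fin (d : ℕ) : FiniteDimensional ℂ (planeV d) := by
  have hfin : {μ : Fin 2 →₀ ℕ | μ 0 + 4 * μ 1 ≤ 2 * d}.Finite := by
    refine (Finsupp.finite_of_degree_le (2 * d)).subset fun μ hμ => ?_
    simp only [Set.mem_ofPred_eq] at hμ ⊢
    rw [Finsupp.degree_eq_sum, Fin.sum_univ_two]
    omega
  have := hfin.to_subtype
  exact Module.Finite.of_basis (basisRestrictSupport ℂ _)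

lemma plane_span (η : ℂ) (d i : ℕ) : ∀ j k : ℕ, i + 2 * j + k ≤ d →
    (X 1 ^ j * X 0 ^ i * (X 0 ^ 2 + η • X 1) ^ k : P2) ∈ (planeV d).map (planePhi η) := by
  induction i using Nat.strong_induction_on with
  | _ i ih =>
    intro j k h
    by_cases hi : i < 2
    · refine ⟨monomial (ex (i + 2 * k) j) 1, ?_, ?_⟩
      · refine (mem_restrictSupport_iff ℂ).2 fun μ hμ => ?_
        have h1 := support_monomial_subset (Finset.mem_coe.1 hμ)
        rw [Finset.mem_singleton] at h1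
        simp only [Set.mem_ofPred_eq, h1, ex_zero, ex_one]
        omega
      · rw [planePhi_monomial, one_smul, ex_zero, ex_one, show (i + 2 * k) % 2 = i by omega,
          show (i + 2 * k) / 2 = k by omega]
    · obtain ⟨i', rfl⟩ : ∃ i', i = i' + 2 := ⟨i - 2, by omega⟩
      have e : (X 1 ^ j * X 0 ^ (i' + 2) * (X 0 ^ 2 + η • X 1) ^ k : P2) =
          X 1 ^ j * X 0 ^ i' * (X 0 ^ 2 + η • X 1) ^ (k + 1) -
            η • (X 1 ^ (j + 1) * X 0 ^ i' * (X 0 ^ 2 + η • X 1) ^ k) := by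
        simp only [smul_eq_C_mul]
        ring
      rw [e]
      exact Submodule.sub_mem _ (ih i' (by omega) j (k + 1) (by omega))
        (Submodule.smul_mem _ _ (ih i' (by omega) (j + 1) k (by omega)))

/-- the substitution y ↦ x ^ 2 + η y -/
noncomputable def planePsi (η : ℂ) : P2 →ₐ[ℂ] P2 := aeval ![X 0, X 0 ^ 2 + η • X 1]

lemma planePsi_inj {η : ℂ} (hη : η ≠ 0) {G : P2} (h : planePsi η G = 0) : G = 0 := by
  have e : (aeval ![X 0, η⁻¹ • (X 1 - X 0 ^ 2)] : P2 →ₐ[ℂ] P2).comp (planePsi η) =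
      AlgHom.id ℂ P2 := by
    refine algHom_ext fun i => ?_
    fin_cases i
    · simp [planePsi]
    · simp [planePsi, smul_smul, hη]
  have := DFunLike.congr_fun e G
  rw [AlgHom.comp_apply, h, map_zero] at this
  exact this.symm

lemma planePsi_mem (η : ℂ) {d : ℕ} {G : P2} (h : WB 1 d G) :
    planePsi η G ∈ (planeV d).map (planePhi η) := by
  rw [G.as_sum, map_sum]
  refine Submodule.sum_mem _ fun μ hμ => ?_
  have h1 : μ 0 + 1 * μ 1 ≤ d := not_lt.1 fun h' => mem_support_iff.1 hμ (h μ h')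
  have e : planePsi η (monomial μ (coeff μ G)) =
      coeff μ G • (X 1 ^ 0 * X 0 ^ μ 0 * (X 0 ^ 2 + η • X 1) ^ μ 1) := by
    rw [planePsi, aeval_monomial, Finsupp.prod_fintype _ _ fun _ => pow_zero _, Fin.prod_univ_two,
      smul_eq_C_mul (a := coeff μ G)]
    simp
  rw [e]
  exact Submodule.smul_mem _ _ (plane_span η d _ 0 _ (by omega))

theorem plane4 {ι : Type} [Fintype ι] {d : ℕ} {m : ι → ℕ} (p : ι → Fin 2 → ℂ)
    (h : ∀ F : P2, WB 4 (2 * d) F → (∀ q, F ∈ aid (p q) ^ m q) → F = 0) : Emp d m := by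
  classical
  have := planeV_fin d
  let f : (Σ q : ι, Fin (m q) × Fin (m q)) → P2 →ₗ[ℂ] ℂ := fun l =>
    if l.2.1.1 + l.2.2.1 < m l.1 then (lcoeff ℂ (ex l.2.1 l.2.2)).comp
      (aeval ![C (p l.1 0) + X 0, C (p l.1 1) + X 1] : P2 →ₐ[ℂ] P2).toLinearMap else 0
  have hf : ∀ F : P2, (∀ l, f l F = 0) ↔ ∀ q, F ∈ aid (p q) ^ m q := by
    intro F
    constructor
    · intro h1 q
      refine (amem _ _ _).2 fun μ hμ => ?_
      have h2 := h1 ⟨q, ⟨μ 0, by omega⟩, ⟨μ 1, by omega⟩⟩
      simp only [f, if_pos hμ] at h2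
      rw [show μ = ex (μ 0) (μ 1) from ex_eq rfl rfl]
      exact h2
    · intro h1 l
      simp only [f]
      split_ifs with h2
      · exact (amem _ _ _).1 (h1 l.1) _ h2
      · rfl
  have h3 := inj_open (planeV d) (fun η => (LinearMap.pi f).comp (planePhi η))
    (fun x => continuous_pi fun l => planePhi_cont (f l) x) fun x hx h0 =>
      h x (planeV_wb hx) ((hf x).1 fun l => by
        have := congrFun h0 l
        rwa [LinearMap.comp_apply, planePhi_zero] at this)
  obtain ⟨η, h4, hη⟩ := ((h3.filter_mono nhdsWithin_le_nhds).and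
    (self_mem_nhdsWithin (s := {(0 : ℂ)}ᶜ))).exists
  refine plane1 (fun q => ![p q 0, p q 0 ^ 2 + η * p q 1]) fun G hG hm => planePsi_inj hη ?_
  obtain ⟨F, hF, e⟩ := planePsi_mem η hG
  have h5 : ∀ q, planePhi η F ∈ aid (p q) ^ m q := fun q => by
    rw [e]
    refine Fat_map (planePsi η) (p q) _ (fun i => ?_) (m q) (hm q)
    fin_cases i <;> simp [planePsi]
  rw [← e, h4 F hF (funext fun l => (hf _).2 h5 l), map_zero]

end Pool.Agent.Lib.MP_d03834_ag.Nag
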