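import Pool.Agent.Lib.MP_d03834_ag.Rul.Trans
import Pool.Agent.Lib.MP_d03834_ag.Rul.Ar
import Pool.Agent.Lib.MP_d03834_ag.Rul.Amp
import Pool.Agent.Lib.MP_d03834_ag.Rul.Plane
import Pool.Agent.Lib.MP_d03834_ag.Nag.AmpZ

/-! At least 16 points. -/

set_option autoImplicit false

namespace Pool.Agent.Lib.MP_d03834_ag.Nag

open MvPolynomial Module

theorem Fin_zn (l : ℕ) : zn l ≠ 0 := by
  unfold zn
  refine div_ne_zero ?_ ?_
  · exact_mod_cast (show l + 2 ≠ 0 by omega)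
  · exact_mod_cast (show 1 + (l + 2) ^ 2 ≠ 0 by omega)

theorem Fin_amp {ω r c g n m N β p T : ℕ} (hr : r = 1 ∨ r = 2) (hω : ω + r = c + 2) (h0 : 0 < ω)
    (hm : 0 < m) (hβ : 0 < β) (hN : β < N) (h3 : 3 * β < N ∨ (r = 1 ∧ N < 2 * β))
    (h : ∀ o ≤ c, Good ω r N β p g n m c o (T + m * (c - o))) :
    ∃ p : Fin (n + 4 * c) ⊕ Fin T → Fin 2 → ℂ, ∀ F : P2, WB ω g F →
      (∀ q, F ∈ aid (p q) ^ Sum.elim (fun _ => m) (fun _ => 1) q) → F = 0 := by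
  refine ramp h0 hm (fun l => zn l) (fun l => Fin_zn l) fun o => ?_
  refine rtrans (p := p) hr hω h0 hβ hN h3 o ?_
  rw [← Finset.mul_sum, Trans_one]
  refine h _ ?_
  refine le_trans (Finset.sum_le_sum (g := fun _ => 1) fun l _ => ?_) (by simp)
  have := (o l).2
  omega

theorem shgh16 {n m : ℕ} (hn : 16 ≤ n) (hm : 0 < m) :
    H19.Gen n fun P => ∀ d, finrank ℂ ↥(homogeneousSubmodule (Fin 3) ℂ d ⊓
      Submodule.restrictScalars ℂ (⨅ i : Fin n, H19.hid (P i) ^ m)) =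
      Nat.choose (d + 2) 2 - n * Nat.choose (m + 1) 2 := by
  rcases le_or_gt 36 n with h36 | h36
  · exact shgh36 h36 hm
  refine assemble (by omega) hm fun d h1 h2 => ?_
  rcases Nat.lt_or_ge m 2 with e | e
  · obtain rfl : m = 1 := by omega
    refine ampZ_one ?_
    simp only [Nat.reduceAdd, Nat.choose_self, mul_one]
    omega
  rcases le_or_gt n 20 with h20 | h20
  · obtain ⟨N, β, p, a1, a2, a3⟩ := ar4 hn h20 e h1 h2
    obtain ⟨k, rfl⟩ : ∃ k, n = k + 4 * 1 := ⟨n - 4, by omega⟩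
    obtain ⟨P, hP⟩ := Fin_amp (n := k) (Or.inr rfl) rfl one_pos hm a1 (by omega) (Or.inl a2) a3
    exact plane1 P hP
  rcases le_or_gt n 25 with h25 | h25
  · obtain ⟨N, β, p, a1, a2, a3⟩ := ar9 h20 h25 e h1 h2
    obtain ⟨k, rfl⟩ : ∃ k, n = k + 4 * 3 := ⟨n - 12, by omega⟩
    obtain ⟨P, hP⟩ := Fin_amp (n := k) (Or.inl rfl) rfl (by norm_num) hm (by omega) a1
      (Or.inr ⟨rfl, a2⟩) a3
    exact plane4 P hP
  · obtain ⟨N, β, p, a1, a2, a3⟩ := ar5 h25 (by omega) e h1 h2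
    obtain ⟨k, rfl⟩ : ∃ k, n = k + 4 * 4 := ⟨n - 16, by omega⟩
    obtain ⟨P, hP⟩ := Fin_amp (n := k) (Or.inr rfl) rfl (by norm_num) hm a1 (by omega)
      (Or.inl a2) a3
    exact plane4 P hP

end Pool.Agent.Lib.MP_d03834_ag.Nag
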