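import Pool.Agent.Lib.MP_d03834_ag.Rul.Defs

/-! Ideals of points, weighted degrees and division. -/

set_option autoImplicit false

namespace Pool.Agent.Lib.MP_d03834_ag.Nag

open MvPolynomial Module

/-- translation of the point to the origin -/
noncomputable def aidTr {K : Type} [CommRing K] (p : Fin 2 → K) :
    MvPolynomial (Fin 2) K →ₐ[K] MvPolynomial (Fin 2) K :=
  aeval ![C (p 0) + X 0, C (p 1) + X 1]

theorem aid_neg {K : Type} [CommRing K] (p : Fin 2 → K) (F : MvPolynomial (Fin 2) K) :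
    aidTr (-p) (aidTr p F) = F := by
  have : (aidTr (-p)).comp (aidTr p) = AlgHom.id K _ := by
    refine algHom_ext fun i => ?_
    fin_cases i <;> simp [aidTr]
  exact DFunLike.congr_fun this F

theorem aid_eval {K : Type} [CommRing K] (p q : Fin 2 → K) (F : MvPolynomial (Fin 2) K) :
    eval q (aidTr p F) = eval (p + q) F := by
  induction F using MvPolynomial.induction_on with
  | C a => simp [aidTr]
  | add a b ha hb => simp [ha, hb]
  | mul_X a i ha =>
    simp only [map_mul, ha, eval_X]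
    congr 1
    fin_cases i <;> simp [aidTr]

theorem aid_tr {K : Type} [CommRing K] (p q : Fin 2 → K) (m : ℕ) {F : MvPolynomial (Fin 2) K}
    (h : F ∈ aid (p + q) ^ m) : aidTr p F ∈ aid q ^ m := by
  have h1 : (aid (p + q)).map (aidTr p) ≤ aid q := by
    rw [Ideal.map_le_iff_le_comap]
    intro G hG
    rw [Ideal.mem_comap, aid, RingHom.mem_ker, aid_eval]
    exact hG
  have h2 := Ideal.mem_map_of_mem (aidTr p) h
  rw [Ideal.map_pow] at h2
  exact Ideal.pow_right_mono h1 m h2

theorem aid_zero {K : Type} [CommRing K] : aid (0 : Fin 2 → K) = idealOfVars (Fin 2) K := by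
  ext F
  rw [← pow_one (idealOfVars (Fin 2) K), mem_pow_idealOfVars_iff', aid, RingHom.mem_ker,
    eval_zero, constantCoeff_eq]
  constructor
  · intro h μ hμ
    have : μ = 0 := (Finsupp.degree_eq_zero_iff μ).1 (by omega)
    rw [this]; exact h
  · intro h
    exact h 0 (by simp)

theorem aid_map {K K' : Type} [CommRing K] [CommRing K'] (f : K →+* K') (p : Fin 2 → K)
    (F : MvPolynomial (Fin 2) K) : map f (aidTr p F) = aidTr (f ∘ p) (map f F) := by
  induction F using MvPolynomial.induction_on with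
  | C a => simp [aidTr]
  | add p q hp hq => simp [hp, hq]
  | mul_X q i hq =>
    simp only [map_mul, hq, map_X]
    congr 1
    fin_cases i <;> simp [aidTr]

theorem amem {K : Type} [CommRing K] (p : Fin 2 → K) (m : ℕ) (F : MvPolynomial (Fin 2) K) :
    F ∈ aid p ^ m ↔ ∀ μ : Fin 2 →₀ ℕ, μ 0 + μ 1 < m →
      coeff μ (aeval ![C (p 0) + X 0, C (p 1) + X 1] F : MvPolynomial (Fin 2) K) = 0 := by
  have e : aidTr p F ∈ aid 0 ^ m ↔ ∀ μ : Fin 2 →₀ ℕ, μ 0 + μ 1 < m →
      coeff μ (aidTr p F) = 0 := by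
    rw [aid_zero, mem_pow_idealOfVars_iff']
    simp only [Finsupp.degree_eq_sum, Fin.sum_univ_two]
  refine Iff.trans ⟨fun h => aid_tr p 0 m (by rwa [add_zero]), fun h => ?_⟩ e
  rw [← aid_neg p F]
  exact aid_tr (-p) p m (by rwa [neg_add_cancel])

theorem aid_cf_tr {K : Type} [CommRing K] (p : Fin 2 → K) (k : ℕ)
    (F : MvPolynomial (Fin 2) (Polynomial K)) (G : MvPolynomial (Fin 2) K)
    (hG : ∀ ν, coeff ν G = (coeff ν F).coeff k) (μ : Fin 2 →₀ ℕ) :
    coeff μ (aidTr p G) = (coeff μ (aidTr (Polynomial.C ∘ p) F)).coeff k := by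
  classical
  have e : ∀ ν (a : Polynomial K), aidTr (Polynomial.C ∘ p) (monomial ν a) =
      C a * map Polynomial.C (aidTr p (monomial ν 1)) := fun ν a => by
    rw [aid_map, map_monomial, map_one, ← algebraMap_eq, ← AlgHom.commutes (aidTr _), ← map_mul,
      algebraMap_eq, C_mul_monomial, mul_one]
  have e' : ∀ ν (a : K), aidTr p (monomial ν a) = C a * aidTr p (monomial ν 1) := fun ν a => by
    rw [← algebraMap_eq, ← AlgHom.commutes (aidTr p), ← map_mul, algebraMap_eq, C_mul_monomial,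
      mul_one]
  have hs : G = ∑ ν ∈ F.support, monomial ν ((coeff ν F).coeff k) := by
    ext ν
    rw [coeff_sum, hG]
    simp only [coeff_monomial, Finset.sum_ite_eq', MvPolynomial.mem_support_iff]
    split_ifs with h
    · rfl
    · rw [not_not.1 h, Polynomial.coeff_zero]
  conv_rhs => rw [F.as_sum]
  rw [hs, map_sum, map_sum, coeff_sum, coeff_sum, Polynomial.finsetSum_coeff]
  refine Finset.sum_congr rfl fun ν _ => ?_
  rw [e, e', coeff_C_mul, coeff_C_mul, coeff_map, Polynomial.coeff_mul_C]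

theorem adm_cf {κ : Type} {ω g : ℕ} {z : κ → O} {μ : κ → ℕ} {F : MvPolynomial (Fin 2) A}
    (h : Adm ω g (fun l => Polynomial.C (z l)) μ F) (k : ℕ) {G : MvPolynomial (Fin 2) O}
    (hG : ∀ ν, coeff ν G = (coeff ν F).coeff k) : Adm ω g z μ G := by
  refine ⟨fun ν hν => by rw [hG, h.1 ν hν, Polynomial.coeff_zero], fun l => ?_⟩
  rw [amem]
  intro ν hν
  have h1 := (amem _ _ _).1 (h.2 l) ν hν
  have h2 := aid_cf_tr ![z l, 0] k F G hG ν
  have e : (Polynomial.C ∘ ![z l, 0] : Fin 2 → A) = ![Polynomial.C (z l), 0] := by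
    ext1 i; fin_cases i <;> simp
  rw [e] at h2
  exact h2.trans (by rw [show coeff ν (aidTr ![Polynomial.C (z l), 0] F) = 0 from h1,
    Polynomial.coeff_zero])

/-- grading by the weights 1 and ω -/
noncomputable def aidGr {K : Type} [CommRing K] (ω : ℕ) :
    MvPolynomial (Fin 2) K →ₐ[K] Polynomial (MvPolynomial (Fin 2) K) :=
  aeval ![Polynomial.monomial 1 (X 0), Polynomial.monomial ω (X 1)]

theorem aid_gr {K : Type} [CommRing K] (ω n : ℕ) (μ : Fin 2 →₀ ℕ) (F : MvPolynomial (Fin 2) K) :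
    coeff μ ((aidGr ω F).coeff n) = if μ 0 + ω * μ 1 = n then coeff μ F else 0 := by
  classical
  induction F using MvPolynomial.induction_on' with
  | monomial ν a =>
    have e : aidGr ω (monomial ν a) = Polynomial.monomial (ν 0 + ω * ν 1) (monomial ν a) := by
      rw [aidGr, aeval_monomial, Finsupp.prod_fintype _ _ fun _ => pow_zero _, Fin.prod_univ_two,
        monomial_eq, Finsupp.prod_fintype _ _ fun _ => pow_zero _, Fin.prod_univ_two]
      simp only [Matrix.cons_val_zero, Matrix.cons_val_one, Polynomial.monomial_pow,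
        Polynomial.monomial_mul_monomial, one_mul, Polynomial.algebraMap_apply, algebraMap_eq,
        Polynomial.C_mul_monomial]
    rw [e, Polynomial.coeff_monomial]
    by_cases h : ν = μ
    · subst h
      split_ifs <;> simp
    · split_ifs <;> simp [coeff_monomial, h]
  | add a b ha hb =>
    rw [map_add, Polynomial.coeff_add, coeff_add, coeff_add, ha, hb]
    split_ifs <;> simp

theorem aid_gr_ne {K : Type} [CommRing K] (ω : ℕ) {F : MvPolynomial (Fin 2) K} (h : F ≠ 0) :
    aidGr ω F ≠ 0 := fun h0 => h <| MvPolynomial.ext _ _ fun μ => by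
  have := aid_gr ω (μ 0 + ω * μ 1) μ F
  rw [h0, if_pos rfl] at this
  rw [← this]; simp

theorem aid_wb {K : Type} [CommRing K] (ω g : ℕ) (F : MvPolynomial (Fin 2) K) :
    WB ω g F ↔ (aidGr ω F).natDegree ≤ g := by
  rw [Polynomial.natDegree_le_iff_coeff_eq_zero]
  constructor
  · intro h n hn
    ext μ
    rw [aid_gr, coeff_zero]
    split_ifs with e
    · exact h μ (by omega)
    · rfl
  · intro h μ hμ
    have := aid_gr ω (μ 0 + ω * μ 1) μ F
    rw [h _ hμ, if_pos rfl] at this
    rw [← this, coeff_zero]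

theorem aid_ord {K : Type} [CommRing K] (p : Fin 2 → K) (m : ℕ) {F : MvPolynomial (Fin 2) K}
    (h0 : F ≠ 0) : F ∈ aid p ^ m ↔ m ≤ (aidGr 1 (aidTr p F)).natTrailingDegree := by
  have h1 : aidTr p F ≠ 0 := fun h => h0 (by rw [← aid_neg p F, h, map_zero])
  rw [amem]
  constructor
  · intro h
    refine Polynomial.le_natTrailingDegree (aid_gr_ne 1 h1) fun n hn => ?_
    ext μ
    rw [aid_gr, coeff_zero]
    split_ifs with e
    · exact h μ (by omega)
    · rfl
  · intro h μ hμ
    have := aid_gr 1 (μ 0 + 1 * μ 1) μ (aidTr p F)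
    rw [Polynomial.coeff_eq_zero_of_lt_natTrailingDegree (by omega), if_pos rfl] at this
    exact this.symm

theorem adm_div {K κ : Type} [CommRing K] [IsDomain K] {ω g e : ℕ} {z : κ → K} {μ : κ → ℕ}
    {c G : MvPolynomial (Fin 2) K} (he : 0 < e) (h2 : ¬WB ω (e - 1) c)
    (h3 : ∀ l, c ∉ aid ![z l, 0] ^ 3) (h0 : G ≠ 0) (h : Adm ω g z μ (c * G)) :
    e ≤ g ∧ Adm ω (g - e) z (fun l => μ l - 2) G := by
  have hc : c ≠ 0 := fun hc => h2 fun ν _ => by rw [hc, coeff_zero]
  have h4 := (aid_wb _ _ _).1 h.1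
  rw [aid_wb] at h2
  rw [map_mul, Polynomial.natDegree_mul (aid_gr_ne ω hc) (aid_gr_ne ω h0)] at h4
  refine ⟨by omega, (aid_wb _ _ _).2 (by omega), fun l => ?_⟩
  have h5 := (aid_ord _ _ (mul_ne_zero hc h0)).1 (h.2 l)
  have h6 := h3 l
  have ne : ∀ F : MvPolynomial (Fin 2) K, F ≠ 0 → aidGr 1 (aidTr ![z l, 0] F) ≠ 0 := fun F hF =>
    aid_gr_ne 1 fun h => hF (by rw [← aid_neg ![z l, 0] F, h, map_zero])
  rw [aid_ord _ _ hc] at h6
  rw [map_mul, map_mul, Polynomial.natTrailingDegree_mul (ne c hc) (ne G h0)] at h5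
  rw [aid_ord _ _ h0]
  show μ l - 2 ≤ _
  omega

end Pool.Agent.Lib.MP_d03834_ag.Nag
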