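import Pool.Agent.Lib.MP_d03834_ag.Rul.ArD

/-! Sixteen points. -/

set_option autoImplicit false

namespace Pool.Agent.Lib.MP_d03834_ag.Nag

open Finset

lemma Ar16_two (k : ℕ) : 2 * (k + 1).choose 2 = (k + 1) * k := by
  induction k with
  | zero => rfl
  | succ k ih => rw [Nat.choose_succ_succ' (k + 1) 1, Nat.choose_one_right, mul_add, ih]; ring

lemma Ar16_L {m e j : ℕ} (he : e ≤ 1) (hj : j ≤ m) :
    Lw 1 2 8 1 7 (4 * m + e) j = 1 - 7 * m - e - if j = m then 1 else 0 := by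
  rw [Lw, wl, kap, if_neg (show ¬2 = 1 by omega), Nat.mod_one, if_pos rfl, Nat.div_one]
  split_ifs <;> omega

lemma Ar16_R {m e o j : ℕ} (he : e ≤ 1) (ho : o ≤ 1) (hj : j ≤ m) :
    Rw 1 2 8 1 7 (4 * m + e) m 1 o j = if j = m then (e : ℤ) * (2 - o) - 7 * m - e else
      5 * (m : ℤ) + 3 * e - 2 * o - 1 - 12 * j := by
  rw [Rw, Ar16_L he hj, wn, kap, if_neg (show ¬2 = 1 by omega), Nat.mod_one, if_pos rfl,
    Nat.div_one, smj, zcj]
  interval_cases o <;> interval_cases e <;> split_ifs <;> omega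

theorem ar16 {m d : ℕ} (hm : 2 ≤ m) (h1 : (d + 1).choose 2 ≤ 16 * (m + 1).choose 2)
    (h2 : 16 * (m + 1).choose 2 < (d + 3).choose 2) (o : ℕ) (ho : o ≤ 1) :
    Good 1 2 8 1 7 d 12 m 1 o ((d + 2).choose 2 - 16 * (m + 1).choose 2 + m * (1 - o)) := by
  have c1 := Ar16_two d
  have c2 := Ar16_two m
  have c3 : 2 * (d + 3).choose 2 = (d + 3) * (d + 2) := Ar16_two (d + 2)
  have c4 : 2 * (d + 2).choose 2 = (d + 2) * (d + 1) := Ar16_two (d + 1)
  obtain ⟨e, he, rfl⟩ : ∃ e ≤ 1, d = 4 * m + e := by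
    have a : 4 * m ≤ d := by
      by_contra h
      have : d + 1 ≤ 4 * m := by omega
      nlinarith
    have b : d ≤ 4 * m + 1 := by
      by_contra h
      have : 4 * m + 2 ≤ d := by omega
      nlinarith
    exact ⟨d - 4 * m, by omega, by omega⟩
  have hJ : (4 * m + e) / (2 + 2 * 1) = m := by omega
  have aL : Anti m (Lw 1 2 8 1 7 (4 * m + e)) := fun j hj => by
    rw [Ar16_L he hj, Ar16_L he hj.le]
    split_ifs <;> omega
  have aR : Anti m (Rw 1 2 8 1 7 (4 * m + e) m 1 o) := fun j hj => by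
    rw [Ar16_R he ho hj, Ar16_R he ho hj.le]
    interval_cases o <;> interval_cases e <;> split_ifs <;> omega
  rw [Good, hJ]
  refine ⟨aL, aR, fun j hj => ?_, ?_⟩
  · rw [Sd, smj, zcj]
    interval_cases o <;> split_ifs <;> omega
  have b : ∀ i ≤ m, hl m (Lw 1 2 8 1 7 (4 * m + e)) (Rw 1 2 8 1 7 (4 * m + e) m 1 o) i -
      12 * (m - i) ≤ e * ((3 - o) + if i = 0 then 1 - o else 0) - if i = m then 1 else 0 := by
    intro i hi
    have u := hl_up1 (i := i) (j := m - i) aL aR (by omega) fun j a b => by omega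
    rw [Ar16_L he (by omega), Ar16_R he ho hi] at u
    interval_cases o <;> interval_cases e <;> split_ifs at u ⊢ <;> omega
  obtain ⟨k, rfl⟩ : ∃ k, m = k + 1 := ⟨m - 1, by omega⟩
  rw [sum_range_succ, sum_range_succ']
  have s := sum_le_card_nsmul (range k) _ (e * (3 - o)) fun i hi =>
    (b (i + 1) (by have := mem_range.1 hi; omega)).trans (by
      rw [if_neg (by omega)]
      exact Nat.sub_le _ _)
  have b0 := b 0 (by omega)
  have b1 := b (k + 1) le_rfl
  rw [card_range, smul_eq_mul] at s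
  rw [if_pos rfl, if_neg (by omega)] at b0
  rw [if_neg (by omega), if_pos rfl] at b1
  interval_cases e
  · omega
  · have : (4 * (k + 1) + 1 + 2).choose 2 = 16 * (k + 1 + 1).choose 2 + (2 * k + 5) := by nlinarith
    interval_cases o <;> omega

end Pool.Agent.Lib.MP_d03834_ag.Nag
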