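import Pool.Agent.Lib.MP_d03834_ag.Rul.Cnt
import Pool.Agent.Lib.MP_d03834_ag.Rul.ArG

/-! The case analysis for the quartic. -/

set_option autoImplicit false

namespace Pool.Agent.Lib.MP_d03834_ag.Nag

open Finset

theorem Fin4_up {m : ℕ} {h g : ℕ → ℕ} (H : ∀ i < m, h i ≤ g i + 1) :
    ∑ i ∈ range m, (h i - g i) ≤ ((range m).filter fun i => 0 < i ∧ g i < h i).card + 1 := by
  have a : ∑ i ∈ range m, (h i - g i) ≤ ((range m).filter fun i => g i < h i).card := by
    rw [card_filter]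
    refine sum_le_sum fun i hi => ?_
    have := H i (mem_range.1 hi)
    split_ifs <;> omega
  refine a.trans (le_trans (card_le_card fun i hi => ?_) (card_insert_le 0 _))
  rw [mem_filter] at hi
  rw [mem_insert, mem_filter]
  rcases Nat.eq_zero_or_pos i with c | c
  · exact Or.inl c
  · exact Or.inr ⟨hi.1, c, hi.2⟩

theorem Fin4_low {m : ℕ} {h g : ℕ → ℕ} (H : ∀ i < m, g i ≤ h i + 1) :
    ∑ i ∈ range m, (h i - g i) + ∑ i ∈ range m, g i ≤
      ∑ i ∈ range m, h i + ((range m).filter fun i => h i < g i).card := by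
  rw [card_filter, ← sum_add_distrib, ← sum_add_distrib]
  refine sum_le_sum fun i hi => ?_
  have := H i (mem_range.1 hi)
  split_ifs <;> omega

theorem Fin4_split {J m : ℕ} (hm : m ≤ J) (f : ℕ → ℕ) (hz : ∀ i, m < i → f i = 0) :
    ∑ i ∈ range (J + 1), f i = ∑ i ∈ range m, f i + f m := by
  rw [← sum_range_succ]
  refine (sum_subset (range_subset_range.2 (by omega)) fun i _ hi => hz i ?_).symm
  rw [mem_range] at hi
  omega

theorem Fin4_th {θ b : ℝ} (hθ : Th4 θ) (hb : b ≤ 1 / 8) :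
    0 < θ ∧ θ ≤ 18886 / 10000 ∧ θ / 2 + θ ^ 2 / 32 ≤ 106 / 100 ∧
      (θ < 1 → θ / 2 + θ ^ 2 / 32 ≤ 52 / 100) ∧
      θ / 2 + θ ^ 2 / 32 - θ * (θ - 1) / 16 ≤ 955 / 1000 ∧
      θ / 2 + θ ^ 2 / 32 + max (2 - 7 * θ / 8) (max (1 - θ / 8 + b) (1 - θ * (θ - 1) / 16)) ≤
        1955 / 1000 := by
  have k : ∀ u v w z : ℝ, u ≤ z → v ≤ z → w ≤ z → max u (max v w) ≤ z :=
    fun u v w z a b c => max_le a (max_le b c)
  rcases hθ with ⟨t1, t2⟩ | ⟨t1, t2⟩ | ⟨t1, t2⟩ | ⟨t1, t2⟩
  all_goals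
    refine ⟨by linarith, by linarith, by nlinarith, fun _ => by nlinarith, by nlinarith, ?_⟩
    rw [← le_sub_iff_add_le']
    refine k _ _ _ _ ?_ ?_ ?_ <;> nlinarith

theorem Fin4_core {m o Hm : ℕ} {h g : ℕ → ℕ} {θ x c1 y1 y χ : ℝ} (hθ : Th4 θ) (hm : 100 ≤ m)
    (ho : o ≤ 1) (hχ : χ = m * x + c1) (c0 : 0 ≤ c1) (c2 : x ≤ 0 → c1 ≤ 12 / 5)
    (y2 : y1 ≤ 6) (y3 : x ≤ 1 / 25 → y1 ≤ 1) (y4 : x ≤ 29 / 50 → y1 ≤ 2)
    (hs : ((∑ i ∈ range m, h i : ℕ) : ℝ) + h m =
      (∑ i ∈ range m, g i : ℕ) + χ + m - 2 * o * m)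
    (h1 : Hm ≤ h m) (h2 : h m = 0 ∨ (h m : ℝ) < y1 + 1) (h3 : Hm = 0 ∨ (Hm : ℝ) < y1 + 1 - o)
    (U : ∀ i < m, h i ≤ g i ∨ (h i : ℝ) - g i < x + 1 - 2 * o + 196 / 100)
    (L : ∀ i < m, x + 1 - 2 * o - 196 / 100 < (h i : ℝ) - g i)
    (U' : o = 1 → x ≤ 29 / 50 → ∀ i < m, 0 < i → g i < h i → ∃ (j : ℕ) (σ : ℝ),
      σ = y - (16 + θ) * i - 16 * j ∧ max (θ - 1) 0 ≤ σ ∧ θ * (σ - max (θ - 1) 0) <
        16 * (x - 1 + θ / 2 + θ ^ 2 / 32 + 1 / 1000) - θ * max (θ - 1) 0)
    (L' : o = 0 → -x ≤ 29 / 50 → ∃ α : ℝ, ∀ i < m, h i < g i → ∃ (j : ℕ) (σ : ℝ),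
      σ = y - (16 + θ) * i - 16 * j ∧ α ≤ σ ∧ θ * (σ - α) <
        16 * (-x - 1 + θ / 2 + θ ^ 2 / 32 + 1 / 1000) - θ * max (θ - 1) 0) :
    ((∑ i ∈ range m, (h i - g i) : ℕ) : ℝ) + Hm ≤ max χ 0 + m - o * m := by
  have m1 : (100 : ℝ) ≤ m := by exact_mod_cast hm
  have h1' : (Hm : ℝ) ≤ h m := by exact_mod_cast h1
  have q1 := le_max_left χ 0
  have q2 := le_max_right χ 0
  have up : ∀ a : ℕ, x + 1 - 2 * o + 196 / 100 ≤ a + 1 → ∀ i < m, h i ≤ g i + a := by
    intro a ha i hi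
    rcases U i hi with c | c
    · omega
    · exact Nat.lt_succ_iff.1 (by exact_mod_cast (show (h i : ℝ) < g i + a + 1 by linarith))
  have lo : ∀ a : ℕ, -(a : ℝ) - 1 ≤ x + 1 - 2 * o - 196 / 100 → ∀ i < m, g i ≤ h i + a := by
    intro a ha i hi
    have := L i hi
    exact Nat.lt_succ_iff.1 (by exact_mod_cast (show (g i : ℝ) < h i + a + 1 by linarith))
  have ch : ∀ a b : ℕ, x + 1 - 2 * o + 196 / 100 ≤ a + 1 →
      -(b : ℝ) - 1 ≤ x + 1 - 2 * o - 196 / 100 →
      ((a : ℝ) - -b) * (∑ i ∈ range m, (h i - g i) : ℕ) ≤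
        a * ((∑ i ∈ range m, h i : ℕ) - (∑ i ∈ range m, g i : ℕ) - m * -b) := by
    intro a b ha hb
    refine chord h g (by simp) (by simp) fun i hi => ⟨?_, ?_⟩
    · have : (g i : ℝ) ≤ h i + b := by exact_mod_cast lo b hb i hi
      linarith
    · have : (h i : ℝ) ≤ g i + a := by exact_mod_cast up a ha i hi
      linarith
  have zero : x + 1 - 2 * o + 196 / 100 ≤ 1 → ∑ i ∈ range m, (h i - g i) = 0 := fun ha =>
    sum_eq_zero fun i hi => Nat.sub_eq_zero_of_le (up 0 (by simpa using ha) i (mem_range.1 hi))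
  have hm7 : (h m : ℝ) ≤ max (y1 + 1) 0 := by
    rcases h2 with c | c
    · rw [c]
      simp
    · exact le_max_of_le_left c.le
  obtain rfl | rfl : o = 0 ∨ o = 1 := by omega
  · simp only [Nat.cast_zero, mul_zero, zero_mul, sub_zero] at *
    rcases le_total (-x) (29 / 50) with c | c
    · obtain ⟨α, hα⟩ := L' trivial c
      have a := Fin4_low (lo 1 (by push_cast; linarith))
      have a' : ((∑ i ∈ range m, (h i - g i) : ℕ) : ℝ) + (∑ i ∈ range m, g i : ℕ) ≤
          (∑ i ∈ range m, h i : ℕ) + ((range m).filter fun i => h i < g i).card := by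
        exact_mod_cast a
      rcases ((range m).filter fun i => h i < g i).eq_empty_or_nonempty with e | e
      · rw [e, card_empty, Nat.cast_zero] at a'
        linarith
      · have b := cnt4 hm hθ c _ (fun i hi => ⟨mem_range.1 (mem_filter.1 hi).1,
          hα i (mem_range.1 (mem_filter.1 hi).1) (mem_filter.1 hi).2⟩) e
        have b0 : (0 : ℝ) ≤ ((range m).filter fun i => h i < g i).card := Nat.cast_nonneg _
        have := c2 (by nlinarith)
        linarith
    have z1 := c2 (by linarith)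
    have z2 : (h m : ℝ) ≤ 2 := hm7.trans (max_le (by linarith [y3 (by linarith)]) (by norm_num))
    rcases le_total (-1) x with d | d
    · have := ch 2 1 (by push_cast; linarith) (by push_cast; linarith)
      push_cast at this hs ⊢
      nlinarith
    rcases le_total (-2) x with e | e
    · have := ch 1 2 (by push_cast; linarith) (by push_cast; linarith)
      push_cast at this hs ⊢
      nlinarith
    · rw [zero (by linarith), Nat.cast_zero]
      linarith
  · simp only [Nat.cast_one, mul_one, one_mul] at *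
    have z : ∀ a : ℕ, y1 ≤ a + 1 → (Hm : ℝ) ≤ a := by
      intro a ha
      rcases h3 with c | c
      · rw [c]
        simp
      · exact_mod_cast Nat.lt_succ_iff.1 (by exact_mod_cast (show (Hm : ℝ) < a + 1 by linarith))
    rcases le_total x (1 / 25) with c | c
    · have := z 0 (by push_cast; linarith [y3 c])
      rw [zero (by linarith), Nat.cast_zero]
      push_cast at this
      linarith
    rcases le_total x (29 / 50) with d | d
    · have a := Fin4_up (up 1 (by push_cast; linarith))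
      have a' : ((∑ i ∈ range m, (h i - g i) : ℕ) : ℝ) ≤
          ((range m).filter fun i => 0 < i ∧ g i < h i).card + 1 := by
        exact_mod_cast a
      have z1 := z 1 (by push_cast; linarith [y4 d])
      push_cast at z1
      rcases ((range m).filter fun i => 0 < i ∧ g i < h i).eq_empty_or_nonempty with e | e
      · rw [e, card_empty, Nat.cast_zero] at a'
        nlinarith
      · have b := cnt4 hm hθ d _ (fun i hi => ⟨mem_range.1 (mem_filter.1 hi).1,
          U' trivial d i (mem_range.1 (mem_filter.1 hi).1) (mem_filter.1 hi).2.1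
            (mem_filter.1 hi).2.2⟩) e
        linarith
    rcases le_total x 1 with e | e
    · have := ch 1 2 (by push_cast; linarith) (by push_cast; linarith)
      have z1 := z 5 (by push_cast; linarith)
      push_cast at this hs z1 ⊢
      nlinarith
    · have a := Fin4_low (lo 1 (by push_cast; linarith))
      have b := card_filter_le (range m) fun i => h i < g i
      rw [card_range] at b
      have a' : ((∑ i ∈ range m, (h i - g i) : ℕ) : ℝ) + (∑ i ∈ range m, g i : ℕ) ≤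
          (∑ i ∈ range m, h i : ℕ) + m := by
        exact_mod_cast a.trans (Nat.add_le_add_left b _)
      linarith

theorem fin4 {N β p n m o d : ℕ} {θ κ : ℝ} (hθ : Th4 θ) (hm : 100 ≤ m) (hκ : κ = 4 + θ / 4)
    (k1 : (n : ℝ) + 4 ≤ κ ^ 2) (k3 : (κ ^ 2 - (n + 4)) * (m * (m + 1)) ≤ 1 / 1000)
    (hb : (β : ℝ) / N ≤ 1 / 8) (ho : o ≤ 1) (e1 : -1 / 2 ≤ d - κ * m) (e2 : d - κ * m ≤ 2)
    (h : LQ N β p n m o d θ (κ * (d - κ * m) - 2 * o - 1 - θ / 8) (4 * (d - κ * m) - 2)) :
    Good 1 2 N β p d n m 1 o ((d + 2).choose 2 - (n + 4) * (m + 1).choose 2 + m * (1 - o)) := by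
  obtain ⟨h, ⟨a1, a2, a3, a4, a5, a6, a7, a8, a9⟩, u1, u0, l1⟩ := h
  refine ⟨a1, a2, a3, ?_⟩
  obtain ⟨t0, t1, t2, t3, t4, t5⟩ := Fin4_th hθ hb
  obtain ⟨e, he⟩ : ∃ e, e = d - κ * m := ⟨_, rfl⟩
  obtain ⟨x, hx⟩ : ∃ x, x = κ * e - (κ ^ 2 - 3 * κ) / 2 := ⟨_, rfl⟩
  rw [← he] at e1 e2 u1 u0 l1 a8 a9
  have hc : κ * e - 2 * o - 1 - θ / 8 = x + 1 - 2 * o + (θ / 2 + θ ^ 2 / 32) := by
    rw [hx, hκ]
    ring
  have hy : κ * (4 * e - 2 - θ / 2) = 4 * x := by
    rw [hx, hκ]
    ring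
  rw [hc] at u1 u0 l1
  have k4 : 4 ≤ κ := by linarith
  have cast : ∀ i < m, ((n * (m - i) : ℕ) : ℝ) = n * (m - i) := fun i hi => by
    rw [Nat.cast_mul, Nat.cast_sub hi.le]
  have c1 : ((d + 2).choose 2 : ℝ) = (d + 2) * (d + 1) / 2 := by
    have : (2 : ℝ) * (d + 2).choose 2 = (d + 2) * (d + 1) := by exact_mod_cast two_choose (d + 1)
    linarith
  have c2 : ((m + 1).choose 2 : ℝ) = (m + 1) * m / 2 := by
    have : (2 : ℝ) * (m + 1).choose 2 = (m + 1) * m := by exact_mod_cast two_choose m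
    linarith
  have m0 : (0 : ℝ) ≤ (κ ^ 2 - (n + 4)) * (m * (m + 1)) :=
    mul_nonneg (by linarith) (by positivity)
  have core := Fin4_core (m := m) (o := o) (h := h) (g := fun i => n * (m - i)) (x := x)
    (c1 := (e + 1) * (e + 2) / 2 + (κ ^ 2 - (n + 4)) * (m * (m + 1)) / 2) (y1 := 4 * e - 2)
    (y := 4 * d - 2) (χ := (d + 2).choose 2 - (n + 4) * (m + 1).choose 2) hθ hm ho
    (by rw [c1, c2, hx, he]; ring) (by nlinarith)
    (fun c => by
      have : e ≤ 737 / 1000 := by nlinarith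
      nlinarith)
    (by linarith) (fun c => by nlinarith) (fun c => by nlinarith)
    (by
      rw [Fin4_split a4 h a7] at a6
      rw [sum_lev, Nat.cast_mul, c1, c2]
      have b : (2 : ℝ) * ((∑ i ∈ range m, h i : ℕ) + h m) + (1 - o : ℕ) * (2 * m * (2 * m + 1)) +
          o * ((2 * m + 1) * (2 * m + 2)) = (d + 1) * (d + 2) + 2 * o := by exact_mod_cast a6
      rw [Nat.cast_sub ho] at b
      push_cast at b ⊢
      linarith)
    (a5 m) a8 a9
    (fun i hi => by
      rw [cast i hi]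
      rcases Nat.eq_zero_or_pos i with rfl | i0
      · right
        simp only [Nat.cast_zero, sub_zero]
        linarith
      refine (u1 i hi i0).imp id ?_
      rintro ⟨j, σ, -, s0, s1, s2⟩
      have := mul_pos t0 s0
      rcases lt_or_ge θ 1 with c | c
      · linarith [t3 c]
      rcases le_total σ (θ - 1) with c' | c'
      · linarith [s2 c c']
      · have := mul_le_mul_of_nonneg_left c' t0.le
        linarith)
    (fun i hi => by
      rw [cast i hi]
      obtain ⟨j, σ, -, s0, s1, s2⟩ := l1 i hi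
      have := mul_lt_mul_of_pos_left s0 t0
      rcases lt_or_ge θ 1 with c | c
      · linarith [t3 c]
      rcases le_or_gt σ 17 with c' | c'
      · have := mul_le_mul_of_nonneg_left c' t0.le
        linarith
      · linarith [s2 c c'])
    (fun o1 c i hi i0 b => by
      have b' : (n : ℝ) * (m - i) + 1 ≤ h i := by
        rw [← cast i hi]
        exact_mod_cast b
      obtain ⟨j, σ, s, s0, s1, s2⟩ := (u1 i hi i0).resolve_left (not_le.2 b)
      rw [o1, Nat.cast_one] at s1 s2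
      have := mul_pos t0 s0
      refine ⟨j, σ, s, max_le ?_ s0.le, by linarith⟩
      by_contra c'
      linarith [s2 (by linarith) (not_le.1 c').le])
    (fun o0 c => by
      refine ⟨16 * (x + 1 + (θ / 2 + θ ^ 2 / 32)) / θ, fun i hi b => ?_⟩
      have b' : (h i : ℝ) + 1 ≤ n * (m - i) := by
        rw [← cast i hi]
        exact_mod_cast b
      obtain ⟨j, σ, s, s0, s1, s2⟩ := l1 i hi
      rw [o0, Nat.cast_zero] at s1 s2
      have := mul_lt_mul_of_pos_left s0 t0
      refine ⟨j, σ, s, ?_, ?_⟩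
      · rw [div_le_iff₀ t0]
        linarith
      rw [mul_sub, mul_div_cancel₀ _ t0.ne']
      rcases lt_or_ge θ 1 with c1 | c1
      · rw [max_eq_right (by linarith)]
        linarith
      rw [max_eq_left (by linarith)]
      rcases le_or_gt σ 17 with c' | c'
      · have := mul_le_mul_of_nonneg_left c' t0.le
        linarith
      · linarith [s2 c1 c'])
  rw [Fin4_split a4 _ fun i hi => by have := a5 i; have := a7 i hi; omega, Nat.sub_self, mul_zero,
    Nat.sub_zero]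
  refine le_trans (Nat.add_le_add_right (sum_le_sum fun i _ =>
    Nat.sub_le_sub_right (a5 i) _) _) ?_
  rw [← Nat.cast_le (α := ℝ), Nat.cast_add, Nat.cast_add, Nat.cast_mul, Nat.cast_sub ho]
  refine core.trans ?_
  have : max (((d + 2).choose 2 : ℝ) - (n + 4) * (m + 1).choose 2) 0 ≤
      ((d + 2).choose 2 - (n + 4) * (m + 1).choose 2 : ℕ) := by
    refine max_le ?_ (Nat.cast_nonneg _)
    rw [sub_le_iff_le_add]
    exact_mod_cast le_tsub_add
  push_cast
  linarith

end Pool.Agent.Lib.MP_d03834_ag.Nag
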