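import Pool.Agent.Lib.MP_d03834_ag.Rul.ArC

/-! Kernel runs of the checker. -/

set_option autoImplicit false

namespace Pool.Agent.Lib.MP_d03834_ag.Nag

theorem k17_0 : ckR 1 2 1 1 10000 616 8 17 0 45 = true := by decide +kernel

theorem k17_1 : ckR 1 2 1 1 10000 616 8 17 45 62 = true := by decide +kernel

theorem k17_2 : ckR 1 2 1 1 10000 616 8 17 62 74 = true := by decide +kernel

theorem k17_3 : ckR 1 2 1 1 10000 616 8 17 74 84 = true := by decide +kernel

theorem k17_4 : ckR 1 2 1 1 10000 616 8 17 84 92 = true := by decide +kernel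

theorem k17_5 : ckR 1 2 1 1 10000 616 8 17 92 100 = true := by decide +kernel

theorem k17 : ckA 1 2 1 1 10000 616 8 17 100 = true :=
  ckA_step (ckA_step (ckA_step (ckA_step (ckA_step (ckA_step (ckA_zero _ _ _ _ _ _ _ _) k17_0) k17_1) k17_2) k17_3) k17_4) k17_5

end Pool.Agent.Lib.MP_d03834_ag.Nag
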