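import Pool.Agent.Lib.MP_d03834_ag.Rul.ArD

/-! Levels of the quartic. -/

set_option autoImplicit false

namespace Pool.Agent.Lib.MP_d03834_ag.Nag

open Finset

lemma Lp4_wl {N β g : ℕ} (hβ : β < N) (hg : 2 ≤ g) :
    -((2 * (g : ℝ) - 1) * (((N : ℝ) - β) / N)) ≤ (wl 1 2 N β g : ℝ) ∧
      (wl 1 2 N β g : ℝ) < -((2 * (g : ℝ) - 1) * (((N : ℝ) - β) / N)) + 1 := by
  have hN : (0 : ℝ) < N := by exact_mod_cast (show 0 < N by omega)
  have e : wl 1 2 N β g = -(((2 * g - 1) * (N - β) / N : ℕ) : ℤ) := by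
    rw [wl, if_neg (by omega), if_neg (by omega)]
    simp [kap, Nat.mod_one]
  have c : (((2 * g - 1) * (N - β) : ℕ) : ℝ) = (2 * (g : ℝ) - 1) * ((N : ℝ) - β) := by
    rw [Nat.cast_mul, Nat.cast_sub (by omega), Nat.cast_sub hβ.le]
    push_cast
    ring
  have a := Nat.div_mul_le_self ((2 * g - 1) * (N - β)) N
  have b := Nat.lt_div_mul_add (a := (2 * g - 1) * (N - β)) (show 0 < N by omega)
  rw [e, ← mul_div_assoc, ← c]
  generalize (2 * g - 1) * (N - β) = x at *
  generalize x / N = q at *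
  have a' : (q : ℝ) * N ≤ x := by exact_mod_cast a
  have b' : (x : ℝ) < q * N + N := by exact_mod_cast b
  have a2 : (q : ℝ) ≤ x / N := (le_div_iff₀ hN).2 a'
  have b2 : (x : ℝ) / N < q + 1 := (div_lt_iff₀ hN).2 (by linarith)
  push_cast
  constructor <;> linarith

lemma Lp4_wn {g sm zc : ℕ} (hg : 2 ≤ g) : wn 1 2 g sm zc = 2 * (g - sm) + 2 * g - 1 - zc := by
  rw [wn, if_neg (by omega), if_neg (by omega)]
  simp [kap, Nat.mod_one]

lemma Lp4_len {N β p d m o j : ℕ} (ho : o ≤ 1) (hd : 4 * m + 2 ≤ d) (hj : 4 * j ≤ d) :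
    Re 1 2 N β p d m 1 o j + 1 - Lw 1 2 N β p d j =
      if j < m then 4 * (d : ℤ) - 4 * m - 2 * o - 1 - 12 * j else if 4 * j = d then 1
        else if 4 * j + 1 = d then 3 else 4 * (d : ℤ) - 16 * j - 2 := by
  rw [Re, Rw]
  obtain ⟨g, rfl⟩ : ∃ g, d = 4 * j + g := ⟨d - 4 * j, by omega⟩
  have e : 4 * j + g - (2 + 2 * 1) * j = g := by omega
  rw [e]
  rcases Nat.lt_or_ge g 2 with h | h
  · have h1 : m < j := by omega
    have s : smj m 1 o j = 0 := by
      rw [smj, show 2 * m - 2 * j = 0 by omega, show 2 * m + 1 - 2 * j = 0 by omega]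
      simp
    rw [s, wn]
    interval_cases g <;> simp [h1.ne', h1.le.not_gt]
  · rw [Lp4_wn h, smj, zcj]
    interval_cases o <;> split_ifs <;> push_cast <;> omega

section
variable {N β p d m o : ℕ} {θ ρ : ℝ}

lemma Lp4_L (hβ : β < N) (hθ : θ = p - 8 * (((N : ℝ) - β) / N))
    (hρ : ρ = (2 * (d : ℝ) - 1) * (((N : ℝ) - β) / N)) {j : ℕ} (hj : 4 * j ≤ d) :
    (Lw 1 2 N β p d j : ℝ) < -ρ - θ * j + 1 ∧
      (4 * j + 2 ≤ d → -ρ - θ * j ≤ Lw 1 2 N β p d j) ∧
      (4 * j + 1 = d → (Lw 1 2 N β p d j : ℝ) = -ρ - θ * j - β / N) ∧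
      (4 * j = d → (Lw 1 2 N β p d j : ℝ) = -ρ - θ * j - (1 - β / N)) := by
  have hN : (0 : ℝ) < N := by exact_mod_cast (show 0 < N by omega)
  have hb : (0 : ℝ) ≤ β / N := by positivity
  have hb1 : (β : ℝ) / N < 1 := (div_lt_one hN).2 (by exact_mod_cast hβ)
  have hx : ((N : ℝ) - β) / N = 1 - β / N := by field_simp
  obtain ⟨g, rfl⟩ : ∃ g, d = 4 * j + g := ⟨d - 4 * j, by omega⟩
  have e : 4 * j + g - (2 + 2 * 1) * j = g := by omega
  rw [Lw, e]
  subst hθ hρ
  rcases Nat.lt_or_ge g 2 with h | h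
  · rw [hx]
    interval_cases g
    · have : wl 1 2 N β 0 = 0 := by simp [wl]
      rw [this]
      push_cast
      exact ⟨by linarith, by omega, by omega, fun _ => by ring⟩
    · have : wl 1 2 N β 1 = -1 := by simp [wl]
      rw [this]
      push_cast
      exact ⟨by linarith, by omega, fun _ => by ring, by omega⟩
  · have := Lp4_wl hβ h
    push_cast
    exact ⟨by linarith, fun _ => by linarith, by omega, by omega⟩

end

/-- the rows of the quartic model, abstractly -/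
structure Lp4_Row (d m o : ℕ) (θ ρ x : ℝ) (L R : ℕ → ℤ) : Prop where
  x0 : 0 < x
  x1 : x < 1
  t0 : 0 ≤ θ
  t1 : θ ≤ 19 / 10
  ho : o ≤ 1
  hd : 4 * m + 6 ≤ d
  e1 : (16 + θ) * m - 2 ≤ 4 * d
  e2 : 4 * d ≤ (16 + θ) * m + 8
  l : ∀ j : ℕ, 4 * j ≤ d → (L j : ℝ) < -ρ - θ * j + 1 ∧ (4 * j + 2 ≤ d → -ρ - θ * j ≤ L j) ∧
    (4 * j + 1 = d → (L j : ℝ) = -ρ - θ * j - x) ∧ (4 * j = d → (L j : ℝ) = -ρ - θ * j - (1 - x))
  len : ∀ j : ℕ, 4 * j ≤ d → R j + 1 - L j =
    if j < m then 4 * (d : ℤ) - 4 * m - 2 * o - 1 - 12 * j else if 4 * j = d then 1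
      else if 4 * j + 1 = d then 3 else 4 * (d : ℤ) - 16 * j - 2

namespace Lp4_Row

variable {d m o : ℕ} {θ ρ x : ℝ} {L R : ℕ → ℤ} (H : Lp4_Row d m o θ ρ x L R)
include H

lemma aL : Anti (d / 4) L := fun j hj => by
  have a := (H.l j (by omega)).2.1 (by omega)
  have b := (H.l (j + 1) (by omega)).1
  have t := H.t0
  push_cast at b
  have : (L (j + 1) : ℝ) < L j + 1 := by linarith
  have : L (j + 1) < L j + 1 := by exact_mod_cast this
  omega

lemma aR : Anti (d / 4) R := fun j hj => by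
  have a := H.aL j hj
  have b := H.len j (by omega)
  have c := H.len (j + 1) (by omega)
  have := H.hd
  have := H.ho
  push_cast at c
  split_ifs at b c <;> omega

lemma low {i : ℕ} (hi : i < m) :
    (R i : ℝ) + 1 - L i = 4 * d - 4 * m - 2 * o - 1 - 12 * i := by
  have := H.len i (by have := H.hd; omega)
  rw [if_pos hi] at this
  exact_mod_cast this

lemma up {k : ℕ} (hk : 4 * k + 1 ≤ d) : (R k : ℝ) < -ρ - θ * k + 4 * d - 16 * k - 2 ∧
    (m ≤ k → -ρ - θ * k + 4 * d - 16 * k - 3 ≤ R k) := by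
  have a := H.l k (by omega)
  have b := H.len k (by omega)
  have x0 := H.x0
  have x1 := H.x1
  by_cases h1 : k < m
  · have c := H.low h1
    have : (k : ℝ) + 1 ≤ m := by exact_mod_cast h1
    have : (0 : ℝ) ≤ o := Nat.cast_nonneg _
    exact ⟨by linarith [a.1], by omega⟩
  rw [if_neg h1, if_neg (by omega)] at b
  by_cases h2 : 4 * k + 1 = d
  · rw [if_pos h2] at b
    have b' : (R k : ℝ) + 1 - L k = 3 := by exact_mod_cast b
    have c : 4 * (k : ℝ) + 1 = d := by exact_mod_cast h2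
    have := a.2.2.1 h2
    exact ⟨by linarith, fun _ => by linarith⟩
  · rw [if_neg h2] at b
    have b' : (R k : ℝ) + 1 - L k = 4 * d - 16 * k - 2 := by exact_mod_cast b
    have := a.2.1 (by omega)
    exact ⟨by linarith [a.1], fun _ => by linarith⟩

/-- a non empty interval of a positive level -/
lemma pos {i j : ℕ} (hi : 0 < i) (hj : j + i ≤ d / 4) (h : L j ≤ R (j + i)) :
    (R (j + i) : ℝ) < -ρ - θ * j + (4 * d - 2 - (16 + θ) * i - 16 * j) ∧
      0 < 4 * d - 2 - (16 + θ) * i - 16 * j := by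
  have a := (H.l j (by omega)).2.1 (by omega)
  have h' : (L j : ℝ) ≤ R (j + i) := by exact_mod_cast h
  by_cases e : 4 * (j + i) = d
  · exfalso
    have b := H.len (j + i) e.le
    rw [if_neg (by have := H.hd; omega), if_pos e] at b
    have b' : (R (j + i) : ℝ) + 1 - L (j + i) = 1 := by exact_mod_cast b
    have c := (H.l (j + i) e.le).2.2.2 e
    have := mul_nonneg H.t0 (Nat.cast_nonneg (α := ℝ) i)
    have := H.x1
    push_cast at c
    linarith
  · have b := (H.up (k := j + i) (by omega)).1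
    push_cast at b
    exact ⟨by linarith, by linarith⟩

lemma big {i : ℕ} (hi : i < m) : 12 ≤ 4 * d - 2 - (16 + θ) * i := by
  have : (i : ℝ) + 1 ≤ m := by exact_mod_cast hi
  have := mul_le_mul_of_nonneg_left this H.t0
  have := H.e1
  have := H.t0
  linarith

lemma small {i : ℕ} (hi : m ≤ i) : 4 * d - 2 - (16 + θ) * i ≤ 6 - 16 * (i - m) := by
  have : (m : ℝ) ≤ i := by exact_mod_cast hi
  have := mul_le_mul_of_nonneg_left this H.t0
  have := H.e2
  linarith

lemma tot : 2 * ∑ i ∈ range (d / 4 + 1), hl (d / 4) L R i + (1 - o) * (2 * m * (2 * m + 1)) +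
    o * ((2 * m + 1) * (2 * m + 2)) = (d + 1) * (d + 2) + 2 * o := by
  have hd := H.hd
  have ho := H.ho
  have s1 : ∀ j ≤ m, 2 * ∑ k ∈ range j, (R k + 1 - L k) =
      2 * j * (4 * (d : ℤ) - 4 * m - 2 * o - 1) - 12 * j * (j - 1) := by
    intro j hj
    induction j with
    | zero => simp
    | succ j ih =>
      rw [sum_range_succ, mul_add, ih (by omega), H.len j (by omega), if_pos (by omega)]
      push_cast
      ring
  have s2 : ∀ j, m ≤ j → j ≤ d / 4 → 2 * ∑ k ∈ range j, (R k + 1 - L k) =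
      ((d : ℤ) + 1) * (d + 2) - 4 * m * m - 2 * m - 4 * o * m -
        (d - 4 * j + 1) * (d - 4 * j + 2) := by
    intro j hj
    induction j, hj using Nat.le_induction with
    | base => intro _; rw [s1 m le_rfl]; ring
    | succ j hj ih =>
      intro h
      rw [sum_range_succ, mul_add, ih (by omega), H.len j (by omega), if_neg (by omega),
        if_neg (by omega), if_neg (by omega)]
      push_cast
      ring
  have s3 : 2 * (R (d / 4) + 1 - L (d / 4)) =
      ((d : ℤ) - 4 * (d / 4 : ℕ) + 1) * (d - 4 * (d / 4 : ℕ) + 2) := by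
    rw [H.len _ (by omega), if_neg (by omega)]
    generalize hJ : d / 4 = J
    obtain e | e | e | e : d = 4 * J ∨ d = 4 * J + 1 ∨ d = 4 * J + 2 ∨ d = 4 * J + 3 := by omega
    · rw [if_pos e.symm, e]; push_cast; ring
    · rw [if_neg (by omega), if_pos e.symm, e]; push_cast; ring
    · rw [if_neg (by omega), if_neg (by omega), e]; push_cast; ring
    · rw [if_neg (by omega), if_neg (by omega), e]; push_cast; ring
  have s4 : ((∑ j ∈ range (d / 4 + 1), (R j + 1 - L j).toNat : ℕ) : ℤ) =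
      ∑ j ∈ range (d / 4 + 1), (R j + 1 - L j) := by
    rw [Nat.cast_sum]
    refine sum_congr rfl fun j hj => Int.toNat_of_nonneg ?_
    have := mem_range.1 hj
    rw [H.len j (by omega)]
    split_ifs <;> omega
  rw [hl_sum H.aL H.aR]
  rw [sum_range_succ (fun j => R j + 1 - L j)] at s4
  have s5 := s2 _ (by omega) le_rfl
  generalize ∑ j ∈ range (d / 4 + 1), (R j + 1 - L j).toNat = S at *
  zify
  interval_cases o
  · push_cast at s3 s5 ⊢
    linear_combination 2 * s4 + s5 + s3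
  · push_cast at s3 s5 ⊢
    linear_combination 2 * s4 + s5 + s3

lemma tail {i : ℕ} (hm : 0 < m) (hi : m < i) : hl (d / 4) L R i = 0 := by
  refine hl_zero fun j hj => not_le.1 fun h => ?_
  have a := (H.pos (by omega) hj h).2
  have b := H.small hi.le
  have : (m : ℝ) + 1 ≤ i := by exact_mod_cast hi
  have : (0 : ℝ) ≤ j := Nat.cast_nonneg _
  linarith

lemma lev {R' : ℕ → ℤ} {c : ℕ} (hm : 0 < m) (h1 : Anti (d / 4) R') (h2 : ∀ j, R' j ≤ R j)
    (h3 : R' m + c ≤ R m) : hl (d / 4) L R' m = 0 ∨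
      (hl (d / 4) L R' m : ℝ) < 4 * d - 2 - (16 + θ) * m + 1 - c := by
  have hd := H.hd
  have a := hl_up1 (i := m) (j := 0) H.aL h1 (Nat.zero_le _) fun j h0 hj => not_le.1 fun h => by
    have a := (H.pos hm hj (h.trans (h2 _))).2
    have b := H.small le_rfl
    have : (1 : ℝ) ≤ j := by exact_mod_cast h0
    linarith
  by_cases h : R' m < L 0
  · left; omega
  right
  have b := (H.pos (i := m) (j := 0) hm (by omega) (by have := h2 m; rw [zero_add]; omega)).1
  have c1 := (H.l 0 (by omega)).2.1 (by omega)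
  have c2 : (hl (d / 4) L R' m : ℤ) ≤ R m - c + 1 - L 0 := by omega
  have c3 : (hl (d / 4) L R' m : ℝ) ≤ R m - c + 1 - L 0 := by exact_mod_cast c2
  rw [zero_add] at b
  push_cast at b c1
  linarith

lemma val {i j : ℕ} (hi : i < m) (hj : 4 * j + 2 ≤ d) :
    (R i : ℝ) + 1 - L j < 4 * d - 4 * m - 2 * o - 1 - 12 * i + θ * (j - i) + 1 := by
  have a := H.low hi
  have b := (H.l i (by have := H.hd; omega)).1
  have c := (H.l j (by omega)).2.1 hj
  linarith

lemma upper {i : ℕ} (h0 : 0 < i) (hi : i < m) : hl (d / 4) L R i ≤ 1 ∨ ∃ j : ℕ,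
    0 < 4 * d - 2 - (16 + θ) * i - 16 * j ∧
    (hl (d / 4) L R i : ℝ) < 4 * d - 4 * m - 2 * o - 1 - 12 * i + θ * (j - i) + 1 ∧
    (1 ≤ θ → 4 * d - 2 - (16 + θ) * i - 16 * j ≤ θ - 1 →
      (hl (d / 4) L R i : ℝ) < 4 * d - 4 * m - 2 * o - 1 - 12 * i + θ * (j - i)) := by
  classical
  refine or_iff_not_imp_left.2 fun h2 => ?_
  have hd := H.hd
  have ne : ∃ j, j + i ≤ d / 4 ∧ L j ≤ R (j + i) := by
    by_contra e
    push Not at e
    have := hl_zero e
    omega
  obtain ⟨j0, p0⟩ := ne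
  have p := Nat.findGreatest_spec (P := fun j => j + i ≤ d / 4 ∧ L j ≤ R (j + i))
    (show j0 ≤ d / 4 by omega) p0
  have q : ∀ j', Nat.findGreatest (fun j => j + i ≤ d / 4 ∧ L j ≤ R (j + i)) (d / 4) < j' →
      j' + i ≤ d / 4 → R (j' + i) < L j' := fun j' a b =>
    not_le.1 fun c => Nat.findGreatest_is_greatest a (by omega) ⟨b, c⟩
  generalize Nat.findGreatest (fun j => j + i ≤ d / 4 ∧ L j ≤ R (j + i)) (d / 4) = j at p q
  obtain ⟨p1, p2⟩ := p
  have a := H.pos h0 p1 p2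
  have u := hl_up1 H.aL H.aR (show j ≤ d / 4 by omega) q
  have v := H.val hi (show 4 * j + 2 ≤ d by omega)
  refine ⟨j, a.2, ?_, fun t1 t2 => ?_⟩
  · have : (hl (d / 4) L R i : ℤ) ≤ R i + 1 - L j := by omega
    have : (hl (d / 4) L R i : ℝ) ≤ R i + 1 - L j := by exact_mod_cast this
    linarith
  rcases j with _ | j
  · have := H.big hi
    have := H.t1
    push_cast at t2
    linarith
  have u2 := hl_up2 H.aL H.aR (show j ≤ d / 4 by omega) q
  have l1 := (H.l (j + 1) (by omega)).2.1 (by omega)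
  have l2 := (H.l j (by omega)).2.1 (by omega)
  have p3 : (L (j + 1) : ℝ) ≤ R (j + 1 + i) := by exact_mod_cast p2
  have := H.t1
  have a1 := a.1
  push_cast at l1 a1 t2
  have g1 : (R (j + 1 + i) : ℝ) < L (j + 1) + 1 := by linarith
  have g2 : (L (j + 1) : ℝ) + 1 < L j := by linarith
  have g1 : R (j + 1 + i) < L (j + 1) + 1 := by exact_mod_cast g1
  have g2 : L (j + 1) + 1 < L j := by exact_mod_cast g2
  have : (hl (d / 4) L R i : ℤ) ≤ R i - L (j + 1) := by omega
  have : (hl (d / 4) L R i : ℝ) ≤ R i - L (j + 1) := by exact_mod_cast this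
  linarith

lemma zero (hm : 0 < m) : hl (d / 4) L R 0 ≤ 1 ∨ ∃ j : ℕ,
    (4 * d - 16 * j = (16 : ℝ) ∧
      (hl (d / 4) L R 0 : ℝ) < 4 * d - 4 * m - 2 * o - 1 + θ * j + 2) ∨
    (4 ≤ 4 * d - 16 * (j : ℝ) ∧
      (hl (d / 4) L R 0 : ℝ) < 4 * d - 4 * m - 2 * o - 1 + θ * j + 1 + x) := by
  refine or_iff_not_imp_left.2 fun h2 => ?_
  have hd := H.hd
  have x0 := H.x0
  have u := hl_up1 (i := 0) H.aL H.aR le_rfl fun j a b => by omega
  have u' : (hl (d / 4) L R 0 : ℤ) ≤ R 0 + 1 - L (d / 4) := by omega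
  have u' : (hl (d / 4) L R 0 : ℝ) ≤ R 0 + 1 - L (d / 4) := by exact_mod_cast u'
  by_cases e0 : 4 * (d / 4) = d
  · obtain ⟨j, hj⟩ : ∃ j, d / 4 = j + 1 := ⟨d / 4 - 1, by omega⟩
    have u2 := hl_up2 (i := 0) H.aL H.aR (show j ≤ d / 4 by omega) fun j a b => by omega
    have a := H.len (j + 1) (by omega)
    rw [if_neg (by omega), if_pos (by omega)] at a
    have v := H.val hm (show 4 * j + 2 ≤ d by omega)
    rw [add_zero] at u2
    have : (hl (d / 4) L R 0 : ℤ) ≤ R 0 + 1 - L j + 1 := by omega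
    have : (hl (d / 4) L R 0 : ℝ) ≤ R 0 + 1 - L j + 1 := by exact_mod_cast this
    have e : (d : ℝ) = 4 * j + 4 := by exact_mod_cast (show d = 4 * j + 4 by omega)
    push_cast at v
    exact ⟨j, .inl ⟨by linarith, by linarith⟩⟩
  have e : 4 * ((d / 4 : ℕ) : ℝ) + 1 ≤ d := by
    exact_mod_cast (show 4 * (d / 4) + 1 ≤ d by omega)
  refine ⟨d / 4, .inr ⟨by linarith, ?_⟩⟩
  by_cases e1 : 4 * (d / 4) + 1 = d
  · have a := H.low hm
    have b := (H.l 0 (by omega)).1
    have c := (H.l (d / 4) (by omega)).2.2.1 e1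
    simp only [Nat.cast_zero] at a b
    linarith
  · have v := H.val hm (show 4 * (d / 4) + 2 ≤ d by omega)
    simp only [Nat.cast_zero] at v
    linarith

lemma lower {i : ℕ} (hi : i < m) : ∃ j : ℕ,
    4 * d - 2 - (16 + θ) * i - 16 * j < 16 + θ ∧
    4 * d - 4 * m - 2 * o - 1 - 12 * i + θ * (j - i) - 1 < (hl (d / 4) L R i : ℝ) ∧
    (1 ≤ θ → 17 < 4 * d - 2 - (16 + θ) * i - 16 * j →
      4 * d - 4 * m - 2 * o - 1 - 12 * i + θ * (j - i) < (hl (d / 4) L R i : ℝ)) := by
  have hd := H.hd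
  have t0 := H.t0
  have t1 := H.t1
  have b := H.big hi
  have ti := mul_nonneg t0 (Nat.cast_nonneg (α := ℝ) i)
  have row : ∀ j : ℕ, 0 < 4 * d - 2 - (16 + θ) * i - 16 * j → 4 * (j + i) + 1 ≤ d := fun j h => by
    have : 4 * ((j : ℝ) + i) < d := by linarith
    have : 4 * (j + i) < d := by exact_mod_cast this
    omega
  obtain ⟨j, j1, j2⟩ : ∃ j : ℕ, θ ≤ 4 * d - 2 - (16 + θ) * i - 16 * j ∧
      4 * d - 2 - (16 + θ) * i - 16 * j < 16 + θ := by
    have h : 0 ≤ (4 * d - 2 - (16 + θ) * i - θ) / 16 := by linarith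
    have := Nat.floor_le h
    have := Nat.lt_floor_add_one ((4 * d - 2 - (16 + θ) * i - θ) / 16)
    exact ⟨_, by linarith, by linarith⟩
  have j3 : j + i ≤ d / 4 := by
    rcases j with _ | j
    · omega
    · have := row j (by push_cast at j1; linarith)
      have h : 4 * ((j : ℝ) + 1 + i) < d + 1 := by push_cast at j1; linarith
      have : 4 * (j + 1 + i) < d + 1 := by exact_mod_cast h
      omega
  have gap : ∀ j' < j, L j' ≤ R (j' + 1 + i) + 1 := fun k hk => by
    have k1 : (k : ℝ) + 1 ≤ j := by exact_mod_cast hk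
    have a := (H.l k (by omega)).1
    have : (L k : ℝ) < R (k + 1 + i) + 2 := by
      by_cases h : k + 1 + i < m
      · have c := H.low h
        have e := (H.l (k + 1 + i) (by omega)).2.1 (by omega)
        have f := H.big h
        have h' : (k : ℝ) + 1 + i + 1 ≤ m := by exact_mod_cast h
        have := mul_nonneg t0 (Nat.cast_nonneg (α := ℝ) k)
        have : (o : ℝ) ≤ 1 := by exact_mod_cast H.ho
        have := mul_le_mul_of_nonneg_left h' t0
        have := H.e1
        push_cast at c e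
        linarith
      · have h1 : 4 * ((k : ℝ) + 1 + i) < d + 1 / 2 := by linarith
        have h2 : 8 * ((k : ℝ) + 1 + i) + 1 ≤ 2 * d := by linarith
        have h2 : 8 * (k + 1 + i) + 1 ≤ 2 * d := by exact_mod_cast h2
        have c := (H.up (k := k + 1 + i) (by omega)).2 (by omega)
        push_cast at c
        linarith
    have : L k < R (k + 1 + i) + 2 := by exact_mod_cast this
    omega
  have a := H.low hi
  have c := (H.l i (by omega)).2.1 (by omega)
  have e := (H.l j (by omega)).1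
  refine ⟨j, j2, ?_, fun t2 t3 => ?_⟩
  · have : (R i : ℝ) + 1 - L j ≤ hl (d / 4) L R i := by exact_mod_cast hl_low j3 gap
    linarith
  have r := row (j + 1) (by push_cast; linarith)
  have k : m ≤ j + 1 + i := by
    by_contra h
    have f := H.big (not_le.1 h)
    have := mul_nonneg t0 (Nat.cast_nonneg (α := ℝ) j)
    push_cast at f
    linarith
  have f := (H.up r).2 k
  have g := (H.l (j + 1) (by omega)).1
  have l := (H.l j (by omega)).2.1 (by omega)
  push_cast at f g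
  have g1 : (L (j + 1) : ℝ) < L j := by linarith
  have g2 : (L (j + 1) : ℝ) < R (j + 1 + i) + 1 := by linarith
  have g1 : L (j + 1) < L j := by exact_mod_cast g1
  have g2 : L (j + 1) < R (j + 1 + i) + 1 := by exact_mod_cast g2
  have g4 : L j ≤ R i + 1 := by
    have g5 : (L j : ℝ) < R i + 2 := by
      have := mul_nonneg t0 (Nat.cast_nonneg (α := ℝ) j)
      have h' : (i : ℝ) + 1 ≤ m := by exact_mod_cast hi
      have : (o : ℝ) ≤ 1 := by exact_mod_cast H.ho
      have := mul_le_mul_of_nonneg_left h' t0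
      have := H.e1
      linarith
    have : L j < R i + 2 := by exact_mod_cast g5
    omega
  have : (R i : ℝ) + 2 - L j ≤ hl (d / 4) L R i := by
    exact_mod_cast hl_low2 (by omega) gap g4 g1 (by omega)
  linarith

end Lp4_Row

theorem lp4 {N β p d m n o : ℕ} {κ θ : ℝ} (hβ : 0 < β) (h3 : 3 * β < N)
    (hθ : θ = p - 8 * (((N : ℝ) - β) / N)) (hκ : κ = 4 + θ / 4) (k1 : 412 / 100 ≤ κ)
    (k2 : κ ≤ 4473 / 1000) (k3 : (n : ℝ) + 4 ≤ κ ^ 2) (k4 : (κ ^ 2 - (n + 4)) * m ≤ 1 / 1000)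
    (hm : 60 ≤ m) (e1 : -1 / 2 ≤ d - κ * m) (e2 : d - κ * m ≤ 2) (ho : o ≤ 1) :
    LQ N β p n m o d θ (κ * (d - κ * m) - 2 * o - 1 - θ / 8) (4 * (d - κ * m) - 2) := by
  have hN : (0 : ℝ) < N := by exact_mod_cast (show 0 < N by omega)
  have hm' : (60 : ℝ) ≤ m := by exact_mod_cast hm
  have hd : 4 * m + 6 ≤ d := by
    have : 4 * (m : ℝ) + 6 ≤ d := by nlinarith
    exact_mod_cast this
  have H : Lp4_Row d m o θ _ (β / N) (Lw 1 2 N β p d) (Re 1 2 N β p d m 1 o) :=
    ⟨div_pos (by exact_mod_cast hβ) hN, (div_lt_one hN).2 (by exact_mod_cast (by omega)),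
      by linarith, by linarith, ho, hd, by rw [hκ] at e1; linarith, by rw [hκ] at e2; linarith,
      fun j hj => Lp4_L (by omega) hθ rfl hj, fun j hj => Lp4_len ho (by omega) hj⟩
  have aW : Anti (d / 4) (Rw 1 2 N β p d m 1 o) := fun j hj => by
    have a := H.aL j hj
    have b := H.len j (by omega)
    have c := H.len (j + 1) (by omega)
    rw [Re] at b c
    push_cast at c
    split_ifs at b c <;> omega
  have le : ∀ j, Rw 1 2 N β p d m 1 o j ≤ Re 1 2 N β p d m 1 o j := fun j => by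
    rw [Re]
    split_ifs <;> omega
  have y : 4 * (d - κ * m) - 2 = 4 * d - 2 - (16 + θ) * m := by rw [hκ]; ring
  have key : ∀ i j : ℝ, 4 * d - 4 * m - 2 * o - 1 - 12 * i + θ * (j - i) - n * (m - i) =
      κ * (d - κ * m) - 2 * o - 1 - θ / 8 - θ * (4 * d - 2 - (16 + θ) * i - 16 * j) / 16 +
        (κ ^ 2 - (n + 4)) * (m - i) := fun i j => by rw [hκ]; ring
  have tol : ∀ i < m, 0 ≤ (κ ^ 2 - (n + 4)) * ((m : ℝ) - i) ∧
      (κ ^ 2 - (n + 4)) * ((m : ℝ) - i) ≤ 1 / 1000 := fun i hi => by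
    have : (i : ℝ) ≤ m := by exact_mod_cast hi.le
    have := mul_nonneg (sub_nonneg.2 k3) (Nat.cast_nonneg (α := ℝ) i)
    exact ⟨mul_nonneg (by linarith) (by linarith), by linarith⟩
  have hn : 12 ≤ n := by
    have : (κ ^ 2 - (n + 4)) ≤ 1 / 1000 := by nlinarith
    have : (11 : ℝ) < n := by nlinarith
    have : 11 < n := by exact_mod_cast this
    omega
  refine ⟨hl (d / 4) (Lw 1 2 N β p d) (Re 1 2 N β p d m 1 o), ⟨H.aL, aW, fun j hj => ?_,
    (by omega : m ≤ d / 4), hl_mono fun j _ => le j, H.tot, fun i => H.tail (by omega), ?_, ?_⟩,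
    fun i hi h0 => ?_, ?_, fun i hi => ?_⟩
  · have hj : j ≤ d / 4 := hj
    rw [Sd, smj, zcj]
    interval_cases o <;> split_ifs <;> omega
  · have := H.lev (c := 0) (by omega) H.aR (fun _ => le_rfl) (by simp)
    rw [Nat.cast_zero, sub_zero] at this
    rwa [y]
  · rw [y]
    exact H.lev (by omega) aW le (by rw [Re, if_pos rfl])
  · rcases H.upper h0 hi with h | ⟨j, a, b, c⟩
    · exact .inl (h.trans (Nat.mul_pos (by omega) (by omega)))
    · have := key i j
      have := tol i hi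
      exact .inr ⟨j, _, rfl, a, by linarith, fun t1 t2 => by linarith [c t1 t2]⟩
  · have t := tol 0 (by omega)
    have t0 := H.t0
    have t1 := H.t1
    have x0 := H.x0
    rw [Nat.cast_zero] at t
    rcases H.zero (by omega) with h | ⟨j, ⟨a, b⟩ | ⟨a, b⟩⟩
    · have h : (hl (d / 4) (Lw 1 2 N β p d) (Re 1 2 N β p d m 1 o) 0 : ℝ) ≤ 1 := by
        exact_mod_cast h
      have hn : (12 : ℝ) ≤ n := by exact_mod_cast hn
      have : (o : ℝ) ≤ 1 := by exact_mod_cast ho
      have := le_max_left (2 - 7 * θ / 8) (max (1 - θ / 8 + β / N) (1 - θ * (θ - 1) / 16))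
      have : -3 ≤ κ * (d - κ * m) := by nlinarith
      nlinarith
    · have k := key 0 j
      rw [show 4 * d - 2 - (16 + θ) * 0 - 16 * (j : ℝ) = 14 by linarith] at k
      have := le_max_left (2 - 7 * θ / 8) (max (1 - θ / 8 + β / N) (1 - θ * (θ - 1) / 16))
      linarith
    · have k := key 0 j
      have := mul_le_mul_of_nonneg_left a t0
      have := (le_max_left (1 - θ / 8 + β / N) (1 - θ * (θ - 1) / 16)).trans
        (le_max_right (2 - 7 * θ / 8) _)
      linarith
  · obtain ⟨j, a, b, c⟩ := H.lower hi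
    have := key i j
    have := tol i hi
    exact ⟨j, _, rfl, a, by linarith, fun t1 t2 => by linarith [c t1 t2]⟩

end Pool.Agent.Lib.MP_d03834_ag.Nag
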