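import Pool.Agent.Lib.MP_d03834_ag.Rul.ArS
import Pool.Agent.Lib.MP_d03834_ag.Rul.Fin4
import Pool.Agent.Lib.MP_d03834_ag.Rul.Lp4
import Pool.Agent.Lib.MP_d03834_ag.Rul.Ar16
import Pool.Agent.Lib.MP_d03834_ag.Rul.K17
import Pool.Agent.Lib.MP_d03834_ag.Rul.K18
import Pool.Agent.Lib.MP_d03834_ag.Rul.K19
import Pool.Agent.Lib.MP_d03834_ag.Rul.K20

/-! Arithmetic of the quartic model. -/

set_option autoImplicit false

namespace Pool.Agent.Lib.MP_d03834_ag.Nag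

theorem ar4_big {n m d : ℕ} (p : ℕ) (h17 : 17 ≤ n) (h20 : n ≤ 20) (hm : 100 ≤ m)
    (p1 : (p + 8 : ℝ) ≤ 4 * √n) (p2 : 4 * √n < p + 9)
    (hT : ∀ θ : ℝ, 4 * √n - 16 ≤ θ → θ ≤ 4 * √n - 16 + 4 / 100000 → Th4 θ)
    (h1 : (d + 1).choose 2 ≤ n * (m + 1).choose 2) (h2 : n * (m + 1).choose 2 < (d + 3).choose 2) :
    ∃ N β p : ℕ, 0 < β ∧ 3 * β < N ∧ ∀ o ≤ 1, Good 1 2 N β p d (n - 4) m 1 o
      ((d + 2).choose 2 - n * (m + 1).choose 2 + m * (1 - o)) := by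
  obtain ⟨N, β, κ, b0, b1, hκ, x1, -, k1, k2, k3⟩ := ar_slope (n := n) (m := m) (by omega)
    (k0 := 4) (μ := 8) (lo := 7 / 8) (hi := 1) p le_rfl (by norm_num) le_rfl (by omega)
    (by norm_num) le_rfl (by linarith) (by linarith)
  obtain ⟨e1, e2⟩ := ar_range (by omega) (by omega) (by omega) k1 k3 h1 h2
  have N0 : (0 : ℝ) < N := by exact_mod_cast b0.trans b1
  rw [lt_div_iff₀ N0] at x1
  have b2 : 3 * β < N := by
    have : (3 * β : ℝ) < N := by linarith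
    exact_mod_cast this
  have b3 : (β : ℝ) / N ≤ 1 / 8 := by
    rw [div_le_iff₀ N0]
    linarith
  have n1 : (17 : ℝ) ≤ n := by exact_mod_cast h17
  have n2 : (n : ℝ) ≤ 20 := by exact_mod_cast h20
  have s1 : 412 / 100 ≤ √(n : ℝ) := Real.le_sqrt_of_sq_le (by linarith)
  have s2 : √(n : ℝ) ≤ 44722 / 10000 := Real.sqrt_le_iff.2 ⟨by norm_num, by linarith⟩
  have s3 : (n : ℝ) ≤ κ ^ 2 := (Real.sqrt_le_iff.1 k1).2
  have n4 : ((n - 4 : ℕ) : ℝ) + 4 = n := by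
    rw [Nat.cast_sub (by omega)]
    norm_num
  have m0 : (0 : ℝ) ≤ m := m.cast_nonneg
  have k4 : (κ ^ 2 - n) * m ≤ 1 / 1000 :=
    le_trans (mul_le_mul_of_nonneg_left (by nlinarith) (by linarith)) k3
  refine ⟨N, β, p, b0, b2, fun o ho => ?_⟩
  have t := hT (p - 8 * ((N - β) / N)) (by linarith) (by linarith)
  have := fin4 (n := n - 4) (d := d) t hm hκ (by rwa [n4]) (by rwa [n4]) b3 ho
    (by linarith) (by linarith) (lp4 b0 b2 rfl hκ (by linarith) (by linarith) (by rwa [n4])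
      (by rwa [n4]) (by omega) (by linarith) (by linarith) ho)
  rwa [Nat.sub_add_cancel (by omega)] at this

theorem ar4_sq {n a q : ℕ} (h1 : a ^ 2 ≤ 16 * n * q ^ 2) (b : ℕ) (h2 : 16 * n * q ^ 2 < b ^ 2) :
    (a : ℝ) ≤ 4 * √n * q ∧ 4 * √n * q < (b : ℝ) := by
  have a1 : (a : ℝ) ^ 2 ≤ 16 * n * q ^ 2 := by exact_mod_cast h1
  have a2 : 16 * (n : ℝ) * q ^ 2 < b ^ 2 := by exact_mod_cast h2
  have s : (4 * √(n : ℝ) * q) ^ 2 = 16 * n * q ^ 2 := by
    rw [mul_pow, mul_pow, Real.sq_sqrt n.cast_nonneg]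
    norm_num
  exact ⟨abs_le_of_sq_le_sq' (by rwa [s]) (by positivity) |>.2,
    lt_of_pow_lt_pow_left₀ 2 (by positivity) (by rwa [s])⟩

theorem ar4 {n m d : ℕ} (h16 : 16 ≤ n) (h20 : n ≤ 20) (hm : 2 ≤ m)
    (h1 : (d + 1).choose 2 ≤ n * (m + 1).choose 2) (h2 : n * (m + 1).choose 2 < (d + 3).choose 2) :
    ∃ N β p : ℕ, 0 < β ∧ 3 * β < N ∧ ∀ o ≤ 1, Good 1 2 N β p d (n - 4) m 1 o
      ((d + 2).choose 2 - n * (m + 1).choose 2 + m * (1 - o)) := by
  have key : ∀ N β p a : ℕ, 17 ≤ n → 0 < β → 3 * β < N → (p + 8) * 100000 ≤ a →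
      a + 2 ≤ (p + 9) * 100000 → a ^ 2 ≤ 16 * n * 100000 ^ 2 → 16 * n * 100000 ^ 2 < (a + 2) ^ 2 →
      (∀ θ : ℝ, (a - 1600000) / 100000 ≤ θ → θ ≤ (a - 1599994) / 100000 → Th4 θ) →
      ckA 1 2 1 1 N β p n 100 = true →
      ∃ N β p : ℕ, 0 < β ∧ 3 * β < N ∧ ∀ o ≤ 1, Good 1 2 N β p d (n - 4) m 1 o
        ((d + 2).choose 2 - n * (m + 1).choose 2 + m * (1 - o)) := by
    intro N β p a a1 a2 a3 a4 a5 a6 a7 a8 a9
    rcases lt_or_ge m 100 with h | h
    · refine ⟨N, β, p, a2, a3, fun o ho => ?_⟩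
      have := ckA_sound a9 (by omega) h hm h1 h2 ho
      rwa [one_mul, mul_one] at this
    · obtain ⟨c1, c2⟩ := ar4_sq a6 _ a7
      have c3 : ((p : ℝ) + 8) * 100000 ≤ a := by exact_mod_cast a4
      have c4 : (a : ℝ) + 2 ≤ (p + 9) * 100000 := by exact_mod_cast a5
      push_cast at c1 c2
      exact ar4_big p a1 h20 h (by linarith) (by linarith)
        (fun θ t1 t2 => a8 θ (by linarith) (by linarith)) h1 h2
  interval_cases n
  · exact ⟨8, 1, 7, by omega, by omega, ar16 hm h1 h2⟩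
  · exact key _ _ _ 1649242 (by omega) (by omega) (by omega) (by omega) (by omega) (by omega)
      (by omega) (fun θ t1 t2 => .inl ⟨by push_cast at t1; linarith,
        by push_cast at t2; linarith⟩) k17
  · exact key _ _ _ 1697056 (by omega) (by omega) (by omega) (by omega) (by omega) (by omega)
      (by omega) (fun θ t1 t2 => .inr (.inl ⟨by push_cast at t1; linarith,
        by push_cast at t2; linarith⟩)) k18
  · exact key _ _ _ 1743559 (by omega) (by omega) (by omega) (by omega) (by omega) (by omega)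
      (by omega) (fun θ t1 t2 => .inr (.inr (.inl ⟨by push_cast at t1; linarith,
        by push_cast at t2; linarith⟩))) k19
  · exact key _ _ _ 1788854 (by omega) (by omega) (by omega) (by omega) (by omega) (by omega)
      (by omega) (fun θ t1 t2 => .inr (.inr (.inr ⟨by push_cast at t1; linarith,
        by push_cast at t2; linarith⟩))) k20

end Pool.Agent.Lib.MP_d03834_ag.Nag
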