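import Pool.Agent.Lib.MP_d03834_ag.Rul.ArG

/-! Envelope of the levels for the model of degree five. -/

set_option autoImplicit false

namespace Pool.Agent.Lib.MP_d03834_ag.Nag

/-- the length of the row j -/
def W5 (d m o j : ℕ) : ℤ :=
  if j < m then 5 * d - 9 * j - 16 * m - 1 - 2 * o
  else (if 5 * j + 3 ≤ d then (5 * d - 25 * j - 5 : ℤ) else if 5 * j + 2 = d then 6
    else if 5 * j + 1 = d then 3 else 1) - if j = m then (o : ℤ) else 0

/-- the rows of the model -/
structure Env5 (d m o : ℕ) (θ lam : ℝ) (L R : ℕ → ℤ) : Prop where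
  hd : 5 * m + 2 ≤ d
  ho : o ≤ 4
  t0 : 0 ≤ θ
  up : ∀ j, 5 * j ≤ d → L j + lam + θ * j < 1
  lo : ∀ j, 5 * j ≤ d → 5 * j ≠ d → 5 * j + 2 ≠ d → 0 ≤ L j + lam + θ * j
  two : ∀ j, 5 * j + 2 = d → -1 / 3 < L j + lam + θ * j ∧ L j + lam + θ * j < 0
  zer : ∀ j, 5 * j = d → -1 < L j + lam + θ * j ∧ L j + lam + θ * j < 0
  hR : ∀ j, 5 * j ≤ d → R j = L j + W5 d m o j - 1

variable {d m o : ℕ} {θ lam : ℝ} {L R : ℕ → ℤ}

theorem Env5.antiL (h : Env5 d m o θ lam L R) : Anti (d / 5) L := fun j hj => by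
  have h1 := h.up (j + 1) (by omega)
  have h2 := h.lo j (by omega) (by omega) (by omega)
  have h3 := h.t0
  have : (L (j + 1) : ℝ) < L j + 1 := by
    push_cast at h1
    linarith
  have : L (j + 1) < L j + 1 := by exact_mod_cast this
  omega

theorem Env5.antiR (h : Env5 d m o θ lam L R) : Anti (d / 5) R := fun j hj => by
  have h1 := h.antiL j hj
  have h2 := h.hd
  have h3 := h.ho
  rw [h.hR j (by omega), h.hR (j + 1) (by omega)]
  unfold W5
  split_ifs <;> omega

theorem Env5.Rlow (h : Env5 d m o θ lam L R) {i : ℕ} (hi : i < m) :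
    (R i : ℝ) = L i + (5 * d - 9 * i - 16 * m - 1 - 2 * o) - 1 := by
  have h2 := h.hd
  rw [h.hR i (by omega), W5, if_pos hi]
  push_cast
  ring

/-- a row that meets the level i -/
theorem Env5.meet (h : Env5 d m o θ lam L R) {i j : ℕ} (hi : 0 < i) (hj : j + i ≤ d / 5)
    (hm : L j ≤ R (j + i)) : 25 * ((j : ℝ) + i) + θ * i < 5 * d - 5 ∨
      (25 * ((j : ℝ) + i) = 5 * d - 5 ∧ θ * i < 3) := by
  have h1 := h.up (j + i) (by omega)
  have h2 := h.lo j (by omega) (by omega) (by omega)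
  have h3 := h.t0
  have h4 := h.hd
  rw [h.hR _ (by omega)] at hm
  have h5 : (L j : ℝ) ≤ L (j + i) + W5 d m o (j + i) - 1 := by exact_mod_cast hm
  push_cast at h1
  by_cases c1 : 5 * (j + i) + 3 ≤ d
  · have : W5 d m o (j + i) ≤ 5 * d - 25 * (j + i) - 5 := by
      unfold W5
      split_ifs <;> omega
    have : (W5 d m o (j + i) : ℝ) ≤ 5 * d - 25 * (j + i) - 5 := by exact_mod_cast this
    left
    linarith
  by_cases c2 : 5 * (j + i) + 2 = d
  · have : W5 d m o (j + i) ≤ 6 := by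
      unfold W5
      split_ifs <;> omega
    have : (W5 d m o (j + i) : ℝ) ≤ 6 := by exact_mod_cast this
    have h6 := (h.two _ c2).2
    have h7 : 5 * ((j : ℝ) + i) + 2 = d := by exact_mod_cast c2
    push_cast at h6
    left
    linarith
  by_cases c3 : 5 * (j + i) + 1 = d
  · have : W5 d m o (j + i) ≤ 3 := by
      unfold W5
      split_ifs <;> omega
    have : (W5 d m o (j + i) : ℝ) ≤ 3 := by exact_mod_cast this
    have h7 : 5 * ((j : ℝ) + i) + 1 = d := by exact_mod_cast c3
    right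
    constructor <;> linarith
  · have : W5 d m o (j + i) ≤ 1 := by
      unfold W5
      split_ifs <;> omega
    have : (W5 d m o (j + i) : ℝ) ≤ 1 := by exact_mod_cast this
    have h6 := (h.zer (j + i) (by omega)).2
    have h7 : (0 : ℝ) ≤ θ * i := by positivity
    push_cast at h6
    exfalso
    linarith

theorem toNat_le {x : ℤ} {y : ℝ} (h : (x : ℝ) ≤ y) (h0 : 0 ≤ y) : (x.toNat : ℝ) ≤ y := by
  rcases le_total x 0 with h1 | h1
  · rw [Int.toNat_eq_zero.2 h1]
    simpa using h0
  · have : ((x.toNat : ℤ) : ℝ) = x := by rw [Int.toNat_of_nonneg h1]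
    push_cast at this
    linarith

/-- the central value of the level i -/
noncomputable def U5 (d m o : ℕ) (θ : ℝ) (i : ℕ) : ℝ :=
  5 * d - 9 * i - 16 * m - 1 - 2 * o + θ * ((5 * d - 5 - θ * i) / 25 - 2 * i)

theorem Env5.upper (h : Env5 d m o θ lam L R) (h1 : θ ≤ 4.6) {i : ℕ} (hi : i < m) {y : ℝ}
    (hy : 0 ≤ y) (y1 : U5 d m o θ i + 1 ≤ y) (y2 : U5 d m o θ i + 2 - θ / 2 ≤ y)
    (y3 : θ < 3 → U5 d m o θ i + 1.4 ≤ y) :
    (hl (d / 5) L R i : ℝ) ≤ y := by
  have h3 := h.t0
  have h4 := h.hd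
  have h5 := h.Rlow hi
  have h6 := h.up i (by omega)
  unfold U5 at y1 y2 y3
  rcases Nat.eq_zero_or_pos i with rfl | hp
  · simp only [Nat.cast_zero, mul_zero, sub_zero, add_zero] at *
    by_cases c1 : 5 * (d / 5) = d
    · obtain ⟨J, hJ⟩ : ∃ J, d / 5 = J + 1 := ⟨d / 5 - 1, by omega⟩
      have h7 := hl_up2 h.antiL h.antiR (i := 0) (j := J) (by omega) fun j' a b => by omega
      have h8 : R (J + 1 + 0) + 1 - L (J + 1) = 1 := by
        rw [add_zero, h.hR _ (by omega)]
        unfold W5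
        split_ifs <;> omega
      have h9 := h.lo J (by omega) (by omega) (by omega)
      have h10 : 5 * ((J : ℝ) + 1) = d := by exact_mod_cast (by omega : 5 * (J + 1) = d)
      have h11 : (0 : ℝ) ≤ R 0 + 1 - L J := by
        have a1 := Col_anti h.antiL (Nat.zero_le J) (by omega)
        have a2 := h.hR 0 (by omega)
        have a3 := h.ho
        rw [W5, if_pos hi] at a2
        exact_mod_cast (by omega : 0 ≤ R 0 + 1 - L J)
      have h12 := toNat_le (x := R 0 + 1 - L J) (y := R 0 + 1 - L J) (by push_cast; rfl) h11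
      rw [h8] at h7
      have h13 : (hl (d / 5) L R 0 : ℝ) ≤ ((R 0 + 1 - L J).toNat : ℝ) + 1 := by exact_mod_cast h7
      nlinarith
    · have h7 := hl_up1 h.antiL h.antiR (i := 0) (j := d / 5) le_rfl fun j' a b => by omega
      refine le_trans (by exact_mod_cast h7) (toNat_le ?_ hy)
      push_cast
      by_cases c2 : 5 * (d / 5) + 2 = d
      · have h8 := (h.two _ c2).1
        have h9 : 5 * ((d / 5 : ℕ) : ℝ) + 2 = d := by exact_mod_cast c2
        rcases le_total θ 2 with c3 | c3 <;> nlinarith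
      · have h8 := h.lo (d / 5) (by omega) c1 c2
        have h9 : 5 * ((d / 5 : ℕ) : ℝ) + 1 ≤ d := by exact_mod_cast (by omega : 5 * (d / 5) + 1 ≤ d)
        nlinarith
  · by_cases c1 : ∃ j, j + i ≤ d / 5 ∧ L j ≤ R (j + i)
    · classical
      obtain ⟨j0, a1, a2⟩ := c1
      have s1 := Nat.findGreatest_spec (P := fun j => j + i ≤ d / 5 ∧ L j ≤ R (j + i))
        (n := d / 5) (m := j0) (by omega) ⟨a1, a2⟩
      have s2 := fun j' => Nat.findGreatest_is_greatest
        (P := fun j => j + i ≤ d / 5 ∧ L j ≤ R (j + i)) (n := d / 5) (k := j')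
      generalize Nat.findGreatest (fun j => j + i ≤ d / 5 ∧ L j ≤ R (j + i)) (d / 5) = j at s1 s2
      have h7 := hl_up1 h.antiL h.antiR (i := i) (j := j) (by omega) fun j' a b =>
        not_le.1 fun e => s2 j' a (by omega) ⟨b, e⟩
      refine le_trans (by exact_mod_cast h7) (toNat_le ?_ hy)
      push_cast
      have h8 := h.lo j (by omega) (by omega) (by omega)
      rcases h.meet hp s1.1 s1.2 with h9 | ⟨h9, h10⟩
      · nlinarith
      · have h11 : (1 : ℝ) ≤ i := by exact_mod_cast hp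
        have h12 : θ * (θ * i) ≤ θ * 3 := mul_le_mul_of_nonneg_left h10.le h3
        have h13 : θ * 1 ≤ θ * i := mul_le_mul_of_nonneg_left h11 h3
        have h14 : θ * j = θ * ((5 * d - 5) / 25 - i) := by
          congr 1
          linarith
        have h15 := y3 (by linarith)
        nlinarith
    · push Not at c1
      rw [hl_zero c1]
      simpa using hy

/-- rows that are long enough -/
theorem Env5.long (h : Env5 d m o θ lam L R) {i k : ℕ} {t c : ℝ} (hik : i < k) (ht : 0 < t)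
    (hδ : θ * m - 1 ≤ 5 * d - 25 * m) (h2 : t ≤ 2 * θ ∨ t ≤ θ + 1) (h7 : (o : ℝ) ≤ c)
    (hc : o = 4 → 20 ≤ c) (hk : θ * i + t + c ≤ 5 * d - 5 - 25 * k) :
    5 * k + 2 ≤ d ∧ θ * i + t + (if 5 * k + 2 = d then 1 else 0) ≤ W5 d m o k := by
  have h3 := h.t0
  have h4 := h.hd
  have h5 := h.ho
  have h6 : (0 : ℝ) ≤ θ * i := by positivity
  have h8 : (0 : ℝ) ≤ o := by positivity
  have h9 : 5 * k + 2 ≤ d := by
    have : (5 * k + 1 : ℝ) < d := by linarith
    have : 5 * k + 1 < d := by exact_mod_cast this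
    omega
  refine ⟨h9, ?_⟩
  unfold W5
  by_cases c1 : k < m
  · rw [if_pos c1, if_neg (by omega)]
    push_cast
    have a1 : (i : ℝ) + 2 ≤ m := by exact_mod_cast (by omega : i + 2 ≤ m)
    have a2 : θ * (i + 2) ≤ θ * m := mul_le_mul_of_nonneg_left a1 h3
    have a3 : (k : ℝ) + 1 ≤ m := by exact_mod_cast c1
    by_cases c2 : o = 4
    · have c4 := hc c2
      subst c2
      by_cases c3 : k + 1 = m
      · have : (k : ℝ) + 1 = m := by exact_mod_cast c3
        push_cast
        linarith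
      · have : (k : ℝ) + 2 ≤ m := by exact_mod_cast (by omega : k + 2 ≤ m)
        push_cast
        rcases h2 with h2 | h2 <;> linarith
    · have : (o : ℝ) ≤ 3 := by exact_mod_cast (by omega : o ≤ 3)
      rcases h2 with h2 | h2 <;> linarith
  · rw [if_neg c1]
    have a1 : ((if k = m then (o : ℤ) else 0 : ℤ) : ℝ) ≤ o := by
      split_ifs <;> simp
    by_cases c2 : 5 * k + 3 ≤ d
    · rw [if_pos c2, if_neg (by omega), Int.cast_sub]
      generalize ((if k = m then (o : ℤ) else 0 : ℤ) : ℝ) = u at *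
      push_cast
      linarith
    · have c3 : 5 * k + 2 = d := by omega
      have : 5 * (k : ℝ) + 2 = d := by exact_mod_cast c3
      rw [if_neg c2, if_pos c3, if_pos c3, Int.cast_sub]
      generalize ((if k = m then (o : ℤ) else 0 : ℤ) : ℝ) = u at *
      push_cast
      linarith

theorem Env5.lo' (h : Env5 d m o θ lam L R) {k : ℕ} (hk : 5 * k + 2 ≤ d) :
    -(if 5 * k + 2 = d then 1 else 0) ≤ L k + lam + θ * k := by
  split_ifs with c
  · have := (h.two k c).1
    linarith
  · simpa using h.lo k (by omega) (by omega) c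

theorem Env5.lower (h : Env5 d m o θ lam L R) (h1 : θ ≤ 4.6) (hδ : θ * m - 1 ≤ 5 * d - 25 * m)
    {c : ℝ} (c0 : (o : ℝ) ≤ c) (c4 : o = 4 → 20 ≤ c) {i : ℕ} (hi : i < m) :
    U5 d m o θ i - θ * (27 + c) / 25 - 1 ≤ hl (d / 5) L R i := by
  have h3 := h.t0
  have h4 := h.hd
  have h5 := h.Rlow hi
  have h6 := h.lo i (by omega) (by omega) (by omega)
  have hc : (0 : ℝ) ≤ c := le_trans (by positivity) c0
  have hl1 := fun k t => h.long (i := i) (k := k) (t := t) (c := c)
  obtain ⟨j, j1, j2⟩ : ∃ j : ℕ, (j = 0 ∨ 25 * ((i : ℝ) + j) ≤ 5 * d - 5 - θ * i - θ - 1 - c) ∧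
      5 * d - 5 - θ * i - θ - 1 - c < 25 * ((i : ℝ) + j + 1) := by
    refine ⟨⌊(5 * d - 5 - θ * i - θ - 1 - c) / 25 - i⌋₊, ?_, ?_⟩
    · rcases le_total ((5 * d - 5 - θ * i - θ - 1 - c) / 25 - i) 0 with a | a
      · exact Or.inl (Nat.floor_of_nonpos a)
      · have := Nat.floor_le a
        right
        linarith
    · have := Nat.lt_floor_add_one ((5 * d - 5 - θ * i - θ - 1 - c) / 25 - i)
      linarith
  have hj : 5 * (j + i) + 2 ≤ d := by
    rcases j1 with rfl | j1
    · omega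
    · have a1 : (0 : ℝ) ≤ θ * i := by positivity
      have : 5 * ((j : ℝ) + i) + 1 < d := by linarith
      have : 5 * (j + i) + 1 < d := by exact_mod_cast this
      omega
  have gap : ∀ j' < j, L j' ≤ R (j' + 1 + i) + 1 := fun j' hj' => by
    have a0 : (j' : ℝ) + 1 ≤ j := by exact_mod_cast hj'
    obtain ⟨a1, a2⟩ := hl1 (j' + 1 + i) (θ + 1) (by omega) (by linarith) hδ (Or.inr le_rfl) c0 c4 (by
      rcases j1 with rfl | j1
      · omega
      · push_cast
        linarith)
    have a3 := h.lo' a1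
    have a4 := h.up j' (by omega)
    rw [h.hR _ (by omega)]
    have : (L j' : ℝ) < L (j' + 1 + i) + W5 d m o (j' + 1 + i) := by
      push_cast at a3
      linarith
    have : L j' < L (j' + 1 + i) + W5 d m o (j' + 1 + i) := by exact_mod_cast this
    omega
  have h7 := h.up j (by omega)
  unfold U5
  by_cases c1 : 5 * d - 5 - θ * i - 25 * ((i : ℝ) + j) ≤ 27 + c
  · have h8 : ((R i + 1 - L j : ℤ) : ℝ) ≤ hl (d / 5) L R i := by
      exact_mod_cast hl_low (by omega) gap
    push_cast at h8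
    nlinarith
  · have t1 : 1 < θ := by linarith
    obtain ⟨a1, a2⟩ := hl1 (j + 1 + i) 2 (by omega) two_pos hδ (Or.inl (by linarith)) c0 c4 (by
      push_cast
      linarith)
    have a3 := h.lo' a1
    have a4 := h.up (j + 1) (by omega)
    have a5 := h.lo j (by omega) (by omega) (by omega)
    push_cast at a3 a4
    have h8 : ((R i + 2 - L j : ℤ) : ℝ) ≤ hl (d / 5) L R i := by
      refine Int.cast_le.2 (hl_low2 (by omega) gap ?_ ?_ ?_)
      · have b1 : (i : ℝ) + 1 ≤ m := by exact_mod_cast hi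
        have b2 : θ * (i + 1) ≤ θ * m := mul_le_mul_of_nonneg_left b1 h3
        have b3 : (0 : ℝ) ≤ θ * j := by positivity
        have b4 : (o : ℝ) ≤ 4 := by exact_mod_cast h.ho
        have : (L j : ℝ) < R i + 2 := by linarith
        have : L j < R i + 2 := by exact_mod_cast this
        omega
      · have : (L (j + 1) : ℝ) < L j := by linarith
        exact_mod_cast this
      · rw [h.hR _ (by omega)]
        have : (L (j + 1) : ℝ) < L (j + 1 + i) + W5 d m o (j + 1 + i) - 1 := by linarith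
        have : L (j + 1) < L (j + 1 + i) + W5 d m o (j + 1 + i) - 1 := by exact_mod_cast this
        omega
    push_cast at h8
    nlinarith

end Pool.Agent.Lib.MP_d03834_ag.Nag
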