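import Pool.Agent.Lib.MP_d03834_ag.Rul.Ar5A

/-! The sum of the levels for the model of degree five. -/

set_option autoImplicit false

namespace Pool.Agent.Lib.MP_d03834_ag.Nag

variable {d m o : ℕ} {θ lam : ℝ} {L R : ℕ → ℤ}

theorem Env5.above (h : Env5 d m o θ lam L R) (hδ : 5 * d - 25 * m - θ * m ≤ 12.3) {i : ℕ}
    (hi : m < i) : hl (d / 5) L R i = 0 := by
  refine hl_zero fun j hj => not_le.1 fun e => ?_
  have h3 := h.t0
  have a1 : (m : ℝ) + 1 ≤ i := by exact_mod_cast hi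
  have a2 : θ * (m + 1) ≤ θ * i := mul_le_mul_of_nonneg_left a1 h3
  have a3 : (0 : ℝ) ≤ j := by positivity
  rcases h.meet (by omega) hj e with a | ⟨a, b⟩ <;> linarith

theorem Env5.atm (h : Env5 d m o θ lam L R) (hm : 0 < m) (hδ : 5 * d - 25 * m - θ * m ≤ 12.3)
    {y : ℝ} (hy : 0 ≤ y) (y1 : 5 * d - 25 * m - θ * m - 4 - o ≤ y) :
    (hl (d / 5) L R m : ℝ) ≤ y := by
  have h3 := h.t0
  have h4 := h.hd
  have h7 := hl_up1 h.antiL h.antiR (i := m) (j := 0) (by omega) fun j a b =>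
    not_le.1 fun e => by
      have a1 : (1 : ℝ) ≤ j := by exact_mod_cast a
      rcases h.meet hm b e with a | ⟨a, b⟩ <;> linarith
  refine le_trans (by exact_mod_cast h7) (toNat_le ?_ hy)
  have h8 := h.lo 0 (by omega) (by omega) (by omega)
  rw [h.hR m (by omega), W5, if_neg (lt_irrefl m), if_pos rfl]
  by_cases c : 5 * m + 3 ≤ d
  · have h9 := h.up m (by omega)
    rw [if_pos c]
    push_cast at h8 ⊢
    linarith
  · have c1 : 5 * m + 2 = d := by omega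
    have h9 := (h.two m c1).2
    have h10 : 5 * (m : ℝ) + 2 = d := by exact_mod_cast c1
    rw [if_neg c, if_pos c1]
    push_cast at h8 ⊢
    linarith

theorem W5_sumA (d m o : ℕ) {j : ℕ} (hj : j ≤ m) : 2 * ∑ k ∈ Finset.range j, W5 d m o k =
    2 * j * (5 * d - 16 * m - 1 - 2 * o) - 9 * j * (j - 1) := by
  induction j with
  | zero => simp
  | succ j ih =>
    rw [Finset.sum_range_succ, mul_add, ih (by omega), W5, if_pos (by omega)]
    push_cast
    ring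

theorem W5_sumB (d m o : ℕ) {k : ℕ} (hk : 5 * (m + k) ≤ d) :
    2 * ∑ j ∈ Finset.range (m + k), W5 d m o j - (if k = 0 then 2 * (o : ℤ) else 0) =
      (d + 2) * (d + 1) - 2 * ((4 * m + o) * (2 * m + 1)) -
        (d - 5 * (m + k) + 2) * (d - 5 * (m + k) + 1) := by
  induction k with
  | zero =>
    rw [add_zero, W5_sumA d m o le_rfl, if_pos rfl]
    push_cast
    ring
  | succ k ih =>
    have h1 := ih (by omega)
    rw [← add_assoc, Finset.sum_range_succ, mul_add, W5, if_neg (by omega), if_pos (by omega),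
      if_neg (Nat.succ_ne_zero k)]
    by_cases c : k = 0
    · subst c
      rw [if_pos rfl] at h1
      rw [if_pos (by omega)]
      push_cast at h1 ⊢
      linear_combination h1
    · rw [if_neg c] at h1
      rw [if_neg (by omega)]
      push_cast at h1 ⊢
      linear_combination h1

theorem W5_sum {d m o : ℕ} (hd : 5 * m + 2 ≤ d) :
    2 * ∑ j ∈ Finset.range (d / 5 + 1), W5 d m o j =
      (d + 2) * (d + 1) - 2 * ((4 * m + o) * (2 * m + 1)) := by
  obtain ⟨k, hk⟩ : ∃ k, d / 5 = m + k := ⟨d / 5 - m, by omega⟩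
  have h1 := W5_sumB d m o (k := k) (by omega)
  obtain ⟨r, hr, e⟩ : ∃ r < 5, d = 5 * (m + k) + r := ⟨d % 5, by omega, by omega⟩
  have h2 : (d : ℤ) - 5 * (m + k) = r := by omega
  have h3 : 2 * W5 d m o (m + k) = (r + 2) * (r + 1) - if k = 0 then 2 * (o : ℤ) else 0 := by
    unfold W5
    interval_cases r <;> split_ifs <;> omega
  rw [hk, Finset.sum_range_succ, mul_add, h3]
  rw [h2] at h1
  linear_combination h1

theorem Env5.total (h : Env5 d m o θ lam L R) :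
    2 * ((∑ i ∈ Finset.range (d / 5 + 1), hl (d / 5) L R i : ℕ) : ℝ) =
      (d + 2) * (d + 1) - 2 * ((4 * m + o) * (2 * m + 1)) := by
  have h1 := W5_sum (o := o) h.hd
  have h2 : ((∑ i ∈ Finset.range (d / 5 + 1), hl (d / 5) L R i : ℕ) : ℤ) =
      ∑ j ∈ Finset.range (d / 5 + 1), W5 d m o j := by
    rw [hl_sum h.antiL h.antiR, Nat.cast_sum]
    refine Finset.sum_congr rfl fun j hj => ?_
    have := Finset.mem_range.1 hj
    have h3 := h.hd
    have h4 := h.ho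
    rw [h.hR j (by omega)]
    have : 0 ≤ W5 d m o j := by
      unfold W5
      split_ifs <;> omega
    omega
  rw [← h2] at h1
  exact_mod_cast h1

theorem sum_cut {J m : ℕ} (f : ℕ → ℕ) (hm : m ≤ J) (hz : ∀ i, m < i → f i = 0) :
    ∑ i ∈ Finset.range (J + 1), f i = ∑ i ∈ Finset.range m, f i + f m := by
  rw [← Finset.sum_range_succ]
  refine (Finset.sum_subset (Finset.range_subset_range.2 (by omega)) fun i _ hi => hz i ?_).symm
  have := Finset.mem_range.not.1 hi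
  omega

/-- the mixed case -/
theorem mix5 {b u κ H δ : ℝ} (hb : o ≤ 3 ∧ b = 3.25 + 0.184 * o ∨ o = 4 ∧ b = 6.93)
    (u0 : 0 ≤ u) (u1 : u ≤ 3.72 + b) (k0 : 0 ≤ κ) (k1 : κ ≤ 1.25 + 2.632 * δ)
    (d1 : δ ≤ 1.4585 + (u - 7.72 + 2 * o) * (1000 / 5917)) (hH : H ≤ 0 ∨ H ≤ 5 * δ - 4 - o) :
    (u - b) * κ - u * o + (3.72 + b - u) * H ≤ 11 * (3.72 * (4 - o) + b * o - 3.72 * b) := by
  have u2 : 0 ≤ 3.72 + b - u := by linarith
  have e1 : (u - b) * κ ≤ 0 ∨ b ≤ u ∧ (u - b) * κ ≤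
      (u - b) * (1.25 + 2.632 * (1.4585 + (u - 7.72 + 2 * o) * (1000 / 5917))) := by
    rcases le_total u b with c | c
    · exact Or.inl (mul_nonpos_of_nonpos_of_nonneg (by linarith) k0)
    · exact Or.inr ⟨c, mul_le_mul_of_nonneg_left (by linarith) (by linarith)⟩
  have e2 : (3.72 + b - u) * H ≤ 0 ∨ (3.72 + b - u) * H ≤
      (3.72 + b - u) * (5 * (1.4585 + (u - 7.72 + 2 * o) * (1000 / 5917)) - 4 - o) := by
    rcases hH with c | c
    · exact Or.inl (mul_nonpos_of_nonneg_of_nonpos u2 c)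
    · exact Or.inr (mul_le_mul_of_nonneg_left (by linarith) u2)
  generalize (u - b) * κ = x at *
  generalize (3.72 + b - u) * H = y at *
  clear hH k1 d1 k0
  have s1 := sq_nonneg (u - 4)
  have s2 := sq_nonneg (u - 6)
  have s3 := sq_nonneg (u - 8)
  have ho : o ≤ 4 := by omega
  rcases e1 with e1 | ⟨e0, e1⟩
  · interval_cases o <;> rcases hb with ⟨hb, rfl⟩ | ⟨hb, rfl⟩ <;> first
      | omega
      | (ring_nf at *; rcases e2 with e2 | e2 <;> linarith)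
  · have s4 := mul_nonneg (sub_nonneg.2 e0) u2
    interval_cases o <;> rcases hb with ⟨hb, rfl⟩ | ⟨hb, rfl⟩ <;> first
      | omega
      | (ring_nf at *; rcases e2 with e2 | e2 <;> linarith)

/-- the range of the defect -/
theorem rng5 {n m d s : ℝ} (hm : 11 ≤ m) (hd : 0 ≤ d) (hn : 26 ≤ n) (n35 : n ≤ 35) (s0 : 0 ≤ s)
    (s1 : n ≤ s ^ 2) (s2 : (s ^ 2 - n) * m ^ 2 ≤ 0.01) (h1 : (d + 1) * d ≤ n * ((m + 1) * m))
    (h2 : n * ((m + 1) * m) < (d + 3) * (d + 2)) :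
    5.09 ≤ s ∧ s ≤ 5.917 ∧ (s ^ 2 - n) * m ≤ 0.001 ∧ -0.2 ≤ d - s * m ∧
      d - s * m ≤ (s - 1) / 2 := by
  have a0 : 0 ≤ s ^ 2 - n := by linarith
  have a1 : (s ^ 2 - n) * m ≤ 0.001 := by
    have := mul_le_mul_of_nonneg_left hm (mul_nonneg a0 (by linarith : 0 ≤ m))
    nlinarith
  have a2 : s ^ 2 - n ≤ 0.0001 := by
    have := mul_le_mul_of_nonneg_left hm a0
    linarith
  have a3 : 5.09 ≤ s := by
    by_contra c
    nlinarith
  have a4 : s ≤ 5.917 := by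
    by_contra c
    nlinarith
  refine ⟨a3, a4, a1, ?_, ?_⟩
  · by_contra c
    have b1 : d + 2.5 ≤ s * m + 2.3 := by linarith
    have b2 : (d + 2.5) ^ 2 ≤ (s * m + 2.3) ^ 2 := pow_le_pow_left₀ (by linarith) b1 2
    have b3 : 2.4 ≤ n - 4.6 * s := by nlinarith
    have b4 := mul_le_mul b3 hm (by norm_num) (by linarith)
    nlinarith
  · by_contra c
    have b1 : s * (m + 0.5) ≤ d + 0.5 := by linarith
    have b2 : (s * (m + 0.5)) ^ 2 ≤ (d + 0.5) ^ 2 :=
      pow_le_pow_left₀ (mul_nonneg s0 (by linarith)) b1 2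
    have b3 := mul_le_mul_of_nonneg_right s1 (sq_nonneg (m + 0.5))
    nlinarith

/-- the last step -/
theorem end5 {b z κ H δ m T F : ℝ} (hb : o ≤ 3 ∧ b = 3.25 + 0.184 * o ∨ o = 4 ∧ b = 6.93)
    (m11 : 11 ≤ m) (k0 : 0 ≤ κ) (k1 : κ ≤ 1.25 + 2.632 * δ)
    (dz : δ ≤ 1.4585 + (z - 4 + 2 * o) * (1000 / 5917)) (hH : H ≤ 0 ∨ H ≤ 5 * δ - 4 - o) (T2 : 0 ≤ T)
    (T4 : m * (z - 4 + 2 * o) + κ ≤ T)
    (ch : ∀ lo hi : ℝ, lo ≤ z - b → z + 3.72 ≤ hi → 0 ≤ hi → lo ≤ 0 →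
      (hi - lo) * F ≤ hi * (m * z + κ - o - H - m * lo)) : F + H ≤ T + m * (4 - o) := by
  have o0 : (0 : ℝ) ≤ o := by positivity
  have om : 0 ≤ m * o := by positivity
  have b0 : 3 ≤ b := by
    rcases hb with ⟨-, a⟩ | ⟨-, a⟩ <;> linarith
  rcases le_or_gt b z with g1 | g1
  · have := ch 0 (z + 3.72) (by linarith) le_rfl (by linarith) le_rfl
    rw [sub_zero, mul_zero, sub_zero] at this
    have := le_of_mul_le_mul_left this (by linarith)
    linarith
  rcases le_or_gt (z + 3.72) 0 with g2 | g2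
  · have := ch (z - b) 0 le_rfl g2 le_rfl (by linarith)
    rw [zero_mul] at this
    have F0 : F ≤ 0 := nonpos_of_mul_nonpos_right this (by linarith)
    rcases hb with ⟨a, -⟩ | ⟨a, -⟩
    · have : (o : ℝ) ≤ 3 := by exact_mod_cast a
      have := mul_le_mul_of_nonneg_left (by linarith : (1 : ℝ) ≤ 4 - o) (by linarith : 0 ≤ m)
      rcases hH with a | a <;> linarith
    · subst a
      push_cast at *
      rcases hH with a | a <;> linarith
  · have a1 := ch (z - b) (z + 3.72) le_rfl le_rfl g2.le (by linarith)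
    have a2 := mix5 (u := z + 3.72) (κ := κ) (H := H) (δ := δ) hb g2.le (by linarith)
      k0 k1 (by linarith) hH
    have a3 : 0 ≤ 3.72 * (4 - o) + b * o - 3.72 * b := by
      rcases hb with ⟨a, rfl⟩ | ⟨a, rfl⟩
      · nlinarith only [sq_nonneg ((o : ℝ) - 3), o0]
      · rw [a]
        norm_num
    have a4 := mul_le_mul_of_nonneg_right m11 a3
    have a5 := mul_le_mul_of_nonneg_left T4 (by linarith : 0 ≤ b)
    have a6 := mul_nonneg (by norm_num : (0 : ℝ) ≤ 3.72) T2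
    refine le_of_mul_le_mul_left (a := 3.72 + b) ?_ (by linarith)
    ring_nf at a1 a2 a4 a5 a6 ⊢
    linarith

theorem Env5.env (h : Env5 d m o θ lam L R) (t1 : θ ≤ 4.585) (hδ : θ * m - 1 ≤ 5 * d - 25 * m)
    {c η y z lo hi : ℝ} (b2 : (o : ℝ) ≤ c) (b3 : o = 4 → 20 ≤ c) {i : ℕ} (hi' : i < m)
    (e0 : 0 ≤ η) (e1 : η * m ≤ 0.001) (e3 : η ≤ 0.0001) (y0 : 0 ≤ y)
    (a1 : U5 d m o θ i = y + z + θ / 2 + θ ^ 2 / 50 - η * i - η / 2)
    (l1 : lo ≤ z - (3.25 + 0.184 * c)) (l2 : z + 3.72 ≤ hi) (l3 : 0 ≤ hi) :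
    lo ≤ (hl (d / 5) L R i : ℝ) - y ∧ (hl (d / 5) L R i : ℝ) - y ≤ hi := by
  have t0 := h.t0
  have c0 : 0 ≤ c := le_trans (by positivity) b2
  have a2 : 0 ≤ η * i := by positivity
  have a3 : η * i ≤ η * m := mul_le_mul_of_nonneg_left (by exact_mod_cast hi'.le) e0
  have a4 := h.lower (by linarith) hδ b2 b3 hi'
  have a5 : θ * c ≤ 4.585 * c := mul_le_mul_of_nonneg_right t1 c0
  have a6 := mul_nonneg t0 (sub_nonneg.2 t1)
  have a8 := sq_nonneg (θ - 4.585)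
  have a7 := h.upper (by linarith) hi' (y := y + hi) (by linarith)
    (by rw [a1]; linarith) (by rw [a1]; linarith) (fun a => by rw [a1]; linarith)
  rw [a1] at a4
  exact ⟨by linarith, by linarith⟩

theorem Env5.good (h : Env5 d m o θ lam L R) {n : ℕ} {s : ℝ} (hs : θ = 5 * s - 25) (hm : 11 ≤ m)
    (hn : 26 ≤ n) (n35 : n ≤ 35) (s1 : n ≤ s ^ 2) (s2 : (s ^ 2 - n) * m ^ 2 ≤ 0.01)
    (h1 : (d + 1).choose 2 ≤ n * (m + 1).choose 2) (h2 : n * (m + 1).choose 2 < (d + 3).choose 2) :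
    ∑ i ∈ Finset.range (d / 5 + 1), (hl (d / 5) L R i - (n - 16) * (m - i)) ≤
      (d + 2).choose 2 - n * (m + 1).choose 2 + m * (4 - o) := by
  have t0 := h.t0
  have hd := h.hd
  have ho := h.ho
  have c0 : 2 * (((m + 1).choose 2 : ℕ) : ℝ) = (m + 1) * m := by exact_mod_cast two_choose m
  have c1 : 2 * (((d + 1).choose 2 : ℕ) : ℝ) = (d + 1) * d := by exact_mod_cast two_choose d
  have c2 : 2 * (((d + 2).choose 2 : ℕ) : ℝ) = (d + 2) * (d + 1) := by
    exact_mod_cast two_choose (d + 1)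
  have c3 : 2 * (((d + 3).choose 2 : ℕ) : ℝ) = (d + 3) * (d + 2) := by
    exact_mod_cast two_choose (d + 2)
  have m11 : (11 : ℝ) ≤ m := by exact_mod_cast hm
  obtain ⟨r1, r2, r3, r4, r5⟩ := rng5 (n := n) (d := d) (s := s) m11 (by positivity)
    (by exact_mod_cast hn) (by exact_mod_cast n35) (by linarith) s1 s2
    (by
      have : (((d + 1).choose 2 : ℕ) : ℝ) ≤ n * (m + 1).choose 2 := by exact_mod_cast h1
      rw [← c0, ← c1]
      linarith)
    (by
      have : (n : ℝ) * (m + 1).choose 2 < (d + 3).choose 2 := by exact_mod_cast h2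
      rw [← c0, ← c3]
      linarith)
  clear c1 c3 h1 h2
  obtain ⟨η, hη⟩ : ∃ η : ℝ, n = s ^ 2 - η := ⟨s ^ 2 - n, by ring⟩
  obtain ⟨δ, hδ⟩ : ∃ δ : ℝ, d = s * m + δ := ⟨d - s * m, by ring⟩
  have e0 : 0 ≤ η := by linarith
  have e1 : η * m ≤ 0.001 := by rw [hη] at r3; linarith
  have e2 : η * m ^ 2 ≤ 0.01 := by rw [hη] at s2; linarith
  have e3 : η ≤ 0.0001 := by
    have := mul_le_mul_of_nonneg_left m11 e0
    linarith
  have d0 : 5 * d - 25 * m - θ * m = 5 * δ := by rw [hδ, hs]; ring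
  have d1 : -0.2 ≤ δ := by linarith
  have d2 : δ ≤ 2.46 := by linarith
  have t1 : θ ≤ 4.585 := by linarith
  clear r3 r4 r5 s1 s2
  have hz := fun i => h.above (by linarith) (i := i)
  have tot := h.total
  rw [sum_cut _ (by omega : m ≤ d / 5) hz] at tot
  rw [sum_cut _ (by omega : m ≤ d / 5) fun i hi => by rw [hz i hi, Nat.zero_sub], Nat.sub_self,
    mul_zero, Nat.sub_zero]
  have hH : (hl (d / 5) L R m : ℝ) ≤ 0 ∨ (hl (d / 5) L R m : ℝ) ≤ 5 * δ - 4 - o :=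
    le_max_iff.1 (h.atm (by omega) (by linarith) (le_max_left _ _)
      (by rw [d0]; exact le_max_right _ _))
  obtain ⟨b, c, hb, b1, b2, b3⟩ : ∃ b c : ℝ, (o ≤ 3 ∧ b = 3.25 + 0.184 * o ∨ o = 4 ∧ b = 6.93) ∧
      b = 3.25 + 0.184 * c ∧ (o : ℝ) ≤ c ∧ (o = 4 → 20 ≤ c) := by
    rcases Nat.lt_or_ge o 4 with a | a
    · exact ⟨_, o, Or.inl ⟨by omega, rfl⟩, rfl, le_rfl, by omega⟩
    · refine ⟨6.93, 20, Or.inr ⟨by omega, rfl⟩, by norm_num, ?_, fun _ => le_rfl⟩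
      exact_mod_cast (by omega : o ≤ 20)
  obtain ⟨z, hz'⟩ : ∃ z : ℝ, z = s * δ + η * m + (3 * s - s ^ 2 + η) / 2 + 4 - 2 * o := ⟨_, rfl⟩
  have ch := fun (lo hi : ℝ) (l1 : lo ≤ z - b) (l2 : z + 3.72 ≤ hi) l3 l4 =>
    chord (m := m) (hl (d / 5) L R) (fun i => (n - 16) * (m - i)) (lo := lo) (hi := hi) l4 l3
      fun i hi' => h.env t1 (by linarith) b2 b3 hi' e0 e1 e3 (z := z) (by positivity) (by
        rw [Nat.cast_mul, Nat.cast_sub (by omega), Nat.cast_sub hi'.le, U5, hz', hη, hδ, hs]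
        push_cast
        ring) (b1 ▸ l1) l2 l3
  have T1 : (m : ℝ) * (4 - o) = (m * (4 - o) : ℕ) := by
    rw [Nat.cast_mul, Nat.cast_sub ho]
    norm_num
  have T3 : (((d + 2).choose 2 : ℕ) : ℝ) ≤
      ((d + 2).choose 2 - n * (m + 1).choose 2 : ℕ) + n * (m + 1).choose 2 := by
    exact_mod_cast (le_tsub_add : (d + 2).choose 2 ≤ _)
  have y0 : (((n - 16) * (m + 1).choose 2 : ℕ) : ℝ) = (n - 16) * ((m + 1) * m) / 2 := by
    rw [Nat.cast_mul, Nat.cast_sub (by omega), ← c0]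
    push_cast
    ring
  rw [Nat.cast_add] at tot
  have S : ((∑ i ∈ Finset.range m, hl (d / 5) L R i : ℕ) : ℝ) - (n - 16) * ((m + 1) * m) / 2 =
      m * z + ((δ + 1) * (δ + 2) - η * m ^ 2) / 2 - o - hl (d / 5) L R m := by
    rw [hδ] at tot
    rw [hz', hη]
    linear_combination tot / 2
  rw [sum_lev, y0, S] at ch
  rw [← Nat.cast_le (α := ℝ), Nat.cast_add, Nat.cast_add, ← T1]
  have k0 := mul_nonneg (sub_nonneg.2 d1) (sub_nonneg.2 d2)
  have k1 : 0 ≤ η * m ^ 2 := by positivity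
  have k2 : 0 ≤ η * m := by positivity
  refine end5 hb m11 (by nlinarith only [d1, e2]) (by nlinarith only [k0, k1, d1, d2]) ?_ hH
    (by positivity) ?_ ch
  · have k3 : 0 ≤ (5.917 - s) * (5.917 + s - 3 - 2 * δ) := mul_nonneg (by linarith) (by linarith)
    rw [hz']
    linarith
  · rw [hδ] at c2
    rw [hη] at T3
    rw [hz']
    have k4 : (s ^ 2 - η) * (m + 1).choose 2 = (s ^ 2 - η) * ((m + 1) * m) / 2 := by
      rw [← c0]
      ring
    rw [k4] at T3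
    linarith

end Pool.Agent.Lib.MP_d03834_ag.Nag
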