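import Pool.Agent.Lib.MP_d03834_ag.Rul.Col

/-! A checker for the arithmetic criterion. -/

set_option autoImplicit false

namespace Pool.Agent.Lib.MP_d03834_ag.Nag

/-- evaluate n before passing it on -/
def frc (n : ℕ) (k : ℕ → Bool) : Bool := Nat.rec (k (nat_lit 0)) (fun m _ => k (Nat.succ m)) n

/-- entry j of a table -/
def tb (A j : ℕ) : ℕ := Nat.land (Nat.shiftRight A (Nat.mul (nat_lit 16) j)) (nat_lit 65535)

/-- the table of the first k values of f -/
def pk (f : ℕ → ℕ) (k : ℕ) : ℕ :=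
  Nat.rec (nat_lit 0) (fun j ih => Nat.add ih (Nat.shiftLeft (f j) (Nat.mul (nat_lit 16) j))) k

/-- fast form of kap -/
def kpF (ω r x : ℕ) : ℕ :=
  Bool.rec (Bool.rec (nat_lit 0) (nat_lit 1) (Nat.beq (Nat.mod x ω) (nat_lit 0))) (Nat.div x ω)
    (Nat.beq r (nat_lit 1))

/-- the case of a row -/
def cs3 {α : Type} (ω r x : ℕ) (u v w : α) : α :=
  Bool.rec (Bool.rec w (Bool.rec w v (Nat.beq r (nat_lit 2))) (Nat.beq x ω)) u
    (Nat.ble (Nat.succ x) ω)

/-- fast form of smj -/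
def smF (m c o j : ℕ) : ℕ :=
  Nat.add (Nat.mul (Nat.sub c o) (Nat.sub (Nat.mul (nat_lit 2) m) (Nat.mul (nat_lit 2) j)))
    (Nat.mul o (Nat.sub (Nat.succ (Nat.mul (nat_lit 2) m)) (Nat.mul (nat_lit 2) j)))

/-- fast form of zcj -/
def zcF (m c o j : ℕ) : ℕ :=
  Bool.rec (nat_lit 0) (Nat.add (Nat.sub c o) (Bool.rec (nat_lit 0) o (Nat.ble (Nat.succ m) j)))
    (Nat.ble m j)

/-- the numerator of the left end -/
def nuF (ω r N β x : ℕ) : ℕ :=
  Nat.mul (Nat.sub (Nat.mul (nat_lit 2) (Nat.div x ω)) (kpF ω r x)) (Nat.sub N β)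

/-- minus the left end of the row j -/
def aN (ω r N β p g s j : ℕ) : ℕ :=
  Nat.add (cs3 ω r (Nat.sub g (Nat.mul s j)) (nat_lit 0) (nat_lit 1)
    (Nat.div (nuF ω r N β (Nat.sub g (Nat.mul s j))) N)) (Nat.mul p j)

/-- fast form of wn -/
def wnF (ω r x y zc : ℕ) : ℕ :=
  cs3 ω r x (Nat.succ y) (Nat.add y (nat_lit 2)) (Nat.sub (Nat.sub
    (Nat.add (Nat.mul (nat_lit 2) y) (Nat.mul (nat_lit 2) (Nat.div x ω))) (kpF ω r x)) zc)

/-- the length of the row j -/
def nN (ω r g s m c o j : ℕ) : ℕ :=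
  wnF ω r (Nat.sub g (Nat.mul s j)) (Nat.sub (Nat.sub g (Nat.mul s j)) (smF m c o j)) (zcF m c o j)

/-- side condition -/
def sdB (ω r N β x y zc : ℕ) : Bool :=
  cs3 ω r x true true (Bool.rec false (Bool.rec
    (Nat.ble (nat_lit 1) (Nat.mod (nuF ω r N β x) N)) true
    (Nat.ble (Nat.succ zc) (Nat.mul (nat_lit 2) y))) (Nat.ble zc y))

/-- the last nonempty interval of the level i -/
def dn (a w : ℕ → ℕ) (i j : ℕ) : ℕ :=
  Nat.rec (nat_lit 0) (fun j ih => Bool.rec (Nat.succ j) ih (Nat.ble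
    (Nat.add (w (Nat.add (Nat.succ j) i)) (a (Nat.succ j))) (a (Nat.add (Nat.succ j) i)))) j

/-- minimum -/
def mn (x y : ℕ) : ℕ := Nat.sub x (Nat.sub x y)

/-- the bound for the level i -/
def lv (a w : ℕ → ℕ) (i j : ℕ) : ℕ :=
  mn (Nat.sub (Nat.add (w i) (a j)) (a i))
    (Nat.add (Nat.sub (Nat.add (w i) (a (Nat.sub j (nat_lit 1)))) (a i))
      (Nat.sub (Nat.add (w (Nat.add j i)) (a j)) (a (Nat.add j i))))

/-- the loop over the levels -/
def lp (a w : ℕ → ℕ) (J n m : ℕ) (f : ℕ) : ℕ → ℕ → ℕ → Bool :=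
  Nat.rec (fun _ _ _ => true) (fun _ ih i j T =>
    frc (dn a w i (mn j (Nat.sub J i))) fun j' =>
      frc (Nat.sub (lv a w i j') (Nat.mul n (Nat.sub m i))) fun x =>
        Bool.rec false (frc (Nat.sub T x) fun T' => frc (Nat.succ i) fun i' => ih i' j' T')
          (Nat.ble x T)) f

/-- conjunction -/
def an (x y : Bool) : Bool := Bool.rec false y x

/-- bounded quantifier -/
def al (P : ℕ → Bool) (k : ℕ) : Bool := Nat.rec true (fun j ih => Bool.rec false ih (P j)) k

/-- the check of one child -/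
def ck (ω r N β p g n m c o T : ℕ) : Bool :=
  frc (r + 2 * ω) fun s => frc (g / s) fun J =>
  frc (pk (aN ω r N β p g s) (Nat.succ J)) fun A => frc (pk (nN ω r g s m c o) (Nat.succ J)) fun W =>
  an (al (fun j => an (Nat.beq (tb A j) (aN ω r N β p g s j))
    (an (Nat.beq (tb W j) (nN ω r g s m c o j)) (sdB ω r N β (Nat.sub g (Nat.mul s j))
      (Nat.sub (Nat.sub g (Nat.mul s j)) (smF m c o j)) (zcF m c o j)))) (Nat.succ J))
  (an (al (fun j => an (Nat.ble (tb A j) (tb A (Nat.succ j)))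
    (Nat.ble (Nat.add (tb W (Nat.succ j)) (tb A j)) (Nat.add (tb W j) (tb A (Nat.succ j))))) J)
  (lp (tb A) (tb W) J n m (Nat.succ J) (nat_lit 0) J T))

/-- the check of one multiplicity -/
def ckM (ω r c h N β p n m : ℕ) : Bool :=
  Nat.blt m 2 || frc (n * (m * (m + 1))) fun X => al (fun d =>
    Bool.rec (Bool.rec
      (al (fun o => frc (h * d) fun g => frc (((d + 1) * (d + 2) - X) / 2 + m * (c - o))
        fun T => frc (n - 4 * c) fun n' => ck ω r N β p g n' m c o T) (c + 1))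
      true (Nat.ble (Nat.succ X) (Nat.mul d (Nat.succ d)))) true
      (Nat.ble (Nat.mul (Nat.add d (nat_lit 2)) (Nat.add d (nat_lit 3))) X)) (6 * m + 3)

/-- the check of all multiplicities below M -/
def ckA (ω r c h N β p n M : ℕ) : Bool := al (ckM ω r c h N β p n) M

/-- the check of a range of multiplicities -/
def ckR (ω r c h N β p n a b : ℕ) : Bool := al (fun m => Nat.blt m a || ckM ω r c h N β p n m) b

theorem frc_eq (n : ℕ) (k : ℕ → Bool) : frc n k = k n := by cases n <;> rfl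

theorem an_iff (x y : Bool) : an x y = true ↔ x = true ∧ y = true := by cases x <;> simp [an]

theorem rec_or (x y : Bool) : (Bool.rec y true x : Bool) = true ↔ x = true ∨ y = true := by
  cases x <;> simp

theorem al_iff (P : ℕ → Bool) (k : ℕ) : al P k = true ↔ ∀ j < k, P j = true := by
  induction k with
  | zero => simp [al]
  | succ k ih =>
    change an (P k) (al P k) = true ↔ _
    rw [an_iff, ih, Nat.forall_lt_succ_right, and_comm]

theorem rec_ble {α : Type} (a b : ℕ) (x y : α) :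
    (Bool.rec y x (Nat.ble a b) : α) = if a ≤ b then x else y := by
  split_ifs with h
  · rw [Nat.ble_eq_true_of_le h]
  · rw [Bool.eq_false_iff.2 fun e => h (Nat.le_of_ble_eq_true e)]

theorem rec_beq {α : Type} (a b : ℕ) (x y : α) :
    (Bool.rec y x (Nat.beq a b) : α) = if a = b then x else y := by
  split_ifs with h
  · rw [h, Nat.beq_refl]
  · rw [Bool.eq_false_iff.2 fun e => h (Nat.eq_of_beq_eq_true e)]

theorem kpF_eq (ω r x : ℕ) : kpF ω r x = kap ω r x := by
  rw [kpF, rec_beq, rec_beq]; rfl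

theorem cs3_eq {α : Type} (ω r x : ℕ) (u v w : α) :
    cs3 ω r x u v w = if x < ω then u else if r = 2 ∧ x = ω then v else w := by
  rw [cs3, rec_ble, rec_beq, rec_beq]
  by_cases a : x = ω <;> by_cases b : r = 2 <;> simp [a, b]

theorem zcF_eq (m c o j : ℕ) : zcF m c o j = zcj m c o j := by
  rw [zcF, rec_ble, rec_ble, zcj]
  change (if m ≤ j then c - o + (if m + 1 ≤ j then o else 0) else 0) = _
  split_ifs <;> omega

theorem nuF_eq (ω r N β x : ℕ) : nuF ω r N β x = (2 * (x / ω) - kap ω r x) * (N - β) := by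
  rw [nuF, kpF_eq]; rfl

theorem aN_eq (ω r N β p g j : ℕ) :
    Lw ω r N β p g j = -(aN ω r N β p g (r + 2 * ω) j : ℤ) := by
  rw [aN, cs3_eq, nuF_eq, Lw, wl]
  change _ = -(((if g - (r + 2 * ω) * j < ω then 0 else if r = 2 ∧ g - (r + 2 * ω) * j = ω then 1
    else (2 * ((g - (r + 2 * ω) * j) / ω) - kap ω r (g - (r + 2 * ω) * j)) * (N - β) / N) +
      p * j : ℕ) : ℤ)
  rw [Nat.cast_add, Nat.cast_mul p]
  split_ifs <;> push_cast <;> ring

theorem nN_eq (ω r g s m c o j : ℕ) :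
    nN ω r g s m c o j = wn ω r (g - s * j) (smj m c o j) (zcj m c o j) := by
  rw [nN, wnF, cs3_eq, kpF_eq, zcF_eq]; rfl

theorem sdB_sound {ω r N β x sm zc : ℕ} (h : sdB ω r N β x (x - sm) zc = true) :
    Sd ω r N β x sm zc := by
  rw [sdB, cs3_eq, nuF_eq] at h
  unfold Sd
  split_ifs at h with a b
  · exact Or.inl a
  · exact Or.inr (Or.inl b)
  · obtain ⟨c, e⟩ := (an_iff _ _).1 h
    refine Or.inr (Or.inr ⟨Nat.le_of_ble_eq_true c, ((rec_or _ _).1 e).imp
      (fun e => Nat.le_of_ble_eq_true e) fun e => ?_⟩)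
    exact Nat.one_le_iff_ne_zero.1 (Nat.le_of_ble_eq_true e)

theorem dn_succ (a w : ℕ → ℕ) (i j : ℕ) : dn a w i (j + 1) =
    if w (j + 1 + i) + a (j + 1) ≤ a (j + 1 + i) then dn a w i j else j + 1 :=
  rec_ble _ _ (dn a w i j) (j + 1)

theorem mn_eq (x y : ℕ) : mn x y = min x y := by
  change x - (x - y) = _
  omega

theorem lv_eq (a w : ℕ → ℕ) (i j : ℕ) : lv a w i j =
    min (w i + a j - a i) (w i + a (j - 1) - a i + (w (j + i) + a j - a (j + i))) := mn_eq _ _

theorem dn_spec (a w : ℕ → ℕ) (i j : ℕ) : dn a w i j ≤ j ∧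
    ∀ k, dn a w i j < k → k ≤ j → w (k + i) + a k ≤ a (k + i) := by
  induction j with
  | zero => exact ⟨le_rfl, fun k h1 h2 => by omega⟩
  | succ j ih =>
    rw [dn_succ]
    split_ifs with h
    · refine ⟨by omega, fun k h1 h2 => ?_⟩
      rcases h2.lt_or_eq with h2 | rfl
      · exact ih.2 k h1 (by omega)
      · exact h
    · exact ⟨le_rfl, fun k h1 h2 => by omega⟩

theorem lp_succ (a w : ℕ → ℕ) (J n m f i j T : ℕ) : lp a w J n m (f + 1) i j T =
    frc (dn a w i (mn j (J - i))) fun j' => frc (lv a w i j' - n * (m - i)) fun x =>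
      an (Nat.ble x T) (frc (T - x) fun T' => frc (i + 1) fun i' => lp a w J n m f i' j' T') := rfl

theorem lp_sound {a w : ℕ → ℕ} {J n m : ℕ} {lf rt : ℕ → ℤ} (hl' : ∀ j ≤ J, lf j = -(a j : ℤ))
    (hr : ∀ j ≤ J, rt j = -(a j : ℤ) + w j - 1) (h1 : Anti J lf) (h2 : Anti J rt) (f : ℕ) :
    ∀ i j T, i + f ≤ J + 1 → lp a w J n m f i j T = true →
      (∀ k, j < k → k + i ≤ J → rt (k + i) < lf k) →
      ∑ k ∈ Finset.range f, (hl J lf rt (i + k) - n * (m - (i + k))) ≤ T := by
  induction f with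
  | zero => intro i j T _ _ _; simp
  | succ f ih =>
    intro i j T hf h hj
    simp only [lp_succ, frc_eq, an_iff, Nat.ble_eq, mn_eq] at h
    obtain ⟨s1, s2⟩ := dn_spec a w i (min j (J - i))
    set j' := dn a w i (min j (J - i)) with hj'
    have e : ∀ k, j' < k → k + i ≤ J → rt (k + i) < lf k := fun k k1 k2 => by
      by_cases c : j < k
      · exact hj k c k2
      · have := s2 k k1 (by omega)
        rw [hl' _ (by omega), hr _ k2]
        omega
    have b : hl J lf rt i ≤ lv a w i j' := by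
      have u1 := hl_up1 h1 h2 (i := i) (j := j') (by omega) e
      rw [hl' _ (by omega), hr _ (by omega)] at u1
      rw [lv_eq]
      refine le_min (by omega) ?_
      rcases Nat.eq_zero_or_pos j' with c | c
      · rw [c] at u1 ⊢
        rw [Nat.zero_sub]
        omega
      · have u2 := hl_up2 h1 h2 (i := i) (j := j' - 1) (by omega) fun k k1 => e k (by omega)
        rw [Nat.sub_add_cancel c, hl' (j' - 1) (by omega), hr i (by omega), hl' j' (by omega),
          hr (j' + i) (by omega)] at u2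
        omega
    have r := ih (i + 1) j' _ (by omega) h.2 fun k k1 k2 =>
      lt_of_le_of_lt (h2 (k + i) (by omega)) (e k k1 (by omega))
    rw [Finset.sum_range_succ', Nat.add_zero]
    have q : ∑ k ∈ Finset.range f, (hl J lf rt (i + (k + 1)) - n * (m - (i + (k + 1)))) =
        ∑ k ∈ Finset.range f, (hl J lf rt (i + 1 + k) - n * (m - (i + 1 + k))) :=
      Finset.sum_congr rfl fun k _ => by rw [show i + (k + 1) = i + 1 + k by omega]
    rw [q]
    have := h.1
    omega

theorem ck_sound {ω r N β p g n m c o T : ℕ} (h : ck ω r N β p g n m c o T = true) :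
    Good ω r N β p g n m c o T := by
  simp only [ck, frc_eq, an_iff, al_iff, Nat.ble_eq, Nat.beq_eq, Nat.succ_eq_add_one,
    Nat.add_eq] at h
  generalize pk (aN ω r N β p g (r + 2 * ω)) (g / (r + 2 * ω) + 1) = A at h
  generalize pk (nN ω r g (r + 2 * ω) m c o) (g / (r + 2 * ω) + 1) = W at h
  obtain ⟨a2, a1, a3⟩ := h
  have hl' : ∀ j ≤ g / (r + 2 * ω), Lw ω r N β p g j = -(tb A j : ℤ) := fun j hj => by
    rw [(a2 j (by omega)).1, aN_eq]
  have hr : ∀ j ≤ g / (r + 2 * ω), Rw ω r N β p g m c o j = -(tb A j : ℤ) + tb W j - 1 :=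
    fun j hj => by rw [Rw, hl' j hj, (a2 j (by omega)).2.1, nN_eq]
  have h1 : Anti (g / (r + 2 * ω)) (Lw ω r N β p g) := fun j hj => by
    have := (a1 j hj).1
    rw [hl' (j + 1) hj, hl' _ hj.le]
    omega
  have h2 : Anti (g / (r + 2 * ω)) (Rw ω r N β p g m c o) := fun j hj => by
    have := (a1 j hj).2
    rw [hr (j + 1) hj, hr _ hj.le]
    omega
  refine ⟨h1, h2, fun j hj => ?_, ?_⟩
  · have := (a2 j (by omega)).2.2
    rw [zcF_eq] at this
    exact sdB_sound this
  · simpa using lp_sound hl' hr h1 h2 _ 0 _ T (by omega) a3 fun k k1 k2 => by omega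

theorem ckA_two (k : ℕ) : 2 * (k + 1).choose 2 = k * (k + 1) := by
  induction k with
  | zero => simp
  | succ k ih =>
    rw [Nat.choose_succ_succ' (k + 1) 1, Nat.choose_one_right, mul_add, ih]
    ring

theorem ckA_sound {ω r c hh N β p n M m d o : ℕ} (h : ckA ω r c hh N β p n M = true) (hn : n ≤ 36)
    (hM : m < M) (hm : 2 ≤ m) (h1 : (d + 1).choose 2 ≤ n * (m + 1).choose 2)
    (h2 : n * (m + 1).choose 2 < (d + 3).choose 2) (ho : o ≤ c) :
    Good ω r N β p (hh * d) (n - 4 * c) m c o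
      ((d + 2).choose 2 - n * (m + 1).choose 2 + m * (c - o)) := by
  have t0 := ckA_two m
  have t1 := ckA_two d
  have t2 : 2 * (d + 2).choose 2 = (d + 1) * (d + 2) := ckA_two (d + 1)
  have t3 : 2 * (d + 3).choose 2 = (d + 2) * (d + 3) := ckA_two (d + 2)
  have t4 : 2 * (n * (m + 1).choose 2) = n * (m * (m + 1)) := by rw [← t0]; ring
  have hd : d < 6 * m + 3 := by
    by_contra hd
    have a : n * (m * (m + 1)) ≤ 36 * (m * (m + 1)) := Nat.mul_le_mul_right _ hn
    have b : (6 * m + 3) * (6 * m + 3 + 1) ≤ d * (d + 1) := Nat.mul_le_mul (by omega) (by omega)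
    nlinarith
  simp only [ckA, ckM, frc_eq, al_iff, Bool.or_eq_true, rec_or, Nat.blt_eq, Nat.ble_eq,
    Nat.succ_eq_add_one, Nat.add_eq, Nat.mul_eq] at h
  have h3 := (h m hM).resolve_left (by omega) d hd
  change (d + 2) * (d + 3) ≤ _ ∨ _ at h3
  have := ck_sound (((h3.resolve_left (by omega)).resolve_left (by omega)) o (by omega))
  rwa [show ((d + 1) * (d + 2) - n * (m * (m + 1))) / 2 =
    (d + 2).choose 2 - n * (m + 1).choose 2 by omega] at this

theorem ckA_zero (ω r c h N β p n : ℕ) : ckA ω r c h N β p n 0 = true := rfl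

theorem ckA_step {ω r c h N β p n a b : ℕ} (h1 : ckA ω r c h N β p n a = true)
    (h2 : ckR ω r c h N β p n a b = true) : ckA ω r c h N β p n b = true := by
  rw [ckA, al_iff] at h1 ⊢
  rw [ckR, al_iff] at h2
  intro m hm
  rcases Bool.or_eq_true_iff.1 (h2 m hm) with e | e
  · exact h1 m (by simpa using e)
  · exact e

end Pool.Agent.Lib.MP_d03834_ag.Nag
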