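import Pool.Agent.Lib.MP_d03834_ag.Rul.Col

/-! Definitions for the arithmetic of the ruled models. -/

set_option autoImplicit false

namespace Pool.Agent.Lib.MP_d03834_ag.Nag

open Finset

/-- right ends with the row m enlarged by o -/
def Re (ω r N β p g m c o j : ℕ) : ℤ := Rw ω r N β p g m c o j + if j = m then o else 0

/-- the facts which do not depend on the envelope; h is the level function of the enlarged rows -/
def LB (ω r N β p g m c o d : ℕ) (y1 : ℝ) (h : ℕ → ℕ) : Prop :=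
  Anti (g / (r + 2 * ω)) (Lw ω r N β p g) ∧ Anti (g / (r + 2 * ω)) (Rw ω r N β p g m c o) ∧
    (∀ j ≤ g / (r + 2 * ω), Sd ω r N β (g - (r + 2 * ω) * j) (smj m c o j) (zcj m c o j)) ∧
    m ≤ g / (r + 2 * ω) ∧
    (∀ i, hl (g / (r + 2 * ω)) (Lw ω r N β p g) (Rw ω r N β p g m c o) i ≤ h i) ∧
    2 * ∑ i ∈ range (g / (r + 2 * ω) + 1), h i + (c - o) * (2 * m * (2 * m + 1)) +
      o * ((2 * m + 1) * (2 * m + 2)) = (d + 1) * (d + 2) + 2 * o ∧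
    (∀ i, m < i → h i = 0) ∧ (h m = 0 ∨ (h m : ℝ) < y1 + 1) ∧
    (hl (g / (r + 2 * ω)) (Lw ω r N β p g) (Rw ω r N β p g m c o) m = 0 ∨
      (hl (g / (r + 2 * ω)) (Lw ω r N β p g) (Rw ω r N β p g m c o) m : ℝ) < y1 + 1 - o)

/-- two sided envelope of the levels below m -/
def LP (ω r N β p g n m c o d : ℕ) (y A y1 : ℝ) : Prop :=
  ∃ h : ℕ → ℕ, LB ω r N β p g m c o d y1 h ∧
    (∀ i < m, h i ≤ n * (m - i) ∨ (h i : ℝ) - n * (m - i) < y + A) ∧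
    ∀ i < m, y - A < (h i : ℝ) - n * (m - i)

/-- the finer envelope of the quartic -/
def LQ (N β p n m o d : ℕ) (θ c0 y1 : ℝ) : Prop :=
  ∃ h : ℕ → ℕ, LB 1 2 N β p d m 1 o d y1 h ∧
    (∀ i < m, 0 < i → h i ≤ n * (m - i) ∨ ∃ (j : ℕ) (σ : ℝ),
      σ = 4 * d - 2 - (16 + θ) * i - 16 * j ∧ 0 < σ ∧
      (h i : ℝ) - n * (m - i) < c0 + 1 / 1000 + 1 - θ * σ / 16 ∧
      (1 ≤ θ → σ ≤ θ - 1 → (h i : ℝ) - n * (m - i) < c0 + 1 / 1000 - θ * σ / 16)) ∧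
    ((h 0 : ℝ) - n * m < c0 + 1 / 1000 +
      max (2 - 7 * θ / 8) (max (1 - θ / 8 + β / N) (1 - θ * (θ - 1) / 16))) ∧
    ∀ i < m, ∃ (j : ℕ) (σ : ℝ), σ = 4 * d - 2 - (16 + θ) * i - 16 * j ∧ σ < 16 + θ ∧
      c0 - θ * σ / 16 - 1 < (h i : ℝ) - n * (m - i) ∧
      (1 ≤ θ → 17 < σ → c0 - θ * σ / 16 < (h i : ℝ) - n * (m - i))

end Pool.Agent.Lib.MP_d03834_ag.Nag
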