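import Pool.Agent.Lib.MP_d03834_ag.Rul.ArS

/-! Envelopes of the levels and a counting lemma. -/

set_option autoImplicit false

namespace Pool.Agent.Lib.MP_d03834_ag.Nag

open Finset

theorem are_ex {s : ℝ} (hs : 0 < s) (y c : ℝ) : ∃ j : ℕ, y - s * (j + 1) < c := by
  obtain ⟨j, hj⟩ := exists_nat_gt ((y - c) / s)
  rw [div_lt_iff₀ hs] at hj
  exact ⟨j, by nlinarith⟩

theorem env_up {J : ℕ} {lf rt : ℕ → ℤ} (h1 : Anti J lf) (h2 : Anti J rt) {i : ℕ}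
    {φ θ s y Y K a : ℝ} (hθ : 0 ≤ θ) (hs : 0 < s) (ha : 0 ≤ a) (hi : i ≤ J)
    (hl1 : ∀ j : ℕ, j + i ≤ J → φ - θ * j - a ≤ lf j)
    (hr1 : ∀ j : ℕ, j + i ≤ J → rt (j + i) < lf j ∨
      (rt (j + i) : ℝ) + 1 < φ - θ * j + (y - s * j) + K)
    (h0 : (rt i : ℝ) < Y) (hY : θ ≤ Y - φ + 1) :
    hl J lf rt i = 0 ∨ ∃ j : ℕ, 1 - K - a < y - s * j ∧ y - s * j ≤ s + 1 - K - a ∧
      (∀ j', j < j' → j' + i ≤ J → rt (j' + i) < lf j') ∧
      (hl J lf rt i : ℝ) < Y - φ + θ * j + 1 + a ∧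
      (hl J lf rt i : ℝ) < Y - φ + θ * j - θ + (y - s * j) + 1 + K + 2 * a := by
  classical
  by_cases hz : ∀ j, j + i ≤ J → rt (j + i) < lf j
  · exact .inl (hl_zero hz)
  right
  push Not at hz
  obtain ⟨j1, b1, b2⟩ := hz
  obtain ⟨j0, a1, a2, a3⟩ : ∃ j0, j0 + i ≤ J ∧ lf j0 ≤ rt (j0 + i) ∧
      ∀ j', j0 < j' → j' + i ≤ J → rt (j' + i) < lf j' := by
    have := Nat.findGreatest_spec (P := fun j => j + i ≤ J ∧ lf j ≤ rt (j + i)) (m := j1) (n := J)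
      (by omega) ⟨b1, b2⟩
    refine ⟨_, this.1, this.2, fun j' c1 c2 => ?_⟩
    by_contra c3
    exact Nat.findGreatest_is_greatest c1 (by omega) ⟨c2, not_lt.1 c3⟩
  have r0 := (hr1 j0 a1).resolve_left (not_lt.2 a2)
  have l0 := hl1 j0 a1
  have a2' : (lf j0 : ℝ) ≤ rt (j0 + i) := by exact_mod_cast a2
  have ex : ∃ j : ℕ, y - s * (j + 1) ≤ 1 - K - a := (are_ex hs y _).imp fun _ h => h.le
  obtain ⟨j, e1, e2⟩ : ∃ j : ℕ, y - s * (j + 1) ≤ 1 - K - a ∧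
      ∀ k : ℕ, k < j → 1 - K - a < y - s * (k + 1) :=
    ⟨_, Nat.find_spec ex, fun k hk => not_le.1 (Nat.find_min ex hk)⟩
  have t0 : 1 - K - a < y - s * j0 := by linarith
  have jj : j0 ≤ j := by
    have : (j0 : ℝ) < j + 1 := lt_of_mul_lt_mul_left (a := s) (by linarith) hs.le
    have : j0 < j + 1 := by exact_mod_cast this
    omega
  have t1 : 1 - K - a < y - s * j := by
    rcases j with _ | j
    · obtain rfl : j0 = 0 := by omega
      exact t0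
    · exact_mod_cast e2 j j.lt_succ_self
  have u1 := hl_up1 h1 h2 (j := j0) (by omega) a3
  have u0 := Col_anti h2 (Nat.le_add_left i j0) a1
  have u2 : (hl J lf rt i : ℝ) ≤ rt i + 1 - lf j0 := by
    have : (hl J lf rt i : ℤ) ≤ rt i + 1 - lf j0 := by omega
    exact_mod_cast this
  have jr : θ * j0 ≤ θ * j := mul_le_mul_of_nonneg_left (by exact_mod_cast jj) hθ
  refine ⟨j, t1, by linarith, fun j' c1 c2 => a3 j' (by omega) c2, by linarith, ?_⟩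
  rcases jj.lt_or_eq with c | rfl
  · have : θ * (j0 + 1) ≤ θ * j := mul_le_mul_of_nonneg_left (by exact_mod_cast c) hθ
    linarith
  rcases j0 with _ | k
  · simp only [zero_add, Nat.cast_zero, mul_zero] at *
    linarith
  · have u3 := hl_up2 h1 h2 (j := k) (by omega) a3
    have l1 := hl1 k (by omega)
    have k0 : 0 ≤ θ * k := mul_nonneg hθ k.cast_nonneg
    push_cast at *
    rcases le_total (lf k) (rt i + 1) with c | c
    · have : (hl J lf rt i : ℤ) ≤ rt i + 1 - lf k + (rt (k + 1 + i) + 1 - lf (k + 1)) := by omega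
      have : (hl J lf rt i : ℝ) ≤ rt i + 1 - lf k + (rt (k + 1 + i) + 1 - lf (k + 1)) := by
        exact_mod_cast this
      linarith
    · have : (hl J lf rt i : ℤ) ≤ rt (k + 1 + i) + 1 - lf (k + 1) := by omega
      have : (hl J lf rt i : ℝ) ≤ rt (k + 1 + i) + 1 - lf (k + 1) := by exact_mod_cast this
      linarith

theorem env_low {J : ℕ} {lf rt : ℕ → ℤ} {i : ℕ} {φ θ s y Y a b : ℝ} (hθ : 0 < θ) (hs : 0 < s)
    (ha : 0 ≤ a) (hb : 0 ≤ b) (hi : i ≤ J)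
    (hl2 : ∀ j : ℕ, j + i ≤ J → (lf j : ℝ) < φ - θ * j + 1 + a)
    (hJ : ∀ j : ℕ, 0 < y - s * j → j + i ≤ J)
    (hc : ∀ j : ℕ, θ + a + b ≤ y - s * (j + 1) → lf j ≤ rt (j + 1 + i) + 1)
    (h0 : Y - b ≤ (rt i : ℝ) + 1) :
    ∃ j : ℕ, y - s * j < s + θ + a + b ∧ j + i ≤ J ∧ (∀ j' < j, lf j' ≤ rt (j' + 1 + i) + 1) ∧
      Y - φ + θ * j - 1 - a - b < hl J lf rt i := by
  classical
  have ex := are_ex hs y (θ + a + b)
  obtain ⟨j, e1, e2⟩ : ∃ j : ℕ, y - s * (j + 1) < θ + a + b ∧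
      ∀ k : ℕ, k < j → θ + a + b ≤ y - s * (k + 1) :=
    ⟨_, Nat.find_spec ex, fun k hk => not_lt.1 (Nat.find_min ex hk)⟩
  have a1 : j + i ≤ J := by
    rcases j with _ | j
    · omega
    · refine hJ _ ?_
      have := e2 j j.lt_succ_self
      push_cast
      linarith
  have a2 : ∀ j' < j, lf j' ≤ rt (j' + 1 + i) + 1 := fun k hk => hc k (e2 k hk)
  have a3 : (rt i : ℝ) + 1 - lf j ≤ hl J lf rt i := by exact_mod_cast hl_low a1 a2
  have := hl2 j a1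
  exact ⟨j, by linarith, a1, a2, by linarith⟩

theorem ar_chord {m : ℕ} (v : ℕ → ℤ) {lo hi : ℝ} (h1 : lo ≤ 0) (h2 : 0 ≤ hi)
    (hU : ∀ i < m, (v i : ℝ) ≤ hi) (hL : ∀ i < m, lo ≤ v i) :
    (hi - lo) * ∑ i ∈ range m, ((v i).toNat : ℝ) ≤
      hi * (∑ i ∈ range m, (v i : ℝ) - m * lo) := by
  have e : hi * (∑ i ∈ range m, (v i : ℝ) - m * lo) = ∑ i ∈ range m, hi * (v i - lo) := by
    rw [← mul_sum, sum_sub_distrib, sum_const, card_range, nsmul_eq_mul]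
  rw [e, mul_sum]
  refine sum_le_sum fun i h => ?_
  have a := hU i (mem_range.1 h)
  have b := hL i (mem_range.1 h)
  rcases le_total (v i) 0 with c | c
  · rw [Int.toNat_of_nonpos c, Nat.cast_zero, mul_zero]
    exact mul_nonneg h2 (by linarith)
  · have : (((v i).toNat : ℕ) : ℝ) = v i := by
      exact_mod_cast congrArg (fun z : ℤ => (z : ℝ)) (Int.toNat_of_nonneg c)
    rw [this]
    nlinarith

end Pool.Agent.Lib.MP_d03834_ag.Nag
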