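import Pool.Agent.Lib.MP_d03834_ag.Rul.Col

/-! A computable form of the arithmetic criterion. -/

set_option autoImplicit false

namespace Pool.Agent.Lib.MP_d03834_ag.Nag

/-- the columns whose first row is j -/
def hlT (lf rt : ℕ → ℤ) (i : ℕ) : ℕ → ℕ
  | 0 => (rt i + 1 - lf 0).toNat
  | j + 1 => (min (rt (j + 1 + i) + 1) (lf j) - lf (j + 1)).toNat

/-- sum of f j for j less than k -/
def sumB (f : ℕ → ℕ) (k : ℕ) : ℕ := Nat.rec 0 (fun j a => a + f j) k

/-- f j holds for all j less than k -/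
def allB (f : ℕ → Bool) (k : ℕ) : Bool := Nat.rec true (fun j a => f j && a) k

theorem sumB_eq (f : ℕ → ℕ) (k : ℕ) : sumB f k = ∑ j ∈ Finset.range k, f j := by
  induction k with
  | zero => rfl
  | succ k ih => rw [Finset.sum_range_succ, ← ih]; rfl

theorem allB_iff (f : ℕ → Bool) (k : ℕ) : allB f k = true ↔ ∀ j < k, f j = true := by
  induction k with
  | zero => simp [allB]
  | succ k ih =>
    change (f k && allB f k) = true ↔ _
    rw [Bool.and_eq_true, ih, Nat.forall_lt_succ_right, and_comm]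

theorem hl_le_sum {J : ℕ} {lf rt : ℕ → ℤ} (h2 : Anti J rt) (i : ℕ) :
    hl J lf rt i ≤ ∑ j ∈ Finset.range (J + 1 - i), hlT lf rt i j := by
  classical
  let S : ℕ → Finset ℤ := fun j => Nat.casesOn j (Finset.Ico (lf 0) (rt i + 1))
    fun j => Finset.Ico (lf (j + 1)) (min (rt (j + 1 + i) + 1) (lf j))
  have hS : ∀ j, (S j).card = hlT lf rt i j := fun j => by
    cases j <;> exact Int.card_Ico _ _
  simp only [← hS]
  refine le_trans (Finset.card_le_card fun b hb => ?_) Finset.card_biUnion_le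
  obtain ⟨k, p, q, r⟩ := Col_memU.1 hb
  clear hb
  rw [Finset.mem_biUnion]
  induction k with
  | zero => exact ⟨0, Finset.mem_range.2 (by omega), Finset.mem_Ico.2 ⟨q, by
      rw [Nat.zero_add] at r; omega⟩⟩
  | succ k ih =>
    by_cases e : lf k ≤ b
    · exact ih (by omega) e (r.trans (Col_anti h2 (by omega) p))
    · exact ⟨k + 1, Finset.mem_range.2 (by omega), Finset.mem_Ico.2 ⟨q, by omega⟩⟩

instance (ω r N β g sm zc : ℕ) : Decidable (Sd ω r N β g sm zc) := by
  unfold Sd; infer_instance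

/-- the criterion for given lists of row ends -/
def goodL (J : ℕ) (lf rt : ℕ → ℤ) (n m T : ℕ) : Bool :=
  allB (fun j => decide (lf (j + 1) ≤ lf j) && decide (rt (j + 1) ≤ rt j)) J &&
    decide (sumB (fun i => sumB (hlT lf rt i) (J + 1 - i) - n * (m - i)) (J + 1) ≤ T)

/-- the computable criterion -/
def goodB (ω r N β p g n m c o T : ℕ) : Bool :=
  allB (fun j => decide (Sd ω r N β (g - (r + 2 * ω) * j) (smj m c o j) (zcj m c o j)))
      (g / (r + 2 * ω) + 1) &&
    goodL (g / (r + 2 * ω)) (Lw ω r N β p g) (Rw ω r N β p g m c o) n m T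

theorem goodB_sound {ω r N β p g n m c o T : ℕ} (h : goodB ω r N β p g n m c o T = true) :
    Good ω r N β p g n m c o T := by
  simp only [goodB, goodL, Bool.and_eq_true, allB_iff, decide_eq_true_eq, sumB_eq] at h
  obtain ⟨h1, h2, h3⟩ := h
  refine ⟨fun j hj => (h2 j hj).1, fun j hj => (h2 j hj).2, fun j hj => h1 j (by omega),
    le_trans (Finset.sum_le_sum fun i _ => ?_) h3⟩
  exact Nat.sub_le_sub_right (hl_le_sum (fun j hj => (h2 j hj).2) i) _

/-- chord of the positive part -/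
theorem chordK {m : ℕ} {v : ℕ → ℝ} {lo hi : ℝ} (h0 : lo ≤ 0) (h1 : 0 ≤ hi)
    (hv : ∀ i < m, lo ≤ v i ∧ v i ≤ hi) :
    (hi - lo) * ∑ i ∈ Finset.range m, max (v i) 0 ≤
      hi * (∑ i ∈ Finset.range m, v i - m * lo) := by
  have e : (m : ℝ) * lo = ∑ _i ∈ Finset.range m, lo := by simp
  rw [e, ← Finset.sum_sub_distrib, Finset.mul_sum, Finset.mul_sum]
  refine Finset.sum_le_sum fun i hi' => ?_
  obtain ⟨a, b⟩ := hv i (Finset.mem_range.1 hi')
  rcases le_total (v i) 0 with c | c
  · rw [max_eq_right c, mul_zero]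
    exact mul_nonneg h1 (by linarith)
  · rw [max_eq_left c]
    nlinarith

end Pool.Agent.Lib.MP_d03834_ag.Nag
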