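import Pool.Agent.Lib.MP_d03834_ag.Rul.ArG

/-! Splitting of the level sums, choice of the slope, range of the degree. -/

set_option autoImplicit false

namespace Pool.Agent.Lib.MP_d03834_ag.Nag

open Finset

theorem ars_sum {M : Type} [AddCommMonoid M] {J m : ℕ} (hm : m ≤ J) (f : ℕ → M)
    (hz : ∀ i, m < i → f i = 0) : ∑ i ∈ range (J + 1), f i = ∑ i ∈ range m, f i + f m := by
  rw [← sum_range_succ]
  refine (sum_subset (range_subset_range.2 (by omega)) fun i _ hi => hz i ?_).symm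
  rw [mem_range] at hi
  omega

theorem ars_lev (m : ℕ) (c : ℤ) :
    2 * ∑ i ∈ range m, (c - i) = m * (2 * c - m + 1) := by
  induction m with
  | zero => simp
  | succ m ih =>
    rw [sum_range_succ, mul_add, ih]
    push_cast
    ring

theorem ar_split {J m n : ℕ} (hm : m ≤ J) (h : ℕ → ℕ) (hz : ∀ i, m < i → h i = 0) :
    ∑ i ∈ range (J + 1), (h i - n * (m - i)) =
        ∑ i ∈ range m, ((h i : ℤ) - n * (m - i)).toNat + h m ∧
      2 * ∑ i ∈ range (J + 1), (h i : ℤ) =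
        2 * ∑ i ∈ range m, ((h i : ℤ) - n * (m - i)) + n * (m * (m + 1)) + 2 * h m := by
  constructor
  · rw [ars_sum hm _ fun i hi => by rw [hz i hi, Nat.zero_sub], Nat.sub_self, mul_zero,
      Nat.sub_zero]
    congr 1
    refine sum_congr rfl fun i hi => ?_
    have e : ((m : ℤ) - i) = ((m - i : ℕ) : ℤ) := by
      have := mem_range.1 hi
      omega
    rw [e, ← Nat.cast_mul, Int.toNat_sub]
  · rw [ars_sum hm (fun i => (h i : ℤ)) fun i hi => by rw [hz i hi, Nat.cast_zero],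
      sum_sub_distrib, ← mul_sum]
    have := ars_lev m m
    linear_combination (n : ℤ) * this

theorem ar_slope {n m : ℕ} (hm : 0 < m) {k0 μ lo hi : ℝ} (p : ℕ) (h0 : 4 ≤ k0) (h1 : 0 < μ)
    (h2 : μ ≤ 8) (hn : n ≤ 36) (hlo : 0 ≤ lo) (hhi : hi ≤ 1)
    (h3 : lo < (p - k0 * (√n - k0)) / μ) (h4 : (p - k0 * (√n - k0)) / μ ≤ hi) :
    ∃ (N β : ℕ) (κ : ℝ), 0 < β ∧ β < N ∧ κ = k0 + (p - μ * ((N - β) / N)) / k0 ∧
      lo < ((N : ℝ) - β) / N ∧ ((N : ℝ) - β) / N < hi ∧ √n ≤ κ ∧ κ ≤ √n + 1 / 100000 ∧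
      (κ ^ 2 - n) * (m * (m + 1)) ≤ 1 / 1000 := by
  obtain ⟨x, hx⟩ : ∃ x, x = (p - k0 * (√n - k0)) / μ := ⟨_, rfl⟩
  rw [← hx] at h3 h4
  have hx' : x * μ = p - k0 * (√n - k0) := by rw [hx, div_mul_cancel₀ _ h1.ne']
  obtain ⟨M, hM⟩ : ∃ M : ℝ, M = m * (m + 1) := ⟨_, rfl⟩
  have hM1 : 1 ≤ M := by
    have : (1 : ℝ) ≤ m := by exact_mod_cast hm
    nlinarith
  rw [← hM]
  have hd : 0 < 1 / (200000 * M) := by positivity
  obtain ⟨q, q1, q2⟩ := exists_rat_btwn (max_lt h3 (sub_lt_self x hd))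
  obtain ⟨q3, q4⟩ := max_lt_iff.1 q1
  have q5 : 0 < q := by exact_mod_cast hlo.trans_lt q3
  have q6 : q < 1 := by exact_mod_cast q2.trans_le (h4.trans hhi)
  have n1 : 0 < q.num := Rat.num_pos.2 q5
  have n2 : q.num < q.den := Rat.num_lt_denom_iff.2 q6
  have e : ((q.den : ℝ) - ((q.den - q.num.toNat : ℕ) : ℝ)) / q.den = q := by
    rw [Nat.cast_sub (by omega), sub_sub_cancel, Rat.cast_def]
    congr 1
    have : ((q.num.toNat : ℕ) : ℤ) = q.num := by omega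
    exact_mod_cast congrArg (fun z : ℤ => (z : ℝ)) this
  have k0' : 0 < k0 := by linarith
  obtain ⟨ε, hε⟩ : ∃ ε, ε = μ * (x - q) / k0 := ⟨_, rfl⟩
  have e1 : k0 + (p - μ * q) / k0 = √n + ε := by
    rw [hε]
    field_simp
    linear_combination -hx'
  have e2 : 0 ≤ ε := by
    rw [hε]
    exact div_nonneg (mul_nonneg h1.le (by linarith)) k0'.le
  have e3 : ε * M ≤ 1 / 100000 := by
    have a1 : (x - q) * M ≤ 1 / 200000 := by
      have : (x - q) * M ≤ 1 / (200000 * M) * M :=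
        mul_le_mul_of_nonneg_right (by linarith) (by linarith)
      rwa [show 1 / (200000 * M) * M = 1 / 200000 by field_simp] at this
    have a2 : 0 ≤ (x - q) * M := mul_nonneg (by linarith) (by linarith)
    rw [hε, div_mul_eq_mul_div, div_le_iff₀ k0']
    nlinarith
  have e4 : ε ≤ 1 / 100000 := by nlinarith
  have s1 : √(n : ℝ) ≤ 6 := Real.sqrt_le_iff.2 ⟨by norm_num, by
    have : (n : ℝ) ≤ 36 := by exact_mod_cast hn
    linarith⟩
  have s2 : √(n : ℝ) ^ 2 = n := Real.sq_sqrt n.cast_nonneg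
  have s3 : 0 ≤ ε * M := mul_nonneg e2 (by linarith)
  refine ⟨q.den, q.den - q.num.toNat, √n + ε, by omega, by omega, ?_, ?_, ?_, by linarith,
    by linarith, ?_⟩
  · rw [e, e1]
  · rwa [e]
  · rw [e]
    linarith
  · have : ((√(n : ℝ) + ε) ^ 2 - n) * M = (2 * √(n : ℝ) + ε) * (ε * M) := by
      linear_combination M * s2
    rw [this]
    nlinarith

theorem ar_range {n m d : ℕ} {κ : ℝ} (hn : 16 ≤ n) (hn' : n ≤ 36) (hm : 60 ≤ m) (k1 : √n ≤ κ)
    (k2 : (κ ^ 2 - n) * (m * (m + 1)) ≤ 1 / 1000)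
    (h1 : (d + 1).choose 2 ≤ n * (m + 1).choose 2) (h2 : n * (m + 1).choose 2 < (d + 3).choose 2) :
    κ / 2 - 5 / 2 - 1 / 50 ≤ d - κ * m ∧ d - κ * m ≤ κ / 2 - 1 / 2 := by
  have a1 : (d + 1) * d ≤ n * ((m + 1) * m) := by
    rw [← two_choose d, ← two_choose m, mul_left_comm]
    omega
  have a2 : n * ((m + 1) * m) < (d + 3) * (d + 2) := by
    have e : 2 * (d + 3).choose 2 = (d + 3) * (d + 2) := two_choose (d + 2)
    rw [← e, ← two_choose m, mul_left_comm]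
    omega
  have b1 : ((d : ℝ) + 1) * d ≤ n * ((m + 1) * m) := by exact_mod_cast a1
  have b2 : (n : ℝ) * ((m + 1) * m) < (d + 3) * (d + 2) := by exact_mod_cast a2
  have c1 : (16 : ℝ) ≤ n := by exact_mod_cast hn
  have c2 : (n : ℝ) ≤ 36 := by exact_mod_cast hn'
  have c3 : (60 : ℝ) ≤ m := by exact_mod_cast hm
  have c4 : (0 : ℝ) ≤ d := d.cast_nonneg
  have s0 : 0 ≤ κ := (Real.sqrt_nonneg _).trans k1
  have s1 : (n : ℝ) ≤ κ ^ 2 := (Real.sqrt_le_iff.1 k1).2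
  have s2 : 4 ≤ κ := by nlinarith
  have s3 : (1 : ℝ) ≤ m * (m + 1) := by nlinarith
  have s4 : κ ^ 2 ≤ 37 := by nlinarith
  have s5 : κ ≤ 7 := by nlinarith
  constructor
  · have : κ * (m + 1 / 2) - 1 / 50 ≤ d + 5 / 2 := by
      refine abs_le_of_sq_le_sq' ?_ (by linarith) |>.2
      have : κ * κ / 4 ≤ κ * (m + 1 / 2) / 25 := by nlinarith
      nlinarith
    linarith
  · have : (d : ℝ) + 1 / 2 ≤ κ * (m + 1 / 2) := by
      refine abs_le_of_sq_le_sq' ?_ (by positivity) |>.2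
      have : (n : ℝ) * (m * (m + 1)) ≤ κ ^ 2 * (m * (m + 1)) :=
        mul_le_mul_of_nonneg_right s1 (by linarith)
      nlinarith
    linarith

end Pool.Agent.Lib.MP_d03834_ag.Nag
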