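import Pool.Agent.Lib.MP_d03834_ag.Rul.Th2
import Pool.Agent.Lib.MP_d03834_ag.Nag.Cubic

/-! The biquadratic relation. -/

set_option autoImplicit false

namespace Pool.Agent.Lib.MP_d03834_ag.Nag

open MvPolynomial Module

theorem Biq_v_add (b : ℤ) (f g : R) : Cubic_v b (f + g) = Cubic_v b f + Cubic_v b g := by
  ext e
  simp [Cubic_v]

theorem Biq_yT_mul (u v : ℤ) : yT u * yT v = yT (u + v) := by
  unfold yT
  rw [← map_mul, LaurentPolynomial.T_add]

theorem Biq_cz_yT (u : ℤ) (f : R) (b e : ℤ) : cz (yT u * f) b e = cz f (b - u) e := by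
  rw [Th_conv, finsum_eq_single _ (u, 0)]
  · unfold yT
    rw [Win_T]
    simp
  · rintro ⟨c, d⟩ hp
    unfold yT
    rw [Win_T, if_neg, zero_mul]
    rintro ⟨h1, h2⟩
    exact hp (Prod.ext h1 h2)

theorem Biq_inj {N : ℤ} {f : R} (hf : Th N 4 0 f) (hs : f = yT 4 * iv f)
    (h : ∀ k : Fin 3, Cubic_v (k : ℕ) f = 0) : f = 0 := by
  have h0 : ∀ k : Fin 3, ∀ e, cz f (k : ℕ) e = 0 := by
    intro k e
    unfold cz
    split_ifs
    · have := congrArg (PowerSeries.coeff e.toNat) (h k)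
      rwa [Cubic_v, PowerSeries.coeff_mk, map_zero] at this
    · rfl
  have h3 : ∀ e, cz f 3 e = 0 := by
    intro e
    rw [hs, Biq_cz_yT, cz_iv]
    exact h0 1 e
  have step : ∀ b : ℤ, (∀ e, cz f (b + 4) e = 0) ↔ ∀ e, cz f b e = 0 := by
    intro b
    constructor
    · intro h1 e
      rw [← hf b e]
      exact h1 _
    · intro h1 e
      have := hf b (e - N * b)
      rw [show e - N * b + N * b + 0 = e by ring] at this
      rw [this]
      exact h1 _
  have h1 : ∀ (c : ℤ), (∀ e, cz f c e = 0) → ∀ q : ℤ, ∀ e, cz f (c + 4 * q) e = 0 := by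
    intro c hc0 q
    induction q using Int.induction_on with
    | zero => simpa using hc0
    | succ i ih =>
      rw [show c + 4 * ((i : ℤ) + 1) = c + 4 * i + 4 by ring, step]
      exact ih
    | pred i ih =>
      rw [← step, show c + 4 * (-(i : ℤ) - 1) + 4 = c + 4 * -(i : ℤ) by ring]
      exact ih
  refine cz_ext fun b e => ?_
  rw [Sh_czzero, show b = b % 4 + 4 * (b / 4) by omega]
  refine h1 _ ?_ _ _
  have : b % 4 = 0 ∨ b % 4 = 1 ∨ b % 4 = 2 ∨ b % 4 = 3 := by omega
  rcases this with h2 | h2 | h2 | h2 <;> rw [h2]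
  exacts [h0 0, h0 1, h0 2, h3]

theorem Biq_const {f : R} {u : L} (h : Ini f 0 u) : PowerSeries.constantCoeff f = u := by
  rw [← PowerSeries.coeff_zero_eq_constantCoeff_apply]
  exact h.2

theorem Biq_hv2 (s : Polynomial O) (a b : R) :
    hv 2 s a b = algebraMap O R (s.coeff 0) * (b * b) + algebraMap O R (s.coeff 1) * (a * b) +
      algebraMap O R (s.coeff 2) * (a * a) := by
  rw [Sh_hv_eq, Finset.Nat.sum_antidiagonal_eq_sum_range_succ_mk]
  simp [Finset.sum_range_succ, pow_two]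

theorem sym4 {N : ℤ} (hN : 0 < N) {F : R} (h : Th N 4 0 F) (hs : F = yT 4 * iv F) :
    ∃ q : Polynomial O, q.natDegree ≤ 2 ∧ hv 2 q (p0 N 0) (p1 N 0) = F ∧
      (PowerSeries.constantCoeff F = LaurentPolynomial.T 2 →
        PowerSeries.constantCoeff (q.coeff 2) = 1 ∧ PowerSeries.constantCoeff (q.coeff 1) = 0 ∧
          PowerSeries.constantCoeff (q.coeff 0) = 0) := by
  classical
  set P := p0 N 0 with hP
  set Q := p1 N 0 with hQ
  have cP : PowerSeries.constantCoeff P = LaurentPolynomial.T 1 :=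
    Biq_const (ini_p0 (N := N) (x := 0) le_rfl (by omega))
  have cQ : PowerSeries.constantCoeff Q = 1 + LaurentPolynomial.T 2 := Biq_const (ini_p1' hN)
  set θ : Fin 3 → R := ![Q * Q, P * Q, P * P] with hθ
  set M : Matrix (Fin 3) (Fin 3) O := Matrix.of fun k i => Cubic_v (k : ℕ) (θ i) with hM
  set w : Fin 3 → O := fun k => Cubic_v (k : ℕ) F with hw
  have c0 : PowerSeries.constantCoeff (Q * Q) =
      LaurentPolynomial.T 0 + LaurentPolynomial.T 2 + LaurentPolynomial.T 2 +
        LaurentPolynomial.T 4 := by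
    rw [map_mul, cQ, show (4 : ℤ) = 2 + 2 from rfl, LaurentPolynomial.T_add,
      LaurentPolynomial.T_zero]
    ring
  have c1 : PowerSeries.constantCoeff (P * Q) =
      LaurentPolynomial.T 1 + LaurentPolynomial.T 3 := by
    rw [map_mul, cP, cQ, show (3 : ℤ) = 1 + 2 from rfl, LaurentPolynomial.T_add]
    ring
  have c2 : PowerSeries.constantCoeff (P * P) = LaurentPolynomial.T 2 := by
    rw [map_mul, cP, ← LaurentPolynomial.T_add]
    rfl
  have hM1 : (PowerSeries.constantCoeff (R := ℂ)).mapMatrix M = !![1, 0, 0; 0, 1, 0; 2, 0, 1] := by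
    refine Matrix.ext fun k i => ?_
    rw [RingHom.mapMatrix_apply, Matrix.map_apply, hM, Matrix.of_apply, Cubic_v_const]
    fin_cases i
    · change (PowerSeries.constantCoeff (Q * Q)).coeff _ = _
      rw [c0]
      fin_cases k <;> simp [LaurentPolynomial.T_apply, -LaurentPolynomial.T_zero] <;> norm_num
    · change (PowerSeries.constantCoeff (P * Q)).coeff _ = _
      rw [c1]
      fin_cases k <;> simp [LaurentPolynomial.T_apply]
    · change (PowerSeries.constantCoeff (P * P)).coeff _ = _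
      rw [c2]
      fin_cases k <;> simp [LaurentPolynomial.T_apply]
  have hdet : IsUnit M.det := by
    rw [PowerSeries.isUnit_iff_constantCoeff, RingHom.map_det, hM1, Matrix.det_fin_three]
    simp
  set x : Fin 3 → O := M⁻¹.mulVec w with hx
  have hMx : M.mulVec x = w := by
    rw [hx, Matrix.mulVec_mulVec, Matrix.mul_nonsing_inv _ hdet, Matrix.one_mulVec]
  set q : Polynomial O := Polynomial.C (x 2) * Polynomial.X ^ 2 +
    Polynomial.C (x 1) * Polynomial.X + Polynomial.C (x 0) with hq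
  have q0 : q.coeff 0 = x 0 := by simp [hq]
  have q1 : q.coeff 1 = x 1 := by simp [hq]
  have q2 : q.coeff 2 = x 2 := by simp [hq]
  have tP : Th N 2 (2 * 0) P := th_p0 le_rfl hN.le hN
  have tQ : Th N 2 (2 * 0) Q := th_p1 le_rfl hN.le hN
  refine ⟨q, Polynomial.natDegree_quadratic_le, ?_, fun hF => ?_⟩
  · rw [← sub_eq_zero]
    refine Biq_inj (N := N) (Cubic_Th_sub (Th_hv tP tQ 2 q) h) ?_ fun k => ?_
    · rw [map_sub, mul_sub, ← hs, show (4 : ℤ) = 2 + 2 from rfl, ← Biq_yT_mul, ← pow_two,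
        ← hv_iv (sym_p0 hN) (sym_p1 hN)]
    · have := congrFun hMx k
      rw [Matrix.mulVec, dotProduct, Fin.sum_univ_three] at this
      rw [Biq_hv2, q0, q1, q2, Cubic_v_sub, Biq_v_add, Biq_v_add, Cubic_v_alg, Cubic_v_alg,
        Cubic_v_alg]
      simp only [hM, hw, hθ, Matrix.of_apply, Matrix.cons_val_zero, Matrix.cons_val_one,
        Matrix.cons_val] at this
      rw [← this]
      ring
  · have hc : ∀ k, PowerSeries.constantCoeff (w k) =
        (!![1, 0, 0; 0, 1, 0; 2, 0, 1] : Matrix (Fin 3) (Fin 3) ℂ).mulVec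
          (fun i => PowerSeries.constantCoeff (x i)) k := by
      intro k
      have h5 := RingHom.map_mulVec (PowerSeries.constantCoeff (R := ℂ)) M x k
      have : M.map (PowerSeries.constantCoeff (R := ℂ)) = !![1, 0, 0; 0, 1, 0; 2, 0, 1] := hM1
      rw [this, hMx] at h5
      exact h5
    have hcw : ∀ k : Fin 3, PowerSeries.constantCoeff (w k) = if k = 2 then 1 else 0 := by
      intro k
      rw [hw]
      simp only
      rw [Cubic_v_const, hF]
      fin_cases k <;> simp [LaurentPolynomial.T_apply]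
    have e0 := hc 0
    have e1 := hc 1
    have e2 := hc 2
    rw [hcw] at e0 e1 e2
    simp [Matrix.mulVec, dotProduct, Fin.sum_univ_three] at e0 e1 e2
    rw [q0, q1, q2]
    refine ⟨?_, e1.symm, e0.symm⟩
    rw [e2, ← e0]
    simp

theorem Biq_th {N x : ℤ} {a b : R} (ha : Th N 2 (N - 2 * x) a) (hb : Th N 2 (N - 2 * x) b) :
    Th N 4 0 (yT 2 * (a * iv b)) := by
  have h1 := Th_mul (Th_T N (-2)) (Th_mul ha (Th_iv hb))
  rwa [neg_neg, show N * -2 + (N - 2 * x + (N * 2 - (N - 2 * x))) = 0 by ring] at h1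

theorem Biq_sh {a a' b b' : R} (ha : Sh 1 (-1) a a') (hb : Sh (-1) 1 b b') :
    Sh 1 0 (yT 2 * (a * iv b)) (PowerSeries.X ^ 2 * yT 2 * (a' * iv b')) := by
  have h1 := Sh_iv hb
  rw [neg_neg] at h1
  exact Sh_mul Sh_yT (Sh_mul ha h1)

theorem Biq_sym (a b : R) : yT 4 * iv (yT 2 * (a * iv b)) = yT 2 * (b * iv a) := by
  rw [map_mul, map_mul, iv_iv, iv_yT, ← mul_assoc, Biq_yT_mul, mul_comm (iv a)]
  rfl

theorem exists_biq {N β : ℤ} (h0 : 0 < β) (h1 : β + 2 < N) : ∃ q g h, Biq N β q g h := by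
  have hN : 0 < N := by omega
  have tn : Th N 2 (N - 2 * (β + 1)) (n0 N (β + 1)) := th_n0 (by omega) (by omega) hN
  have tv : Th N 2 (N - 2 * (β + 1)) (v0 N (β + 1)) := th_v0 (by omega) (by omega) hN
  have sn : Sh 1 (-1) (n0 N (β + 1)) (n0 N β) := by
    have := sh_n0 (N := N) (x := β + 1) (x' := β) (by omega) (by omega) (by omega) (by omega) hN
    rwa [show β + 1 - β = 1 by ring, show β - (β + 1) = -1 by ring] at this
  have sv : Sh 1 (-1) (v0 N (β + 1)) (v0 N β) := by
    have := sh_v0 (N := N) (x := β + 1) (x' := β) (by omega) (by omega) (by omega) (by omega) hN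
    rwa [show β + 1 - β = 1 by ring, show β - (β + 1) = -1 by ring] at this
  have sn' : Sh (-1) 1 (n0 N (β + 1)) (n0 N (β + 2)) := by
    have := sh_n0 (N := N) (x := β + 1) (x' := β + 2) (by omega) (by omega) (by omega) (by omega) hN
    rwa [show β + 1 - (β + 2) = -1 by ring, show β + 2 - (β + 1) = 1 by ring] at this
  have sv' : Sh (-1) 1 (v0 N (β + 1)) (v0 N (β + 2)) := by
    have := sh_v0 (N := N) (x := β + 1) (x' := β + 2) (by omega) (by omega) (by omega) (by omega) hN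
    rwa [show β + 1 - (β + 2) = -1 by ring, show β + 2 - (β + 1) = 1 by ring] at this
  have sp : ∀ s : Polynomial O, Sh 1 0 (hv 2 s (p0 N 0) (p1 N 0)) (hv 2 s (p0 N 1) (p1 N 1)) :=
    fun s => Sh_hv (sh_p0 (N := N) (x := 0) (x' := 1) le_rfl hN.le (by omega) (by omega) hN)
      (sh_p1 (N := N) (x := 0) (x' := 1) le_rfl hN.le (by omega) (by omega) hN) 2 s
  obtain ⟨q, dq, eq, cq⟩ := sym4 hN (Biq_th tv tv) (Biq_sym _ _).symm
  obtain ⟨h, dh, eh, -⟩ := sym4 hN (Biq_th tn tn) (Biq_sym _ _).symm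
  have tg : Th N 4 0 (-(yT 2 * (n0 N (β + 1) * iv (v0 N (β + 1))) +
      yT 2 * (v0 N (β + 1) * iv (n0 N (β + 1))))) := by
    rw [← zero_sub]
    exact Cubic_Th_sub (Win_zero _ _ _) (Th_add (Biq_th tn tv) (Biq_th tv tn))
  obtain ⟨g, dg, eg, -⟩ := sym4 hN tg (by
    rw [map_neg, map_add, mul_neg, mul_add, Biq_sym, Biq_sym, add_comm])
  have iv1 := ini_v0 (N := N) (x := β + 1) (by omega) (by omega)
  have c1 := cq (by
    rw [map_mul, map_mul, Biq_const iv1, Biq_const (Ini_iv iv1), LaurentPolynomial.invert_T,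
      ← LaurentPolynomial.T_add]
    simp [yT])
  refine ⟨q, g, h, dq, dg, dh, c1.1, c1.2.1, c1.2.2, ?_, ?_, ?_⟩
  · refine Sh_uniq (sp q) ?_
    rw [eq]
    exact Biq_sh sv sv'
  · refine Sh_uniq (sp g) ?_
    rw [eg, mul_add]
    exact Sh_neg (Sh_add (Biq_sh sn sv') (Biq_sh sv sn'))
  · refine Sh_uniq (sp h) ?_
    rw [eh]
    exact Biq_sh sn sn'

end Pool.Agent.Lib.MP_d03834_ag.Nag
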