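import Pool.Agent.Lib.MP_d03834_ag.Rul.ArD

/-! Visits of a rotation to a short arc. -/

set_option autoImplicit false

namespace Pool.Agent.Lib.MP_d03834_ag.Nag

open Finset

/-- the four slopes of the quartic -/
def Th4 (θ : ℝ) : Prop :=
  (49242 / 100000 ≤ θ ∧ θ ≤ 49248 / 100000) ∨ (97056 / 100000 ≤ θ ∧ θ ≤ 97062 / 100000) ∨
    (143559 / 100000 ≤ θ ∧ θ ≤ 143565 / 100000) ∨ (188854 / 100000 ≤ θ ∧ θ ≤ 188860 / 100000)

theorem cnt_sep {lo q s : ℕ} {θ : ℝ} (h1 : (lo : ℝ) / 100000 ≤ θ) (h2 : θ ≤ (lo + 6) / 100000)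
    (h : ∀ k < q, 0 < k → s ≤ k * lo % 1600000 ∧ k * lo % 1600000 + 6 * k + s ≤ 1600000)
    (k : ℕ) (k0 : 0 < k) (kq : k < q) (t : ℤ) : (s : ℝ) / 100000 ≤ |θ * k - 16 * t| := by
  obtain ⟨a1, a2⟩ := h k kq k0
  have e := Nat.div_add_mod (k * lo) 1600000
  generalize k * lo / 1600000 = a at e
  generalize k * lo % 1600000 = r at e a1 a2
  have e' : (1600000 : ℝ) * a + r = k * lo := by exact_mod_cast e
  have b1 : (s : ℝ) ≤ r := by exact_mod_cast a1
  have b2 : (r : ℝ) + 6 * k + s ≤ 1600000 := by exact_mod_cast a2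
  have k1 : (0 : ℝ) ≤ k := Nat.cast_nonneg k
  have c1 := mul_le_mul_of_nonneg_right h1 k1
  have c2 := mul_le_mul_of_nonneg_right h2 k1
  rcases le_or_gt t a with c | c
  · have : (t : ℝ) ≤ a := by exact_mod_cast c
    exact le_abs.2 (Or.inl (by linarith))
  · have : (a : ℝ) + 1 ≤ t := by exact_mod_cast c
    exact le_abs.2 (Or.inr (by linarith))

theorem cnt_win {m q w : ℕ} {θ s L α y : ℝ} (hs : 0 < s) (hL : 0 ≤ L) (hw : m ≤ q * w)
    (sep : ∀ k : ℕ, 0 < k → k < q → ∀ t : ℤ, s ≤ |θ * k - 16 * t|) (S : Finset ℕ)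
    (hS : ∀ i ∈ S, i < m ∧ ∃ j : ℕ, α ≤ y - (16 + θ) * i - 16 * j ∧
      y - (16 + θ) * i - 16 * j < α + L) : (S.card : ℝ) ≤ w * (L / s + 1) := by
  choose! j hj using fun i hi => (hS i hi).2
  let f : ℕ → ℕ := fun i => ⌊(y - (16 + θ) * i - 16 * j i - α) / s⌋₊
  have key : ∀ i ∈ S, ∀ i' ∈ S, i < i' → i / q = i' / q → f i ≠ f i' := by
    intro i hi i' hi' lt e1 e2
    have q0 : 0 < q := by
      have := (hS i hi).1
      rcases Nat.eq_zero_or_pos q with rfl | h
      · omega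
      · exact h
    obtain ⟨k, rfl⟩ := Nat.exists_eq_add_of_lt lt
    have kq : k + 1 < q := by
      have a1 := Nat.div_add_mod i q
      have a2 := Nat.div_add_mod (i + k + 1) q
      have a3 := Nat.mod_lt (i + k + 1) q0
      rw [← e1] at a2
      omega
    have h := sep (k + 1) (by omega) kq ((j i : ℤ) - j (i + k + 1) - (k + 1))
    have p1 := div_nonneg (sub_nonneg.2 (hj i hi).1) hs.le
    have p2 := div_nonneg (sub_nonneg.2 (hj _ hi').1) hs.le
    have f1 := Nat.floor_le p1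
    have f2 := Nat.floor_le p2
    have g1 := Nat.lt_floor_add_one ((y - (16 + θ) * i - 16 * j i - α) / s)
    have g2 := Nat.lt_floor_add_one ((y - (16 + θ) * (i + k + 1 : ℕ) - 16 * j (i + k + 1) - α) / s)
    change ⌊_⌋₊ = ⌊_⌋₊ at e2
    rw [← e2] at f2 g2
    rw [le_div_iff₀ hs] at f1 f2
    rw [div_lt_iff₀ hs] at g1 g2
    push_cast at h f2 g2
    rcases le_abs.1 h with h | h <;> linarith
  have c : S.card ≤ (range w ×ˢ range (⌊L / s⌋₊ + 1)).card := by
    refine card_le_card_of_injOn (fun i => (i / q, f i)) (fun i hi => ?_) fun i hi i' hi' e => ?_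
    · have hi : i ∈ S := hi
      refine mem_coe.2 (mem_product.2 ⟨mem_range.2 ?_, mem_range.2 (Nat.lt_succ_of_le ?_)⟩)
      · exact Nat.div_lt_of_lt_mul (lt_of_lt_of_le (hS i hi).1 hw)
      · exact Nat.floor_le_floor (div_le_div_of_nonneg_right (by linarith [(hj i hi).2]) hs.le)
    · obtain ⟨e1, e2⟩ := Prod.mk.inj e
      rcases lt_trichotomy i i' with h | h | h
      · exact absurd e2 (key i hi i' hi' h e1)
      · exact h
      · exact absurd e2.symm (key i' hi' i hi h e1.symm)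
  rw [card_product, card_range, card_range] at c
  have c' : (S.card : ℝ) ≤ w * (⌊L / s⌋₊ + 1) := by exact_mod_cast c
  have := Nat.floor_le (div_nonneg hL hs.le)
  exact c'.trans (mul_le_mul_of_nonneg_left (by linarith) (Nat.cast_nonneg w))

theorem cnt_lin {m q s lo : ℕ} {θ L α y : ℝ} (hs : 0 < s) (hq : 0 < q) (hL : 0 ≤ L)
    (h1 : (lo : ℝ) / 100000 ≤ θ) (h2 : θ ≤ (lo + 6) / 100000)
    (h : ∀ k < q, 0 < k → s ≤ k * lo % 1600000 ∧ k * lo % 1600000 + 6 * k + s ≤ 1600000)
    (S : Finset ℕ) (hS : ∀ i ∈ S, i < m ∧ ∃ j : ℕ, α ≤ y - (16 + θ) * i - 16 * j ∧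
      y - (16 + θ) * i - 16 * j < α + L) :
    (q : ℝ) * s * S.card ≤ (m + q - 1) * (100000 * L + s) ∧
      (m ≤ q → (s : ℝ) * S.card ≤ 100000 * L + s) := by
  have s0 : (0 : ℝ) < s := by exact_mod_cast hs
  have e : (s : ℝ) * (L / (s / 100000) + 1) = 100000 * L + s := by field_simp
  have p : 0 ≤ 100000 * L + s := by positivity
  constructor
  · have a1 := Nat.div_add_mod (m + q - 1) q
    have a2 := Nat.mod_lt (m + q - 1) hq
    have c := cnt_win (w := (m + q - 1) / q) (by positivity) hL (by omega) (cnt_sep h1 h2 h) S hS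
    have a3 : (q : ℝ) * ((m + q - 1) / q : ℕ) + 1 ≤ m + q := by
      exact_mod_cast (show q * ((m + q - 1) / q) + 1 ≤ m + q by omega)
    generalize (((m + q - 1) / q : ℕ) : ℝ) = w at c a3
    have c1 := mul_le_mul_of_nonneg_left c (mul_nonneg (Nat.cast_nonneg q) s0.le)
    have c2 := mul_le_mul_of_nonneg_right (show q * w ≤ m + q - 1 by linarith) p
    refine c1.trans (le_trans (le_of_eq ?_) c2)
    rw [← e]
    ring
  · intro hm
    have c := cnt_win (w := 1) (by positivity) hL (by omega) (cnt_sep h1 h2 h) S hS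
    rw [← e]
    exact mul_le_mul_of_nonneg_left (by simpa using c) s0.le

theorem cnt4 {m : ℕ} {θ x α y : ℝ} (hm : 100 ≤ m) (hθ : Th4 θ) (x2 : x ≤ 29 / 50) (S : Finset ℕ)
    (hS : ∀ i ∈ S, i < m ∧ ∃ (j : ℕ) (σ : ℝ), σ = y - (16 + θ) * i - 16 * j ∧ α ≤ σ ∧
      θ * (σ - α) < 16 * (x - 1 + θ / 2 + θ ^ 2 / 32 + 1 / 1000) - θ * max (θ - 1) 0)
    (h0 : S.Nonempty) : (S.card : ℝ) + 12 / 5 ≤ x * m := by
  have m1 : (100 : ℝ) ≤ m := by exact_mod_cast hm
  have key : ∀ a b : ℝ, 0 < θ → (0 ≤ a * x - b → 16 * (x - 1 + θ / 2 + θ ^ 2 / 32 + 1 / 1000) -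
      θ * max (θ - 1) 0 ≤ θ * (a * x - b)) → (a * x - b < 0 → 16 * (x - 1 + θ / 2 + θ ^ 2 / 32 +
        1 / 1000) - θ * max (θ - 1) 0 ≤ 0) → 0 ≤ a * x - b ∧ ∀ i ∈ S, i < m ∧ ∃ j : ℕ,
      α ≤ y - (16 + θ) * i - 16 * j ∧ y - (16 + θ) * i - 16 * j < α + (a * x - b) := by
    intro a b t0 k1 k2
    have p : 0 ≤ a * x - b := by
      by_contra c
      obtain ⟨i, hi⟩ := h0
      obtain ⟨-, j, σ, -, a1, a2⟩ := hS i hi
      have := mul_nonneg t0.le (sub_nonneg.2 a1)
      linarith [k2 (not_le.1 c)]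
    refine ⟨p, fun i hi => ?_⟩
    obtain ⟨a0, j, σ, rfl, a1, a2⟩ := hS i hi
    refine ⟨a0, j, a1, ?_⟩
    have := lt_of_mul_lt_mul_left (a2.trans_le (k1 p)) t0.le
    linarith
  rcases hθ with ⟨t1, t2⟩ | ⟨t1, t2⟩ | ⟨t1, t2⟩ | ⟨t1, t2⟩
  · have e : max (θ - 1) 0 = 0 := max_eq_right (by linarith)
    obtain ⟨p, -⟩ := key 0 1 (by linarith) (fun h => by linarith) fun _ => by
      rw [e]
      nlinarith
    linarith
  · have e : max (θ - 1) 0 = 0 := max_eq_right (by linarith)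
    obtain ⟨p, k⟩ := key (165 / 10) (798 / 100) (by linarith) (fun h => by
      rw [e]
      nlinarith) fun _ => by
      rw [e]
      nlinarith
    have c := (cnt_lin (q := 11) (s := 97000) (lo := 97056) (by norm_num) (by norm_num) p
      (by push_cast; linarith) (by push_cast; linarith) (by decide) S k).1
    push_cast at c
    nlinarith
  · have e : max (θ - 1) 0 = θ - 1 := max_eq_left (by linarith)
    obtain ⟨p, k⟩ := key (1115 / 100) (285 / 100) (by linarith) (fun h => by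
      rw [e]
      nlinarith) fun _ => by
      rw [e]
      nlinarith
    have c := (cnt_lin (q := 11) (s := 143000) (lo := 143559) (by norm_num) (by norm_num) p
      (by push_cast; linarith) (by push_cast; linarith) (by decide) S k).1
    push_cast at c
    nlinarith
  · have e : max (θ - 1) 0 = θ - 1 := max_eq_left (by linarith)
    obtain ⟨p, k⟩ := key (8473 / 1000) (407 / 1000) (by linarith) (fun h => by
      rw [e]
      nlinarith) fun _ => by
      rw [e]
      nlinarith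
    rcases le_total x (18 / 100) with c | c
    · have c := cnt_lin (q := 144) (s := 10500) (lo := 188854) (by norm_num) (by norm_num) p
        (by push_cast; linarith) (by push_cast; linarith) (by decide +kernel) S k
      push_cast at c
      rcases le_or_gt m 144 with d | d
      · have := c.2 d
        nlinarith
      · have d : (145 : ℝ) ≤ m := by exact_mod_cast d
        have := c.1
        nlinarith
    · have c := (cnt_lin (q := 17) (s := 89100) (lo := 188854) (by norm_num) (by norm_num) p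
        (by push_cast; linarith) (by push_cast; linarith) (by decide) S k).1
      push_cast at c
      nlinarith

end Pool.Agent.Lib.MP_d03834_ag.Nag
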