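import Pool.Agent.Lib.MP_d03834_ag.Rul.Defs

/-! Columns and levels of a diagram of rows. -/

set_option autoImplicit false

namespace Pool.Agent.Lib.MP_d03834_ag.Nag

open MvPolynomial Module

lemma Col_anti {J : ℕ} {f : ℕ → ℤ} (h : Anti J f) {j k : ℕ} (hjk : j ≤ k) (hk : k ≤ J) :
    f k ≤ f j := by
  induction k, hjk using Nat.le_induction with
  | base => exact le_rfl
  | succ k _ ih => exact (h k (by omega)).trans (ih (by omega))

/-- the columns with more than i points -/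
noncomputable def colU (J : ℕ) (lf rt : ℕ → ℤ) (i : ℕ) : Finset ℤ :=
  (Finset.range (J + 1 - i)).biUnion fun j => Finset.Icc (lf j) (rt (j + i))

/-- the rows which meet the column b -/
def colJ (J : ℕ) (lf rt : ℕ → ℤ) (b : ℤ) : Finset ℕ :=
  (Finset.range (J + 1)).filter fun j => lf j ≤ b ∧ b ≤ rt j

lemma Col_hl (J : ℕ) (lf rt : ℕ → ℤ) (i : ℕ) : hl J lf rt i = (colU J lf rt i).card := rfl

lemma Col_memU {J : ℕ} {lf rt : ℕ → ℤ} {i : ℕ} {b : ℤ} :
    b ∈ colU J lf rt i ↔ ∃ j, j + i ≤ J ∧ lf j ≤ b ∧ b ≤ rt (j + i) := by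
  simp only [colU, Finset.mem_biUnion, Finset.mem_range, Finset.mem_Icc]
  exact exists_congr fun j => and_congr_left' (by omega)

lemma Col_memJ {J : ℕ} {lf rt : ℕ → ℤ} {j : ℕ} {b : ℤ} :
    j ∈ colJ J lf rt b ↔ j ≤ J ∧ lf j ≤ b ∧ b ≤ rt j := by
  simp only [colJ, Finset.mem_filter, Finset.mem_range]
  exact and_congr_left' (by omega)

lemma Col_big {J : ℕ} {lf rt : ℕ → ℤ} (h1 : Anti J lf) (h2 : Anti J rt) {i : ℕ} {b : ℤ} :
    i < (colJ J lf rt b).card ↔ b ∈ colU J lf rt i := by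
  rw [Col_memU]
  constructor
  · intro h
    have ne : (colJ J lf rt b).Nonempty := Finset.card_pos.1 (by omega)
    have h3 : (colJ J lf rt b).card ≤
        (Finset.Icc ((colJ J lf rt b).min' ne) ((colJ J lf rt b).max' ne)).card :=
      Finset.card_le_card fun k hk =>
        Finset.mem_Icc.2 ⟨Finset.min'_le _ k hk, Finset.le_max' _ k hk⟩
    rw [Nat.card_Icc] at h3
    obtain ⟨-, p, -⟩ := Col_memJ.1 (Finset.min'_mem _ ne)
    obtain ⟨q, -, r⟩ := Col_memJ.1 (Finset.max'_mem _ ne)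
    exact ⟨_, by omega, p, r.trans (Col_anti h2 (by omega) q)⟩
  · rintro ⟨j, p, q, r⟩
    have : (Finset.Icc j (j + i)).card ≤ (colJ J lf rt b).card :=
      Finset.card_le_card fun k hk => by
        obtain ⟨s, t⟩ := Finset.mem_Icc.1 hk
        exact Col_memJ.2 ⟨by omega, (Col_anti h1 s (by omega)).trans q,
          r.trans (Col_anti h2 t p)⟩
    rw [Nat.card_Icc] at this
    omega

lemma Col_hh {J : ℕ} {lf rt : ℕ → ℤ} (h1 : Anti J lf) (h2 : Anti J rt) (i : ℕ) :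
    hh (colU J lf rt 0) (fun b => (colJ J lf rt b).card) i = hl J lf rt i := by
  rw [hh, Col_hl]
  refine congrArg Finset.card (Finset.ext fun b => ?_)
  rw [Finset.mem_filter, ← Col_big h1 h2, ← Col_big h1 h2]
  omega

lemma Col_len (J : ℕ) (lf rt : ℕ → ℤ) (b : ℤ) : (colJ J lf rt b).card ≤ J + 1 :=
  (Finset.card_filter_le _ _).trans (Finset.card_range _).le

theorem rcrit {n m r J : ℕ} {lf rt : ℕ → ℤ} (h1 : Anti J lf) (h2 : Anti J rt)
    (h : ∑ i ∈ Finset.range (J + 1), (hl J lf rt i - n * (m - i)) ≤ r) :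
    ∃ (z : Fin n ⊕ Fin r → ℂˣ) (σ : Fin n ⊕ Fin r → ℂ), ∀ M, Rows J lf rt M →
      (∀ l, M ∈ pt (z l) (σ l) ^ Sum.elim (fun _ => m) (fun _ => 1) l) → M = 0 := by
  obtain ⟨z, σ, hz⟩ := crit_pts (n := n) (m := m) (r := r) (K := J + 1) (U := colU J lf rt 0)
    (fun b => sInf {j | j ∈ colJ J lf rt b}) (len := fun b => (colJ J lf rt b).card)
    (by
      rw [hh, Finset.card_eq_zero, Finset.filter_eq_empty_iff]
      exact fun b _ => not_lt.2 (Col_len J lf rt b))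
    (by simpa only [Col_hh h1 h2] using h)
  refine ⟨z, σ, fun M hM => hz M fun j b hb => ?_⟩
  have c : j ∈ colJ J lf rt b := Col_memJ.2 (hM j b hb)
  have l : sInf {j | j ∈ colJ J lf rt b} ≤ j := Nat.sInf_le c
  have c0 : sInf {j | j ∈ colJ J lf rt b} ∈ colJ J lf rt b :=
    Nat.sInf_mem (s := {j | j ∈ colJ J lf rt b}) ⟨j, c⟩
  obtain ⟨p, -, q⟩ := Col_memJ.1 c
  have big : j - sInf {j | j ∈ colJ J lf rt b} < (colJ J lf rt b).card :=
    (Col_big h1 h2).2 (Col_memU.2 ⟨_, by omega, (Col_memJ.1 c0).2.1, by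
      rwa [Nat.add_sub_cancel' l]⟩)
  exact ⟨(Col_big h1 h2).1 (by omega), l, by beta_reduce; omega⟩

theorem hl_sum {J : ℕ} {lf rt : ℕ → ℤ} (h1 : Anti J lf) (h2 : Anti J rt) :
    ∑ i ∈ Finset.range (J + 1), hl J lf rt i =
      ∑ j ∈ Finset.range (J + 1), (rt j + 1 - lf j).toNat := by
  simp only [← Col_hh h1 h2]
  rw [hh_sum fun b _ => Col_len J lf rt b]
  simp only [colJ, Finset.card_filter]
  rw [Finset.sum_comm]
  refine Finset.sum_congr rfl fun j hj => ?_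
  rw [← Finset.card_filter, ← Int.card_Icc]
  refine congrArg Finset.card (Finset.ext fun b => ?_)
  rw [Finset.mem_filter, Finset.mem_Icc, and_iff_right_iff_imp, Col_memU]
  exact fun h => ⟨j, by have := Finset.mem_range.1 hj; omega, h⟩

theorem hl_mono {J : ℕ} {lf rt rt' : ℕ → ℤ} (h : ∀ j ≤ J, rt j ≤ rt' j) (i : ℕ) :
    hl J lf rt i ≤ hl J lf rt' i := by
  rw [Col_hl, Col_hl]
  refine Finset.card_le_card fun b hb => ?_
  obtain ⟨j, p, q, r⟩ := Col_memU.1 hb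
  exact Col_memU.2 ⟨j, p, q, r.trans (h _ p)⟩

theorem hl_zero {J : ℕ} {lf rt : ℕ → ℤ} {i : ℕ} (h : ∀ j, j + i ≤ J → rt (j + i) < lf j) :
    hl J lf rt i = 0 := by
  rw [Col_hl, Finset.card_eq_zero]
  refine Finset.eq_empty_of_forall_notMem fun b hb => ?_
  obtain ⟨j, p, q, r⟩ := Col_memU.1 hb
  have := h j p
  omega

theorem hl_up1 {J : ℕ} {lf rt : ℕ → ℤ} (h1 : Anti J lf) (h2 : Anti J rt) {i j : ℕ}
    (hj : j ≤ J) (h : ∀ j', j < j' → j' + i ≤ J → rt (j' + i) < lf j') :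
    hl J lf rt i ≤ (rt i + 1 - lf j).toNat := by
  rw [Col_hl, ← Int.card_Icc]
  refine Finset.card_le_card fun b hb => ?_
  obtain ⟨k, p, q, r⟩ := Col_memU.1 hb
  have hk : k ≤ j := by
    by_contra e
    have := h k (by omega) p
    omega
  exact Finset.mem_Icc.2 ⟨(Col_anti h1 hk hj).trans q, r.trans (Col_anti h2 (by omega) p)⟩

theorem hl_up2 {J : ℕ} {lf rt : ℕ → ℤ} (h1 : Anti J lf) (h2 : Anti J rt) {i j : ℕ}
    (hj : j ≤ J) (h : ∀ j', j + 1 < j' → j' + i ≤ J → rt (j' + i) < lf j') :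
    hl J lf rt i ≤ (rt i + 1 - lf j).toNat + (rt (j + 1 + i) + 1 - lf (j + 1)).toNat := by
  rw [Col_hl, ← Int.card_Icc, ← Int.card_Icc]
  refine le_trans (Finset.card_le_card fun b hb => ?_) (Finset.card_union_le _ _)
  obtain ⟨k, p, q, r⟩ := Col_memU.1 hb
  have hk : k ≤ j + 1 := by
    by_contra e
    have := h k (by omega) p
    omega
  rw [Finset.mem_union, Finset.mem_Icc, Finset.mem_Icc]
  rcases hk.lt_or_eq with hk | rfl
  · exact .inl ⟨(Col_anti h1 (by omega) hj).trans q, r.trans (Col_anti h2 (by omega) p)⟩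
  · exact .inr ⟨q, r⟩

lemma Col_sub {J : ℕ} {lf rt : ℕ → ℤ} {i j : ℕ} (hj : j + i ≤ J)
    (h : ∀ j' < j, lf j' ≤ rt (j' + 1 + i) + 1) :
    Finset.Icc (lf j) (rt i) ⊆ colU J lf rt i := fun b hb => by
  obtain ⟨p, q⟩ := Finset.mem_Icc.1 hb
  clear hb
  induction j with
  | zero => exact Col_memU.2 ⟨0, hj, p, by rwa [Nat.zero_add]⟩
  | succ j ih =>
    by_cases e : lf j ≤ b
    · exact ih (by omega) (fun k hk => h k (by omega)) e
    · have := h j (by omega)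
      exact Col_memU.2 ⟨j + 1, hj, p, by omega⟩

theorem hl_low {J : ℕ} {lf rt : ℕ → ℤ} {i j : ℕ} (hj : j + i ≤ J)
    (h : ∀ j' < j, lf j' ≤ rt (j' + 1 + i) + 1) : rt i + 1 - lf j ≤ hl J lf rt i := by
  have := Finset.card_le_card (Col_sub hj h)
  rw [Int.card_Icc, ← Col_hl] at this
  omega

theorem hl_low2 {J : ℕ} {lf rt : ℕ → ℤ} {i j : ℕ} (hj : j + 1 + i ≤ J)
    (h : ∀ j' < j, lf j' ≤ rt (j' + 1 + i) + 1) (h0 : lf j ≤ rt i + 1) (h1 : lf (j + 1) < lf j)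
    (h2 : lf (j + 1) ≤ rt (j + 1 + i)) : rt i + 2 - lf j ≤ hl J lf rt i := by
  have hn : lf (j + 1) ∉ Finset.Icc (lf j) (rt i) := fun e => by
    have := (Finset.mem_Icc.1 e).1
    omega
  have : (insert (lf (j + 1)) (Finset.Icc (lf j) (rt i))).card ≤ (colU J lf rt i).card :=
    Finset.card_le_card (Finset.insert_subset (Col_memU.2 ⟨j + 1, hj, le_rfl, h2⟩)
      (Col_sub (by omega) h))
  rw [Finset.card_insert_of_notMem hn, Int.card_Icc, ← Col_hl] at this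
  omega

end Pool.Agent.Lib.MP_d03834_ag.Nag
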