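import Pool.Agent.Lib.MP_d03834_ag.Rul.Ind
import Pool.Agent.Lib.MP_d03834_ag.Rul.Biq
import Pool.Agent.Lib.MP_d03834_ag.Rul.Aid

/-! The equation of the curve. -/

set_option autoImplicit false

namespace Pool.Agent.Lib.MP_d03834_ag.Nag

open MvPolynomial Module

theorem Crv_pdiv {S : Type} [CommRing S] (a b c : S) (Q : Polynomial S) :
    ∃ (n : ℕ) (T : Polynomial S) (x y : S), Polynomial.C (a ^ n) * Q =
      (Polynomial.C a * Polynomial.X ^ 2 + Polynomial.C b * Polynomial.X + Polynomial.C c) * T +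
        (Polynomial.C x * Polynomial.X + Polynomial.C y) := by
  induction Q using Polynomial.induction_on with
  | C u => exact ⟨0, 0, 0, u, by simp⟩
  | add p q hp hq =>
    obtain ⟨n, T, x, y, h⟩ := hp
    obtain ⟨n', T', x', y', h'⟩ := hq
    refine ⟨n + n', Polynomial.C (a ^ n') * T + Polynomial.C (a ^ n) * T',
      a ^ n' * x + a ^ n * x', a ^ n' * y + a ^ n * y', ?_⟩
    simp only [map_add, map_mul, pow_add] at h h' ⊢
    linear_combination Polynomial.C (a ^ n') * h + Polynomial.C (a ^ n) * h'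
  | monomial m u hp =>
    obtain ⟨n, T, x, y, h⟩ := hp
    refine ⟨n + 1, Polynomial.C a * Polynomial.X * T + Polynomial.C x, a * y - x * b, -(x * c), ?_⟩
    simp only [map_mul, map_sub, map_neg, pow_succ] at h ⊢
    linear_combination Polynomial.C a * Polynomial.X * h

theorem Crv_gauss {S : Type} [CommRing S] [IsDomain S] [UniqueFactorizationMonoid S]
    (P : Polynomial S) (a : S) (ha : a ≠ 0) (h : ∀ π : S, Prime π → π ∣ a → ¬Polynomial.C π ∣ P)
    (Q : Polynomial S) (hQ : P ∣ Polynomial.C a * Q) : P ∣ Q := by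
  induction a using UniqueFactorizationMonoid.induction_on_prime generalizing Q with
  | h₁ => exact absurd rfl ha
  | h₂ x hx => exact ((hx.map Polynomial.C).dvd_mul_left).1 hQ
  | h₃ a π h0 hπ ih =>
    refine ih h0 (fun p hp hpa => h p hp (hpa.mul_left _)) Q ?_
    obtain ⟨T, hT⟩ := hQ
    have hp : Prime (Polynomial.C π) := Polynomial.prime_C_iff.2 hπ
    have h1 : Polynomial.C π ∣ P * T := ⟨Polynomial.C a * Q, by rw [← hT, map_mul, mul_assoc]⟩
    obtain ⟨T', rfl⟩ := (hp.dvd_or_dvd h1).resolve_left (h π hπ (dvd_mul_right _ _))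
    refine ⟨T', mul_left_cancel₀ hp.ne_zero ?_⟩
    rw [← mul_assoc, ← map_mul, hT]
    ring

theorem Crv_coeff {K : Type} [CommRing K] (a : Polynomial K) (j : ℕ) (μ : Fin 2 →₀ ℕ) :
    coeff μ (Polynomial.aeval (X 0 : MvPolynomial (Fin 2) K) a * X 1 ^ j) =
      if μ 1 = j then a.coeff (μ 0) else 0 := by
  induction a using Polynomial.induction_on' with
  | add p q hp hq =>
    rw [map_add, add_mul, coeff_add, hp, hq, Polynomial.coeff_add]
    split_ifs <;> simp
  | monomial n u =>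
    have e : Polynomial.aeval (X 0 : MvPolynomial (Fin 2) K) (Polynomial.monomial n u) * X 1 ^ j =
        monomial (Finsupp.single 0 n + Finsupp.single 1 j) u := by
      rw [Polynomial.aeval_monomial, X_pow_eq_monomial, X_pow_eq_monomial, algebraMap_eq,
        C_mul_monomial, monomial_mul, mul_one, mul_one]
    have e2 : Finsupp.single 0 n + Finsupp.single 1 j = μ ↔ n = μ 0 ∧ μ 1 = j := by
      constructor
      · rintro rfl
        simp
      · rintro ⟨rfl, rfl⟩
        ext i
        fin_cases i <;> simp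
    rw [e, coeff_monomial, Polynomial.coeff_monomial]
    by_cases h1 : μ 1 = j
    · by_cases h0 : n = μ 0
      · rw [if_pos (e2.2 ⟨h0, h1⟩), if_pos h1, if_pos h0]
      · rw [if_neg (fun h => h0 (e2.1 h).1), if_pos h1, if_neg h0]
    · rw [if_neg (fun h => h1 (e2.1 h).2), if_neg h1]

theorem Crv_iso {K S : Type} [CommRing K] [CommRing S] [Algebra K S] (w U : S)
    (G : MvPolynomial (Fin 2) K) :
    (aeval ![Polynomial.C Polynomial.X, Polynomial.X] G : Polynomial (Polynomial K)).eval₂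
      (Polynomial.aeval w : Polynomial K →ₐ[K] S).toRingHom U = aeval ![w, U] G := by
  induction G using MvPolynomial.induction_on with
  | C u => simp [Polynomial.algebraMap_apply]
  | add p q hp hq => rw [map_add, Polynomial.eval₂_add, hp, hq, map_add]
  | mul_X p i hp =>
    rw [map_mul, Polynomial.eval₂_mul, hp, map_mul]
    congr 1
    fin_cases i <;> simp

theorem Crv_ker {K S : Type} [CommRing K] [IsDomain K] [UniqueFactorizationMonoid K] [CommRing S]
    [Algebra K S] {w U : S} {a b c : Polynomial K} (ha : a ≠ 0)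
    (h0 : Polynomial.aeval w a * U ^ 2 + Polynomial.aeval w b * U + Polynomial.aeval w c = 0)
    (h1 : ∀ x y : Polynomial K, Polynomial.aeval w x * U + Polynomial.aeval w y = 0 →
      x = 0 ∧ y = 0) (h2 : ∀ π : Polynomial K, Prime π → π ∣ a → π ∣ b → π ∣ c → False)
    (G : MvPolynomial (Fin 2) K) (hG : aeval ![w, U] G = 0) :
    Polynomial.aeval (X 0 : MvPolynomial (Fin 2) K) a * X 1 ^ 2 +
      Polynomial.aeval (X 0 : MvPolynomial (Fin 2) K) b * X 1 ^ 1 +
      Polynomial.aeval (X 0 : MvPolynomial (Fin 2) K) c * X 1 ^ 0 ∣ G := by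
  have hΨ := Crv_iso (X 0 : MvPolynomial (Fin 2) K) (X 1) G
  have h4 : (![X 0, X 1] : Fin 2 → MvPolynomial (Fin 2) K) = X := by
    funext i
    fin_cases i <;> rfl
  rw [h4, aeval_X_left_apply] at hΨ
  rw [← Crv_iso] at hG
  generalize (aeval ![Polynomial.C Polynomial.X, Polynomial.X] G : Polynomial (Polynomial K)) = Q
    at hG hΨ
  obtain ⟨m, T, x, y, hT⟩ := Crv_pdiv a b c Q
  have h3 := congrArg (Polynomial.eval₂ (Polynomial.aeval w : Polynomial K →ₐ[K] S).toRingHom U) hT
  simp only [Polynomial.eval₂_add, Polynomial.eval₂_mul, Polynomial.eval₂_pow, Polynomial.eval₂_C,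
    Polynomial.eval₂_X, hG] at h3
  simp only [AlgHom.toRingHom_eq_coe, RingHom.coe_coe] at h3
  rw [h0, mul_zero, zero_mul, zero_add] at h3
  obtain ⟨rfl, rfl⟩ := h1 x y h3.symm
  rw [map_zero, zero_mul, add_zero, add_zero] at hT
  obtain ⟨T', hT'⟩ := Crv_gauss _ (a ^ m) (pow_ne_zero _ ha) (fun π hπ hd hc => by
    rw [Polynomial.C_dvd_iff_dvd_coeff] at hc
    exact h2 π hπ (hπ.dvd_of_dvd_pow hd) (by simpa using hc 1) (by simpa using hc 0)) Q ⟨T, hT⟩
  rw [← hΨ, hT', Polynomial.eval₂_mul]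
  refine Dvd.dvd.mul_right (dvd_of_eq ?_) _
  simp only [Polynomial.eval₂_add, Polynomial.eval₂_mul, Polynomial.eval₂_pow, Polynomial.eval₂_C,
    Polynomial.eval₂_X, AlgHom.toRingHom_eq_coe, RingHom.coe_coe, pow_one, pow_zero, mul_one]

theorem Crv_ord {K : Type} [CommRing K] (z : K) (a b c : Polynomial K)
    (h : Polynomial.aeval (X 0 : MvPolynomial (Fin 2) K) a * X 1 ^ 2 +
      Polynomial.aeval (X 0 : MvPolynomial (Fin 2) K) b * X 1 ^ 1 +
      Polynomial.aeval (X 0 : MvPolynomial (Fin 2) K) c * X 1 ^ 0 ∈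
        (RingHom.ker (eval ![z, 0]) : Ideal (MvPolynomial (Fin 2) K)) ^ 3) : a.eval z = 0 := by
  let φ : MvPolynomial (Fin 2) K →ₐ[K] Polynomial K := aeval ![Polynomial.C z, Polynomial.X]
  have h1 : Ideal.map φ (RingHom.ker (eval ![z, 0])) ≤ Ideal.span {Polynomial.X} := by
    rw [Ideal.map_le_iff_le_comap]
    intro F hF
    rw [Ideal.mem_comap, Ideal.mem_span_singleton, Polynomial.X_dvd_iff,
      Polynomial.coeff_zero_eq_eval_zero]
    have : (Polynomial.evalRingHom (0 : K)).comp φ.toRingHom = eval ![z, 0] := by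
      refine MvPolynomial.ringHom_ext (fun r => ?_) fun i => ?_
      · simp [φ]
      · fin_cases i <;> simp [φ]
    exact (RingHom.congr_fun this F).trans hF
  have h2 := Ideal.mem_map_of_mem φ h
  rw [Ideal.map_pow] at h2
  have h3 := Ideal.pow_right_mono h1 3 h2
  rw [Ideal.span_singleton_pow, Ideal.mem_span_singleton, Polynomial.X_pow_dvd_iff] at h3
  have h4 := h3 2 (by norm_num)
  have h5 : ∀ s : Polynomial K, φ (Polynomial.aeval (X 0 : MvPolynomial (Fin 2) K) s) =
      Polynomial.C (s.eval z) := fun s => by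
    rw [← Polynomial.aeval_algHom_apply]
    have := Polynomial.aeval_algebraMap_apply_eq_algebraMap_eval (A := Polynomial K) z s
    simpa [φ] using this
  have h6 : φ (X 1) = Polynomial.X := by simp [φ]
  simpa [h5, h6, Polynomial.coeff_X, Polynomial.coeff_C] using h4

theorem Crv_zn (l : ℕ) : zn l ≠ 0 := by
  unfold zn
  have h1 : ((l : ℂ) + 2) ≠ 0 := by exact_mod_cast (by omega : l + 2 ≠ 0)
  have h2 : (1 + ((l : ℂ) + 2) ^ 2) ≠ 0 := by
    exact_mod_cast (by positivity : 1 + (l + 2) ^ 2 ≠ 0)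
  exact div_ne_zero h1 h2

theorem Crv_unit {N β : ℤ} {q g h : Polynomial O} (hb : Biq N β q g h) (l : ℕ) :
    IsUnit (q.eval (PowerSeries.C (zn l))) := by
  rw [PowerSeries.isUnit_iff_constantCoeff,
    Polynomial.eval_eq_sum_range' (n := 3) (by have := hb.dq; omega)]
  simp only [Finset.sum_range_succ, Finset.range_zero, Finset.sum_empty, map_add, map_mul, map_pow,
    hb.q0, hb.q1, hb.q2, PowerSeries.constantCoeff_C, zero_mul, zero_add, one_mul]
  exact (pow_ne_zero 2 (Crv_zn l)).isUnit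

theorem Crv_ln {N : ℤ} (hN : 2 < N) (l : ℕ) : IsUnit (Polynomial.aeval (wA N) (ln l)) := by
  have h0 : PowerSeries.constantCoeff (wA N) = 0 := by
    rw [← PowerSeries.coeff_zero_eq_constantCoeff_apply]
    exact (ini_wA hN).1 0 one_pos
  have h1 := (Ini_alg (PowerSeries.C (zn l))).2
  rw [PowerSeries.coeff_zero_eq_constantCoeff_apply, PowerSeries.constantCoeff_C] at h1
  rw [PowerSeries.isUnit_iff_constantCoeff, ln, map_sub, Polynomial.aeval_X, Polynomial.aeval_C,
    map_sub, h0, h1, zero_sub, IsUnit.neg_iff]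
  exact (Crv_zn l).isUnit.map LaurentPolynomial.C

theorem Crv_prim {k : ℕ} {N β : ℤ} (hF : Fold N β) {q g h e q1 : Polynomial O}
    (hb : Biq N β q g h) (hq : q = e * q1) (he : ∀ π : Polynomial O, Prime π → π ∣ q1 → ¬π ∣ e)
    (π : Polynomial O) (hπ : Prime π) (h1 : π ∣ q1) (h2 : π ∣ g * ∏ l : Fin k, ln l)
    (h3 : π ∣ h * e * (∏ l : Fin k, ln l) ^ 2) : False := by
  have hq1 : π ∣ q := hq ▸ h1.mul_left e
  have hu : IsUnit (q.coeff 2) :=
    PowerSeries.isUnit_iff_constantCoeff.2 (by rw [hb.q2]; exact isUnit_one)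
  have hΛ : ¬π ∣ ∏ l : Fin k, ln l := by
    intro hd
    obtain ⟨l, -, hl⟩ := (Prime.dvd_finsetProd_iff hπ _).1 hd
    have h4 : π ∣ q - Polynomial.C (q.eval (PowerSeries.C (zn l))) :=
      hl.trans Polynomial.X_sub_C_dvd_sub_C_eval
    have h5 := (dvd_sub_right hq1).1 h4
    exact hπ.not_isUnit (isUnit_of_dvd_unit h5 ((Crv_unit hb l).map Polynomial.C))
  have hg : π ∣ g := (hπ.dvd_or_dvd h2).resolve_right hΛ
  have hh : π ∣ h := (hπ.dvd_or_dvd ((hπ.dvd_or_dvd h3).resolve_right
    fun hd => hΛ (hπ.dvd_of_dvd_pow hd))).resolve_right (he π hπ h1)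
  have hd : 1 ≤ π.natDegree := by
    by_contra hc
    have h4 : π = Polynomial.C (π.coeff 0) := Polynomial.eq_C_of_natDegree_eq_zero (by omega)
    rw [h4] at hq1
    have h5 := isUnit_of_dvd_unit ((Polynomial.C_dvd_iff_dvd_coeff _ _).1 hq1 2) hu
    exact hπ.not_isUnit (h4 ▸ h5.map Polynomial.C)
  have hdeg : ∀ s : Polynomial O, (π * s).natDegree ≤ 2 → s.natDegree ≤ 1 := fun s hs => by
    by_cases h0 : s = 0
    · simp [h0]
    · rw [Polynomial.natDegree_mul hπ.ne_zero h0] at hs
      omega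
  have hz := biq_zero hF hb
  obtain ⟨q', hq'⟩ := hq1
  obtain ⟨g', hg'⟩ := hg
  obtain ⟨h', hh'⟩ := hh
  have hne : Polynomial.aeval (wA N) π ≠ 0 := fun h0 =>
    hπ.ne_zero (ind1 hF (s := 0) (s' := π) (by simp [h0])).2
  have hq0 : q' = 0 := by
    refine ind2 hF (g := g') (k := h') (hdeg _ (hq' ▸ hb.dq)) (hdeg _ (hg' ▸ hb.dg))
      (hdeg _ (hh' ▸ hb.dh)) (mul_left_cancel₀ hne ?_)
    rw [hq', hg', hh'] at hz
    simp only [map_mul] at hz
    linear_combination hz
  rw [hq', hq0, mul_zero, Polynomial.coeff_zero] at hu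
  exact not_isUnit_zero hu

theorem Crv_ell {r : ℕ} {N β : ℤ} (hF : Fold N β) (hr : r = 1 ∨ r = 2) {q g h : Polynomial O}
    (hb : Biq N β q g h) : (ell r N β).Monic ∧ (ell r N β).natDegree + r = 2 ∧
      ∃ q1 : Polynomial O, q = ell r N β * q1 ∧
        ∀ π : Polynomial O, Prime π → π ∣ q1 → ¬π ∣ ell r N β := by
  rcases hr with rfl | rfl
  · obtain ⟨q1, h1, h2⟩ := biq_root hF hb
    refine ⟨?_, ?_, q1, h1, fun π hπ h3 h4 => h2 ?_⟩
    · rw [ell, if_pos rfl]
      exact Polynomial.monic_X_sub_C _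
    · rw [ell, if_pos rfl, Polynomial.natDegree_X_sub_C]
    · have hi : Irreducible (ell 1 N β) := by
        rw [ell, if_pos rfl]
        exact Polynomial.irreducible_X_sub_C _
      exact (hπ.irreducible.associated_of_dvd hi h4).symm.dvd.trans h3
  · have e : ell 2 N β = 1 := by rw [ell, if_neg (by norm_num)]
    rw [e]
    exact ⟨Polynomial.monic_one, by simp, q, (one_mul _).symm,
      fun π hπ _ h4 => hπ.not_isUnit (isUnit_of_dvd_one h4)⟩

theorem exists_crv {ω r k : ℕ} {N β : ℤ} (h : Fold N β) (hr : r = 1 ∨ r = 2)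
    (hω : ω + r = k + 2) : ∃ c, Crv ω r k N β c := by
  obtain ⟨q, g, h', hb⟩ := exists_biq h.1 h.2.1
  obtain ⟨hm, hde, q1, hq, he⟩ := Crv_ell h hr hb
  have hN : 2 < N := by
    have := h.1
    have := h.2.1
    omega
  have hU : UU r k N β = Polynomial.aeval (wA N) ((∏ l : Fin k, ln l) * ell r N β) * eta N β := rfl
  have hΛm : (∏ l : Fin k, ln l).Monic :=
    Polynomial.monic_prod_of_monic _ _ fun l _ => Polynomial.monic_X_sub_C _
  have hΛd : (∏ l : Fin k, ln l).natDegree = k := by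
    rw [Polynomial.natDegree_prod_of_monic _ _ fun l _ => Polynomial.monic_X_sub_C _]
    simp [ln]
  have hΛu : IsUnit (Polynomial.aeval (wA N) (∏ l : Fin k, ln l)) := by
    rw [map_prod]
    exact IsUnit.prod_univ_iff.2 fun l => Crv_ln hN l
  have hprim := Crv_prim (k := k) h hb hq he
  have hunit := Crv_unit hb
  have hz := biq_zero h hb
  obtain ⟨n, u, hu, hder⟩ := biq_der h hb
  generalize (∏ l : Fin k, ln l) = Λ at hU hΛm hΛd hΛu hprim
  generalize ell r N β = e at hU hm hde hq hprim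
  have h2 : q.coeff 2 ≠ 0 := fun h0 => by
    have := hb.q2
    rw [h0, map_zero] at this
    exact zero_ne_one this
  have hq10 : q1 ≠ 0 := by
    rintro rfl
    rw [hq, mul_zero, Polynomial.coeff_zero] at h2
    exact h2 rfl
  have hqd : q1.natDegree = r := by
    have h3 : q.natDegree = 2 := le_antisymm hb.dq (Polynomial.le_natDegree_of_ne_zero h2)
    rw [hq, hm.natDegree_mul' hq10] at h3
    omega
  have hgd : (g * Λ).natDegree ≤ 2 + k :=
    Polynomial.natDegree_mul_le.trans (by have := hb.dg; omega)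
  have hhd : (h' * e * Λ ^ 2).natDegree + r ≤ 4 + 2 * k := by
    have h3 : (h' * e * Λ ^ 2).natDegree ≤ _ := Polynomial.natDegree_mul_le
    have h4 : (h' * e).natDegree ≤ _ := Polynomial.natDegree_mul_le
    have h5 : (Λ ^ 2).natDegree ≤ _ := Polynomial.natDegree_pow_le
    have := hb.dh
    omega
  have hev : ∀ s : Polynomial O, aeval ![wA N, UU r k N β]
      (Polynomial.aeval (X 0 : MvPolynomial (Fin 2) O) s) = Polynomial.aeval (wA N) s := fun s => by
    rw [← Polynomial.aeval_algHom_apply]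
    simp
  have hzero : Polynomial.aeval (wA N) q1 * UU r k N β ^ 2 +
      Polynomial.aeval (wA N) (g * Λ) * UU r k N β + Polynomial.aeval (wA N) (h' * e * Λ ^ 2) = 0 := by
    rw [hq] at hz
    rw [hU]
    simp only [map_mul, map_pow] at hz ⊢
    linear_combination (Polynomial.aeval (wA N) e * Polynomial.aeval (wA N) Λ ^ 2) * hz
  refine ⟨Polynomial.aeval (X 0) q1 * X 1 ^ 2 + Polynomial.aeval (X 0) (g * Λ) * X 1 ^ 1 +
    Polynomial.aeval (X 0) (h' * e * Λ ^ 2) * X 1 ^ 0, ?_, ⟨n, Polynomial.aeval (wA N) Λ * u,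
      hΛu.mul hu, ?_⟩, ?_, ?_, ?_, ?_⟩
  · simp only [map_add, map_mul (aeval _), map_pow (aeval _), hev, aeval_X]
    simpa using hzero
  · have hp : ∀ s : Polynomial O,
        pderiv 1 (Polynomial.aeval (X 0 : MvPolynomial (Fin 2) O) s) = 0 := fun s => by
      rw [Derivation.comp_aeval_eq]
      simp
    simp only [map_add, Derivation.leibniz, hp, Derivation.leibniz_pow, pderiv_X_self, smul_eq_mul,
      map_mul (aeval _), hev, mul_zero, add_zero]
    rw [hq] at hder
    simp only [map_mul] at hder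
    simp [hU]
    linear_combination Polynomial.aeval (wA N) Λ * hder
  · refine Crv_ker hq10 hzero (fun x y h3 => ?_) hprim
    have h4 := ind1 h (s := x * (Λ * e)) (s' := y) (by rw [map_mul, mul_assoc, ← hU, h3])
    exact ⟨(mul_eq_zero.1 h4.1).resolve_right (mul_ne_zero hΛm.ne_zero hm.ne_zero), h4.2⟩
  · intro μ hμ
    simp only [coeff_add, Crv_coeff]
    have h3 : ∀ (s : Polynomial O) (j : ℕ), s.natDegree + ω * j ≤ r + 2 * ω →
        (if μ 1 = j then s.coeff (μ 0) else 0) = 0 := fun s j hs => by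
      split_ifs with h4
      · rw [h4] at hμ
        exact Polynomial.coeff_eq_zero_of_natDegree_lt (by omega)
      · rfl
    rw [h3 _ _ (by omega), h3 _ _ (by omega), h3 _ _ (by omega), add_zero, add_zero]
  · intro hW
    have h3 := hW (Finsupp.single 0 r + Finsupp.single 1 2) (by
      simp
      omega)
    simp only [coeff_add, Crv_coeff] at h3
    simp at h3
    rw [← hqd] at h3
    exact hq10 (Polynomial.leadingCoeff_eq_zero.1 h3)
  · intro l hl
    have h3 := Crv_ord _ _ _ _ hl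
    have h4 := hunit l
    rw [hq, Polynomial.eval_mul, h3, mul_zero] at h4
    exact not_isUnit_zero h4

end Pool.Agent.Lib.MP_d03834_ag.Nag
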