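import Pool.Agent.Lib.MP_d03834_ag.Nag.AmpD
import Pool.Agent.Lib.MP_d03834_ag.Nag.CritD
import Pool.Agent.Lib.MP_d03834_ag.Nag.Win

/-! Definitions for the ruled models: a nodal bisection of genus one in a weighted plane. -/

set_option autoImplicit false

namespace Pool.Agent.Lib.MP_d03834_ag.Nag

open MvPolynomial

/-- weighted degree at most g for the weights 1 and ω -/
def WB {K : Type} [CommRing K] (ω g : ℕ) (F : MvPolynomial (Fin 2) K) : Prop :=
  ∀ μ : Fin 2 →₀ ℕ, g < μ 0 + ω * μ 1 → coeff μ F = 0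

/-- the ideal of an affine point -/
noncomputable def aid {K : Type} [CommRing K] (p : Fin 2 → K) : Ideal (MvPolynomial (Fin 2) K) :=
  RingHom.ker (eval p)

/-- weighted degree at most g and multiplicity μ l at the point (z l, 0) -/
def Adm {K κ : Type} [CommRing K] (ω g : ℕ) (z : κ → K) (μ : κ → ℕ)
    (F : MvPolynomial (Fin 2) K) : Prop :=
  WB ω g F ∧ ∀ l, F ∈ aid ![z l, 0] ^ μ l

/-- no admissible polynomial with the multiplicities m at general points -/
def WEmp {ι κ : Type} (ω g : ℕ) (z : κ → ℂ) (μ : κ → ℕ) (m : ι → ℕ) : Prop :=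
  ∃ G : MvPolynomial (ι × Fin 2) ℂ, G ≠ 0 ∧ ∀ p : ι → Fin 2 → ℂ,
    eval (fun ij : ι × Fin 2 => p ij.1 ij.2) G ≠ 0 →
      ∀ F : P2, Adm ω g z μ F → (∀ q, F ∈ aid (p q) ^ m q) → F = 0

/-- substitution of (w, U + eps * s * v); the outer variable is eps, the inner one is s -/
noncomputable def Psi2 (w U v : R) : MvPolynomial (Fin 2) A →+* Polynomial (Polynomial R) :=
  eval₂Hom (Polynomial.mapRingHom (Polynomial.C.comp (algebraMap O R)))
    ![Polynomial.C (Polynomial.C w),
      Polynomial.C (Polynomial.C U) + Polynomial.X * Polynomial.C (Polynomial.X * Polynomial.C v)]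

/-- f' is f expanded at the centre ρ -/
def Sh (ρ κ : ℤ) (f f' : R) : Prop := ∀ b e : ℤ, cz f' b (e + ρ * b + κ) = cz f b e

/-- the term y ^ b * t ^ e of f is minimal at the centre ρ -/
def Mn (ρ : ℤ) (f : R) (b e : ℤ) : Prop :=
  cz f b e ≠ 0 ∧ ∀ b' e' : ℤ, cz f b' e' ≠ 0 → e + ρ * b ≤ e' + ρ * b'

/-- the initial form has width at least w -/
def Kink (w : ℤ) (f : R) : Prop := ∃ b e b' e' : ℤ, Mn 0 f b e ∧ Mn 0 f b' e' ∧ b + w ≤ b'

/-- f = u * t ^ k + higher terms -/
def Ini (f : R) (k : ℕ) (u : L) : Prop :=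
  (∀ e < k, PowerSeries.coeff e f = 0) ∧ PowerSeries.coeff k f = u

/-- the exponent of t in the term number k -/
def E2 (N i a e0 k : ℤ) : ℤ := N * (i * k + k * (k - 1)) + a * k + e0

/-- theta series of degree two -/
noncomputable def thE (N i a e0 : ℤ) : R :=
  PowerSeries.mk fun e : ℕ =>
    ∑ k ∈ (Finset.Icc (-(e : ℤ) - 5) (e + 5)).filter (fun k => E2 N i a e0 k = e),
      LaurentPolynomial.T (i + 2 * k)

/-- first pencil, odd member -/
noncomputable def p0 (N x : ℤ) : R := thE N 1 (2 * x) x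
/-- first pencil, even member -/
noncomputable def p1 (N x : ℤ) : R := thE N 0 (2 * x) 0
/-- second pencil, even member -/
noncomputable def n0 (N x : ℤ) : R := thE N 0 (N - 2 * x) x
/-- second pencil, odd member -/
noncomputable def n1 (N x : ℤ) : R := thE N 1 (N - 2 * x) 0

/-- evaluation at y = z -/
noncomputable def evO (z : ℂˣ) : R →+* O := PowerSeries.map (evL z)

/-- the unit 2 -/
noncomputable def u2 : ℂˣ := Units.mk0 2 two_ne_zero

/-- the member of the second pencil vanishing at y = 2 at its own centre -/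
noncomputable def v0 (N x : ℤ) : R :=
  n1 N x - algebraMap O R (evO u2 (n1 N 0) * (evO u2 (n0 N 0))⁻¹) * n0 N x

/-- the involution y ↦ 1 / y -/
noncomputable def iv : R →+* R :=
  PowerSeries.map (LaurentPolynomial.invert : L ≃ₐ[ℂ] L).toRingEquiv.toRingHom

/-- y ^ u -/
noncomputable def yT (u : ℤ) : R := PowerSeries.C (LaurentPolynomial.T u)

/-- homogeneous evaluation in degree D -/
noncomputable def hv (D : ℕ) (s : Polynomial O) (a b : R) : R :=
  aeval ![a, b] (s.homogenize D)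

/-- the theta series of a row at the centre ρ -/
noncomputable def FF (N β : ℤ) (δ a : ℕ) (s : ℕ → Polynomial O) (ρ : ℤ) : R :=
  ∑ i ∈ Finset.range (a + 1), hv δ (s i) (p0 N (1 + ρ)) (p1 N (1 + ρ)) *
    (n0 N (β - ρ) ^ i * v0 N (β - ρ) ^ (a - i))

/-- the first coordinate of the node number l -/
noncomputable def zn (l : ℕ) : ℂ := (l + 2) / (1 + (l + 2) ^ 2)

/-- the linear factor of the node number l -/
noncomputable def ln (l : ℕ) : Polynomial O :=
  Polynomial.X - Polynomial.C (PowerSeries.C (zn l))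

/-- the extra linear factor which cancels one pole -/
noncomputable def ell (r : ℕ) (N β : ℤ) : Polynomial O :=
  if r = 1 then Polynomial.X -
    Polynomial.C (evO u2⁻¹ (p0 N (1 + β)) * (evO u2⁻¹ (p1 N (1 + β)))⁻¹) else 1

/-- the affine coordinate of the first pencil -/
noncomputable def wA (N : ℤ) : R := p0 N 1 * Ring.inverse (p1 N 1)

/-- the affine coordinate of the second pencil -/
noncomputable def eta (N β : ℤ) : R := n0 N β * Ring.inverse (v0 N β)

/-- the second coordinate of the curve -/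
noncomputable def UU (r k : ℕ) (N β : ℤ) : R :=
  Polynomial.aeval (wA N) ((∏ l : Fin k, ln l) * ell r N β) * eta N β

/-- admissible positions of the second fold -/
def Fold (N β : ℤ) : Prop := 0 < β ∧ β + 2 < N ∧ (2 * (β + 2) < N ∨ N < 2 * β)

/-- the biquadratic relation between the two pencils -/
structure Biq (N β : ℤ) (q g h : Polynomial O) : Prop where
  dq : q.natDegree ≤ 2
  dg : g.natDegree ≤ 2
  dh : h.natDegree ≤ 2
  q2 : PowerSeries.constantCoeff (q.coeff 2) = 1
  q1 : PowerSeries.constantCoeff (q.coeff 1) = 0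
  q0 : PowerSeries.constantCoeff (q.coeff 0) = 0
  eq : hv 2 q (p0 N 1) (p1 N 1) =
    PowerSeries.X ^ 2 * yT 2 * (v0 N β * iv (v0 N (β + 2)))
  eg : hv 2 g (p0 N 1) (p1 N 1) =
    -(PowerSeries.X ^ 2 * yT 2 * (n0 N β * iv (v0 N (β + 2)) + v0 N β * iv (n0 N (β + 2))))
  eh : hv 2 h (p0 N 1) (p1 N 1) =
    PowerSeries.X ^ 2 * yT 2 * (n0 N β * iv (n0 N (β + 2)))

/-- the equation of the curve -/
structure Crv (ω r k : ℕ) (N β : ℤ) (c : MvPolynomial (Fin 2) O) : Prop where
  zero : aeval ![wA N, UU r k N β] c = 0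
  der : ∃ (e : ℕ) (u : R), IsUnit u ∧
    aeval ![wA N, UU r k N β] (pderiv 1 c) = PowerSeries.X ^ e * u
  ker : ∀ G : MvPolynomial (Fin 2) O, aeval ![wA N, UU r k N β] G = 0 → c ∣ G
  wb : WB ω (r + 2 * ω) c
  top : ¬WB ω (r + 2 * ω - 1) c
  ord : ∀ l : Fin k, c ∉ aid ![PowerSeries.C (zn l), 0] ^ 3

/-- the row j has its exponents between lf j and rt j -/
def Rows (J : ℕ) (lf rt : ℕ → ℤ) (M : B) : Prop :=
  ∀ (j : ℕ) (b : ℤ), (M.coeff j).coeff b ≠ 0 → j ≤ J ∧ lf j ≤ b ∧ b ≤ rt j

/-- the number of columns with more than i points -/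
noncomputable def hl (J : ℕ) (lf rt : ℕ → ℤ) (i : ℕ) : ℕ :=
  ((Finset.range (J + 1 - i)).biUnion fun j => Finset.Icc (lf j) (rt (j + i))).card

/-- not increasing up to J -/
def Anti (J : ℕ) (f : ℕ → ℤ) : Prop := ∀ j < J, f (j + 1) ≤ f j

/-- the number of conditions at the second fold -/
def kap (ω r g : ℕ) : ℕ := if r = 1 then g / ω else if g % ω = 0 then 1 else 0

/-- left end of a row of degree g -/
def wl (ω r N β g : ℕ) : ℤ :=
  if g < ω then 0 else if r = 2 ∧ g = ω then -1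
    else -(((2 * (g / ω) - kap ω r g) * (N - β) / N : ℕ) : ℤ)

/-- length of a row of degree g, total multiplicity sm and zc nodes of multiplicity zero -/
def wn (ω r g sm zc : ℕ) : ℕ :=
  if g < ω then g - sm + 1 else if r = 2 ∧ g = ω then g - sm + 2
    else 2 * (g - sm) + 2 * (g / ω) - kap ω r g - zc

/-- side condition of a row -/
def Sd (ω r N β g sm zc : ℕ) : Prop :=
  g < ω ∨ (r = 2 ∧ g = ω) ∨ (zc ≤ g - sm ∧
    (zc < 2 * (g - sm) ∨ (2 * (g / ω) - kap ω r g) * (N - β) % N ≠ 0))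

/-- total multiplicity in the row j -/
def smj (m c o j : ℕ) : ℕ := (c - o) * (2 * m - 2 * j) + o * (2 * m + 1 - 2 * j)

/-- number of nodes of multiplicity zero in the row j -/
def zcj (m c o j : ℕ) : ℕ := (if m ≤ j then c - o else 0) + if m < j then o else 0

/-- left end of the row j -/
def Lw (ω r N β p g j : ℕ) : ℤ := wl ω r N β (g - (r + 2 * ω) * j) - p * j

/-- right end of the row j -/
def Rw (ω r N β p g m c o j : ℕ) : ℤ :=
  Lw ω r N β p g j + wn ω r (g - (r + 2 * ω) * j) (smj m c o j) (zcj m c o j) - 1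

/-- the arithmetic criterion for the child with o points of multiplicity 2 m + 1 -/
def Good (ω r N β p g n m c o T : ℕ) : Prop :=
  Anti (g / (r + 2 * ω)) (Lw ω r N β p g) ∧ Anti (g / (r + 2 * ω)) (Rw ω r N β p g m c o) ∧
    (∀ j ≤ g / (r + 2 * ω), Sd ω r N β (g - (r + 2 * ω) * j) (smj m c o j) (zcj m c o j)) ∧
    ∑ i ∈ Finset.range (g / (r + 2 * ω) + 1),
      (hl (g / (r + 2 * ω)) (Lw ω r N β p g) (Rw ω r N β p g m c o) i - n * (m - i)) ≤ T

end Pool.Agent.Lib.MP_d03834_ag.Nag
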