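import Pool.Agent.Lib.MP_d03834_ag.Rul.ArD
import Pool.Agent.Lib.MP_d03834_ag.Rul.ArE

/-! The chord argument for three and four nodes. -/

set_option autoImplicit false

namespace Pool.Agent.Lib.MP_d03834_ag.Nag

open Finset

/-- what the base facts give: the sum of the excesses and the reduction of the criterion -/
theorem LB.red {ω r N β p g n m c o d : ℕ} {y1 χ : ℝ} {h : ℕ → ℕ} (ho : o ≤ c)
    (H : LB ω r N β p g m c o d y1 h)
    (hx : ((d : ℝ) + 1) * (d + 2) - (n + 4 * c) * (m * (m + 1)) = 2 * χ) :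
    ∑ i ∈ range m, ((((h i : ℤ) - n * (m - i) : ℤ)) : ℝ) + h m = χ + m * (c - 2 * o) ∧
      ∃ k : ℕ, k ≤ h m ∧ (k = 0 ∨ (k : ℝ) < y1 + 1 - o) ∧
        (∑ i ∈ range m, ((((h i : ℤ) - n * (m - i)).toNat : ℕ) : ℝ) + k ≤ max χ 0 + m * (c - o) →
          Good ω r N β p g n m c o
            ((d + 2).choose 2 - (n + 4 * c) * (m + 1).choose 2 + m * (c - o))) := by
  obtain ⟨a1, a2, a3, a4, a5, a6, a7, -, a9⟩ := H
  constructor
  · have b1 := (ar_split (n := n) a4 h a7).2
    have b2 := congrArg (fun z : ℕ => (z : ℝ)) a6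
    have b3 := congrArg (fun z : ℤ => (z : ℝ)) b1
    simp only [Nat.cast_add, Nat.cast_mul, Nat.cast_sub ho, Nat.cast_sum, Nat.cast_ofNat,
      Nat.cast_one] at b2
    simp only [Int.cast_add, Int.cast_mul, Int.cast_sum, Int.cast_ofNat, Int.cast_natCast,
      Int.cast_one] at b3
    linear_combination (1 / 2) * hx + (1 / 2) * b2 - (1 / 2) * b3
  refine ⟨_, a5 m, a9, fun hs => ⟨a1, a2, a3, ?_⟩⟩
  rw [(ar_split (n := n) a4 _ fun i hi => Nat.le_zero.1 ((a5 i).trans (a7 i hi).le)).1]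
  have e1 := congrArg (fun z : ℕ => (z : ℝ)) (two_choose (d + 1))
  have e2 := congrArg (fun z : ℕ => (z : ℝ)) (two_choose m)
  simp only [Nat.cast_add, Nat.cast_mul, Nat.cast_ofNat, Nat.cast_one] at e1 e2
  have e3 : χ ≤ (((d + 2).choose 2 - (n + 4 * c) * (m + 1).choose 2 : ℕ) : ℝ) := by
    have : (d + 2).choose 2 ≤ ((d + 2).choose 2 - (n + 4 * c) * (m + 1).choose 2) +
        (n + 4 * c) * (m + 1).choose 2 := le_tsub_add
    have := (Nat.cast_le (α := ℝ)).2 this
    simp only [Nat.cast_add, Nat.cast_mul, Nat.cast_ofNat] at this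
    have e4 : χ = ((d + 1 + 1).choose 2 : ℕ) - (n + 4 * c) * ((m + 1).choose 2 : ℕ) := by
      linear_combination (-1 / 2) * hx - (1 / 2) * e1 + (1 / 2) * ((n : ℝ) + 4 * c) * e2
    rw [e4]
    exact sub_le_iff_le_add.2 this
  have e5 := max_le e3 (Nat.cast_nonneg _)
  refine le_trans (Nat.add_le_add_right (sum_le_sum fun i _ => Int.toNat_le_toNat
    (sub_le_sub_right (Nat.cast_le.2 (a5 i)) _)) _) ((Nat.cast_le (α := ℝ)).1 ?_)
  simp only [Nat.cast_add, Nat.cast_mul, Nat.cast_sub ho, Nat.cast_sum]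
  linarith

theorem fin_c {ω r N β p g n m c o d : ℕ} {x c1 y1 : ℝ} (hc : c = 3 ∨ c = 4) (ho : o ≤ c)
    (hm : 60 ≤ m) (h : LP ω r N β p g n m c o d (x + c - 2 * o) (c - 1 / 4) y1)
    (hx : ((d : ℝ) + 1) * (d + 2) - (n + 4 * c) * (m * (m + 1)) = 2 * (m * x + c1))
    (h1 : -1 / 8 ≤ c1) (h2 : x ≤ 0 → c1 ≤ 43 / 10) (h3 : y1 ≤ max x 0 + c - 29 / 20) :
    Good ω r N β p g n m c o
      ((d + 2).choose 2 - (n + 4 * c) * (m + 1).choose 2 + m * (c - o)) := by
  obtain ⟨h, H, hU, hL⟩ := h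
  obtain ⟨s1, k, k1, k2, s2⟩ := H.red (n := n) ho hx
  refine s2 ?_
  obtain ⟨v, hv⟩ : ∃ v : ℕ → ℤ, v = fun i : ℕ => (h i : ℤ) - n * (m - i) := ⟨_, rfl⟩
  have ev : ∀ i, (h i : ℤ) - n * (m - i) = v i := fun i => by rw [hv]
  simp only [ev] at s1 ⊢
  have er : ∀ i, (h i : ℝ) - n * (m - i) = v i := fun i => by
    rw [← ev]
    push_cast
    rfl
  simp only [er] at hU hL
  have hU' : ∀ i < m, v i ≤ 0 ∨ (v i : ℝ) < x + c - 2 * o + (c - 1 / 4) := fun i hi =>
    (hU i hi).imp_left fun e => by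
      have e' : (h i : ℤ) ≤ n * ((m - i : ℕ) : ℤ) := by exact_mod_cast e
      rw [Nat.cast_sub hi.le] at e'
      rw [← ev]
      omega
  have c3 : (3 : ℝ) ≤ c := by rcases hc with rfl | rfl <;> norm_num
  have c4 : (c : ℝ) ≤ 4 := by rcases hc with rfl | rfl <;> norm_num
  have o0 : (0 : ℝ) ≤ o := o.cast_nonneg
  have oc : (o : ℝ) ≤ c := by exact_mod_cast ho
  have m0 : (60 : ℝ) ≤ m := by exact_mod_cast hm
  have k0 : (0 : ℝ) ≤ k := k.cast_nonneg
  have k1' : (k : ℝ) ≤ h m := by exact_mod_cast k1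
  have t1 := le_max_left (m * x + c1) 0
  have t2 := le_max_right (m * x + c1) 0
  have mo : 0 ≤ (m : ℝ) * o := by positivity
  by_cases A : -1 ≤ x + c - 2 * o - (c - 1 / 4)
  · rw [sum_congr rfl (g := fun i => (v i : ℝ)) fun i hi => by
      have : ((-1 : ℤ) : ℝ) < v i := by
        push_cast
        linarith [hL i (mem_range.1 hi)]
      have : -1 < v i := by exact_mod_cast this
      exact_mod_cast congrArg (fun z : ℤ => (z : ℝ)) (Int.toNat_of_nonneg (by omega))]
    linarith
  by_cases B : x + c - 2 * o + (c - 1 / 4) ≤ 1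
  · rw [sum_eq_zero fun i hi => by
      rw [Int.toNat_of_nonpos, Nat.cast_zero]
      refine (hU' i (mem_range.1 hi)).elim id fun e => ?_
      have : (v i : ℝ) < (1 : ℤ) := by
        push_cast
        linarith
      have : v i < 1 := by exact_mod_cast this
      omega]
    rcases ho.lt_or_eq with e | rfl
    · have e' : (o : ℝ) + 1 ≤ c := by exact_mod_cast e
      rw [max_eq_right (by linarith : x ≤ 0)] at h3
      have : 60 * ((c : ℝ) - o) ≤ m * (c - o) := mul_le_mul_of_nonneg_right m0 (by linarith)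
      rcases k2 with rfl | k2
      · simp only [Nat.cast_zero]
        linarith
      · linarith
    · have : max x 0 ≤ 5 / 4 := max_le (by linarith) (by norm_num)
      have : k = 0 := k2.elim id fun k2 => by
        have : (k : ℝ) < (1 : ℕ) := by
          push_cast
          linarith
        have : k < 1 := by exact_mod_cast this
        omega
      subst this
      simp only [Nat.cast_zero, sub_self, mul_zero]
      linarith
  push Not at A B
  have C := ar_chord (m := m) v (lo := x + c - 2 * o - (c - 1 / 4))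
    (hi := x + c - 2 * o + (c - 1 / 4)) (by linarith) (by linarith)
    (fun i hi => (hU' i hi).elim (fun e => by
      have : (v i : ℝ) ≤ (0 : ℤ) := by exact_mod_cast e
      push_cast at this
      linarith) le_of_lt) fun i hi => (hL i hi).le
  generalize ∑ i ∈ range m, (((v i).toNat : ℕ) : ℝ) = S at C ⊢
  generalize ∑ i ∈ range m, (v i : ℝ) = V at C s1
  generalize max (m * x + c1) 0 = T at t1 t2 ⊢
  obtain ⟨u, hu⟩ : ∃ u, u = x + c - 2 * o + (c - 1 / 4) := ⟨_, rfl⟩
  obtain ⟨w, hw⟩ : ∃ w, w = -(x + c - 2 * o - (c - 1 / 4)) := ⟨_, rfl⟩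
  have u0 : 0 < u := by linarith
  have w0 : 0 < w := by linarith
  have D : (u + w) * S ≤ (u + w) * (u * m / 2) + u * (c1 - k) := by
    have e1 : u * (c1 - h m) ≤ u * (c1 - k) := mul_le_mul_of_nonneg_left (by linarith) u0.le
    have e2 : V - m * (x + c - 2 * o - (c - 1 / 4)) = (u + w) * m / 2 + (c1 - h m) := by
      rw [hu, hw]
      linear_combination s1
    rw [e2, ← hu, show u - (x + c - 2 * o - (c - 1 / 4)) = u + w by rw [hw]; ring] at C
    linarith
  have um : u * m / 2 = m * x / 2 + m * (c - o) - m / 8 := by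
    rw [hu]
    ring
  refine le_of_mul_le_mul_left ?_ (add_pos u0 w0)
  rcases le_total x 0 with X | X
  · rw [max_eq_right X] at h3
    have := h2 X
    have k4 : (k : ℝ) ≤ 4 := by
      rcases k2 with rfl | k2
      · norm_num
      · linarith
    have mx : (m : ℝ) * x ≤ 0 := mul_nonpos_of_nonneg_of_nonpos (by linarith) X
    have f1 : u * c1 ≤ u * 5 := mul_le_mul_of_nonneg_left (by linarith) u0.le
    have f2 : w * k ≤ w * 5 := mul_le_mul_of_nonneg_left (by linarith) w0.le
    have f3 : (u + w) * (u * m / 2 + 5) ≤ (u + w) * (T + m * (c - o)) :=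
      mul_le_mul_of_nonneg_left (by linarith) (by linarith)
    linarith
  · rw [max_eq_left X] at h3
    have k4 : (k : ℝ) ≤ x + 4 := by
      rcases k2 with rfl | k2
      · simp only [Nat.cast_zero]
        linarith
      · linarith
    have mx : 60 * x ≤ (m : ℝ) * x := mul_le_mul_of_nonneg_right m0 X
    have f1 : w * (k - c1) ≤ w * (x + 5) := mul_le_mul_of_nonneg_left (by linarith) w0.le
    have f2 : 0 ≤ u * (x + 5) := by positivity
    have f3 : (u + w) * (u * m / 2 + c1 + (x + 5)) ≤ (u + w) * (T + m * (c - o)) :=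
      mul_le_mul_of_nonneg_left (by linarith) (by linarith)
    linarith

end Pool.Agent.Lib.MP_d03834_ag.Nag
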