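import Pool.Agent.Lib.MP_d03834_ag.Rul.Aid
import Pool.Agent.Lib.MP_d03834_ag.Nag.Gen

/-! From one configuration over a domain to general configurations, with fixed big points. -/

set_option autoImplicit false

namespace Pool.Agent.Lib.MP_d03834_ag.Nag

open MvPolynomial Module

/-- exponents of weight at most g -/
abbrev RgenE (ω g : ℕ) : Type := {μ : Fin 2 →₀ ℕ // μ 0 + ω * μ 1 ≤ g}

/-- the conditions -/
abbrev RgenR {τ : Type} (m : τ → ℕ) : Type := Σ l : τ, {μ : Fin 2 →₀ ℕ // μ 0 + μ 1 < m l}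

theorem rgen_fin (p : (Fin 2 →₀ ℕ) → Prop) (g : ℕ) (h : ∀ μ, p μ → μ 0 + μ 1 ≤ g) :
    Finite {μ // p μ} :=
  ((Finsupp.finite_of_degree_le (σ := Fin 2) g).subset (t := {μ | p μ}) fun μ hμ => by
    have := h μ hμ
    simpa only [Set.mem_ofPred_eq, Finsupp.degree_eq_sum, Fin.sum_univ_two] using this).to_subtype

/-- the matrix of the conditions -/
noncomputable def rgenM {K τ : Type} [CommRing K] (ω g : ℕ) (m : τ → ℕ) (P : τ → Fin 2 → K) :
    Matrix (RgenR m) (RgenE ω g) K := fun r ν => coeff r.2.1 (aidTr (P r.1) (monomial ν.1 1))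

theorem rgen_map {K K' τ : Type} [CommRing K] [CommRing K'] (f : K →+* K') (ω g : ℕ) (m : τ → ℕ)
    (P : τ → Fin 2 → K) : (rgenM ω g m P).map f = rgenM ω g m fun l => f ∘ P l := by
  ext r ν
  simp only [rgenM, Matrix.map_apply]
  rw [← coeff_map, aid_map, map_monomial, map_one]

theorem rgen_mulVec {K τ : Type} [CommRing K] {ω g : ℕ} [Fintype (RgenE ω g)] (m : τ → ℕ)
    (P : τ → Fin 2 → K) (c : RgenE ω g → K) (r : RgenR m) : (rgenM ω g m P).mulVec c r =
      coeff r.2.1 (aidTr (P r.1) (∑ ν : RgenE ω g, monomial ν.1 (c ν))) := by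
  simp only [Matrix.mulVec, dotProduct, rgenM]
  rw [map_sum, coeff_sum]
  refine Finset.sum_congr rfl fun ν _ => ?_
  rw [mul_comm, ← smul_eq_mul, ← coeff_smul, ← map_smul, smul_monomial, smul_eq_mul, mul_one]

theorem rgen_iff {K τ : Type} [CommRing K] {ω g : ℕ} [Fintype (RgenE ω g)] (m : τ → ℕ)
    (P : τ → Fin 2 → K) :
    (∀ F : MvPolynomial (Fin 2) K, WB ω g F → (∀ l, F ∈ aid (P l) ^ m l) → F = 0) ↔
      ∀ c, (rgenM ω g m P).mulVec c = 0 → c = 0 := by
  classical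
  have hc : ∀ (c : RgenE ω g → K) (ν : RgenE ω g),
      coeff ν.1 (∑ ν : RgenE ω g, monomial ν.1 (c ν)) = c ν := by
    intro c ν
    rw [coeff_sum, Finset.sum_eq_single ν]
    · simp
    · intro ν' _ h
      rw [coeff_monomial, if_neg fun e => h (Subtype.ext e)]
    · simp
  have hh : ∀ c : RgenE ω g → K, WB ω g (∑ ν : RgenE ω g, monomial ν.1 (c ν)) := fun c μ hμ => by
    rw [coeff_sum]
    refine Finset.sum_eq_zero fun ν _ => ?_
    rw [coeff_monomial, if_neg]
    rintro rfl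
    exact absurd ν.2 (not_le.2 hμ)
  constructor
  · intro h c h0
    have := h _ (hh c) fun l => (amem _ _ _).2 fun μ hμ => by
      have := congrFun h0 ⟨l, μ, hμ⟩
      rwa [rgen_mulVec] at this
    funext ν
    rw [← hc c ν, this]; simp
  · intro h F hF hm
    have e : ∑ ν : RgenE ω g, monomial ν.1 (coeff ν.1 F) = F := by
      ext μ
      by_cases hd : μ 0 + ω * μ 1 ≤ g
      · exact hc (fun ν => coeff ν.1 F) ⟨μ, hd⟩
      · rw [hh _ μ (not_le.1 hd), hF μ (not_le.1 hd)]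
    have := h (fun ν => coeff ν.1 F) (funext fun r => by
      rw [rgen_mulVec, e]
      exact (amem _ _ _).1 (hm r.1) _ r.2.2)
    rw [← e]
    exact Finset.sum_eq_zero fun ν _ => by rw [congrFun this ν]; simp

theorem rgen {ι κ : Type} [Fintype ι] [Fintype κ] {K : Type} [CommRing K] [IsDomain K]
    [Algebra ℂ K] {ω : ℕ} (hω : 0 < ω) (g : ℕ) (z : κ → ℂ) (μ : κ → ℕ) (m : ι → ℕ)
    (P : ι → Fin 2 → K) (h : ∀ F : MvPolynomial (Fin 2) K,
      Adm ω g (fun l => algebraMap ℂ K (z l)) μ F → (∀ q, F ∈ aid (P q) ^ m q) → F = 0) :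
    WEmp ω g z μ m := by
  classical
  have f1 : Finite (RgenE ω g) := rgen_fin _ g fun ν hν => by nlinarith
  have f2 : ∀ l, Finite {ν : Fin 2 →₀ ℕ // ν 0 + ν 1 < Sum.elim m μ l} := fun l =>
    rgen_fin _ _ fun ν hν => hν.le
  let _ := Fintype.ofFinite (RgenE ω g)
  let _ := Fintype.ofFinite (RgenR (Sum.elim m μ))
  let Q : ι ⊕ κ → Fin 2 → MvPolynomial (ι × Fin 2) ℂ :=
    Sum.elim (fun l j => X (l, j)) fun l => ![C (z l), 0]
  have hQ : ∀ {S : Type} [CommRing S] (u : ℂ →+* S) (p : ι → Fin 2 → S),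
      (fun l => (eval₂Hom u fun ij : ι × Fin 2 => p ij.1 ij.2) ∘ Q l) =
        Sum.elim p fun l => ![u (z l), 0] := by
    intro S _ u p
    funext l j
    rcases l with l | l
    · simp [Q]
    · fin_cases j <;> simp [Q]
  obtain ⟨Y, hY⟩ := gen_det (eval₂Hom (algebraMap ℂ K) fun ij : ι × Fin 2 => P ij.1 ij.2)
    (rgenM ω g (Sum.elim m μ) Q) (by
      rw [rgen_map, hQ]
      exact (rgen_iff _ _).1 fun F h1 h2 =>
        h F ⟨h1, fun l => h2 (Sum.inr l)⟩ fun q => h2 (Sum.inl q))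
  refine ⟨_, hY, fun p hp F hF hm => ?_⟩
  refine (rgen_iff (ω := ω) (g := g) (Sum.elim m μ) (Sum.elim p fun l => ![z l, 0])).2
    (fun c hc => ?_) F hF.1 fun l => by
      rcases l with l | l
      · exact hm l
      · exact hF.2 l
  have e : (eval fun ij : ι × Fin 2 => p ij.1 ij.2) =
      eval₂Hom (RingHom.id ℂ) fun ij : ι × Fin 2 => p ij.1 ij.2 := rfl
  rw [e, RingHom.map_det, RingHom.mapMatrix_apply, Matrix.map_mul, rgen_map, hQ] at hp
  refine Matrix.eq_zero_of_mulVec_eq_zero hp ?_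
  rw [← Matrix.mulVec_mulVec]
  exact (congrArg _ hc).trans (Matrix.mulVec_zero _)

end Pool.Agent.Lib.MP_d03834_ag.Nag
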