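import Pool.Agent.Lib.MP_d03834_ag.Rul.Th2

/-! Independence of the two pencils. -/

set_option autoImplicit false

namespace Pool.Agent.Lib.MP_d03834_ag.Nag

open MvPolynomial Module

theorem Ind_w {N x : ℤ} (h0 : 0 < x) (h1 : 2 * x < N) :
    Ini (p0 N x * Ring.inverse (p1 N x)) x.toNat (LaurentPolynomial.T 1) := by
  have h := Ini_mul (ini_p0 h0.le h1) (Ini_inv (ini_p1 (N := N) h0 (by omega))).2
  rw [← LaurentPolynomial.T_add] at h
  simpa using h

theorem Ind_w' {N x : ℤ} (h0 : N < 2 * x) (h1 : x < N) :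
    Ini (p0 N x * Ring.inverse (p1 N x)) (N - x).toNat (LaurentPolynomial.T (-1)) := by
  have h := Ini_mul (ini_p0' h0 h1.le) (Ini_inv (ini_p1 (N := N) (x := x) (by omega) h1)).2
  rw [← LaurentPolynomial.T_add] at h
  simpa using h

theorem ini_wA {N : ℤ} (hN : 2 < N) : Ini (wA N) 1 (LaurentPolynomial.T 1) :=
  Ind_w (N := N) (x := 1) one_pos (by omega)

theorem ini_eta {N β : ℤ} (h0 : 0 < β) (h1 : 2 * β < N) :
    Ini (eta N β) β.toNat (LaurentPolynomial.T (-1)) := by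
  have h := Ini_mul (ini_n0 h0.le h1) (Ini_inv (ini_v0 (N := N) h0 (by omega))).2
  rw [← LaurentPolynomial.T_add] at h
  simpa [eta] using h

theorem ini_eta' {N β : ℤ} (h0 : N < 2 * β) (h1 : β < N) :
    Ini (eta N β) (N - β).toNat (LaurentPolynomial.T 1) := by
  have h := Ini_mul (ini_n0' h0 h1.le) (Ini_inv (ini_v0 (N := N) (x := β) (by omega) h1)).2
  rw [← LaurentPolynomial.T_add] at h
  simpa [eta] using h

theorem ini_del {N β : ℤ} (h : Fold N β) : ∃ (k : ℕ) (u : L), IsUnit u ∧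
    Ini (n0 N β * iv (v0 N (β + 2)) - v0 N β * iv (n0 N (β + 2))) k u := by
  obtain ⟨h0, h1, h2⟩ := h
  have a1 := Ini_iv (ini_v0 (N := N) (x := β + 2) (by omega) h1)
  have a2 := ini_v0 (N := N) h0 (by omega)
  rw [LaurentPolynomial.invert_T] at a1
  rcases h2 with h2 | h2
  · have b1 := Ini_mul (ini_n0 (N := N) h0.le (by omega)) a1
    have b2 := Ini_neg (Ini_mul a2 (Ini_iv (ini_n0 (N := N) (x := β + 2) (by omega) h2)))
    refine ⟨_, _, ?_, by rw [sub_eq_add_neg]; exact Ini_add b1 b2 (by omega)⟩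
    exact (LaurentPolynomial.isUnit_T _).mul (LaurentPolynomial.isUnit_T _)
  · have b1 := Ini_mul (ini_n0' (N := N) h2 (by omega)) a1
    have b3 := Ini_iv (ini_n0' (N := N) (x := β + 2) (by omega) h1.le)
    rw [LaurentPolynomial.invert_T] at b3
    have b2 := Ini_neg (Ini_mul a2 b3)
    refine ⟨_, _, ?_, by rw [sub_eq_neg_add]; exact Ini_add b2 b1 (by omega)⟩
    exact ((LaurentPolynomial.isUnit_T _).mul (LaurentPolynomial.isUnit_T _)).neg

theorem Ind_ne {f : R} {k : ℕ} {u : L} (h : Ini f k u) (hu : u ≠ 0) : f ≠ 0 := by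
  intro hf
  apply hu
  rw [← h.2, hf, map_zero]

theorem Ind_up {N x : ℤ} (h0 : 0 < x) (h1 : x < N) : IsUnit (p1 N x) :=
  (Ini_inv (ini_p1 h0 h1)).1

theorem Ind_uv {N x : ℤ} (h0 : 0 < x) (h1 : x < N) : IsUnit (v0 N x) :=
  (Ini_inv (ini_v0 h0 h1)).1

theorem Ind_eta {N β : ℤ} (h0 : 0 < β) (h1 : β < N) : n0 N β = eta N β * v0 N β := by
  rw [eta, mul_assoc, Ring.inverse_mul_cancel _ (Ind_uv h0 h1), mul_one]

theorem Ind_hv {N : ℤ} (hN : 1 < N) {D : ℕ} {s : Polynomial O} (h : s.natDegree ≤ D) :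
    hv D s (p0 N 1) (p1 N 1) = p1 N 1 ^ D * Polynomial.aeval (wA N) s :=
  hv_unit h _ (Ind_up one_pos hN)

theorem Ind_shv {N x x' ρ : ℤ} (h0 : 0 ≤ x) (h1 : x ≤ N) (h2 : 0 ≤ x') (h3 : x' ≤ N) (hN : 0 < N)
    (hρ : ρ = x' - x) (D : ℕ) (s : Polynomial O) :
    Sh ρ 0 (hv D s (p0 N x) (p1 N x)) (hv D s (p0 N x') (p1 N x')) := by
  subst hρ
  exact Sh_hv (sh_p0 h0 h1 h2 h3 hN) (sh_p1 h0 h1 h2 h3 hN) D s

theorem Ind_shn {N x x' ρ : ℤ} (h0 : 0 ≤ x) (h1 : x ≤ N) (h2 : 0 ≤ x') (h3 : x' ≤ N) (hN : 0 < N)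
    (hρ : ρ = x - x') :
    Sh ρ (-ρ) (n0 N x) (n0 N x') ∧ Sh ρ (-ρ) (v0 N x) (v0 N x') := by
  subst hρ
  rw [neg_sub]
  exact ⟨sh_n0 h0 h1 h2 h3 hN, sh_v0 h0 h1 h2 h3 hN⟩

theorem ind1 {N β : ℤ} (h : Fold N β) {s s' : Polynomial O}
    (hs : Polynomial.aeval (wA N) s * eta N β + Polynomial.aeval (wA N) s' = 0) :
    s = 0 ∧ s' = 0 := by
  obtain ⟨k, u, hu, hd⟩ := ini_del h
  obtain ⟨h0, h1, -⟩ := h
  have hN : 0 < N := by omega
  set D := max s.natDegree s'.natDegree with hD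
  have e1 := Ind_hv (N := N) (by omega) (le_max_left s.natDegree s'.natDegree)
  have e2 := Ind_hv (N := N) (by omega) (le_max_right s.natDegree s'.natDegree)
  rw [← hD] at e1 e2
  have r0 : hv D s (p0 N 1) (p1 N 1) * n0 N β + hv D s' (p0 N 1) (p1 N 1) * v0 N β = 0 := by
    rw [e1, e2, Ind_eta h0 (by omega)]
    linear_combination (p1 N 1 ^ D * v0 N β) * hs
  have s1 := fun t => Ind_shv (N := N) (x := 1) (x' := 0) (ρ := -1) (by omega) (by omega) le_rfl
    hN.le hN (by omega) D t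
  have s2 := Ind_shn (N := N) (x := β) (x' := β + 1) (ρ := -1) (by omega) (by omega) (by omega)
    (by omega) hN (by omega)
  have r1 := (Sh_zero (Sh_add (Sh_mul (s1 s) s2.1) (Sh_mul (s1 s') s2.2))).1 r0
  have r2 : hv D s (p0 N 0) (p1 N 0) * iv (n0 N (β + 1)) +
      hv D s' (p0 N 0) (p1 N 0) * iv (v0 N (β + 1)) = 0 := by
    have r := congrArg iv r1
    rw [map_add, map_mul, map_mul, map_zero] at r
    rw [hv_iv (sym_p0 hN) (sym_p1 hN) D s, hv_iv (sym_p0 hN) (sym_p1 hN) D s']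
    linear_combination (yT 2 ^ D) * r
  have s3 := fun t => Ind_shv (N := N) (x := 0) (x' := 1) (ρ := - -1) le_rfl hN.le (by omega)
    (by omega) hN (by omega) D t
  have s4 := Ind_shn (N := N) (x := β + 1) (x' := β + 2) (ρ := -1) (by omega) (by omega)
    (by omega) (by omega) hN (by omega)
  have r3 := (Sh_zero (Sh_add (Sh_mul (s3 s) (Sh_iv s4.1)) (Sh_mul (s3 s') (Sh_iv s4.2)))).1 r2
  have r4 : hv D s (p0 N 1) (p1 N 1) *
      (n0 N β * iv (v0 N (β + 2)) - v0 N β * iv (n0 N (β + 2))) = 0 := by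
    linear_combination iv (v0 N (β + 2)) * r0 - v0 N β * r3
  have r5 := (mul_eq_zero.1 r4).resolve_right (Ind_ne hd hu.ne_zero)
  rw [e1] at r5
  have r6 := (mul_eq_zero.1 r5).resolve_left
    (pow_ne_zero _ (Ind_up (N := N) one_pos (by omega)).ne_zero)
  have w := ini_wA (N := N) (by omega)
  refine ⟨trans_of_ini w one_ne_zero r6, trans_of_ini w one_ne_zero ?_⟩
  rw [r6, zero_mul, zero_add] at hs
  exact hs

/-- a binary quadratic form in the second pencil -/
noncomputable def IndQ (N x : ℤ) (a b c : O) : R :=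
  algebraMap O R a * (n0 N x * n0 N x) + algebraMap O R b * (n0 N x * v0 N x) +
    algebraMap O R c * (v0 N x * v0 N x)

theorem Ind_shQ {N β : ℤ} (h0 : 0 ≤ β) (h1 : β ≤ N) (hN : 0 < N) (a b c : O) :
    Sh β (0 + (-β + -β)) (IndQ N β a b c) (IndQ N 0 a b c) := by
  obtain ⟨s1, s2⟩ := Ind_shn (N := N) (x := β) (x' := 0) (ρ := β) h0 h1 le_rfl hN.le hN (by omega)
  exact Sh_add (Sh_add (Sh_mul (Sh_alg β a) (Sh_mul s1 s1)) (Sh_mul (Sh_alg β b) (Sh_mul s1 s2)))
    (Sh_mul (Sh_alg β c) (Sh_mul s2 s2))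

theorem Ind_ivQ {N : ℤ} (hN : 0 < N) (a b c : O) : iv (IndQ N 0 a b c) = IndQ N 0 a b c := by
  simp only [IndQ, map_add, map_mul, iv_alg, sym_n0 hN, sym_v0 hN]

theorem Ind_Q {N β : ℤ} (h : Fold N β) {a b c : O} (hq : IndQ N β a b c = 0) : a = 0 := by
  obtain ⟨h0, h1, h2⟩ := h
  have hv0 := (Ind_uv (N := N) h0 (by omega)).ne_zero
  have e : Polynomial.aeval (eta N β)
      (Polynomial.C a * Polynomial.X ^ 2 + Polynomial.C b * Polynomial.X + Polynomial.C c) = 0 := by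
    apply mul_left_cancel₀ (mul_ne_zero hv0 hv0)
    rw [IndQ, Ind_eta h0 (by omega)] at hq
    simp only [map_add, map_mul, map_pow, Polynomial.aeval_C, Polynomial.aeval_X]
    linear_combination hq
  have e' : (Polynomial.C a * Polynomial.X ^ 2 + Polynomial.C b * Polynomial.X + Polynomial.C c :
      Polynomial O) = 0 := by
    rcases h2 with h2 | h2
    · exact trans_of_ini (ini_eta h0 (by omega)) (by norm_num) e
    · exact trans_of_ini (ini_eta' h2 (by omega)) one_ne_zero e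
  have e2 := congrArg (fun p => Polynomial.coeff p 2) e'
  simpa [Polynomial.coeff_X, Polynomial.coeff_C] using e2

theorem Ind_TT : (LaurentPolynomial.T 1 - LaurentPolynomial.T (-1) : L) ≠ 0 := by
  intro h
  have h1 := congrArg (evL u2) (sub_eq_zero.1 h)
  simp only [evL, LaurentPolynomial.eval₂_T, u2] at h1
  norm_num at h1

theorem Ind_W {N β : ℤ} (h : Fold N β) :
    p0 N (1 + β) * iv (p1 N (1 + β)) - p1 N (1 + β) * iv (p0 N (1 + β)) ≠ 0 := by
  obtain ⟨h0, h1, h2⟩ := h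
  have a1 := ini_p1 (N := N) (x := 1 + β) (by omega) (by omega)
  have a2 := Ini_iv a1
  rw [LaurentPolynomial.invert_T] at a2
  rw [sub_eq_add_neg]
  rcases h2 with h2 | h2
  · have b1 := ini_p0 (N := N) (x := 1 + β) (by omega) (by omega)
    have b2 := Ini_iv b1
    rw [LaurentPolynomial.invert_T] at b2
    have c1 := Ini_mul b1 a2
    have c2 := Ini_neg (Ini_mul a1 b2)
    rw [← LaurentPolynomial.T_add] at c1 c2
    rw [add_zero] at c1
    rw [zero_add] at c2
    refine Ind_ne (Ini_add' c1 c2) ?_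
    simpa [sub_eq_add_neg] using Ind_TT
  · have b1 := ini_p0' (N := N) (x := 1 + β) (by omega) (by omega)
    have b2 := Ini_iv b1
    rw [LaurentPolynomial.invert_T] at b2
    have c1 := Ini_mul b1 a2
    have c2 := Ini_neg (Ini_mul a1 b2)
    rw [← LaurentPolynomial.T_add] at c1 c2
    rw [add_zero] at c1
    rw [zero_add] at c2
    refine Ind_ne (Ini_add' c1 c2) ?_
    intro e
    apply Ind_TT
    rw [neg_zero, add_zero, neg_neg, zero_add] at e
    linear_combination -e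

theorem ind2 {N β : ℤ} (h : Fold N β) {q g k : Polynomial O} (hq : q.natDegree ≤ 1)
    (hg : g.natDegree ≤ 1) (hk : k.natDegree ≤ 1)
    (hs : Polynomial.aeval (wA N) q * eta N β ^ 2 + Polynomial.aeval (wA N) g * eta N β +
      Polynomial.aeval (wA N) k = 0) : q = 0 := by
  have hW := Ind_W h
  have h' := h
  obtain ⟨h0, h1, -⟩ := h'
  have hN : 0 < N := by omega
  have ew : p0 N 1 = wA N * p1 N 1 := by
    rw [wA, mul_assoc, Ring.inverse_mul_cancel _ (Ind_up one_pos (by omega)), mul_one]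
  rw [Polynomial.eq_X_add_C_of_natDegree_le_one hq, Polynomial.eq_X_add_C_of_natDegree_le_one hg,
    Polynomial.eq_X_add_C_of_natDegree_le_one hk] at hs
  simp only [map_add, map_mul, Polynomial.aeval_C, Polynomial.aeval_X] at hs
  have r0 : p0 N 1 * IndQ N β (q.coeff 1) (g.coeff 1) (k.coeff 1) +
      p1 N 1 * IndQ N β (q.coeff 0) (g.coeff 0) (k.coeff 0) = 0 := by
    rw [IndQ, IndQ, Ind_eta h0 (by omega), ew]
    linear_combination (p1 N 1 * v0 N β ^ 2) * hs
  have s1 := sh_p0 (N := N) (x := 1) (x' := 1 + β) (by omega) (by omega) (by omega) (by omega) hN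
  have s2 := sh_p1 (N := N) (x := 1) (x' := 1 + β) (by omega) (by omega) (by omega) (by omega) hN
  rw [add_sub_cancel_left] at s1 s2
  have s3 := Ind_shQ (N := N) h0.le (by omega) hN
  have r1 := (Sh_zero (Sh_add (Sh_mul s1 (s3 _ _ _)) (Sh_mul s2 (s3 _ _ _)))).1 r0
  have r2 := congrArg iv r1
  rw [map_add, map_mul, map_mul, map_zero, Ind_ivQ hN, Ind_ivQ hN] at r2
  have r3 : IndQ N 0 (q.coeff 1) (g.coeff 1) (k.coeff 1) = 0 := by
    apply mul_left_cancel₀ hW
    linear_combination iv (p1 N (1 + β)) * r1 - p1 N (1 + β) * r2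
  have r4 : IndQ N 0 (q.coeff 0) (g.coeff 0) (k.coeff 0) = 0 := by
    apply mul_left_cancel₀ hW
    linear_combination p0 N (1 + β) * r2 - iv (p0 N (1 + β)) * r1
  rw [Polynomial.eq_X_add_C_of_natDegree_le_one hq, Ind_Q h ((Sh_zero (s3 _ _ _)).2 r3),
    Ind_Q h ((Sh_zero (s3 _ _ _)).2 r4)]
  simp

theorem biq_zero {N β : ℤ} (h : Fold N β) {q g k : Polynomial O} (hb : Biq N β q g k) :
    Polynomial.aeval (wA N) q * eta N β ^ 2 + Polynomial.aeval (wA N) g * eta N β +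
      Polynomial.aeval (wA N) k = 0 := by
  obtain ⟨h0, h1, -⟩ := h
  have e1 := hb.eq
  have e2 := hb.eg
  have e3 := hb.eh
  rw [Ind_hv (by omega) hb.dq] at e1
  rw [Ind_hv (by omega) hb.dg, Ind_eta (N := N) h0 (by omega)] at e2
  rw [Ind_hv (by omega) hb.dh, Ind_eta (N := N) h0 (by omega)] at e3
  apply mul_left_cancel₀ (pow_ne_zero 2 (Ind_up (N := N) one_pos (by omega)).ne_zero)
  linear_combination eta N β ^ 2 * e1 + eta N β * e2 + e3

theorem biq_der {N β : ℤ} (h : Fold N β) {q g k : Polynomial O} (hb : Biq N β q g k) :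
    ∃ (e : ℕ) (u : R), IsUnit u ∧ 2 * Polynomial.aeval (wA N) q * eta N β +
      Polynomial.aeval (wA N) g = PowerSeries.X ^ e * u := by
  obtain ⟨j, u, hu, hd⟩ := ini_del h
  obtain ⟨v, hv1, hv2⟩ := Ini_unit hd hu
  obtain ⟨h0, h1, -⟩ := h
  have e1 := hb.eq
  have e2 := hb.eg
  have hp := Ind_up (N := N) one_pos (by omega)
  rw [Ind_hv (by omega) hb.dq] at e1
  rw [Ind_hv (by omega) hb.dg, Ind_eta (N := N) h0 (by omega)] at e2
  rw [Ind_eta (N := N) h0 (by omega)] at hv2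
  have hy : IsUnit (yT 2) := (LaurentPolynomial.isUnit_T 2).map PowerSeries.C
  have hi : IsUnit (Ring.inverse (p1 N 1)) := hp.ringInverse
  refine ⟨2 + j, yT 2 * v * Ring.inverse (p1 N 1) ^ 2, (hy.mul hv1).mul (hi.pow 2), ?_⟩
  apply mul_left_cancel₀ (pow_ne_zero 2 hp.ne_zero)
  have e4 := Ring.mul_inverse_cancel _ hp
  linear_combination 2 * eta N β * e1 + e2 + PowerSeries.X ^ 2 * yT 2 * hv2 -
    PowerSeries.X ^ (2 + j) * yT 2 * v * (p1 N 1 * Ring.inverse (p1 N 1) + 1) * e4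

theorem Ind_ev (z : ℂˣ) (x : R) (s : Polynomial O) :
    evO z (Polynomial.aeval x s) = s.eval (evO z x) := by
  induction s using Polynomial.induction_on' with
  | add p q hp hq => rw [map_add, map_add, Polynomial.eval_add, hp, hq]
  | monomial n a =>
    rw [Polynomial.aeval_monomial, map_mul, map_pow, evO_alg, Polynomial.eval_monomial]

theorem Ind_evc (z : ℂˣ) {f : R} {k : ℕ} {s : ℤ} (h : Ini f k (LaurentPolynomial.T s)) :
    PowerSeries.coeff k (evO z f) = ((z ^ s : ℂˣ) : ℂ) := by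
  rw [evO, PowerSeries.coeff_map, h.2, evL, LaurentPolynomial.eval₂_T]

theorem Ind_root {N β : ℤ} (h : Fold N β) {q g k : Polynomial O} (hb : Biq N β q g k) (z : ℂˣ)
    (hz : evO z (v0 N 0) = 0) :
    q.eval (evO z (p0 N (1 + β) * Ring.inverse (p1 N (1 + β)))) = 0 := by
  have hs := biq_zero h hb
  obtain ⟨h0, h1, -⟩ := h
  have hN : 0 < N := by omega
  have r0 : hv 2 q (p0 N 1) (p1 N 1) * (n0 N β * n0 N β) +
      hv 2 g (p0 N 1) (p1 N 1) * (n0 N β * v0 N β) +
      hv 2 k (p0 N 1) (p1 N 1) * (v0 N β * v0 N β) = 0 := by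
    rw [Ind_hv (by omega) hb.dq, Ind_hv (by omega) hb.dg, Ind_hv (by omega) hb.dh,
      Ind_eta (N := N) h0 (by omega)]
    linear_combination (p1 N 1 ^ 2 * v0 N β ^ 2) * hs
  have s0 := fun t => Ind_shv (N := N) (x := 1) (x' := 1 + β) (ρ := β) (by omega) (by omega)
    (by omega) (by omega) hN (by omega) 2 t
  obtain ⟨s1, s2⟩ := Ind_shn (N := N) (x := β) (x' := 0) (ρ := β) h0.le (by omega) le_rfl hN.le hN
    (by omega)
  have r1 := (Sh_zero (Sh_add (Sh_add (Sh_mul (s0 q) (Sh_mul s1 s1)) (Sh_mul (s0 g) (Sh_mul s1 s2)))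
    (Sh_mul (s0 k) (Sh_mul s2 s2)))).1 r0
  have hp := Ind_up (N := N) (x := 1 + β) (by omega) (by omega)
  have r2 := congrArg (evO z) r1
  rw [hv_unit hb.dq _ hp] at r2
  simp only [map_add, map_mul, hz, mul_zero, add_zero, map_zero, map_pow, Ind_ev] at r2
  have n1 : evO z (n0 N 0) ≠ 0 := by
    intro e
    have c := Ind_evc z (ini_n0 (N := N) le_rfl (by omega))
    rw [e, map_zero] at c
    exact Units.ne_zero _ c.symm
  have n2 : evO z (p1 N (1 + β)) ≠ 0 := (hp.map (evO z)).ne_zero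
  rw [map_mul]
  exact (mul_eq_zero.1 ((mul_eq_zero.1 r2).resolve_right (mul_ne_zero n1 n1))).resolve_left
    (pow_ne_zero 2 n2)

theorem biq_root {N β : ℤ} (h : Fold N β) {q g k : Polynomial O} (hb : Biq N β q g k) :
    ∃ q1 : Polynomial O, q = ell 1 N β * q1 ∧ ¬ell 1 N β ∣ q1 := by
  have h' := h
  obtain ⟨h0, h1, h2⟩ := h'
  have hN : 0 < N := by omega
  have r1 := Ind_root h hb u2⁻¹ (ev_v0 hN).2
  have r2 := Ind_root h hb u2 (ev_v0 hN).1
  have hp := Ind_up (N := N) (x := 1 + β) (by omega) (by omega)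
  have hc : PowerSeries.constantCoeff (evO u2⁻¹ (p1 N (1 + β))) ≠ 0 :=
    ((hp.map (evO u2⁻¹)).map PowerSeries.constantCoeff).ne_zero
  have e : ell 1 N β = Polynomial.X -
      Polynomial.C (evO u2⁻¹ (p0 N (1 + β) * Ring.inverse (p1 N (1 + β)))) := by
    rw [ell, if_pos rfl, map_mul (evO u2⁻¹), (PowerSeries.inv_eq_iff_mul_eq_one hc).2]
    rw [← map_mul, Ring.inverse_mul_cancel _ hp, map_one]
  have hne : evO u2 (p0 N (1 + β) * Ring.inverse (p1 N (1 + β))) ≠
      evO u2⁻¹ (p0 N (1 + β) * Ring.inverse (p1 N (1 + β))) := by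
    intro e1
    rcases h2 with h2 | h2
    · have w := Ind_w (N := N) (x := 1 + β) (by omega) (by omega)
      have c := Ind_evc u2 w
      rw [e1, Ind_evc u2⁻¹ w] at c
      simp only [u2] at c
      norm_num at c
    · have w := Ind_w' (N := N) (x := 1 + β) (by omega) (by omega)
      have c := Ind_evc u2 w
      rw [e1, Ind_evc u2⁻¹ w] at c
      simp only [u2] at c
      norm_num at c
  rw [e]
  generalize evO u2⁻¹ (p0 N (1 + β) * Ring.inverse (p1 N (1 + β))) = a at r1 hne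
  generalize evO u2 (p0 N (1 + β) * Ring.inverse (p1 N (1 + β))) = b at r2 hne
  obtain ⟨q1, hq1⟩ := Polynomial.dvd_iff_isRoot.2 r1
  refine ⟨q1, hq1, ?_⟩
  rintro ⟨q2, rfl⟩
  have hq0 : q ≠ 0 := by
    intro e0
    have := hb.q2
    rw [e0] at this
    simp at this
  have hq2 : q2 ≠ 0 := by
    rintro rfl
    apply hq0
    rw [hq1, mul_zero, mul_zero]
  have hd := hb.dq
  rw [hq1, (Polynomial.monic_X_sub_C a).natDegree_mul'
    (mul_ne_zero (Polynomial.X_sub_C_ne_zero a) hq2),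
    (Polynomial.monic_X_sub_C a).natDegree_mul' hq2, Polynomial.natDegree_X_sub_C] at hd
  rw [Polynomial.eq_C_of_natDegree_eq_zero (show q2.natDegree = 0 by omega)] at hq1 hq2
  rw [hq1] at r2
  simp only [Polynomial.eval_mul, Polynomial.eval_sub, Polynomial.eval_X, Polynomial.eval_C] at r2
  have hab := sub_ne_zero.2 hne
  exact mul_ne_zero hab (mul_ne_zero hab fun e0 => hq2 (by rw [e0, map_zero])) r2

end Pool.Agent.Lib.MP_d03834_ag.Nag
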