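import Pool.Agent.Lib.MP_d03834_ag.Rul.Sh

/-! Initial forms and minimal terms. -/

set_option autoImplicit false

namespace Pool.Agent.Lib.MP_d03834_ag.Nag

open MvPolynomial Module

theorem Ini_iff {f : R} {k : ℕ} {u : L} :
    Ini f k u ↔ ∃ v : R, f = PowerSeries.X ^ k * v ∧ PowerSeries.constantCoeff v = u := by
  constructor
  · rintro ⟨h0, h1⟩
    obtain ⟨v, rfl⟩ := PowerSeries.X_pow_dvd_iff.2 h0
    refine ⟨v, rfl, ?_⟩
    have := PowerSeries.coeff_X_pow_mul v k 0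
    rw [zero_add, h1] at this
    rw [this, PowerSeries.coeff_zero_eq_constantCoeff_apply]
  · rintro ⟨v, rfl, rfl⟩
    refine ⟨PowerSeries.X_pow_dvd_iff.1 ⟨v, rfl⟩, ?_⟩
    have := PowerSeries.coeff_X_pow_mul v k 0
    rw [zero_add] at this
    rw [this, PowerSeries.coeff_zero_eq_constantCoeff_apply]

theorem Ini_mul {f g : R} {k k' : ℕ} {u u' : L} (h : Ini f k u) (h' : Ini g k' u') :
    Ini (f * g) (k + k') (u * u') := by
  obtain ⟨v, rfl, rfl⟩ := Ini_iff.1 h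
  obtain ⟨v', rfl, rfl⟩ := Ini_iff.1 h'
  exact Ini_iff.2 ⟨v * v', by ring, by rw [map_mul]⟩

theorem Ini_pow {f : R} {k : ℕ} {u : L} (h : Ini f k u) (n : ℕ) :
    Ini (f ^ n) (k * n) (u ^ n) := by
  obtain ⟨v, rfl, rfl⟩ := Ini_iff.1 h
  exact Ini_iff.2 ⟨v ^ n, by ring, by rw [map_pow]⟩

theorem Ini_add {f g : R} {k k' : ℕ} {u u' : L} (h : Ini f k u) (h' : Ini g k' u') (hk : k < k') :
    Ini (f + g) k u := by
  refine ⟨fun e he => ?_, ?_⟩
  · rw [map_add, h.1 e he, h'.1 e (he.trans hk), add_zero]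
  · rw [map_add, h.2, h'.1 k hk, add_zero]

theorem Ini_add' {f g : R} {k : ℕ} {u u' : L} (h : Ini f k u) (h' : Ini g k u') :
    Ini (f + g) k (u + u') := by
  refine ⟨fun e he => ?_, ?_⟩
  · rw [map_add, h.1 e he, h'.1 e he, add_zero]
  · rw [map_add, h.2, h'.2]

theorem Ini_neg {f : R} {k : ℕ} {u : L} (h : Ini f k u) : Ini (-f) k (-u) := by
  refine ⟨fun e he => ?_, ?_⟩
  · rw [map_neg, h.1 e he, neg_zero]
  · rw [map_neg, h.2]

theorem Ini_iv {f : R} {k : ℕ} {u : L} (h : Ini f k u) :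
    Ini (iv f) k (LaurentPolynomial.invert u) := by
  refine ⟨fun e he => ?_, ?_⟩
  · rw [iv, PowerSeries.coeff_map, h.1 e he, map_zero]
  · rw [iv, PowerSeries.coeff_map, h.2]
    rfl

theorem Ini_alg (o : O) :
    Ini (algebraMap O R o) 0 (LaurentPolynomial.C (PowerSeries.constantCoeff o)) := by
  refine ⟨fun e he => absurd he (Nat.not_lt_zero e), ?_⟩
  rw [Win_coeff_alg, PowerSeries.coeff_zero_eq_constantCoeff_apply]

theorem Ini_unit {f : R} {k : ℕ} {u : L} (h : Ini f k u) (hu : IsUnit u) :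
    ∃ v : R, IsUnit v ∧ f = PowerSeries.X ^ k * v := by
  obtain ⟨v, rfl, rfl⟩ := Ini_iff.1 h
  exact ⟨v, PowerSeries.isUnit_iff_constantCoeff.2 hu, rfl⟩

theorem Ini_inv {f : R} {s : ℤ} (h : Ini f 0 (LaurentPolynomial.T s)) :
    IsUnit f ∧ Ini (Ring.inverse f) 0 (LaurentPolynomial.T (-s)) := by
  obtain ⟨v, hv, hc⟩ := Ini_iff.1 h
  rw [pow_zero, one_mul] at hv
  subst hv
  have hu : IsUnit f :=
    PowerSeries.isUnit_iff_constantCoeff.2 (by rw [hc]; exact LaurentPolynomial.isUnit_T s)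
  refine ⟨hu, Ini_iff.2 ⟨Ring.inverse f, by rw [pow_zero, one_mul], ?_⟩⟩
  have h1 := congrArg PowerSeries.constantCoeff (Ring.inverse_mul_cancel f hu)
  rw [map_mul, map_one, hc] at h1
  have h2 : (LaurentPolynomial.T s : L) * LaurentPolynomial.T (-s) = 1 := by
    rw [← LaurentPolynomial.T_add, add_neg_cancel, LaurentPolynomial.T_zero]
  rw [← mul_one (PowerSeries.constantCoeff (Ring.inverse f)), ← h2, ← mul_assoc, h1, one_mul]

theorem Ini_ex {f : R} (h : f ≠ 0) : ∃ k u, u ≠ 0 ∧ Ini f k u := by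
  classical
  have hex : ∃ k, PowerSeries.coeff k f ≠ 0 := by
    by_contra hc
    exact h (PowerSeries.ext fun n => by_contra fun hn => hc ⟨n, by simpa using hn⟩)
  refine ⟨Nat.find hex, _, Nat.find_spec hex, fun e he => ?_, rfl⟩
  exact not_not.1 (Nat.find_min hex he)

theorem Ini_le {f : R} {k : ℕ} {u : L} (h : Ini f k u) {b e : ℤ} (hb : cz f b e ≠ 0) :
    (k : ℤ) ≤ e := by
  by_contra h2
  apply hb
  unfold cz
  split_ifs with h3
  · rw [h.1 _ (by omega)]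
    simp
  · rfl

theorem Ini_mn {f : R} {k : ℕ} {u : L} (h : Ini f k u) (hu : u ≠ 0) (b e : ℤ) :
    Mn 0 f b e ↔ e = k ∧ u.coeff b ≠ 0 := by
  constructor
  · rintro ⟨h1, h2⟩
    obtain ⟨b', hb'⟩ : ∃ b', u.coeff b' ≠ 0 := by
      by_contra hc
      exact hu (LaurentPolynomial.ext fun n => by_contra fun hn => hc ⟨n, by simpa using hn⟩)
    have h3 := h2 b' k (by rw [Win_nat, h.2]; exact hb')
    have h4 := Ini_le h h1
    have h5 : e = k := by omega
    subst h5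
    rw [Win_nat, h.2] at h1
    exact ⟨rfl, h1⟩
  · rintro ⟨rfl, h1⟩
    refine ⟨by rw [Win_nat, h.2]; exact h1, fun b' e' h2 => ?_⟩
    have := Ini_le h h2
    omega

theorem Ini_cf (c : ℂ) (s b : ℤ) (u : L) :
    (LaurentPolynomial.C c * LaurentPolynomial.T s * u).coeff b = c * u.coeff (b - s) := by
  rw [← LaurentPolynomial.single_eq_C_mul_T, AddMonoidAlgebra.coeff_single_mul_apply,
    neg_add_eq_sub]

theorem Ini_cf1 (c : ℂ) (s b : ℤ) :
    (LaurentPolynomial.C c * LaurentPolynomial.T s : L).coeff b = if s = b then c else 0 := by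
  rw [← LaurentPolynomial.single_eq_C_mul_T, AddMonoidAlgebra.coeff_single_apply]

theorem Ini_z (b e : ℤ) : cz 0 b e = 0 := by
  simp [cz]

theorem Mn_mul {f v : R} {k : ℕ} {c : ℂ} {s : ℤ} (hc : c ≠ 0)
    (h : Ini v k (LaurentPolynomial.C c * LaurentPolynomial.T s)) {b e : ℤ}
    (hb : Mn 0 (v * f) b e) : Mn 0 f (b - s) (e - k) := by
  have hf : f ≠ 0 := by
    rintro rfl
    exact hb.1 (by rw [mul_zero, Ini_z])
  obtain ⟨k', u, hu, hi⟩ := Ini_ex hf
  have h0 : (LaurentPolynomial.C c * LaurentPolynomial.T s : L) ≠ 0 := by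
    intro h1
    have := Ini_cf1 c s s
    rw [h1, if_pos rfl] at this
    exact hc (by simpa using this.symm)
  obtain ⟨h1, h2⟩ := (Ini_mn (Ini_mul h hi) (mul_ne_zero h0 hu) b e).1 hb
  rw [Ini_cf] at h2
  refine (Ini_mn hi hu _ _).2 ⟨?_, right_ne_zero_of_mul h2⟩
  rw [h1]
  push_cast
  ring

theorem Kink_zero {f : R} (h : f ≠ 0) : Kink 0 f := by
  obtain ⟨k, u, hu, hi⟩ := Ini_ex h
  obtain ⟨b, hb⟩ : ∃ b, u.coeff b ≠ 0 := by
    by_contra hc
    exact hu (LaurentPolynomial.ext fun n => by_contra fun hn => hc ⟨n, by simpa using hn⟩)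
  have := (Ini_mn hi hu b k).2 ⟨rfl, hb⟩
  exact ⟨b, k, b, k, this, this, by omega⟩

theorem Ini_algO {o : O} (h : o ≠ 0) :
    ∃ (d : ℕ) (a : ℂ), a ≠ 0 ∧ Ini (algebraMap O R o) d (LaurentPolynomial.C a) := by
  classical
  have hex : ∃ k, PowerSeries.coeff k o ≠ 0 := by
    by_contra hc
    exact h (PowerSeries.ext fun n => by_contra fun hn => hc ⟨n, by simpa using hn⟩)
  refine ⟨Nat.find hex, _, Nat.find_spec hex, fun e he => ?_, Win_coeff_alg _ _⟩
  rw [Win_coeff_alg, not_not.1 (Nat.find_min hex he), map_zero]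

theorem Ini_sum {α : Type} (S : Finset α) (f : α → R) (k : α → ℕ) (c : α → ℂ) (u : α → ℤ)
    (hc : ∀ i ∈ S, c i ≠ 0)
    (h : ∀ i ∈ S, Ini (f i) (k i) (LaurentPolynomial.C (c i) * LaurentPolynomial.T (u i)))
    (hu : Set.InjOn u S) (hS : S.Nonempty) :
    ∃ n U, U ≠ 0 ∧ Ini (∑ i ∈ S, f i) n U ∧ ∀ b, U.coeff b ≠ 0 → ∃ i ∈ S, b = u i := by
  classical
  obtain ⟨i0, hi0, hm⟩ := S.exists_min_image k hS
  have key : ∀ b, (PowerSeries.coeff (k i0) (∑ i ∈ S, f i)).coeff b =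
      ∑ i ∈ S, if k i = k i0 ∧ u i = b then c i else 0 := by
    intro b
    rw [map_sum, AddMonoidAlgebra.coeff_sum, Finsupp.finsetSum_apply]
    refine Finset.sum_congr rfl fun i hi => ?_
    by_cases h1 : k i = k i0
    · rw [← h1, (h i hi).2, Ini_cf1]
      simp
    · rw [(h i hi).1 _ (lt_of_le_of_ne (hm i hi) (Ne.symm h1)), if_neg fun h2 => h1 h2.1]
      simp
  refine ⟨k i0, _, fun h0 => ?_, ⟨fun e he => ?_, rfl⟩, fun b hb => ?_⟩
  · have := key (u i0)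
    rw [h0, Finset.sum_eq_single_of_mem i0 hi0 fun i hi hne =>
      if_neg fun h2 => hne (hu hi hi0 h2.2), if_pos ⟨rfl, rfl⟩] at this
    exact hc i0 hi0 (by simpa using this.symm)
  · rw [map_sum]
    exact Finset.sum_eq_zero fun i hi => (h i hi).1 e (lt_of_lt_of_le he (hm i hi))
  · rw [key] at hb
    obtain ⟨i, hi, h1⟩ := Finset.exists_ne_zero_of_sum_ne_zero hb
    refine ⟨i, hi, ?_⟩
    by_contra h2
    exact h1 (if_neg fun h3 => h2 h3.2.symm)

theorem mono_sum {α : Type} (S : Finset α) (f : α → R) (k : α → ℕ) (c : α → ℂ) (u : α → ℤ)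
    (hc : ∀ i ∈ S, c i ≠ 0)
    (h : ∀ i ∈ S, Ini (f i) (k i) (LaurentPolynomial.C (c i) * LaurentPolynomial.T (u i)))
    (hu : Set.InjOn u S) (o : α → O) :
    (∑ i ∈ S, algebraMap O R (o i) * f i = 0 → ∀ i ∈ S, o i = 0) ∧
      ∀ b e, Mn 0 (∑ i ∈ S, algebraMap O R (o i) * f i) b e → ∃ i ∈ S, b = u i := by
  classical
  have h1 : ∀ i, o i ≠ 0 →
      ∃ (d : ℕ) (a : ℂ), a ≠ 0 ∧ Ini (algebraMap O R (o i)) d (LaurentPolynomial.C a) :=
    fun i hi => Ini_algO hi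
  choose! d a ha hd using h1
  have h2 : ∑ i ∈ S.filter (fun i => o i ≠ 0), algebraMap O R (o i) * f i =
      ∑ i ∈ S, algebraMap O R (o i) * f i :=
    Finset.sum_filter_of_ne fun i _ hi h0 => hi (by rw [h0, map_zero, zero_mul])
  have h3 : (S.filter fun i => o i ≠ 0).Nonempty → ∃ n U, U ≠ 0 ∧
      Ini (∑ i ∈ S, algebraMap O R (o i) * f i) n U ∧ ∀ b, U.coeff b ≠ 0 → ∃ i ∈ S, b = u i := by
    intro hS
    obtain ⟨n, U, hU, hi, hb⟩ := Ini_sum (S.filter fun i => o i ≠ 0)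
      (fun i => algebraMap O R (o i) * f i) (fun i => d i + k i) (fun i => a i * c i) u
      (fun i hi => mul_ne_zero (ha i (Finset.mem_filter.1 hi).2) (hc i (Finset.mem_filter.1 hi).1))
      (fun i hi => by
        have := Ini_mul (hd i (Finset.mem_filter.1 hi).2) (h i (Finset.mem_filter.1 hi).1)
        rwa [← mul_assoc, ← map_mul] at this)
      (hu.mono fun i hi => (Finset.mem_filter.1 hi).1) hS
    rw [h2] at hi
    refine ⟨n, U, hU, hi, fun b hb' => ?_⟩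
    obtain ⟨i, hi1, hi2⟩ := hb b hb'
    exact ⟨i, (Finset.mem_filter.1 hi1).1, hi2⟩
  refine ⟨fun h0 i hi => ?_, fun b e hm => ?_⟩
  · by_contra hne
    obtain ⟨n, U, hU, hn, -⟩ := h3 ⟨i, Finset.mem_filter.2 ⟨hi, hne⟩⟩
    exact hU (by rw [← hn.2, h0, map_zero])
  · rcases (S.filter fun i => o i ≠ 0).eq_empty_or_nonempty with h4 | h4
    · rw [← h2, h4, Finset.sum_empty] at hm
      exact absurd (Ini_z b e) hm.1
    · obtain ⟨n, U, hU, hn, hb⟩ := h3 h4
      exact hb b ((Ini_mn hn hU b e).1 hm).2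

theorem trans_of_ini {x : R} {k : ℕ} {u : ℤ} (h : Ini x k (LaurentPolynomial.T u)) (hu : u ≠ 0)
    {s : Polynomial O} (hs : Polynomial.aeval x s = 0) : s = 0 := by
  have h1 := (mono_sum (Finset.range (s.natDegree + 1)) (fun i => x ^ i) (fun i => k * i)
    (fun _ => 1) (fun i => i * u) (fun _ _ => one_ne_zero)
    (fun i _ => by
      have := Ini_pow h i
      rwa [LaurentPolynomial.T_pow, ← one_mul (LaurentPolynomial.T _), ← map_one
        (LaurentPolynomial.C : ℂ →+* L)] at this)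
    (fun i _ j _ hij => by exact_mod_cast mul_right_cancel₀ hu hij) s.coeff).1
    (by
      rw [← hs, Polynomial.aeval_eq_sum_range]
      exact Finset.sum_congr rfl fun i _ => (Algebra.smul_def _ _).symm)
  by_contra h0
  exact h0 (Polynomial.leadingCoeff_eq_zero.1 (h1 _ (Finset.self_mem_range_succ _)))

theorem win2 {N r a β : ℤ} {f : R} (h : Th N r a f) (h0 : 0 < β) (h1 : β + 1 < N)
    {b e b1 e1 b2 e2 c1 f1 c2 f2 : ℤ} (m0 : Mn 0 f b e) (m1 : Mn β f b1 e1) (m2 : Mn β f b2 e2)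
    (m3 : Mn (-1) f c1 f1) (m4 : Mn (-1) f c2 f2) :
    b2 ≤ b ∧ 0 ≤ β * b + (N - β) * b1 + a ∧ b ≤ c1 ∧ c2 ≤ b1 + r ∧
      b + (N - 1 - β) * c2 + β * (b2 + r) ≤ N * r - a := by
  have s1 : cz f (b1 + r) (e1 + N * b1 + a) ≠ 0 := by
    rw [h b1 e1]
    exact m1.1
  have s2 : cz f (c2 - r) (f2 - N * (c2 - r) - a) ≠ 0 := by
    rw [← h, sub_add_cancel, show f2 - N * (c2 - r) - a + N * (c2 - r) + a = f2 by ring]
    exact m4.1
  have a1 := m0.2 _ _ m2.1
  have a2 := m2.2 _ _ m0.1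
  have a3 := m1.2 _ _ m0.1
  have a4 := m0.2 _ _ s1
  have a5 := m3.2 _ _ m0.1
  have a6 := m0.2 _ _ m3.1
  have a7 := m1.2 _ _ s2
  have a8 := m4.2 _ _ s1
  have a9 := m2.2 _ _ s2
  have a10 := m4.2 _ _ m0.1
  refine ⟨?_, by linarith, by linarith, ?_, by linarith⟩
  · exact le_of_mul_le_mul_left (by linarith) h0
  · exact le_of_mul_le_mul_left (a := N - β - 1) (by linarith) (by linarith)

end Pool.Agent.Lib.MP_d03834_ag.Nag
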