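import Pool.Agent.Lib.MP_d03834_ag.Rul.Th2

/-! Kinks at the two folds. -/

set_option autoImplicit false

namespace Pool.Agent.Lib.MP_d03834_ag.Nag

open MvPolynomial Module

lemma Kink_fac {f : R} {k : ℕ} {u : L} (h : Ini f k u) :
    ∃ g : R, f = PowerSeries.X ^ k * g ∧ PowerSeries.constantCoeff g = u := by
  obtain ⟨g, hg⟩ := PowerSeries.X_pow_dvd_iff.2 h.1
  refine ⟨g, hg, ?_⟩
  have := PowerSeries.coeff_X_pow_mul g k 0
  rw [zero_add, ← hg, h.2] at this
  rw [← PowerSeries.coeff_zero_eq_constantCoeff_apply, this]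

lemma Kink_c0 {f : R} {u : L} (h : Ini f 0 u) : PowerSeries.constantCoeff f = u := by
  rw [← PowerSeries.coeff_zero_eq_constantCoeff_apply]
  exact h.2

lemma Kink_c0ev (z : ℂˣ) (f : R) :
    PowerSeries.constantCoeff (evO z f) = evL z (PowerSeries.constantCoeff f) := by
  rw [evO, ← PowerSeries.coeff_zero_eq_constantCoeff_apply, PowerSeries.coeff_map,
    PowerSeries.coeff_zero_eq_constantCoeff_apply]

lemma Kink_c0alg (o : O) : PowerSeries.constantCoeff (algebraMap O R o) =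
    LaurentPolynomial.C (PowerSeries.constantCoeff o) := by
  rw [← PowerSeries.coeff_zero_eq_constantCoeff_apply, Win_coeff_alg,
    PowerSeries.coeff_zero_eq_constantCoeff_apply]

lemma Kink_c0iv (f : R) : PowerSeries.constantCoeff (iv f) =
    LaurentPolynomial.invert (PowerSeries.constantCoeff f) := by
  rw [iv, ← PowerSeries.coeff_zero_eq_constantCoeff_apply, PowerSeries.coeff_map,
    PowerSeries.coeff_zero_eq_constantCoeff_apply]
  rfl

lemma Kink_evT (z : ℂˣ) (b : ℤ) : evL z (LaurentPolynomial.T b) = (z : ℂ) ^ b := by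
  rw [evL, LaurentPolynomial.eval₂_T, Units.val_zpow_eq_zpow_val]

lemma Kink_dvd {z : ℂˣ} {f : R} (h : evO z f = 0) :
    PowerSeries.C (Polynomial.X - Polynomial.C (z : ℂ)).toLaurent ∣ f := by
  have h1 : ∀ e, ∃ g : L, PowerSeries.coeff e f =
      (Polynomial.X - Polynomial.C (z : ℂ)).toLaurent * g := fun e => by
    refine Ideal.mem_span_singleton.1 (tay_ker z ?_)
    have := congrArg (PowerSeries.coeff e) h
    rwa [evO, PowerSeries.coeff_map, map_zero] at this
  choose g hg using h1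
  refine ⟨PowerSeries.mk g, PowerSeries.ext fun e => ?_⟩
  rw [PowerSeries.coeff_C_mul, PowerSeries.coeff_mk, hg]

theorem kink_one {N β : ℤ} (h0 : 0 < β) (h1 : β + 1 < N) {δ a : ℕ} {s : ℕ → Polynomial O}
    (hd : ∀ i, (s i).natDegree ≤ δ) (hs : ∀ i, ell 1 N β ^ i ∣ s i) (h : FF N β δ a s β ≠ 0) :
    Kink a (FF N β δ a s β) := by
  have hi := ini_p1 (N := N) (x := 1 + β) (by omega) (by omega)
  have hu := (Ini_inv hi).1
  have hc : PowerSeries.constantCoeff (evO u2⁻¹ (p1 N (1 + β))) ≠ 0 := by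
    rw [Kink_c0ev, Kink_c0 hi, Kink_evT]
    simp
  have e1 : evO u2⁻¹ (Ring.inverse (p1 N (1 + β))) = (evO u2⁻¹ (p1 N (1 + β)))⁻¹ := by
    rw [PowerSeries.eq_inv_iff_mul_eq_one hc, ← map_mul, Ring.inverse_mul_cancel _ hu, map_one]
  have d1 := Kink_dvd (z := u2⁻¹) (f := Polynomial.aeval
      (p0 N (1 + β) * Ring.inverse (p1 N (1 + β))) (ell 1 N β)) (by
    rw [ell, if_pos rfl, map_sub, Polynomial.aeval_X, Polynomial.aeval_C, map_sub, map_mul,
      evO_alg, e1, sub_self])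
  have d2 := Kink_dvd (ev_v0 (N := N) (by omega)).2
  set π : L := (Polynomial.X - Polynomial.C ((u2⁻¹ : ℂˣ) : ℂ)).toLaurent with hπ
  have d3 : PowerSeries.C π ^ a ∣ FF N β δ a s β := by
    rw [FF]
    refine Finset.dvd_sum fun i hi => ?_
    have hia : i ≤ a := Nat.lt_succ_iff.1 (Finset.mem_range.1 hi)
    rw [sub_self, hv_unit (hd i) _ hu]
    have e : PowerSeries.C π ^ a = PowerSeries.C π ^ i * PowerSeries.C π ^ (a - i) := by
      rw [← pow_add, Nat.add_sub_cancel' hia]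
    rw [e]
    refine mul_dvd_mul (Dvd.dvd.mul_left ?_ _) (Dvd.dvd.mul_left (pow_dvd_pow_of_dvd d2 _) _)
    refine (pow_dvd_pow_of_dvd d1 i).trans ?_
    rw [← map_pow]
    exact map_dvd _ (hs i)
  obtain ⟨k, u, hu0, hk⟩ := Ini_ex h
  obtain ⟨G, hG⟩ := d3
  have hπ0 : π ∈ RingHom.ker (evL u2⁻¹) := by
    rw [RingHom.mem_ker, hπ, evL, LaurentPolynomial.eval₂_toLaurent]
    simp
  have hm : u ∈ RingHom.ker (evL u2⁻¹) ^ a := by
    rw [← hk.2, hG, ← map_pow, PowerSeries.coeff_C_mul]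
    exact Ideal.mul_mem_right _ _ (Ideal.pow_mem_pow hπ0 a)
  obtain ⟨b, b', hb, hb', hbb⟩ := zeros (n := 1) (z := fun _ => u2⁻¹)
    (fun x y _ => Subsingleton.elim x y) a hu0 fun _ => hm
  exact ⟨b, k, b', k, (Ini_mn hk hu0 _ _).2 ⟨rfl, hb⟩, (Ini_mn hk hu0 _ _).2 ⟨rfl, hb'⟩,
    by simpa using hbb⟩

lemma Kink_zn (l : ℕ) : zn l ≠ 0 := by
  have h1 : ((l : ℂ) + 2) ≠ 0 := by exact_mod_cast (by omega : l + 2 ≠ 0)
  have h2 : (1 + ((l : ℂ) + 2) ^ 2) ≠ 0 := by exact_mod_cast (by positivity : 1 + (l + 2) ^ 2 ≠ 0)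
  exact div_ne_zero h1 h2

theorem kink_two {N β : ℤ} (h0 : 0 < β) (h1 : β + 1 < N) {δ a k : ℕ} {s : ℕ → Polynomial O}
    (hd : ∀ i, (s i).natDegree ≤ δ) {o : O} {n : Fin k → ℕ}
    (hs : s a = Polynomial.C o * ∏ l : Fin k, ln l ^ n l) (h : FF N β δ a s β ≠ 0) :
    Kink 1 (FF N β δ a s β) ∨ ∃ e, Mn 0 (FF N β δ a s β) 0 e := by
  have hi := ini_p1 (N := N) (x := 1 + β) (by omega) (by omega)
  have hu := (Ini_inv hi).1
  have hn := ini_n0 (N := N) (x := 0) le_rfl (by omega)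
  set w := p0 N (1 + β) * Ring.inverse (p1 N (1 + β)) with hw
  have hw0 : PowerSeries.constantCoeff w = 0 := by
    rw [hw, map_mul, c0_p0 (by omega) (by omega), zero_mul]
  set U := p1 N (1 + β) ^ δ * Polynomial.aeval w (∏ l : Fin k, ln l ^ n l) * n0 N 0 ^ a with hU
  have hU0 : PowerSeries.constantCoeff U = LaurentPolynomial.C (∏ l : Fin k, (-zn l) ^ n l) := by
    rw [hU, map_mul, map_mul, map_pow, map_pow, Kink_c0 hi, Kink_c0 hn, map_prod, map_prod,
      map_prod, LaurentPolynomial.T_zero, one_pow, one_pow, one_mul, mul_one]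
    refine Finset.prod_congr rfl fun l _ => ?_
    rw [map_pow, map_pow, map_pow, ln, map_sub, Polynomial.aeval_X, Polynomial.aeval_C, map_sub,
      hw0, Kink_c0alg, PowerSeries.constantCoeff_C, zero_sub, map_neg]
  have hev : ∀ z : ℂˣ, evO z (v0 N 0) = 0 → evO z (FF N β δ a s β) = o * evO z U := by
    intro z hz
    rw [FF, Finset.sum_range_succ, map_add, map_sum, Finset.sum_eq_zero, zero_add, sub_self,
      hv_unit (hd a) _ hu, hs, map_mul (Polynomial.aeval _), Polynomial.aeval_C, Nat.sub_self,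
      pow_zero, mul_one, hU]
    · simp only [map_mul, evO_alg]
      ring
    · intro i hi
      have : a - i ≠ 0 := by
        have := Finset.mem_range.1 hi
        omega
      rw [sub_self, map_mul, map_mul, map_pow _ (v0 N 0), hz, zero_pow this, mul_zero, mul_zero]
  obtain ⟨e, u, hu0, hk⟩ := Ini_ex h
  obtain ⟨G, hG, hG0⟩ := Kink_fac hk
  have hz := ev_v0 (N := N) (by omega)
  have e1 : evO u2 G * evO u2⁻¹ U = evO u2⁻¹ G * evO u2 U := by
    have a1 := hev _ hz.1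
    have a2 := hev _ hz.2
    have hX : ∀ z, evO z PowerSeries.X = PowerSeries.X := fun z => PowerSeries.map_X _
    rw [hG, map_mul, map_pow, hX] at a1 a2
    refine mul_left_cancel₀ (pow_ne_zero e PowerSeries.X_ne_zero) ?_
    linear_combination evO u2⁻¹ U * a1 - evO u2 U * a2
  have e2 : evL u2 u = evL u2⁻¹ u := by
    have := congrArg PowerSeries.constantCoeff e1
    rw [map_mul PowerSeries.constantCoeff, map_mul PowerSeries.constantCoeff, Kink_c0ev,
      Kink_c0ev, Kink_c0ev, Kink_c0ev, hG0, hU0, evL_C, evL_C] at this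
    exact mul_right_cancel₀ (Finset.prod_ne_zero_iff.2 fun (l : Fin k) _ =>
      pow_ne_zero _ (neg_ne_zero.2 (Kink_zn l))) this
  by_contra hc
  rw [not_or] at hc
  obtain ⟨b, hb⟩ : ∃ b, u.coeff b ≠ 0 := by
    by_contra h2
    exact hu0 (LaurentPolynomial.ext fun b => by simpa using not_exists.1 h2 b)
  have hb0 : b ≠ 0 := fun h2 => hc.2 ⟨e, (Ini_mn hk hu0 _ _).2 ⟨rfl, h2 ▸ hb⟩⟩
  have hm : u = LaurentPolynomial.C (u.coeff b) * LaurentPolynomial.T b := by
    rw [← LaurentPolynomial.single_eq_C_mul_T]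
    refine LaurentPolynomial.ext fun c => ?_
    rw [AddMonoidAlgebra.coeff_single]
    by_cases hcb : c = b
    · subst hcb
      simp
    · have : u.coeff c = 0 := by
        by_contra h2
        rcases lt_or_gt_of_ne hcb with h3 | h3
        · exact hc.1 ⟨c, e, b, e, (Ini_mn hk hu0 _ _).2 ⟨rfl, h2⟩,
            (Ini_mn hk hu0 _ _).2 ⟨rfl, hb⟩, h3⟩
        · exact hc.1 ⟨b, e, c, e, (Ini_mn hk hu0 _ _).2 ⟨rfl, hb⟩,
            (Ini_mn hk hu0 _ _).2 ⟨rfl, h2⟩, h3⟩
      rw [this]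
      simp [hcb]
  rw [hm, map_mul, map_mul, evL_C, evL_C, Kink_evT, Kink_evT] at e2
  have e3 := congrArg norm (mul_left_cancel₀ hb e2)
  rw [norm_zpow, norm_zpow] at e3
  have e4 : (2 : ℝ) ^ b = 2 ^ (-b) := by
    simpa [u2] using e3
  have := zpow_right_injective₀ (a := (2 : ℝ)) (by norm_num) (by norm_num) e4
  omega

lemma Kink_desc {ι : Type} [Fintype ι] {x : ι → ℝ} (hx : Function.Injective x)
    (hp : ∀ l, 0 < x l) {U : Finset ℤ} {f : L} (hU : ∀ b, f.coeff b ≠ 0 → b ∈ U)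
    (hk : ∀ l (z : ℂˣ), (z : ℂ) = x l → evL z f = 0) (hc : U.card ≤ Fintype.card ι) : f = 0 := by
  obtain ⟨N, p, hp'⟩ := f.exists_T_pow
  have h0 : p = 0 := by
    refine critA_cx hx hp (fun _ => 1) (fun l => tay_dvd (Units.mk0 (x l : ℂ)
      (Complex.ofReal_ne_zero.2 (hp l).ne')) 1 ?_) (le_trans ?_ (hc.trans (by simp)))
    · rw [hp', pow_one]
      exact Ideal.mul_mem_right _ _ (hk l _ rfl)
    · refine Finset.card_le_card_of_injOn (fun j => (j : ℤ) - N) (fun j hj => hU _ ?_)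
        fun a _ b _ h => by simpa using h
      rw [tay_coeff hp']
      exact Polynomial.mem_support_iff.1 hj
  rw [h0, map_zero] at hp'
  exact (LaurentPolynomial.isUnit_T (N : ℤ)).mul_left_eq_zero.1 hp'.symm

lemma Kink_hv {k δ : ℕ} (Z : Finset (Fin k)) (hZ : Z.card ≤ δ) {s : Polynomial O}
    (hd : s.natDegree ≤ δ) (hs : (∏ l ∈ Z, ln l) ∣ s) (a b : R) :
    (∏ l ∈ Z, (a - algebraMap O R (PowerSeries.C (zn l)) * b)) ∣ hv δ s a b := by
  obtain ⟨r, rfl⟩ := hs
  by_cases hr : r = 0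
  · simp [hr, hv]
  have hm : ∀ l ∈ Z, (ln (l : Fin k)).Monic := fun l _ => Polynomial.monic_X_sub_C _
  have h1 : ∀ l ∈ Z, (ln (l : Fin k)).natDegree = 1 := fun l _ => Polynomial.natDegree_X_sub_C _
  have h2 : (∏ l ∈ Z, ln (l : Fin k)).natDegree = ∑ _l ∈ Z, 1 := by
    rw [Polynomial.natDegree_prod_of_monic _ _ hm]
    exact Finset.sum_congr rfl h1
  have h3 : ∑ _l ∈ Z, 1 = Z.card := by simp
  rw [(Polynomial.monic_prod_of_monic _ _ hm).natDegree_mul' hr, h2] at hd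
  have e : δ = ∑ _l ∈ Z, 1 + (δ - Z.card) := by omega
  rw [e, hv_mul h2.le (by omega)]
  refine Dvd.dvd.mul_right (dvd_of_eq ?_) _
  rw [hv, Polynomial.homogenize_finsetProd fun l hl => (h1 l hl).le, map_prod]
  refine Finset.prod_congr rfl fun l _ => ?_
  simp [ln]

theorem kink_node {N β : ℤ} (h0 : 0 < β) (h1 : β + 1 < N) {δ a k : ℕ} {s : ℕ → Polynomial O}
    (hd : ∀ i, (s i).natDegree ≤ δ) (Z : Finset (Fin k)) (hZ : Z.card ≤ δ)
    (hs : ∀ i, 0 < i → (∏ l ∈ Z, ln l) ∣ s i) (h : FF N β δ a s (-1) ≠ 0) :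
    Kink Z.card (FF N β δ a s (-1)) ∨ ∃ c e, Mn 0 (FF N β δ a s (-1)) c e ∧ c ≤ δ + a := by
  have hN : 0 < N := by omega
  have hv0 := Kink_c0 (ini_v0 (N := N) (x := β - -1) (by omega) (by omega))
  have hp0 := Kink_c0 (ini_p0 (N := N) (x := 0) le_rfl (by omega))
  have hp1 := Kink_c0 (ini_p1' hN)
  set v := v0 N (β - -1)
  set Λ := ∏ l ∈ Z, (p0 N 0 - algebraMap O R (PowerSeries.C (zn l)) * p1 N 0) with hΛ
  have d1 : Λ ∣ FF N β δ a s (-1) * iv v ^ a - yT 2 ^ δ * iv (FF N β δ a s (-1)) * v ^ a := by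
    rw [FF, add_neg_cancel, map_sum, Finset.sum_mul, Finset.mul_sum, Finset.sum_mul,
      ← Finset.sum_sub_distrib]
    refine Finset.dvd_sum fun i _ => ?_
    rw [map_mul, ← mul_assoc (yT 2 ^ δ), ← hv_iv (sym_p0 hN) (sym_p1 hN)]
    rcases Nat.eq_zero_or_pos i with rfl | hi
    · refine Dvd.intro 0 ?_
      simp only [pow_zero, one_mul, Nat.sub_zero, map_pow]
      ring
    · have := Kink_hv Z hZ (hd i) (hs i hi) (p0 N 0) (p1 N 0)
      exact dvd_sub ((this.mul_right _).mul_right _) ((this.mul_right _).mul_right _)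
  have hΛ0 : PowerSeries.constantCoeff Λ = ∏ l ∈ Z, (LaurentPolynomial.T 1 -
      LaurentPolynomial.C (zn l) * (1 + LaurentPolynomial.T 2)) := by
    rw [hΛ, map_prod]
    refine Finset.prod_congr rfl fun l _ => ?_
    rw [map_sub, map_mul, hp0, hp1, Kink_c0alg, PowerSeries.constantCoeff_C]
  have hΛ1 : ¬PowerSeries.X ∣ Λ := by
    rw [PowerSeries.X_dvd_iff, hΛ0]
    refine Finset.prod_ne_zero_iff.2 fun l _ h2 => ?_
    have := congrArg (fun f : L => f.coeff 0) h2
    simp [mul_add, ← LaurentPolynomial.single_eq_C_mul_T, Kink_zn] at this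
  obtain ⟨e, u, hu0, hk⟩ := Ini_ex h
  obtain ⟨G, hG, hG0⟩ := Kink_fac hk
  obtain ⟨Y, hY⟩ := d1
  have hX : iv PowerSeries.X = PowerSeries.X := PowerSeries.map_X _
  have e1 : PowerSeries.X ^ e * (G * iv v ^ a - yT 2 ^ δ * iv G * v ^ a) = Λ * Y := by
    rw [← hY, hG, map_mul, map_pow, hX]
    ring
  obtain ⟨Y', rfl⟩ := PowerSeries.X_prime.pow_dvd_of_dvd_mul_left e hΛ1 ⟨_, e1.symm⟩
  have e2 : G * iv v ^ a - yT 2 ^ δ * iv G * v ^ a = Λ * Y' := by
    refine mul_left_cancel₀ (pow_ne_zero e PowerSeries.X_ne_zero) ?_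
    rw [e1]
    ring
  have e3 : u * LaurentPolynomial.T (-a) -
      LaurentPolynomial.invert u * LaurentPolynomial.T (2 * δ + a) =
      PowerSeries.constantCoeff Λ * PowerSeries.constantCoeff Y' := by
    rw [← map_mul, ← e2, map_sub, map_mul, map_mul, map_mul, map_pow, map_pow, map_pow, Kink_c0iv,
      Kink_c0iv, hG0, hv0, yT, PowerSeries.constantCoeff_C, LaurentPolynomial.invert_T,
      LaurentPolynomial.T_pow, LaurentPolynomial.T_pow, LaurentPolynomial.T_pow,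
      LaurentPolynomial.T_add, mul_comm (δ : ℤ), mul_neg, mul_one]
    ring
  have hco : ∀ c, (u * LaurentPolynomial.T (-a) -
      LaurentPolynomial.invert u * LaurentPolynomial.T (2 * δ + a)).coeff c =
      u.coeff (c + a) - u.coeff (2 * δ + a - c) := by
    intro c
    rw [AddMonoidAlgebra.coeff_sub, Finsupp.sub_apply, LaurentPolynomial.T, LaurentPolynomial.T,
      AddMonoidAlgebra.coeff_mul_single_apply, AddMonoidAlgebra.coeff_mul_single_apply,
      LaurentPolynomial.invert_apply, mul_one, mul_one, neg_neg, neg_add_rev, neg_neg,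
      sub_eq_add_neg (2 * (δ : ℤ) + a)]
  by_contra hc
  rw [not_or] at hc
  have hlt : ∀ b, u.coeff b ≠ 0 → (δ : ℤ) + a < b := fun b hb =>
    not_le.1 fun h2 => hc.2 ⟨b, e, (Ini_mn hk hu0 _ _).2 ⟨rfl, hb⟩, h2⟩
  have hw : ∀ b b', u.coeff b ≠ 0 → u.coeff b' ≠ 0 → b' < b + Z.card := fun b b' hb hb' =>
    not_le.1 fun h2 => hc.1 ⟨b, e, b', e, (Ini_mn hk hu0 _ _).2 ⟨rfl, hb⟩,
      (Ini_mn hk hu0 _ _).2 ⟨rfl, hb'⟩, h2⟩
  obtain ⟨b, hb, hmin⟩ := Int.exists_least_of_bdd (P := fun b => u.coeff b ≠ 0)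
    ⟨δ + a, fun b hb => (hlt b hb).le⟩ (by
      by_contra h2
      exact hu0 (LaurentPolynomial.ext fun b => by simpa using not_exists.1 h2 b))
  have hD := Kink_desc (ι := Z ⊕ Z)
    (x := Sum.elim (fun l => ((l : Fin k) : ℝ) + 2) fun l => (((l : Fin k) : ℝ) + 2)⁻¹)
    (U := Finset.Ico (b - a) (b - a + Z.card) ∪
      Finset.Ioc (2 * δ + a - b - Z.card) (2 * δ + a - b))
    (f := u * LaurentPolynomial.T (-a) -
      LaurentPolynomial.invert u * LaurentPolynomial.T (2 * δ + a)) ?_ ?_ ?_ ?_ ?_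
  · have := hco (b - a)
    have h3 : u.coeff (2 * δ + a - (b - a)) = 0 := by
      by_contra h4
      have := hlt _ h4
      have := hlt _ hb
      omega
    rw [hD, h3, sub_add_cancel, sub_zero] at this
    exact hb (by simpa using this.symm)
  · have hlt2 : ∀ l l' : Z, (((l : Fin k) : ℝ) + 2)⁻¹ < ((l' : Fin k) : ℝ) + 2 := fun l l' =>
      lt_of_lt_of_le (inv_lt_one_of_one_lt₀ (by
        have := Nat.cast_nonneg (α := ℝ) (l : Fin k)
        linarith)) (by
        have := Nat.cast_nonneg (α := ℝ) (l' : Fin k)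
        linarith)
    rintro (l | l) (l' | l') hl
    · exact congrArg _ (Subtype.ext (Fin.ext (by exact_mod_cast add_right_cancel hl)))
    · exact absurd hl (hlt2 l' l).ne'
    · exact absurd hl (hlt2 l l').ne
    · exact congrArg _ (Subtype.ext (Fin.ext (by
        exact_mod_cast add_right_cancel (inv_injective hl))))
  · rintro (l | l)
    · simp only [Sum.elim_inl]
      positivity
    · simp only [Sum.elim_inr]
      positivity
  · intro c hc'
    rw [hco] at hc'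
    rw [Finset.mem_union, Finset.mem_Ico, Finset.mem_Ioc]
    by_cases h2 : u.coeff (c + a) = 0
    · have h3 : u.coeff (2 * δ + a - c) ≠ 0 := fun h3 => hc' (by rw [h2, h3, sub_zero])
      have := hmin _ h3
      have := hw _ _ hb h3
      omega
    · have := hmin _ h2
      have := hw _ _ hb h2
      omega
  · intro l z hz
    rw [e3, map_mul, hΛ0, map_prod]
    have key : ∀ l : Z, ((z : ℂ) = ((l : Fin k) : ℂ) + 2 ∨ (z : ℂ) = (((l : Fin k) : ℂ) + 2)⁻¹) →
        (∏ l ∈ Z, evL z (LaurentPolynomial.T 1 -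
          LaurentPolynomial.C (zn l) * (1 + LaurentPolynomial.T 2))) = 0 := by
      intro l hl
      refine Finset.prod_eq_zero l.2 ?_
      have h1 : (((l : Fin k) : ℕ) : ℂ) + 2 ≠ 0 := by
        exact_mod_cast (by omega : ((l : Fin k) : ℕ) + 2 ≠ 0)
      have h2 : (1 + ((((l : Fin k) : ℕ) : ℂ) + 2) ^ 2) ≠ 0 := by
        exact_mod_cast (by positivity : 1 + (((l : Fin k) : ℕ) + 2) ^ 2 ≠ 0)
      rw [map_sub, map_mul, map_add, map_one, evL_C, Kink_evT, Kink_evT, zn]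
      rcases hl with hl | hl
      · rw [hl]
        field_simp
        ring
      · rw [hl]
        field_simp
        ring
    rcases l with l | l
    · rw [key l (Or.inl (by simpa using hz)), zero_mul]
    · rw [key l (Or.inr (by simpa using hz)), zero_mul]
  · refine (Finset.card_union_le _ _).trans ?_
    simp

end Pool.Agent.Lib.MP_d03834_ag.Nag
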