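import Pool.Agent.Lib.MP_d03834_ag.Rul.Defs
import Pool.Agent.Lib.MP_d03834_ag.Nag.Filt

/-! The leading coefficient of the substitution along the curve. -/

set_option autoImplicit false

namespace Pool.Agent.Lib.MP_d03834_ag.Nag

open MvPolynomial Module

theorem rLead_split {φ : Fin 2 → R} {c : MvPolynomial (Fin 2) O}
    {V : ℕ → MvPolynomial (Fin 2) O → Prop} {J : ℕ}
    (hV : ∀ j G, V j G → G ≠ 0 → aeval φ G = 0 → j < J ∧ ∃ G1, V (j + 1) G1 ∧ G = c * G1) :
    ∀ (i j : ℕ) (G : MvPolynomial (Fin 2) O), j + i = J → V j G → G ≠ 0 →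
      ∃ (k : ℕ) (G' : MvPolynomial (Fin 2) O), j + k ≤ J ∧ V (j + k) G' ∧ aeval φ G' ≠ 0 ∧
        G = c ^ k * G' := by
  intro i
  induction i with
  | zero =>
    intro j G hj hG h0
    refine ⟨0, G, by omega, hG, fun hz => ?_, by simp⟩
    have := (hV j G hG h0 hz).1
    omega
  | succ i ih =>
    intro j G hj hG h0
    by_cases hz : aeval φ G = 0
    · obtain ⟨-, G1, h1, rfl⟩ := hV j G hG h0 hz
      obtain ⟨k, G', a1, a2, a3, rfl⟩ := ih (j + 1) G1 (by omega) h1 (right_ne_zero_of_mul h0)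
      refine ⟨k + 1, G', by omega, ?_, a3, by ring⟩
      rwa [show j + (k + 1) = j + 1 + k by omega]
    · exact ⟨0, G, by omega, hG, hz, by simp⟩

theorem rLead_coeff (w U v : R) (G : MvPolynomial (Fin 2) O) :
    (Psi2 w U v (map Polynomial.C G)).coeff 0 = Polynomial.C (aeval ![w, U] G) ∧
      (Psi2 w U v (map Polynomial.C G)).coeff 1 =
        Polynomial.X * Polynomial.C (aeval ![w, U] (pderiv 1 G) * v) := by
  induction G using MvPolynomial.induction_on with
  | C a => simp [Psi2, Polynomial.coeff_C]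
  | add p q hp hq => simp only [map_add, Polynomial.coeff_add, hp.1, hp.2, hq.1, hq.2, add_mul,
      mul_add, and_self]
  | mul_X p i hp =>
    rw [map_mul, map_mul, Polynomial.mul_coeff_zero, Polynomial.mul_coeff_one, hp.1, hp.2]
    fin_cases i <;> simp [Psi2, Polynomial.coeff_C, pderiv_X, Polynomial.coeff_X] <;> ring

theorem rLead_one {w U v γ : R} {c : MvPolynomial (Fin 2) O} (hc : aeval ![w, U] c = 0)
    (hd : aeval ![w, U] (pderiv 1 c) * v = γ) (j : ℕ) (G : MvPolynomial (Fin 2) O) :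
    (∀ k < j, (Psi2 w U v (map Polynomial.C (c ^ j * G))).coeff k = 0) ∧
      (Psi2 w U v (map Polynomial.C (c ^ j * G))).coeff j =
        Polynomial.monomial j (γ ^ j * aeval ![w, U] G) := by
  obtain ⟨h0, h1⟩ := rLead_coeff w U v c
  rw [hc, map_zero] at h0
  rw [hd] at h1
  have e := Polynomial.X_mul_divX_add (Psi2 w U v (map Polynomial.C c))
  rw [h0, map_zero, add_zero] at e
  have hU : (Psi2 w U v (map Polynomial.C c)).divX.coeff 0 = Polynomial.X * Polynomial.C γ := by
    rw [Polynomial.coeff_divX, h1]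
  generalize (Psi2 w U v (map Polynomial.C c)).divX = W at e hU
  rw [map_mul, map_mul, map_pow, map_pow, ← e,
    (Polynomial.commute_X W).mul_pow, mul_assoc]
  constructor
  · intro k hk
    rw [Polynomial.coeff_X_pow_mul', if_neg (by omega)]
  · rw [Polynomial.coeff_X_pow_mul', if_pos le_rfl, Nat.sub_self, Polynomial.mul_coeff_zero,
      (rLead_coeff w U v G).1, ← Polynomial.constantCoeff_apply, map_pow,
      Polynomial.constantCoeff_apply, hU, ← Polynomial.C_mul_X_pow_eq_monomial, map_mul, map_pow]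
    ring

theorem rLead_ind {w U v γ : R} {c : MvPolynomial (Fin 2) O} (hc : aeval ![w, U] c = 0)
    (hd : aeval ![w, U] (pderiv 1 c) * v = γ) (hγ : γ ≠ 0)
    {V : ℕ → MvPolynomial (Fin 2) O → Prop} {J : ℕ}
    (hV : ∀ j G, V j G → G ≠ 0 → aeval ![w, U] G = 0 → j < J ∧ ∃ G1, V (j + 1) G1 ∧ G = c * G1)
    {Q : ℕ → R → Prop} (hQ : ∀ j G, j ≤ J → V j G → Q j (γ ^ j * aeval ![w, U] G)) :
    ∀ (K : ℕ) (F : MvPolynomial (Fin 2) A),
    (∀ k G, (∀ ν, coeff ν G = (coeff ν F).coeff k) → V 0 G) →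
    (∀ m k, K ≤ k → (F.coeff m).coeff k = 0) → F ≠ 0 →
    ∃ μ : ℕ, (∀ k < μ, (Psi2 w U v F).coeff k = 0) ∧ (Psi2 w U v F).coeff μ ≠ 0 ∧
      ∀ j : ℕ, ((Psi2 w U v F).coeff μ).coeff j = 0 ∨
        (j ≤ μ ∧ Q j (((Psi2 w U v F).coeff μ).coeff j)) := by
  intro K
  induction K with
  | zero =>
    intro F _ hK h0
    exact absurd (MvPolynomial.ext _ _ fun m => Polynomial.ext fun k => by
      simpa using hK m k (Nat.zero_le _)) h0
  | succ K ih =>
    intro F hF hK h0
    obtain ⟨F', hF'⟩ : ∃ F' : MvPolynomial (Fin 2) A, ∀ m, F'.coeff m = (F.coeff m).divX := by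
      refine ⟨∑ m ∈ F.support, monomial m (F.coeff m).divX, fun m => ?_⟩
      rw [coeff_sum]
      simp only [coeff_monomial, Finset.sum_ite_eq']
      split_ifs with hm
      · rfl
      · rw [notMem_support_iff.1 hm, Polynomial.divX_zero]
    obtain ⟨F0, hF0, e⟩ : ∃ F0 : MvPolynomial (Fin 2) O, V 0 F0 ∧
        F = map Polynomial.C F0 + C Polynomial.X * F' := by
      refine ⟨map Polynomial.constantCoeff F, hF 0 _ fun ν => ?_,
        MvPolynomial.ext _ _ fun m => ?_⟩
      · rw [coeff_map, Polynomial.constantCoeff_apply]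
      · rw [coeff_add, coeff_C_mul, hF', coeff_map, coeff_map, Polynomial.constantCoeff_apply,
          add_comm, Polynomial.X_mul_divX_add]
    have hom' : ∀ k G, (∀ ν, coeff ν G = (coeff ν F').coeff k) → V 0 G := by
      intro k G hG
      refine hF (k + 1) G fun ν => ?_
      rw [hG, hF', Polynomial.coeff_divX]
    have hK' : ∀ m k, K ≤ k → (F'.coeff m).coeff k = 0 := by
      intro m k hk
      rw [hF', Polynomial.coeff_divX]
      exact hK m _ (by omega)
    have eP : Psi2 w U v F =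
        Psi2 w U v (map Polynomial.C F0) + Polynomial.X * Psi2 w U v F' := by
      rw [e, map_add, map_mul]
      congr 2
      simp [Psi2]
    have hX : ∀ μ' : ℕ, (∀ k < μ', (Psi2 w U v F').coeff k = 0) →
        ∀ k < μ' + 1, (Polynomial.X * Psi2 w U v F').coeff k = 0 := by
      intro μ' hμ k hk
      rcases k with _ | k
      · simp
      · rw [Polynomial.coeff_X_mul]
        exact hμ k (by omega)
    have hs : F0 ≠ 0 → ∃ (j : ℕ) (a : R), a ≠ 0 ∧ Q j a ∧
        (∀ k < j, (Psi2 w U v (map Polynomial.C F0)).coeff k = 0) ∧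
          (Psi2 w U v (map Polynomial.C F0)).coeff j = Polynomial.monomial j a := by
      intro z0
      obtain ⟨j, G, a1, a2, a3, a4⟩ := rLead_split hV J 0 F0 (by omega) hF0 z0
      rw [zero_add] at a1 a2
      refine ⟨j, _, mul_ne_zero (pow_ne_zero j hγ) a3, hQ j G a1 a2, ?_⟩
      rw [a4]
      exact rLead_one hc hd j G
    have first : ∀ (j : ℕ) (a : R), a ≠ 0 → Q j a →
        (∀ k < j, (Psi2 w U v (map Polynomial.C F0)).coeff k = 0) →
        (Psi2 w U v (map Polynomial.C F0)).coeff j = Polynomial.monomial j a →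
        (∀ k < j + 1, (Polynomial.X * Psi2 w U v F').coeff k = 0) →
        ∃ μ : ℕ, (∀ k < μ, (Psi2 w U v F).coeff k = 0) ∧ (Psi2 w U v F).coeff μ ≠ 0 ∧
          ∀ j : ℕ, ((Psi2 w U v F).coeff μ).coeff j = 0 ∨
            (j ≤ μ ∧ Q j (((Psi2 w U v F).coeff μ).coeff j)) := by
      intro j a a1 a2 b1 b2 a5
      have e2 : (Psi2 w U v F).coeff j = Polynomial.monomial j a := by
        rw [eP, Polynomial.coeff_add, b2, a5 j (by omega), add_zero]
      refine ⟨j, fun k hk => ?_, ?_, fun i => ?_⟩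
      · rw [eP, Polynomial.coeff_add, b1 k hk, a5 k (by omega), add_zero]
      · rw [e2]
        simpa using a1
      · rw [e2, Polynomial.coeff_monomial]
        split_ifs with hi
        · subst hi
          exact Or.inr ⟨le_rfl, a2⟩
        · exact Or.inl rfl
    have second : ∀ μ' : ℕ, (∀ k < μ', (Psi2 w U v F').coeff k = 0) →
        (Psi2 w U v F').coeff μ' ≠ 0 →
        (∀ j : ℕ, ((Psi2 w U v F').coeff μ').coeff j = 0 ∨
          (j ≤ μ' ∧ Q j (((Psi2 w U v F').coeff μ').coeff j))) →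
        (∀ k < μ' + 2, (Psi2 w U v (map Polynomial.C F0)).coeff k = 0) →
        ∃ μ : ℕ, (∀ k < μ, (Psi2 w U v F).coeff k = 0) ∧ (Psi2 w U v F).coeff μ ≠ 0 ∧
          ∀ j : ℕ, ((Psi2 w U v F).coeff μ).coeff j = 0 ∨
            (j ≤ μ ∧ Q j (((Psi2 w U v F).coeff μ).coeff j)) := by
      intro μ' a1 a2 a3 a4
      have e2 : (Psi2 w U v F).coeff (μ' + 1) = (Psi2 w U v F').coeff μ' := by
        rw [eP, Polynomial.coeff_add, a4 _ (by omega), zero_add, Polynomial.coeff_X_mul]
      refine ⟨μ' + 1, fun k hk => ?_, by rwa [e2], fun i => ?_⟩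
      · rw [eP, Polynomial.coeff_add, a4 k (by omega), hX μ' a1 k hk, add_zero]
      · rw [e2]
        exact (a3 i).imp id fun q => ⟨by omega, q.2⟩
    by_cases z' : F' = 0
    · have z0 : F0 ≠ 0 := by
        rintro rfl
        exact h0 (by rw [e, z']; simp)
      obtain ⟨j, a, a1, a2, b1, b2⟩ := hs z0
      exact first j a a1 a2 b1 b2 (by simp [z'])
    obtain ⟨μ', c1, c2, c3⟩ := ih F' hom' hK' z'
    by_cases z0 : F0 = 0
    · exact second μ' c1 c2 c3 (by simp [z0])
    obtain ⟨j, a, a1, a2, b1, b2⟩ := hs z0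
    rcases lt_trichotomy j (μ' + 1) with l | rfl | l
    · exact first j a a1 a2 b1 b2 fun k hk => hX μ' c1 k (by omega)
    · have e2 : (Psi2 w U v F).coeff (μ' + 1) =
          Polynomial.monomial (μ' + 1) a + (Psi2 w U v F').coeff μ' := by
        rw [eP, Polynomial.coeff_add, b2, Polynomial.coeff_X_mul]
      have e3 : ((Psi2 w U v F).coeff (μ' + 1)).coeff (μ' + 1) = a := by
        rw [e2, Polynomial.coeff_add, Polynomial.coeff_monomial, if_pos rfl,
          (c3 (μ' + 1)).resolve_right (fun q => by omega), add_zero]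
      refine ⟨μ' + 1, fun k hk => ?_, fun hz => a1 ?_, fun i => ?_⟩
      · rw [eP, Polynomial.coeff_add, b1 k hk, hX μ' c1 k hk, add_zero]
      · rw [← e3, hz, Polynomial.coeff_zero]
      · by_cases hi : μ' + 1 = i
        · subst hi
          exact Or.inr ⟨le_rfl, e3 ▸ a2⟩
        · rw [e2, Polynomial.coeff_add, Polynomial.coeff_monomial, if_neg hi, zero_add]
          exact (c3 i).imp id fun q => ⟨by omega, q.2⟩
    · exact second μ' c1 c2 c3 fun k hk => b1 k (by omega)

theorem rlead {w U v γ : R} {c : MvPolynomial (Fin 2) O} (hc : aeval ![w, U] c = 0)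
    (hd : aeval ![w, U] (pderiv 1 c) * v = γ) (hγ : γ ≠ 0)
    (V : ℕ → MvPolynomial (Fin 2) O → Prop) (J : ℕ)
    (hV : ∀ j G, V j G → G ≠ 0 → aeval ![w, U] G = 0 → j < J ∧ ∃ G1, V (j + 1) G1 ∧ G = c * G1)
    {F : MvPolynomial (Fin 2) A}
    (hF : ∀ k G, (∀ ν, coeff ν G = (coeff ν F).coeff k) → V 0 G) (h0 : F ≠ 0) :
    ∃ μ : ℕ, (Psi2 w U v F).coeff μ ≠ 0 ∧ ∀ j : ℕ, ((Psi2 w U v F).coeff μ).coeff j = 0 ∨
      (j ≤ J ∧ ∃ G, V j G ∧ ((Psi2 w U v F).coeff μ).coeff j = γ ^ j * aeval ![w, U] G) := by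
  obtain ⟨μ, -, h1, h2⟩ := rLead_ind hc hd hγ hV
    (Q := fun j a => j ≤ J ∧ ∃ G, V j G ∧ a = γ ^ j * aeval ![w, U] G)
    (fun j G a b => ⟨a, G, b, rfl⟩) (F.support.sup (fun m => (F.coeff m).natDegree) + 1) F hF
    (fun m k hk => by
      by_cases hm : m ∈ F.support
      · have := Finset.le_sup (f := fun m => (F.coeff m).natDegree) hm
        exact Polynomial.coeff_eq_zero_of_natDegree_lt (by omega)
      · rw [notMem_support_iff.1 hm, Polynomial.coeff_zero]) h0
  exact ⟨μ, h1, fun j => (h2 j).imp id fun q => q.2⟩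

theorem rfilt (w U v : R) (z : ℂˣ) (σ : ℂ) : ∃ P : Fin 2 → A,
    ∀ (m : ℕ) (F : MvPolynomial (Fin 2) A), F ∈ aid P ^ m →
      ∀ k e : ℕ, co e ((Psi2 w U v F).coeff k) ∈ pt z σ ^ m := by
  let ev : MvPolynomial (Fin 2) A →+* A :=
    (Polynomial.mapRingHom (Filt_ev z σ)).comp (Psi2 w U v)
  have hC : ∀ p : A, ev (C p) = p := by
    intro p
    ext1 k
    simp only [ev, Psi2, RingHom.comp_apply, eval₂Hom_C, Polynomial.coe_mapRingHom,
      Polynomial.coeff_map]
    exact Filt_ev_alg z σ _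
  refine ⟨fun i => ev (X i), fun m => ?_⟩
  have hker : aid (fun i => ev (X i)) = RingHom.ker ev := by
    rw [aid]
    congr 1
    refine MvPolynomial.ringHom_ext (fun p => ?_) fun i => ?_
    · rw [eval_C, hC]
    · rw [eval_X]
  rw [hker]
  induction m with
  | zero =>
    intro F _ k e
    simp
  | succ m ih =>
    intro F hF
    rw [pow_succ] at hF
    refine Submodule.mul_induction_on hF (fun x hx y hy k e => ?_) fun x y hx hy k e => ?_
    · rw [map_mul, Submodule.pow_succ]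
      refine Filt_mul (ih x hx) (fun k e => ?_) k e
      have h3 := congrArg (fun p : A => PowerSeries.coeff e (p.coeff k)) (RingHom.mem_ker.1 hy)
      simp only [ev, RingHom.comp_apply, Polynomial.coe_mapRingHom, Polynomial.coeff_map, Filt_ev,
        PowerSeries.coeff_map, Filt_sw_coeff, Polynomial.coeff_zero, map_zero] at h3
      exact h3
    · rw [map_add, Polynomial.coeff_add, ← Filt_sw_coeff, map_add, map_add, Filt_sw_coeff,
        Filt_sw_coeff]
      exact Ideal.add_mem _ (hx k e) (hy k e)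

end Pool.Agent.Lib.MP_d03834_ag.Nag
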