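import Pool.Agent.Lib.MP_d03834_ag.Rul.Th2
import Pool.Agent.Lib.MP_d03834_ag.Rul.Aid

/-! Rows as polynomials in the two pencils. -/

set_option autoImplicit false

namespace Pool.Agent.Lib.MP_d03834_ag.Nag

open MvPolynomial Module

/-- a polynomial in two variables as a polynomial in the second variable -/
noncomputable def repP : MvPolynomial (Fin 2) O →ₐ[O] Polynomial (Polynomial O) :=
  aeval ![Polynomial.C (Polynomial.X : Polynomial O), Polynomial.X]

theorem rep_mono (ν : Fin 2 →₀ ℕ) (c : O) :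
    repP (monomial ν c) = Polynomial.monomial (ν 1) (Polynomial.monomial (ν 0) c) := by
  unfold repP
  rw [aeval_monomial, Finsupp.prod_fintype _ _ (by simp), Fin.prod_univ_two,
    ← Polynomial.C_mul_X_pow_eq_monomial, ← Polynomial.C_mul_X_pow_eq_monomial]
  simp [Polynomial.algebraMap_apply, mul_assoc]

theorem rep_coeff (G : MvPolynomial (Fin 2) O) (ν : Fin 2 →₀ ℕ) :
    ((repP G).coeff (ν 1)).coeff (ν 0) = coeff ν G := by
  classical
  induction G using MvPolynomial.induction_on' with
  | monomial u c =>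
    rw [rep_mono, Polynomial.coeff_monomial, coeff_monomial]
    by_cases h : u = ν
    · subst h
      simp
    · rw [if_neg h]
      by_cases h1 : u 1 = ν 1
      · rw [if_pos h1, Polynomial.coeff_monomial, if_neg]
        intro h0
        refine h (Finsupp.ext fun j => ?_)
        fin_cases j
        · exact h0
        · exact h1
      · rw [if_neg h1, Polynomial.coeff_zero]
  | add p q hp hq => rw [map_add, Polynomial.coeff_add, Polynomial.coeff_add, hp, hq, coeff_add]

theorem rep_wb {ω g : ℕ} {G : MvPolynomial (Fin 2) O} (h : WB ω g G) (a i : ℕ)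
    (hi : g < a + ω * i) : ((repP G).coeff i).coeff a = 0 := by
  have := rep_coeff G (Finsupp.single 0 a + Finsupp.single 1 i)
  simp only [Finsupp.add_apply, Finsupp.single_eq_same, Finsupp.single_eq_of_ne zero_ne_one,
    Finsupp.single_eq_of_ne one_ne_zero, add_zero, zero_add] at this
  rw [this]
  exact h _ (by simpa using hi)

theorem rep_eval {S : Type} [CommRing S] [Algebra O S] (w U : S) (G : MvPolynomial (Fin 2) O) :
    aeval ![w, U] G =
      Polynomial.eval₂ (Polynomial.aeval w : Polynomial O →ₐ[O] S).toRingHom U (repP G) := by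
  induction G using MvPolynomial.induction_on with
  | C c => simp [repP, Polynomial.algebraMap_apply]
  | add p q hp hq => rw [map_add, map_add, Polynomial.eval₂_add, hp, hq]
  | mul_X p j hp =>
    rw [map_mul, map_mul, Polynomial.eval₂_mul, hp]
    congr 1
    fin_cases j <;> simp [repP]

theorem rep_pow (z : O) (m : ℕ) {G : MvPolynomial (Fin 2) O} (h : G ∈ aid ![z, 0] ^ m) (i : ℕ) :
    (Polynomial.X - Polynomial.C z) ^ (m - i) ∣ (repP G).coeff i := by
  induction m generalizing G i with
  | zero => simp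
  | succ m ih =>
    rw [pow_succ] at h
    induction h using Submodule.mul_induction_on' generalizing i with
    | mem_mul_mem a ha b hb =>
      have hb0 : (Polynomial.X - Polynomial.C z) ∣ (repP b).coeff 0 := by
        rw [Polynomial.dvd_iff_isRoot, Polynomial.IsRoot.def]
        have h1 := rep_eval z (0 : O) b
        rw [Polynomial.eval₂_at_zero] at h1
        have h2 : eval ![z, 0] b = 0 := hb
        rw [← coe_aeval_eq_eval] at h2
        have h3 : aeval ![z, (0 : O)] b = 0 := h2
        rw [h3] at h1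
        simpa using h1.symm
      rw [map_mul, Polynomial.coeff_mul]
      refine Finset.dvd_sum fun x hx => ?_
      have hx' := Finset.HasAntidiagonal.mem_antidiagonal.1 hx
      rcases Nat.eq_zero_or_pos x.2 with h2 | h2
      · rw [h2]
        refine (pow_dvd_pow _ (show m + 1 - i ≤ m - x.1 + 1 by omega)).trans ?_
        rw [pow_succ]
        exact mul_dvd_mul (ih ha _) hb0
      · exact ((pow_dvd_pow _ (show m + 1 - i ≤ m - x.1 by omega)).trans (ih ha _)).mul_right _
    | add a _ b _ ha hb =>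
      rw [map_add, Polynomial.coeff_add]
      exact dvd_add (ha i) (hb i)

theorem rep_zn {l l' : ℕ} (h : zn l = zn l') : l = l' := by
  have h1 : ∀ n : ℕ, (1 + ((n : ℂ) + 2) ^ 2) ≠ 0 := fun n => by
    have : (1 + ((n : ℂ) + 2) ^ 2) = ((1 + (n + 2) ^ 2 : ℕ) : ℂ) := by push_cast; ring
    rw [this]
    exact Nat.cast_ne_zero.2 (by omega)
  unfold zn at h
  rw [div_eq_div_iff (h1 l) (h1 l')] at h
  have h2 : ((l : ℤ) + 2) * (1 + ((l' : ℤ) + 2) ^ 2) = ((l' : ℤ) + 2) * (1 + ((l : ℤ) + 2) ^ 2) := by
    exact_mod_cast h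
  have h3 : ((l : ℤ) - l') * (1 - ((l : ℤ) + 2) * ((l' : ℤ) + 2)) = 0 := by linarith
  rcases mul_eq_zero.1 h3 with h4 | h4
  · omega
  · nlinarith [Int.natCast_nonneg l, Int.natCast_nonneg l']

theorem rep_cop {l l' : ℕ} (h : l ≠ l') : IsCoprime (ln l) (ln l') := by
  refine Polynomial.isCoprime_X_sub_C_of_isUnit_sub ?_
  rw [← map_sub]
  exact (IsUnit.mk0 _ (sub_ne_zero.2 fun e => h (rep_zn e))).map _

theorem rep_monic (l : ℕ) : (ln l).Monic := Polynomial.monic_X_sub_C _

theorem rep_dvd {k i : ℕ} {μ ν : Fin k → ℕ} {p : Polynomial O}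
    (hp : ∀ l : Fin k, ln l ^ (μ l - i) ∣ p) (hν : ∀ l, ν l ≤ μ l - i + i) :
    (∏ l : Fin k, ln l ^ ν l) ∣ p * (∏ l : Fin k, ln l) ^ i := by
  refine Finset.prod_dvd_of_coprime ?_ fun l _ => ?_
  · intro l _ l' _ h
    exact (rep_cop fun e => h (Fin.ext e)).pow
  · refine (pow_dvd_pow _ (hν l)).trans ?_
    rw [pow_add]
    exact mul_dvd_mul (hp l) (pow_dvd_pow_of_dvd (Finset.dvd_prod_of_mem _ (Finset.mem_univ l)) i)

theorem rep {ω r k g : ℕ} (N β : ℤ) (hr : r = 1 ∨ r = 2) (hω : ω + r = k + 2) (h0 : 0 < ω)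
    (hβ : 0 < β) (hN : β + 1 < N) {μ : Fin k → ℕ} {G : MvPolynomial (Fin 2) O}
    (hG : Adm ω g (fun l : Fin k => PowerSeries.C (zn l)) μ G) :
    ∃ s : ℕ → Polynomial O, (∀ i, (s i).natDegree ≤ g - ∑ l, μ l) ∧ (∀ i, ell r N β ^ i ∣ s i) ∧
      (∀ i, 0 < i → (∏ l ∈ Finset.univ.filter fun l => μ l = 0, ln l) ∣ s i) ∧
      (r = 2 → g % ω = 0 → ∃ (o : O) (n : Fin k → ℕ),
        s (g / ω) = Polynomial.C o * ∏ l : Fin k, ln l ^ n l) ∧
      aeval ![wA N, UU r k N β] G = Polynomial.aeval (wA N) (∏ l : Fin k, ln l ^ μ l) *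
        ∑ i ∈ Finset.range (g / ω + 1), Polynomial.aeval (wA N) (s i) * eta N β ^ i := by
  classical
  have hp : ∀ i (l : Fin k), ln l ^ (μ l - i) ∣ (repP G).coeff i := fun i l =>
    rep_pow _ _ (hG.2 l) i
  have hM : (∏ l : Fin k, ln l ^ μ l).Monic :=
    Polynomial.monic_prod_of_monic _ _ fun l _ => (rep_monic l).pow _
  have hd1 : ∀ l : ℕ, (ln l).natDegree = 1 := fun l => Polynomial.natDegree_X_sub_C _
  have hMd : (∏ l : Fin k, ln l ^ μ l).natDegree = ∑ l, μ l := by
    rw [Polynomial.natDegree_prod_of_monic _ _ fun (l : Fin k) _ => (rep_monic l).pow _]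
    refine Finset.sum_congr rfl fun l _ => ?_
    rw [(rep_monic l).natDegree_pow, hd1, mul_one]
  have hLd : (∏ l : Fin k, ln l).natDegree = k := by
    rw [Polynomial.natDegree_prod_of_monic _ _ fun (l : Fin k) _ => rep_monic l]
    simp [hd1]
  have hEd : (ell r N β).natDegree ≤ 2 - r := by
    unfold ell
    split_ifs with h
    · rw [Polynomial.natDegree_X_sub_C, h]
    · simp
  have hz : ∀ i, g < ω * i → (repP G).coeff i = 0 := fun i hi =>
    Polynomial.ext fun a => rep_wb hG.1 a i (by omega)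
  have hdeg : ∀ i, ((repP G).coeff i).natDegree ≤ g - ω * i := fun i =>
    Polynomial.natDegree_le_iff_coeff_eq_zero.2 fun a ha => rep_wb hG.1 a i (by omega)
  choose t ht using fun i => rep_dvd (ν := μ) (hp i) fun l => by omega
  refine ⟨fun i => t i * ell r N β ^ i, fun i => ?_, fun i => dvd_mul_left _ _, fun i hi => ?_,
    fun h2 hg => ?_, ?_⟩
  · by_cases h : t i = 0
    · simp [h]
    have h1 : ω * i ≤ g := by
      by_contra h1
      have h3 := ht i
      rw [hz i (by omega), zero_mul] at h3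
      exact mul_ne_zero hM.ne_zero h h3.symm
    have h3 : ∑ l, μ l + (t i).natDegree ≤ g - ω * i + i * k := by
      rw [← hMd, ← hM.natDegree_mul' h, ← ht i]
      refine Polynomial.natDegree_mul_le.trans (add_le_add (hdeg i) ?_)
      exact Polynomial.natDegree_pow_le.trans (by rw [hLd])
    have h4 : (t i * ell r N β ^ i).natDegree ≤ (t i).natDegree + i * (2 - r) :=
      Polynomial.natDegree_mul_le.trans (add_le_add le_rfl
        (Polynomial.natDegree_pow_le.trans (Nat.mul_le_mul_left _ hEd)))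
    have h5 : i * k + i * (2 - r) = ω * i := by
      rw [← mul_add, mul_comm]
      congr 1
      omega
    beta_reduce
    omega
  · have h1 := rep_dvd (ν := fun l => μ l + if μ l = 0 then 1 else 0) (hp i) fun l => by
      split_ifs <;> omega
    simp only [pow_add, Finset.prod_mul_distrib] at h1
    rw [ht i, mul_dvd_mul_iff_left hM.ne_zero] at h1
    refine Dvd.dvd.mul_right ?_ _
    rw [Finset.prod_filter]
    refine (dvd_of_eq (Finset.prod_congr rfl fun l _ => ?_)).trans h1
    split_ifs <;> simp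
  · have h1 : g - ω * (g / ω) = 0 := by
      have := Nat.div_add_mod g ω
      omega
    have h3 := hdeg (g / ω)
    rw [h1] at h3
    have h4 := Polynomial.eq_C_of_natDegree_le_zero h3
    have h5 : ell r N β = 1 := if_neg (by omega)
    have h6 := ht (g / ω)
    by_cases ho : (repP G).coeff (g / ω) = 0
    · rw [ho, zero_mul] at h6
      refine ⟨0, μ, ?_⟩
      beta_reduce
      rw [(mul_eq_zero.1 h6.symm).resolve_left hM.ne_zero]
      simp
    · refine ⟨((repP G).coeff (g / ω)).coeff 0, fun l => g / ω - μ l, ?_⟩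
      have h7 : ∀ l, μ l ≤ g / ω := fun l => by
        have h8 := Polynomial.natDegree_le_of_dvd (hp (g / ω) l) ho
        rw [(rep_monic l).natDegree_pow, hd1] at h8
        omega
      beta_reduce
      rw [h5, one_pow, mul_one, ← h4]
      refine mul_left_cancel₀ hM.ne_zero ?_
      rw [← h6, mul_left_comm, ← Finset.prod_mul_distrib, ← Finset.prod_pow]
      congr 1
      refine Finset.prod_congr rfl fun l _ => ?_
      rw [← pow_add, Nat.add_sub_cancel' (h7 l)]
  · have h1 : (repP G).natDegree < g / ω + 1 := by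
      refine Nat.lt_succ_of_le (Polynomial.natDegree_le_iff_coeff_eq_zero.2 fun i hi => hz i ?_)
      rw [mul_comm]
      exact (Nat.div_lt_iff_lt_mul h0).1 hi
    rw [rep_eval, Polynomial.eval₂_eq_sum_range' _ h1, Finset.mul_sum]
    refine Finset.sum_congr rfl fun i _ => ?_
    have h2 := congrArg (Polynomial.aeval (wA N)) (ht i)
    simp only [map_mul, map_pow] at h2
    unfold UU
    simp only [AlgHom.toRingHom_eq_coe, RingHom.coe_coe, map_mul, map_pow, mul_pow]
    linear_combination (Polynomial.aeval (wA N) (ell r N β) ^ i * eta N β ^ i) * h2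

end Pool.Agent.Lib.MP_d03834_ag.Nag
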