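import Pool.Agent.Lib.MP_d03834_ag.Rul.Kink
import Pool.Agent.Lib.MP_d03834_ag.Rul.Rep
import Pool.Agent.Lib.MP_d03834_ag.Rul.Ind

/-! The window of a row. -/

set_option autoImplicit false

namespace Pool.Agent.Lib.MP_d03834_ag.Nag

open MvPolynomial Module

theorem Row_zn (l : ℕ) : zn l ≠ 0 := by
  unfold zn
  refine div_ne_zero ?_ ?_
  · exact_mod_cast (by omega : l + 2 ≠ 0)
  · exact_mod_cast (by omega : 1 + (l + 2) ^ 2 ≠ 0)

theorem Row_one : Ini 1 0 (LaurentPolynomial.C 1 * LaurentPolynomial.T 0) := by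
  simpa using Ini_alg 1

theorem Row_ln {N : ℤ} (hN : 2 < N) (l : ℕ) :
    Ini (Polynomial.aeval (wA N) (ln l)) 0 (LaurentPolynomial.C (-zn l)) := by
  have h := Ini_add (Ini_neg (Ini_alg (PowerSeries.C (zn l)))) (ini_wA hN) Nat.one_pos
  unfold ln
  rw [map_sub, Polynomial.aeval_X, Polynomial.aeval_C, sub_eq_neg_add, map_neg]
  simpa using h

theorem Row_lam {N : ℤ} (hN : 2 < N) {k : ℕ} (n : Fin k → ℕ) :
    ∃ c : ℂ, c ≠ 0 ∧ Ini (Polynomial.aeval (wA N) (∏ l : Fin k, ln l ^ n l)) 0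
      (LaurentPolynomial.C c * LaurentPolynomial.T 0) := by
  refine Finset.prod_induction (fun l : Fin k => ln l ^ n l)
    (fun s => ∃ c : ℂ, c ≠ 0 ∧ Ini (Polynomial.aeval (wA N) s) 0
      (LaurentPolynomial.C c * LaurentPolynomial.T 0)) ?_ ?_ ?_
  · rintro s s' ⟨c, hc, h⟩ ⟨c', hc', h'⟩
    refine ⟨c * c', mul_ne_zero hc hc', ?_⟩
    have := Ini_mul h h'
    rw [map_mul]
    simpa using this
  · exact ⟨1, one_ne_zero, by rw [map_one]; exact Row_one⟩
  · intro l _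
    refine ⟨(-zn l) ^ n l, pow_ne_zero _ (neg_ne_zero.2 (Row_zn l)), ?_⟩
    have := Ini_pow (Row_ln hN l) (n l)
    rw [map_pow, map_pow]
    simpa using this

theorem Row_wpow {N : ℤ} (hN : 2 < N) (j : ℕ) :
    Ini (wA N ^ j) j (LaurentPolynomial.C 1 * LaurentPolynomial.T j) := by
  have := Ini_pow (ini_wA hN) j
  simpa using this

theorem Row_aeval {δ : ℕ} {s : Polynomial O} (h : s.natDegree ≤ δ) (w : R) :
    Polynomial.aeval w s = ∑ j ∈ Finset.range (δ + 1), algebraMap O R (s.coeff j) * w ^ j := by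
  rw [Polynomial.aeval_eq_sum_range' (Nat.lt_succ_of_le h)]
  exact Finset.sum_congr rfl fun j _ => Algebra.smul_def _ _

theorem Row_low {N : ℤ} (hN : 2 < N) {δ : ℕ} {s : Polynomial O} (h : s.natDegree ≤ δ) {b e : ℤ}
    (hb : Mn 0 (Polynomial.aeval (wA N) s) b e) : 0 ≤ b ∧ b ≤ δ := by
  rw [Row_aeval h] at hb
  obtain ⟨i, hi, rfl⟩ := (mono_sum (Finset.range (δ + 1)) (fun j => wA N ^ j) (fun j => j)
    (fun _ => 1) (fun j => (j : ℤ)) (fun _ _ => one_ne_zero) (fun j _ => Row_wpow hN j)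
    (fun i _ j _ hij => Int.ofNat_inj.1 hij) fun j => s.coeff j).2 b e hb
  have := Finset.mem_range.1 hi
  omega

theorem Row_mid {N β : ℤ} (hN : 2 < N) (h0 : 0 < β) (h1 : 2 * β < N) {δ k : ℕ} {s : Polynomial O}
    (h : s.natDegree ≤ δ) (o : O) (n : Fin k → ℕ) {b e : ℤ}
    (hb : Mn 0 (Polynomial.aeval (wA N) s +
      Polynomial.aeval (wA N) (Polynomial.C o * ∏ l : Fin k, ln l ^ n l) * eta N β) b e) :
    -1 ≤ b ∧ b ≤ δ := by
  obtain ⟨c, hc, hl⟩ := Row_lam hN n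
  have h2 := Ini_mul hl (ini_eta h0 h1)
  have key := (mono_sum (Finset.range (δ + 2))
    (fun j => if j = δ + 1 then Polynomial.aeval (wA N) (∏ l : Fin k, ln l ^ n l) * eta N β
      else wA N ^ j)
    (fun j => if j = δ + 1 then 0 + β.toNat else j) (fun j => if j = δ + 1 then c else 1)
    (fun j => if j = δ + 1 then -1 else (j : ℤ)) ?_ ?_ ?_
    fun j => if j = δ + 1 then o else s.coeff j).2 b e ?_
  · obtain ⟨i, hi, rfl⟩ := key
    have := Finset.mem_range.1 hi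
    split_ifs <;> omega
  · intro i _
    split_ifs
    · exact hc
    · exact one_ne_zero
  · intro i _
    split_ifs
    · simpa using h2
    · exact Row_wpow hN i
  · intro i _ j _ hij
    dsimp only at hij
    split_ifs at hij <;> omega
  · rw [Finset.sum_range_succ, if_pos rfl, if_pos rfl, Finset.sum_congr rfl
      (g := fun j => algebraMap O R (s.coeff j) * wA N ^ j), ← Row_aeval h, ← mul_assoc,
      ← Polynomial.aeval_C (wA N), ← map_mul]
    · exact hb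
    · intro j hj
      have := Finset.mem_range.1 hj
      rw [if_neg (by omega), if_neg (by omega)]

theorem Row_FF {N β : ℤ} (h0 : 0 < β) (h1 : β + 1 < N) {δ a : ℕ} {s : ℕ → Polynomial O}
    (hd : ∀ i, (s i).natDegree ≤ δ) {b e : ℤ}
    (hb : Mn 0 (∑ i ∈ Finset.range (a + 1), Polynomial.aeval (wA N) (s i) * eta N β ^ i) b e) :
    Mn 0 (FF N β δ a s 0) (b + a) e := by
  obtain ⟨u1, i1⟩ := Ini_inv (ini_p1 (N := N) (x := 1) one_pos (by omega))
  obtain ⟨u2, i2⟩ := Ini_inv (ini_v0 h0 (by omega : β < N))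
  have h2 := Ini_mul (Ini_pow i1 δ) (Ini_pow i2 a)
  have h3 : Ini (Ring.inverse (p1 N 1) ^ δ * Ring.inverse (v0 N β) ^ a) 0
      (LaurentPolynomial.C 1 * LaurentPolynomial.T (-(a : ℤ))) := by
    simpa using h2
  have h4 : ∑ i ∈ Finset.range (a + 1), Polynomial.aeval (wA N) (s i) * eta N β ^ i =
      Ring.inverse (p1 N 1) ^ δ * Ring.inverse (v0 N β) ^ a * FF N β δ a s 0 := by
    unfold FF
    rw [Finset.mul_sum]
    refine Finset.sum_congr rfl fun i hi => ?_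
    obtain ⟨j, rfl⟩ : ∃ j, a = i + j := ⟨a - i, by have := Finset.mem_range.1 hi; omega⟩
    rw [add_zero, sub_zero, hv_unit (hd i) _ u1, Nat.add_sub_cancel_left]
    have e1 : Ring.inverse (p1 N 1) ^ δ * p1 N 1 ^ δ = 1 := by
      rw [← mul_pow, Ring.inverse_mul_cancel _ u1, one_pow]
    have e2 : Ring.inverse (v0 N β) ^ j * v0 N β ^ j = 1 := by
      rw [← mul_pow, Ring.inverse_mul_cancel _ u2, one_pow]
    unfold eta wA
    calc _ = (Ring.inverse (p1 N 1) ^ δ * p1 N 1 ^ δ) * (Ring.inverse (v0 N β) ^ j * v0 N β ^ j) *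
          (Polynomial.aeval (p0 N 1 * Ring.inverse (p1 N 1)) (s i) *
            (n0 N β * Ring.inverse (v0 N β)) ^ i) := by rw [e1, e2, one_mul, one_mul]
      _ = _ := by ring
  rw [h4] at hb
  simpa using Mn_mul one_ne_zero h3 hb

theorem Row_kink {ρ κ w : ℤ} {f f' : R} (h : Sh ρ κ f f') (hk : Kink w f') :
    ∃ b1 e1 b2 e2, Mn ρ f b1 e1 ∧ Mn ρ f b2 e2 ∧ b1 + w ≤ b2 := by
  obtain ⟨b1, e1, b2, e2, m1, m2, h1⟩ := hk
  exact ⟨b1, _, b2, _, Sh_mn h m1, Sh_mn h m2, h1⟩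

theorem Row_cancel {M x d : ℤ} (h0 : 0 ≤ d) (hM : d < M) (h : 0 ≤ M * x + d) : 0 ≤ x := by
  by_contra h1
  nlinarith

theorem Row_core {N β M δ a κ z : ℤ} {f : R}
    (hth : Th (M * N) (2 * δ + 2 * a) (2 * δ + a * (M * N - 2 * (M * β))) f) (hβ : 0 < β)
    (hN : β < N) (hz0 : 0 ≤ z) (hz : z ≤ δ) (hM : 2 * δ + 2 < M) (hκ : κ < 2 * a) {b e : ℤ}
    (m0 : Mn 0 f (b + a) e)
    (hk : (∃ b1 e1 b2 e2, Mn (M * β) f b1 e1 ∧ Mn (M * β) f b2 e2 ∧ b1 + κ ≤ b2) ∨
      (κ = 1 ∧ 2 ≤ a ∧ 3 * β < N ∧ ∃ e, Mn (M * β) f 0 e))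
    (hn : (∃ c1 f1 c2 f2, Mn (-1) f c1 f1 ∧ Mn (-1) f c2 f2 ∧ c1 + z ≤ c2) ∨
      ∃ c e, Mn (-1) f c e ∧ c ≤ δ + a) :
    0 ≤ N * b + (2 * a - κ) * (N - β) ∧ N * (b - 2 * δ + z) ≤ (2 * a - κ) * β ∧
      (z < 2 * δ → N * (b - 2 * δ + z) < (2 * a - κ) * β) := by
  have hM0 : 0 < M := by omega
  have h0 : 0 < M * β := mul_pos hM0 hβ
  have h1 : M * β + M ≤ M * N := by nlinarith
  have h2 : M * β + 1 < M * N := by omega
  have hY : 0 < (2 * a - κ) * β := mul_pos (by omega) hβ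
  have hl : 0 ≤ N * b + (2 * a - κ) * (N - β) := by
    obtain ⟨c, e', m3⟩ : ∃ c e', Mn (-1) f c e' := by
      rcases hn with ⟨c, e', -, -, m3, -⟩ | ⟨c, e', m3, -⟩ <;> exact ⟨c, e', m3⟩
    rcases hk with ⟨b1, e1, b2, e2, m1, m2, hb⟩ | ⟨rfl, ha, h3, e1, m1⟩
    · obtain ⟨w1, w2, -⟩ := win2 hth h0 h2 m0 m1 m2 m3 m3
      refine Row_cancel (d := 2 * δ) (M := M) (by omega) (by omega) ?_
      have : (M * N - M * β) * b1 ≤ (M * N - M * β) * (b + a - κ) :=
        mul_le_mul_of_nonneg_left (by omega) (by omega)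
      nlinarith
    · obtain ⟨w1, -⟩ := win2 hth h0 h2 m0 m1 m1 m3 m3
      have : N * (-a) ≤ N * b := mul_le_mul_of_nonneg_left (by omega) (by omega)
      nlinarith
  have hr : N * (b - 2 * δ + z) < (2 * a - κ) * β ∨
      M * (N * (b - 2 * δ + z)) + (2 * δ - z) ≤ M * ((2 * a - κ) * β) := by
    rcases hn with ⟨c1, f1, c2, f2, m3, m4, hc⟩ | ⟨c, e', m3, hc⟩
    · rcases hk with ⟨b1, e1, b2, e2, m1, m2, hb⟩ | ⟨rfl, ha, h3, e1, m1⟩
      · obtain ⟨-, -, w3, w4, w5⟩ := win2 hth h0 h2 m0 m1 m2 m3 m4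
        right
        have t1 : (M * N - 1 - M * β) * (b + a + z) ≤ (M * N - 1 - M * β) * c2 :=
          mul_le_mul_of_nonneg_left (by omega) (by omega)
        have t2 : M * β * (b + a + z + κ) ≤ M * β * (b2 + (2 * δ + 2 * a)) :=
          mul_le_mul_of_nonneg_left (by omega) (by omega)
        nlinarith
      · obtain ⟨-, -, w3, -, w5⟩ := win2 hth h0 h2 m0 m1 m1 m3 m4
        left
        have t1 : (M * N - 1 - M * β) * (b + a + z) ≤ (M * N - 1 - M * β) * c2 :=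
          mul_le_mul_of_nonneg_left (by omega) (by omega)
        have t2 : M * ((N - β) * (b - 2 * δ + z)) ≤ M * (a * β) := by nlinarith
        have t3 : (N - β) * (b - 2 * δ + z) ≤ a * β := le_of_mul_le_mul_left t2 hM0
        by_contra t4
        have t5 : 0 < b - 2 * δ + z := by
          by_contra t6
          have : N * (b - 2 * δ + z) ≤ 0 := mul_nonpos_of_nonneg_of_nonpos (by omega) (by omega)
          omega
        have t6 : 3 * β * (b - 2 * δ + z) < N * (b - 2 * δ + z) := mul_lt_mul_of_pos_right h3 t5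
        have t7 : 2 * β ≤ a * β := mul_le_mul_of_nonneg_right ha hβ.le
        nlinarith
    · obtain ⟨b1, e1, m1⟩ : ∃ b1 e1, Mn (M * β) f b1 e1 := by
        rcases hk with ⟨c, e', -, -, m3, -⟩ | ⟨-, -, -, e', m3⟩ <;> exact ⟨_, e', m3⟩
      obtain ⟨-, -, w3, -⟩ := win2 hth h0 h2 m0 m1 m1 m3 m3
      left
      have : N * (b - 2 * δ + z) ≤ 0 := mul_nonpos_of_nonneg_of_nonpos (by omega) (by omega)
      omega
  refine ⟨hl, ?_, fun h3 => ?_⟩
  · rcases hr with hr | hr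
    · exact hr.le
    · exact le_of_mul_le_mul_left (by omega) hM0
  · rcases hr with hr | hr
    · exact hr
    · exact lt_of_mul_lt_mul_left (by omega) hM0.le

theorem Row_fin {N β Y : ℕ} (hN : β < N) {b t : ℤ} (hl : 0 ≤ N * b + Y * ((N : ℤ) - β))
    (hr : N * t ≤ Y * (β : ℤ)) (hs : N * t < Y * (β : ℤ) ∨ Y * (N - β) % N ≠ 0) :
    -((Y * (N - β) / N : ℕ) : ℤ) ≤ b ∧ t < Y - ((Y * (N - β) / N : ℕ) : ℤ) := by
  have h1 := Nat.div_add_mod (Y * (N - β)) N
  have h2 := Nat.mod_lt (Y * (N - β)) (by omega : 0 < N)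
  generalize Y * (N - β) / N = q at *
  generalize Y * (N - β) % N = s at *
  have h3 : (N : ℤ) * q + s = Y * ((N : ℤ) - β) := by
    rw [← Nat.cast_sub hN.le]
    exact_mod_cast h1
  have h4 : (s : ℤ) < N := by exact_mod_cast h2
  have h5 : (0 : ℤ) < N := by omega
  constructor
  · by_contra h6
    have : (N : ℤ) * b ≤ N * (-q - 1) := mul_le_mul_of_nonneg_left (by omega) h5.le
    nlinarith
  · refine lt_of_mul_lt_mul_left (a := (N : ℤ)) ?_ h5.le
    have h6 : (N : ℤ) * (Y - q) = Y * β + s := by linarith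
    rw [h6]
    omega

theorem rrow {ω r k g N β M : ℕ} (hr : r = 1 ∨ r = 2) (hω : ω + r = k + 2) (h0 : 0 < ω)
    (hβ : 0 < β) (hN : β < N) (h3 : r = 2 → 3 * β < N) (hM : 2 * g + 2 < M) {μ : Fin k → ℕ}
    {G : MvPolynomial (Fin 2) O} (hG : Adm ω g (fun l : Fin k => PowerSeries.C (zn l)) μ G)
    (hS : Sd ω r N β g (∑ l, μ l) (Finset.univ.filter fun l => μ l = 0).card) {b e : ℤ}
    (h : Mn 0 (aeval ![wA (M * N), UU r k (M * N) (M * β)] G) b e) :
    wl ω r N β g ≤ b ∧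
      b < wl ω r N β g + wn ω r g (∑ l, μ l) (Finset.univ.filter fun l => μ l = 0).card := by
  have hM0 : (2 : ℤ) < M := by omega
  have hβ0 : (0 : ℤ) < β := by omega
  have hN0 : (β : ℤ) < N := by omega
  have b0 : (0 : ℤ) < M * β := mul_pos (by omega) hβ0
  have b1 : (M : ℤ) * β + M ≤ M * N := by nlinarith
  have b2 : (M : ℤ) * β + 1 < M * N := by omega
  have b3 : (2 : ℤ) < M * N := by omega
  obtain ⟨s, hd, hell, hZ, htop, hev⟩ := rep (M * N) (M * β) hr hω h0 b0 b2 hG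
  obtain ⟨c, hc, hlam⟩ := Row_lam b3 μ
  rw [hev] at h
  have h' := Mn_mul hc hlam h
  rw [sub_zero] at h'
  unfold wl wn
  unfold Sd at hS
  by_cases c1 : g < ω
  · rw [if_pos c1, if_pos c1]
    rw [Nat.div_eq_of_lt c1, Finset.sum_range_one, pow_zero, mul_one] at h'
    have := Row_low b3 (hd 0) h'
    omega
  rw [if_neg c1, if_neg c1]
  by_cases c2 : r = 2 ∧ g = ω
  · rw [if_pos c2, if_pos c2]
    have e1 : g / ω = 1 := by rw [c2.2, Nat.div_self h0]
    obtain ⟨o, n, ho⟩ := htop c2.1 (by rw [c2.2, Nat.mod_self])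
    rw [e1] at ho
    rw [e1, Finset.sum_range_succ, Finset.sum_range_one, pow_zero, mul_one, pow_one, ho] at h'
    have b4 : 3 * (β : ℤ) < N := by have := h3 c2.1; omega
    have := Row_mid b3 b0 (by nlinarith) (hd 0) o n h'
    omega
  rw [if_neg c2, if_neg c2]
  obtain ⟨hz, hs⟩ := (hS.resolve_left c1).resolve_left c2
  have ha : 0 < g / ω := Nat.div_pos (by omega) h0
  have m0 := Row_FF b0 b2 hd h'
  have hne : FF (M * N) (M * β) (g - ∑ l, μ l) (g / ω) s 0 ≠ 0 := by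
    intro e0
    apply m0.1
    rw [e0]
    simp [cz]
  have s1 := sh_FF b0 b2 (ρ := M * β) (by omega) le_rfl (g - ∑ l, μ l) (g / ω) s
  have s2 := sh_FF b0 b2 (ρ := -1) le_rfl (by omega) (g - ∑ l, μ l) (g / ω) s
  have n1 := mt (Sh_zero s1).2 hne
  have n2 := mt (Sh_zero s2).2 hne
  have hκ : kap ω r g < 2 * (g / ω) := by
    unfold kap
    split_ifs <;> omega
  have key := Row_core (κ := kap ω r g) (z := (Finset.univ.filter fun l => μ l = 0).card)
    (th_FF b0 b2 (g - ∑ l, μ l) (g / ω) s) hβ0 hN0 (by omega) (by omega) (by omega) (by omega)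
    m0 ?_ ?_
  · have e1 : 2 * ((g / ω : ℕ) : ℤ) - kap ω r g = ((2 * (g / ω) - kap ω r g : ℕ) : ℤ) := by omega
    rw [e1] at key
    have := Row_fin hN key.1 key.2.1 (hs.imp (fun h => key.2.2 (by omega)) id)
    omega
  · unfold kap
    split_ifs with c3 c4
    · subst c3
      exact Or.inl (Row_kink s1 (kink_one b0 b2 hd hell n1))
    · have c5 : r = 2 := hr.resolve_left c3
      obtain ⟨o, n, ho⟩ := htop c5 c4
      rcases kink_two b0 b2 hd ho n1 with hk | ⟨e', hk⟩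
      · exact Or.inl (Row_kink s1 hk)
      · refine Or.inr ⟨rfl, ?_, by have := h3 c5; omega, _, Sh_mn s1 hk⟩
        have e1 := Nat.div_add_mod g ω
        have : g / ω ≠ 1 := fun e2 => c2 ⟨c5, by rw [e2, c4] at e1; omega⟩
        omega
    · exact Or.inl (Row_kink s1 (Kink_zero n1))
  · rcases kink_node b0 b2 hd _ hz hZ n2 with hk | ⟨c', e', hk, hc'⟩
    · exact Or.inl (Row_kink s2 hk)
    · exact Or.inr ⟨_, _, Sh_mn s2 hk, hc'⟩

end Pool.Agent.Lib.MP_d03834_ag.Nag
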