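import Pool.Agent.Lib.MP_d03834_ag.Rul.Defs

/-! Expansions at other centres. -/

set_option autoImplicit false

namespace Pool.Agent.Lib.MP_d03834_ag.Nag

open MvPolynomial Module

theorem Sh_czneg (f : R) (b e : ℤ) : cz (-f) b e = -cz f b e := by
  unfold cz
  split_ifs <;> simp

theorem Sh_czzero (b e : ℤ) : cz 0 b e = 0 := by
  simp [cz]

theorem Sh_add {ρ κ : ℤ} {f f' g g' : R} (h : Sh ρ κ f f') (h' : Sh ρ κ g g') :
    Sh ρ κ (f + g) (f' + g') := by
  intro b e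
  rw [Win_add, Win_add, h, h']

theorem Sh_neg {ρ κ : ℤ} {f f' : R} (h : Sh ρ κ f f') : Sh ρ κ (-f) (-f') := by
  intro b e
  rw [Sh_czneg, Sh_czneg, h]

theorem Sh_sub {ρ κ : ℤ} {f f' g g' : R} (h : Sh ρ κ f f') (h' : Sh ρ κ g g') :
    Sh ρ κ (f - g) (f' - g') := by
  rw [sub_eq_add_neg, sub_eq_add_neg]
  exact Sh_add h (Sh_neg h')

theorem Sh_mul {ρ κ κ' : ℤ} {f f' g g' : R} (h : Sh ρ κ f f') (h' : Sh ρ κ' g g') :
    Sh ρ (κ + κ') (f * g) (f' * g') := by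
  intro b e
  rw [Th_conv, Th_conv, ← finsum_comp_equiv (Th_shear ρ 0 κ)]
  refine finsum_congr fun p => ?_
  change cz f' (p.1 + 0) (p.2 + ρ * p.1 + κ) *
    cz g' (b - (p.1 + 0)) (e + ρ * b + (κ + κ') - (p.2 + ρ * p.1 + κ)) = _
  rw [add_zero, h, ← h' (b - p.1) (e - p.2)]
  congr 2
  ring

theorem Sh_alg (ρ : ℤ) (o : O) : Sh ρ 0 (algebraMap O R o) (algebraMap O R o) := by
  intro b e
  have := Th_alg ρ o b e
  rwa [add_zero b] at this

theorem Sh_pow {ρ κ : ℤ} {f f' : R} (h : Sh ρ κ f f') (k : ℕ) :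
    Sh ρ (κ * k) (f ^ k) (f' ^ k) := by
  induction k with
  | zero => simpa using Sh_alg ρ 1
  | succ k ih =>
    have := Sh_mul ih h
    rw [pow_succ, pow_succ]
    push_cast
    rwa [mul_add, mul_one]

theorem Sh_sum {ρ κ : ℤ} {α : Type} (s : Finset α) {f f' : α → R}
    (h : ∀ i ∈ s, Sh ρ κ (f i) (f' i)) : Sh ρ κ (∑ i ∈ s, f i) (∑ i ∈ s, f' i) := by
  classical
  induction s using Finset.induction_on with
  | empty =>
    intro b e
    rw [Finset.sum_empty, Finset.sum_empty, Sh_czzero, Sh_czzero]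
  | insert i s hi ih =>
    rw [Finset.sum_insert hi, Finset.sum_insert hi]
    exact Sh_add (h i (Finset.mem_insert_self i s))
      (ih fun j hj => h j (Finset.mem_insert_of_mem hj))

theorem Sh_symm {ρ κ : ℤ} {f f' : R} (h : Sh ρ κ f f') : Sh (-ρ) (-κ) f' f := by
  intro b e
  rw [← h b (e + -ρ * b + -κ)]
  congr 1
  ring

theorem Sh_uniq {ρ κ : ℤ} {f f' g : R} (h : Sh ρ κ f f') (h' : Sh ρ κ f g) : f' = g :=
  cz_ext fun b e => by rw [← Sh_symm h b e, ← Sh_symm h' b e]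

theorem Sh_zero {ρ κ : ℤ} {f f' : R} (h : Sh ρ κ f f') : f = 0 ↔ f' = 0 := by
  constructor
  · rintro rfl
    exact cz_ext fun b e => by rw [← Sh_symm h b e, Sh_czzero, Sh_czzero]
  · rintro rfl
    exact cz_ext fun b e => by rw [← h b e, Sh_czzero, Sh_czzero]

theorem cz_iv (f : R) (b e : ℤ) : cz (iv f) b e = cz f (-b) e := by
  unfold cz iv
  split_ifs
  · rw [PowerSeries.coeff_map]
    exact LaurentPolynomial.invert_apply _ _
  · rfl

theorem Sh_iv {ρ κ : ℤ} {f f' : R} (h : Sh ρ κ f f') : Sh (-ρ) κ (iv f) (iv f') := by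
  intro b e
  rw [cz_iv, cz_iv, ← h (-b) e]
  congr 1
  ring

theorem Sh_czX2 (f : R) (b e : ℤ) : cz (PowerSeries.X ^ 2 * f) b (e + 2) = cz f b e := by
  rcases lt_or_ge e 0 with he | he
  · rw [Win_neg f b he]
    unfold cz
    split_ifs with h
    · rw [PowerSeries.coeff_X_pow_mul', if_neg (by omega)]
      simp
    · rfl
  · obtain ⟨n, rfl⟩ := Int.eq_ofNat_of_zero_le he
    have : ((n : ℤ) + 2) = ((n + 2 : ℕ) : ℤ) := by push_cast; ring
    rw [this, Win_nat, Win_nat, PowerSeries.coeff_X_pow_mul]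

theorem Sh_yT : Sh 1 0 (yT 2) (PowerSeries.X ^ 2 * yT 2) := by
  intro b e
  have h1 : e + 1 * b + 0 = (e + b - 2) + 2 := by ring
  rw [h1, Sh_czX2]
  unfold yT
  rw [Win_T, Win_T]
  by_cases hb : b = 2
  · subst hb
    simp
  · simp [hb]

theorem Sh_hv_eq (D : ℕ) (s : Polynomial O) (a b : R) :
    hv D s a b = ∑ kl ∈ Finset.HasAntidiagonal.antidiagonal D,
      algebraMap O R (s.coeff kl.1) * (a ^ kl.1 * b ^ kl.2) := by
  unfold hv Polynomial.homogenize
  rw [map_sum]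
  refine Finset.sum_congr rfl fun kl _ => ?_
  rw [aeval_monomial, Finsupp.prod_fintype _ _ (by simp), Fin.prod_univ_two]
  simp

theorem Sh_hv {ρ : ℤ} {a a' b b' : R} (h : Sh ρ 0 a a') (h' : Sh ρ 0 b b') (D : ℕ)
    (s : Polynomial O) : Sh ρ 0 (hv D s a b) (hv D s a' b') := by
  rw [Sh_hv_eq, Sh_hv_eq]
  refine Sh_sum _ fun kl _ => ?_
  simpa using Sh_mul (Sh_alg ρ (s.coeff kl.1)) (Sh_mul (Sh_pow h kl.1) (Sh_pow h' kl.2))

theorem Sh_mn {ρ κ : ℤ} {f f' : R} (h : Sh ρ κ f f') {b e : ℤ} (h' : Mn 0 f' b e) :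
    Mn ρ f b (e - ρ * b - κ) := by
  refine ⟨?_, fun b' e' h1 => ?_⟩
  · rw [← h b, show e - ρ * b - κ + ρ * b + κ = e by ring]
    exact h'.1
  · rw [← h b'] at h1
    have := h'.2 _ _ h1
    linarith

theorem iv_iv (f : R) : iv (iv f) = f :=
  cz_ext fun b e => by rw [cz_iv, cz_iv, neg_neg]

theorem iv_alg (o : O) : iv (algebraMap O R o) = algebraMap O R o := by
  refine PowerSeries.ext fun e => ?_
  unfold iv
  rw [PowerSeries.coeff_map, Win_coeff_alg]
  exact LaurentPolynomial.invert_C _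

theorem iv_yT (u : ℤ) : iv (yT u) = yT (-u) := by
  unfold iv yT
  rw [PowerSeries.map_C]
  exact congrArg _ (LaurentPolynomial.invert_T u)

theorem Th_iv {N r a : ℤ} {f : R} (h : Th N r a f) : Th N r (N * r - a) (iv f) := by
  intro b e
  rw [cz_iv, cz_iv, ← h (-(b + r))]
  congr 1 <;> ring

theorem Th_hv {N r a : ℤ} {x y : R} (h : Th N r a x) (h' : Th N r a y) (D : ℕ)
    (s : Polynomial O) : Th N (r * D) (a * D) (hv D s x y) := by
  rw [Sh_hv_eq]
  refine Win_sum _ _ fun kl hkl => ?_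
  have := Th_mul (Th_alg N (s.coeff kl.1)) (Th_mul (Win_pow h kl.1) (Win_pow h' kl.2))
  rw [← Finset.HasAntidiagonal.mem_antidiagonal.1 hkl]
  push_cast
  rwa [zero_add, zero_add, ← mul_add, ← mul_add] at this

theorem Sh_hv_scale (D : ℕ) (s : Polynomial O) (τ a b : R) :
    hv D s (τ * a) (τ * b) = τ ^ D * hv D s a b := by
  rw [Sh_hv_eq, Sh_hv_eq, Finset.mul_sum]
  refine Finset.sum_congr rfl fun kl hkl => ?_
  rw [← Finset.HasAntidiagonal.mem_antidiagonal.1 hkl]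
  ring

theorem hv_unit {D : ℕ} {s : Polynomial O} (h : s.natDegree ≤ D) (a : R) {b : R}
    (hb : IsUnit b) : hv D s a b = b ^ D * Polynomial.aeval (a * Ring.inverse b) s := by
  have h1 : hv D s (a * Ring.inverse b) 1 = Polynomial.aeval (a * Ring.inverse b) s := by
    unfold hv
    rw [Polynomial.aeval_homogenize_of_eq_one h _ (by simp)]
    simp
  rw [← h1, ← Sh_hv_scale, mul_one, mul_left_comm, Ring.mul_inverse_cancel _ hb, mul_one]

theorem hv_mul {D D' : ℕ} {s s' : Polynomial O} (h : s.natDegree ≤ D) (h' : s'.natDegree ≤ D')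
    (a b : R) : hv (D + D') (s * s') a b = hv D s a b * hv D' s' a b := by
  unfold hv
  rw [Polynomial.homogenize_mul _ _ h h', map_mul]

theorem Sh_iv_hv (D : ℕ) (s : Polynomial O) (a b : R) :
    iv (hv D s a b) = hv D s (iv a) (iv b) := by
  rw [Sh_hv_eq, Sh_hv_eq, map_sum]
  refine Finset.sum_congr rfl fun kl _ => ?_
  rw [map_mul, map_mul, map_pow, map_pow, iv_alg]

theorem hv_iv {a b τ : R} (ha : a = τ * iv a) (hb : b = τ * iv b) (D : ℕ) (s : Polynomial O) :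
    hv D s a b = τ ^ D * iv (hv D s a b) := by
  rw [Sh_iv_hv, ← Sh_hv_scale, ← ha, ← hb]

end Pool.Agent.Lib.MP_d03834_ag.Nag
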