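import Pool.Agent.Lib.MP_d03834_ag.Rul.Ini

/-! The two pencils of theta series of degree two. -/

set_option autoImplicit false

namespace Pool.Agent.Lib.MP_d03834_ag.Nag

open MvPolynomial Module

/-- the exponents are not negative and grow -/
def Th2_ok (N i a e0 : ℤ) : Prop :=
  ∀ k, 0 ≤ E2 N i a e0 k ∧ -E2 N i a e0 k - 5 ≤ k ∧ k ≤ E2 N i a e0 k + 5

lemma Th2_mix {N x E P Q k : ℤ} (h0 : 0 ≤ x) (h1 : x ≤ N) (hN : 0 < N)
    (h : E = (N - x) * P + x * Q) (hP : 0 ≤ P ∧ -P - 5 ≤ k ∧ k ≤ P + 5)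
    (hQ : 0 ≤ Q ∧ -Q - 5 ≤ k ∧ k ≤ Q + 5) : 0 ≤ E ∧ -E - 5 ≤ k ∧ k ≤ E + 5 := by
  have h2 : 0 ≤ min P Q := le_min hP.1 hQ.1
  have h3 : (N - x) * min P Q ≤ (N - x) * P :=
    mul_le_mul_of_nonneg_left (min_le_left _ _) (by omega)
  have h4 : x * min P Q ≤ x * Q := mul_le_mul_of_nonneg_left (min_le_right _ _) h0
  have h5 : 1 * min P Q ≤ N * min P Q := mul_le_mul_of_nonneg_right (by omega) h2
  have h6 : min P Q ≤ E := by linarith
  omega

lemma Th2_q (k c d : ℤ) (hc : -1 ≤ c) (hc' : c ≤ 1) (hd : c ≤ d) (hd' : d ≤ c + 1) :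
    0 ≤ (k + c) * (k + d) ∧ -((k + c) * (k + d)) - 5 ≤ k ∧ k ≤ (k + c) * (k + d) + 5 := by
  have h : d = c ∨ d = c + 1 := by omega
  have h1 : 0 ≤ (k + c) * (k + c + 1) := by
    rcases le_or_gt 0 (k + c) with h2 | h2
    · exact mul_nonneg h2 (by omega)
    · exact mul_nonneg_of_nonpos_of_nonpos (by omega) (by omega)
  rcases h with rfl | rfl
  · refine ⟨mul_self_nonneg _, ?_, ?_⟩ <;> nlinarith [sq_nonneg (k + d - 1), sq_nonneg (k + d + 1)]
  · refine ⟨by linarith, ?_, ?_⟩ <;> nlinarith [sq_nonneg (k + c), sq_nonneg (k + c + 1)]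

lemma Th2_ok_p0 {N x : ℤ} (h0 : 0 ≤ x) (h1 : x ≤ N) (hN : 0 < N) : Th2_ok N 1 (2 * x) x :=
  fun k => Th2_mix h0 h1 hN (by unfold E2; ring) (Th2_q k 0 0 (by omega) (by omega) le_rfl (by omega))
    (Th2_q k 1 1 (by omega) le_rfl le_rfl (by omega))

lemma Th2_ok_p1 {N x : ℤ} (h0 : 0 ≤ x) (h1 : x ≤ N) (hN : 0 < N) : Th2_ok N 0 (2 * x) 0 :=
  fun k => Th2_mix h0 h1 hN (by unfold E2; ring)
    (Th2_q k (-1) 0 le_rfl (by omega) (by omega) (by omega))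
    (Th2_q k 0 1 (by omega) (by omega) (by omega) (by omega))

lemma Th2_ok_n0 {N x : ℤ} (h0 : 0 ≤ x) (h1 : x ≤ N) (hN : 0 < N) : Th2_ok N 0 (N - 2 * x) x :=
  fun k => Th2_mix h0 h1 hN (by unfold E2; ring) (Th2_q k 0 0 (by omega) (by omega) le_rfl (by omega))
    (Th2_q k (-1) (-1) le_rfl (by omega) le_rfl (by omega))

lemma Th2_ok_n1 {N x : ℤ} (h0 : 0 ≤ x) (h1 : x ≤ N) (hN : 0 < N) : Th2_ok N 1 (N - 2 * x) 0 :=
  fun k => Th2_mix h0 h1 hN (by unfold E2; ring)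
    (Th2_q k 0 1 (by omega) (by omega) (by omega) (by omega))
    (Th2_q k (-1) 0 le_rfl (by omega) (by omega) (by omega))

lemma Th2_ne {N i a e0 b e : ℤ} (h : cz (thE N i a e0) b e ≠ 0) :
    ∃ k, b = i + 2 * k ∧ E2 N i a e0 k = e := by
  rcases lt_or_ge e 0 with he | he
  · exact absurd (Th_neg _ _ he) h
  obtain ⟨n, rfl⟩ := Int.eq_ofNat_of_zero_le he
  rw [Th_nat, thE, PowerSeries.coeff_mk, AddMonoidAlgebra.coeff_sum,
    Finsupp.finsetSum_apply] at h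
  obtain ⟨k, hk, h2⟩ := Finset.exists_ne_zero_of_sum_ne_zero h
  refine ⟨k, ?_, (Finset.mem_filter.1 hk).2⟩
  by_contra h3
  exact h2 (by rw [LaurentPolynomial.T_apply, if_neg (Ne.symm h3)])

lemma Th2_one {N i a e0 k b e : ℤ} (h0 : Th2_ok N i a e0) (hb : b = i + 2 * k)
    (h : E2 N i a e0 k = e) : cz (thE N i a e0) b e = 1 := by
  have h1 := h0 k
  rw [h] at h1
  obtain ⟨n, rfl⟩ := Int.eq_ofNat_of_zero_le h1.1
  rw [hb, Th_nat, thE, PowerSeries.coeff_mk, AddMonoidAlgebra.coeff_sum,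
    Finsupp.finsetSum_apply, Finset.sum_eq_single k]
  · rw [LaurentPolynomial.T_apply, if_pos rfl]
  · intro k' _ hk
    rw [LaurentPolynomial.T_apply, if_neg (by omega)]
  · intro hk
    exact absurd (Finset.mem_filter.2 ⟨Finset.mem_Icc.2 h1.2, h⟩) hk

lemma Th2_eq {N i a e0 a' e0' b e b' e' : ℤ} (h : Th2_ok N i a e0) (h' : Th2_ok N i a' e0')
    (h1 : ∀ k, b = i + 2 * k → E2 N i a e0 k = e → ∃ k', b' = i + 2 * k' ∧ E2 N i a' e0' k' = e')
    (h2 : ∀ k, b' = i + 2 * k → E2 N i a' e0' k = e' → ∃ k', b = i + 2 * k' ∧ E2 N i a e0 k' = e) :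
    cz (thE N i a' e0') b' e' = cz (thE N i a e0) b e := by
  by_cases h3 : cz (thE N i a e0) b e = 0
  · rw [h3]
    by_contra h4
    obtain ⟨k, hk, h5⟩ := Th2_ne h4
    obtain ⟨k', hk', h6⟩ := h2 k hk h5
    rw [Th2_one h hk' h6] at h3
    exact one_ne_zero h3
  · obtain ⟨k, hk, h5⟩ := Th2_ne h3
    obtain ⟨k', hk', h6⟩ := h1 k hk h5
    rw [Th2_one h hk h5, Th2_one h' hk' h6]

lemma Th2_th {N i a e0 : ℤ} (h : Th2_ok N i a e0) : Th N 2 a (thE N i a e0) := by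
  intro b e
  refine Th2_eq h h (fun k hk h1 => ⟨k + 1, by omega, ?_⟩) fun k hk h1 => ⟨k - 1, by omega, ?_⟩
  · rw [hk, ← h1]
    unfold E2
    ring
  · rw [show b = i + 2 * k - 2 by omega] at h1
    unfold E2 at h1 ⊢
    linarith

lemma Th2_sh {N i a e0 a' e0' ρ κ : ℤ} (h : Th2_ok N i a e0) (h' : Th2_ok N i a' e0')
    (h1 : ∀ k, E2 N i a' e0' k = E2 N i a e0 k + ρ * (i + 2 * k) + κ) :
    Sh ρ κ (thE N i a e0) (thE N i a' e0') := by
  intro b e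
  refine Th2_eq h h' (fun k hk h2 => ⟨k, hk, ?_⟩) fun k hk h2 => ⟨k, hk, ?_⟩
  · rw [h1, h2, hk]
  · rw [h1, hk] at h2
    linarith

lemma Th2_sym {N i a e0 c : ℤ} (h : Th2_ok N i a e0)
    (h1 : ∀ k, E2 N i a e0 (c - i - k) = E2 N i a e0 k) (b e : ℤ) :
    cz (thE N i a e0) (2 * c - b) e = cz (thE N i a e0) b e :=
  Th2_eq h h (fun k hk h2 => ⟨c - i - k, by omega, by rw [h1, h2]⟩)
    fun k hk h2 => ⟨c - i - k, by omega, by rw [h1, h2]⟩

lemma Th2_yT (u : ℤ) (g : R) (b e : ℤ) : cz (yT u * g) b e = cz g (b - u) e := by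
  rw [Th_conv, finsum_eq_single _ (u, (0 : ℤ))]
  · rw [yT, Win_T, if_pos ⟨rfl, rfl⟩, one_mul, sub_zero]
  · rintro ⟨c, d⟩ hp
    rw [yT, Win_T, if_neg (fun h => hp (Prod.ext h.1 h.2)), zero_mul]

lemma Th2_low {N i a e0 : ℤ} {e : ℕ} (h : ∀ k, E2 N i a e0 k ≠ e) :
    PowerSeries.coeff e (thE N i a e0) = 0 := by
  rw [thE, PowerSeries.coeff_mk]
  exact Finset.sum_eq_zero fun k hk => absurd (Finset.mem_filter.1 hk).2 (h k)

lemma Th2_ini {N i a e0 k0 m u : ℤ} (h : Th2_ok N i a e0) (hm : E2 N i a e0 k0 = m)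
    (hu : u = i + 2 * k0) (h1 : ∀ k, k ≠ k0 → m < E2 N i a e0 k) :
    Ini (thE N i a e0) m.toNat (LaurentPolynomial.T u) := by
  have h2 := h k0
  rw [hm] at h2
  obtain ⟨n, rfl⟩ := Int.eq_ofNat_of_zero_le h2.1
  rw [Int.toNat_natCast]
  refine ⟨fun e he => Th2_low fun k hk => ?_, ?_⟩
  · by_cases h3 : k = k0
    · rw [h3, hm] at hk
      omega
    · have := h1 k h3
      omega
  · rw [thE, PowerSeries.coeff_mk, Finset.sum_eq_single k0, hu]
    · intro k hk h3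
      have h4 := h1 k h3
      have h5 := (Finset.mem_filter.1 hk).2
      omega
    · intro hk
      exact absurd (Finset.mem_filter.2 ⟨Finset.mem_Icc.2 h2.2, hm⟩) hk

lemma Th2_pos {s A B : ℤ} (hs : s ≠ 0) (h1 : 0 < A + B) (h2 : B < A) : 0 < s * (A * s + B) := by
  rcases lt_or_gt_of_ne hs with h | h
  · refine mul_pos_of_neg_of_neg h ?_
    have : A * s ≤ A * (-1) := mul_le_mul_of_nonneg_left (by omega) (by omega)
    linarith
  · refine mul_pos h ?_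
    have : A * 1 ≤ A * s := mul_le_mul_of_nonneg_left (by omega) (by omega)
    linarith

lemma Th2_gt {N x P Q : ℤ} (h0 : 0 < x) (h1 : x < N) (hP : 0 ≤ P) (hQ : 0 ≤ Q)
    (h : 0 < P + Q) : 0 < (N - x) * P + x * Q := by
  have h2 : 1 * P ≤ (N - x) * P := mul_le_mul_of_nonneg_right (by omega) hP
  have h3 : 1 * Q ≤ x * Q := mul_le_mul_of_nonneg_right (by omega) hQ
  linarith

lemma Th2_evL (z : ℂˣ) (p : L) : evL z⁻¹ p = evL z (LaurentPolynomial.invert p) := by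
  induction p using LaurentPolynomial.induction_on' with
  | add p q hp hq => rw [map_add, map_add, map_add, hp, hq]
  | C_mul_T n a =>
    rw [map_mul, map_mul, map_mul, LaurentPolynomial.invert_C, LaurentPolynomial.invert_T]
    simp [evL, LaurentPolynomial.eval₂_T]

lemma Th2_evO (z : ℂˣ) (f : R) : evO z⁻¹ f = evO z (iv f) := by
  refine PowerSeries.ext fun e => ?_
  rw [evO, evO, iv, PowerSeries.coeff_map, PowerSeries.coeff_map, PowerSeries.coeff_map, Th2_evL]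
  rfl

theorem th_p0 {N x : ℤ} (h0 : 0 ≤ x) (h1 : x ≤ N) (hN : 0 < N) : Th N 2 (2 * x) (p0 N x) :=
  Th2_th (Th2_ok_p0 h0 h1 hN)

theorem th_p1 {N x : ℤ} (h0 : 0 ≤ x) (h1 : x ≤ N) (hN : 0 < N) : Th N 2 (2 * x) (p1 N x) :=
  Th2_th (Th2_ok_p1 h0 h1 hN)

theorem th_n0 {N x : ℤ} (h0 : 0 ≤ x) (h1 : x ≤ N) (hN : 0 < N) :
    Th N 2 (N - 2 * x) (n0 N x) :=
  Th2_th (Th2_ok_n0 h0 h1 hN)

theorem th_v0 {N x : ℤ} (h0 : 0 ≤ x) (h1 : x ≤ N) (hN : 0 < N) :
    Th N 2 (N - 2 * x) (v0 N x) := by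
  have h := Th_mul (Th_alg N (-(evO u2 (n1 N 0) * (evO u2 (n0 N 0))⁻¹))) (th_n0 h0 h1 hN)
  rw [zero_add, zero_add] at h
  have h' := Th_add (Th2_th (Th2_ok_n1 h0 h1 hN)) h
  rwa [map_neg, neg_mul, ← sub_eq_add_neg] at h'

theorem sh_p0 {N x x' : ℤ} (h0 : 0 ≤ x) (h1 : x ≤ N) (h2 : 0 ≤ x') (h3 : x' ≤ N) (hN : 0 < N) :
    Sh (x' - x) 0 (p0 N x) (p0 N x') :=
  Th2_sh (Th2_ok_p0 h0 h1 hN) (Th2_ok_p0 h2 h3 hN) fun k => by unfold E2; ring

theorem sh_p1 {N x x' : ℤ} (h0 : 0 ≤ x) (h1 : x ≤ N) (h2 : 0 ≤ x') (h3 : x' ≤ N) (hN : 0 < N) :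
    Sh (x' - x) 0 (p1 N x) (p1 N x') :=
  Th2_sh (Th2_ok_p1 h0 h1 hN) (Th2_ok_p1 h2 h3 hN) fun k => by unfold E2; ring

theorem sh_n0 {N x x' : ℤ} (h0 : 0 ≤ x) (h1 : x ≤ N) (h2 : 0 ≤ x') (h3 : x' ≤ N) (hN : 0 < N) :
    Sh (x - x') (x' - x) (n0 N x) (n0 N x') :=
  Th2_sh (Th2_ok_n0 h0 h1 hN) (Th2_ok_n0 h2 h3 hN) fun k => by unfold E2; ring

theorem sh_v0 {N x x' : ℤ} (h0 : 0 ≤ x) (h1 : x ≤ N) (h2 : 0 ≤ x') (h3 : x' ≤ N) (hN : 0 < N) :
    Sh (x - x') (x' - x) (v0 N x) (v0 N x') := by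
  have h := Sh_mul (Sh_alg (x - x') (evO u2 (n1 N 0) * (evO u2 (n0 N 0))⁻¹))
    (sh_n0 h0 h1 h2 h3 hN)
  rw [zero_add] at h
  exact Sh_sub (Th2_sh (Th2_ok_n1 h0 h1 hN) (Th2_ok_n1 h2 h3 hN) fun k => by unfold E2; ring) h

theorem sym_p0 {N : ℤ} (hN : 0 < N) : p0 N 0 = yT 2 * iv (p0 N 0) := by
  refine cz_ext fun b e => ?_
  rw [Th2_yT, cz_iv, show -(b - 2) = 2 * 1 - b by ring]
  exact (Th2_sym (Th2_ok_p0 le_rfl hN.le hN) (fun k => by unfold E2; ring) b e).symm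

theorem sym_p1 {N : ℤ} (hN : 0 < N) : p1 N 0 = yT 2 * iv (p1 N 0) := by
  refine cz_ext fun b e => ?_
  rw [Th2_yT, cz_iv, show -(b - 2) = 2 * 1 - b by ring]
  exact (Th2_sym (Th2_ok_p1 le_rfl hN.le hN) (fun k => by unfold E2; ring) b e).symm

theorem sym_n0 {N : ℤ} (hN : 0 < N) : iv (n0 N 0) = n0 N 0 := by
  refine cz_ext fun b e => ?_
  rw [cz_iv, show -b = 2 * 0 - b by ring]
  exact Th2_sym (Th2_ok_n0 le_rfl hN.le hN) (fun k => by unfold E2; ring) b e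

theorem sym_v0 {N : ℤ} (hN : 0 < N) : iv (v0 N 0) = v0 N 0 := by
  have h : iv (n1 N 0) = n1 N 0 := by
    refine cz_ext fun b e => ?_
    rw [cz_iv, show -b = 2 * 0 - b by ring]
    exact Th2_sym (Th2_ok_n1 le_rfl hN.le hN) (fun k => by unfold E2; ring) b e
  rw [v0, map_sub, map_mul, iv_alg, sym_n0 hN, h]

theorem ini_p0 {N x : ℤ} (h0 : 0 ≤ x) (h1 : 2 * x < N) :
    Ini (p0 N x) x.toNat (LaurentPolynomial.T 1) :=
  Th2_ini (k0 := 0) (Th2_ok_p0 h0 (by omega) (by omega)) (by unfold E2; ring) (by ring)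
    fun k hk => by
      have := Th2_pos (A := N) (B := 2 * x) hk (by omega) h1
      unfold E2
      linarith

theorem ini_p0' {N x : ℤ} (h0 : N < 2 * x) (h1 : x ≤ N) :
    Ini (p0 N x) (N - x).toNat (LaurentPolynomial.T (-1)) :=
  Th2_ini (k0 := -1) (Th2_ok_p0 (by omega) h1 (by omega)) (by unfold E2; ring) (by ring)
    fun k hk => by
      have := Th2_pos (s := k + 1) (A := N) (B := 2 * x - 2 * N) (by omega) (by omega) (by omega)
      unfold E2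
      linarith

theorem ini_p1 {N x : ℤ} (h0 : 0 < x) (h1 : x < N) :
    Ini (p1 N x) 0 (LaurentPolynomial.T 0) :=
  Th2_ini (k0 := 0) (m := 0) (Th2_ok_p1 h0.le h1.le (by omega)) (by unfold E2; ring) (by ring)
    fun k hk => by
      have := Th2_pos (A := N) (B := 2 * x - N) hk (by omega) (by omega)
      unfold E2
      linarith

theorem ini_p1' {N : ℤ} (hN : 0 < N) : Ini (p1 N 0) 0 (1 + LaurentPolynomial.T 2) := by
  refine ⟨fun e he => absurd he (Nat.not_lt_zero e), ?_⟩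
  have h : (Finset.Icc (-((0 : ℕ) : ℤ) - 5) ((0 : ℕ) + 5)).filter
      (fun k => E2 N 0 (2 * 0) 0 k = (0 : ℕ)) = {0, 1} := by
    ext k
    rw [Finset.mem_filter, Finset.mem_Icc, Finset.mem_insert, Finset.mem_singleton,
      show E2 N 0 (2 * 0) 0 k = N * (k * (k - 1)) by unfold E2; ring, Nat.cast_zero, mul_eq_zero,
      mul_eq_zero]
    omega
  rw [p1, thE, PowerSeries.coeff_mk, h, Finset.sum_pair zero_ne_one]
  simp

theorem ini_n0 {N x : ℤ} (h0 : 0 ≤ x) (h1 : 2 * x < N) :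
    Ini (n0 N x) x.toNat (LaurentPolynomial.T 0) :=
  Th2_ini (k0 := 0) (Th2_ok_n0 h0 (by omega) (by omega)) (by unfold E2; ring) (by ring)
    fun k hk => by
      have := Th2_pos (A := N) (B := -(2 * x)) hk (by omega) (by omega)
      unfold E2
      linarith

theorem ini_n0' {N x : ℤ} (h0 : N < 2 * x) (h1 : x ≤ N) :
    Ini (n0 N x) (N - x).toNat (LaurentPolynomial.T 2) :=
  Th2_ini (k0 := 1) (Th2_ok_n0 (by omega) h1 (by omega)) (by unfold E2; ring) (by ring)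
    fun k hk => by
      have := Th2_pos (s := k - 1) (A := N) (B := 2 * N - 2 * x) (by omega) (by omega) (by omega)
      unfold E2
      linarith

theorem ini_v0 {N x : ℤ} (h0 : 0 < x) (h1 : x < N) :
    Ini (v0 N x) 0 (LaurentPolynomial.T 1) := by
  refine ⟨fun e he => absurd he (Nat.not_lt_zero e), ?_⟩
  have h2 : Ini (n1 N x) 0 (LaurentPolynomial.T 1) :=
    Th2_ini (k0 := 0) (m := 0) (Th2_ok_n1 h0.le h1.le (by omega)) (by unfold E2; ring) (by ring)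
      fun k hk => by
        have := Th2_pos (A := N) (B := N - 2 * x) hk (by omega) (by omega)
        unfold E2
        linarith
  have h3 : PowerSeries.coeff 0 (n0 N x) = 0 := Th2_low fun k hk => by
    have := Th2_gt h0 h1 (mul_self_nonneg k) (mul_self_nonneg (k - 1))
      (by nlinarith [sq_nonneg (2 * k - 1)])
    unfold E2 at hk
    push_cast at hk
    linarith
  rw [v0, map_sub, h2.2, PowerSeries.coeff_zero_eq_constantCoeff_apply, map_mul,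
    ← PowerSeries.coeff_zero_eq_constantCoeff_apply (n0 N x), h3, mul_zero, sub_zero]

theorem c0_p0 {N x : ℤ} (h0 : 0 < x) (h1 : x < N) :
    PowerSeries.constantCoeff (p0 N x) = 0 := by
  rw [← PowerSeries.coeff_zero_eq_constantCoeff_apply]
  refine Th2_low fun k hk => ?_
  have := Th2_gt h0 h1 (mul_self_nonneg k) (mul_self_nonneg (k + 1))
    (by nlinarith [sq_nonneg (2 * k + 1)])
  unfold E2 at hk
  push_cast at hk
  linarith

theorem evO_alg (z : ℂˣ) (o : O) : evO z (algebraMap O R o) = o := by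
  refine PowerSeries.ext fun e => ?_
  rw [evO, PowerSeries.coeff_map, Win_coeff_alg, evL, LaurentPolynomial.eval₂_C]
  rfl

theorem ev_v0 {N : ℤ} (hN : 0 < N) : evO u2 (v0 N 0) = 0 ∧ evO u2⁻¹ (v0 N 0) = 0 := by
  have h : evO u2 (v0 N 0) = 0 := by
    have h1 : PowerSeries.constantCoeff (evO u2 (n0 N 0)) ≠ 0 := by
      have h2 := (ini_n0 (N := N) le_rfl (by omega)).2
      rw [← PowerSeries.coeff_zero_eq_constantCoeff_apply, evO, PowerSeries.coeff_map,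
        show PowerSeries.coeff 0 (n0 N 0) = _ from h2, LaurentPolynomial.T_zero, map_one]
      exact one_ne_zero
    rw [v0, map_sub, map_mul, evO_alg, mul_assoc, PowerSeries.inv_mul_cancel _ h1, mul_one,
      sub_self]
  exact ⟨h, by rw [Th2_evO, sym_v0 hN, h]⟩

theorem th_FF {N β : ℤ} (h0 : 0 < β) (h1 : β + 1 < N) (δ a : ℕ) (s : ℕ → Polynomial O) :
    Th N (2 * δ + 2 * a) (2 * δ + a * (N - 2 * β)) (FF N β δ a s 0) := by
  refine Win_sum _ _ fun i hi => ?_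
  have h2 : i ≤ a := Nat.lt_succ_iff.1 (Finset.mem_range.1 hi)
  have h := Th_mul (Th_hv (th_p0 (N := N) (x := 1 + 0) (by omega) (by omega) (by omega))
    (th_p1 (N := N) (x := 1 + 0) (by omega) (by omega) (by omega)) δ (s i))
    (Th_mul (Win_pow (th_n0 (N := N) (x := β - 0) (by omega) (by omega) (by omega)) i)
      (Win_pow (th_v0 (N := N) (x := β - 0) (by omega) (by omega) (by omega)) (a - i)))
  rw [Nat.cast_sub h2] at h
  rw [show (2 * δ + 2 * a : ℤ) = 2 * δ + (2 * i + 2 * (a - i)) by ring,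
    show (2 * δ + a * (N - 2 * β) : ℤ) = 2 * (1 + 0) * δ +
      ((N - 2 * (β - 0)) * i + (N - 2 * (β - 0)) * (a - i)) by ring]
  exact h

theorem sh_FF {N β ρ : ℤ} (h0 : 0 < β) (h1 : β + 1 < N) (h2 : -1 ≤ ρ) (h3 : ρ ≤ β) (δ a : ℕ)
    (s : ℕ → Polynomial O) : Sh ρ (-ρ * a) (FF N β δ a s 0) (FF N β δ a s ρ) := by
  refine Sh_sum _ fun i hi => ?_
  have h4 : i ≤ a := Nat.lt_succ_iff.1 (Finset.mem_range.1 hi)
  have a0 := sh_p0 (N := N) (x := 1 + 0) (x' := 1 + ρ) (by omega) (by omega) (by omega)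
    (by omega) (by omega)
  have a1 := sh_p1 (N := N) (x := 1 + 0) (x' := 1 + ρ) (by omega) (by omega) (by omega)
    (by omega) (by omega)
  have a2 := sh_n0 (N := N) (x := β - 0) (x' := β - ρ) (by omega) (by omega) (by omega)
    (by omega) (by omega)
  have a3 := sh_v0 (N := N) (x := β - 0) (x' := β - ρ) (by omega) (by omega) (by omega)
    (by omega) (by omega)
  rw [show 1 + ρ - (1 + 0) = ρ by ring] at a0 a1
  rw [show β - 0 - (β - ρ) = ρ by ring, show β - ρ - (β - 0) = -ρ by ring] at a2 a3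
  have h := Sh_mul (Sh_hv a0 a1 δ (s i)) (Sh_mul (Sh_pow a2 i) (Sh_pow a3 (a - i)))
  rw [Nat.cast_sub h4, show 0 + (-ρ * i + -ρ * (a - i)) = -ρ * a by ring] at h
  exact h

end Pool.Agent.Lib.MP_d03834_ag.Nag
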