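import Pool.Agent.Lib.MP_d03834_ag.Rul.Row
import Pool.Agent.Lib.MP_d03834_ag.Rul.Crv
import Pool.Agent.Lib.MP_d03834_ag.Rul.Col
import Pool.Agent.Lib.MP_d03834_ag.Rul.Lead
import Pool.Agent.Lib.MP_d03834_ag.Rul.Gen

/-! Transfer from the diagram to the weighted plane. -/

set_option autoImplicit false

namespace Pool.Agent.Lib.MP_d03834_ag.Nag

open MvPolynomial Module

theorem Trans_one {c : ℕ} (o : Fin c → Fin 2) :
    ∑ l, (1 - (o l : ℕ)) = c - ∑ l, (o l : ℕ) := by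
  have h : ∑ l, (1 - (o l : ℕ)) + ∑ l, (o l : ℕ) = c := by
    rw [← Finset.sum_add_distrib, Finset.sum_congr rfl (g := fun _ => 1) fun l _ => by
      have := (o l).2
      omega]
    simp
  omega

theorem Trans_sum {c : ℕ} (o : Fin c → Fin 2) (f : ℕ → ℕ) :
    ∑ l, f (o l) = (c - ∑ l, (o l : ℕ)) * f 0 + (∑ l, (o l : ℕ)) * f 1 := by
  rw [← Trans_one, Finset.sum_mul, Finset.sum_mul, ← Finset.sum_add_distrib]
  refine Finset.sum_congr rfl fun l _ => ?_
  have h : (o l : ℕ) = 0 ∨ (o l : ℕ) = 1 := by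
    have := (o l).2
    omega
  rcases h with h | h <;> rw [h] <;> simp

theorem Trans_sm {c : ℕ} (o : Fin c → Fin 2) (m j : ℕ) :
    ∑ l, (2 * m + o l - 2 * j) = smj m c (∑ l, (o l : ℕ)) j :=
  Trans_sum o fun i => 2 * m + i - 2 * j

theorem Trans_zc {c : ℕ} (o : Fin c → Fin 2) (m j : ℕ) :
    (Finset.univ.filter fun l => 2 * m + o l - 2 * j = 0).card = zcj m c (∑ l, (o l : ℕ)) j := by
  rw [Finset.card_filter, Trans_sum o fun i => if 2 * m + i - 2 * j = 0 then 1 else 0]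
  unfold zcj
  split_ifs <;> omega

theorem Trans_ini (e : ℕ) (s : ℤ) (j : ℕ) :
    Ini ((PowerSeries.X ^ e * yT s) ^ j) (e * j)
      (LaurentPolynomial.C (1 : ℂ) * LaurentPolynomial.T (s * j)) := by
  have h : Ini (PowerSeries.X ^ e * yT s) e (LaurentPolynomial.T s) := by
    unfold yT
    refine ⟨fun e' he' => ?_, ?_⟩
    · rw [PowerSeries.coeff_X_pow_mul', if_neg (by omega)]
    · rw [PowerSeries.coeff_X_pow_mul', if_pos le_rfl, Nat.sub_self, PowerSeries.coeff_zero_C]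
  have h1 := Ini_pow h j
  rwa [LaurentPolynomial.T_pow, mul_comm (j : ℤ), ← one_mul (LaurentPolynomial.T _),
    ← map_one (LaurentPolynomial.C (R := ℂ))] at h1

theorem rtrans {ω r c g n m N β p T : ℕ} (hr : r = 1 ∨ r = 2) (hω : ω + r = c + 2) (h0 : 0 < ω)
    (hβ : 0 < β) (hN : β < N) (h3 : 3 * β < N ∨ (r = 1 ∧ N < 2 * β)) (o : Fin c → Fin 2)
    (h : Good ω r N β p g n m c (∑ l, (o l : ℕ)) T) :
    WEmp ω g (fun l : Fin c => zn l) (fun l => 2 * m + o l)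
      (Sum.elim (fun _ : Fin n => m) fun _ : Fin T => 1) := by
  classical
  obtain ⟨M, hM⟩ : ∃ M : ℕ, M = 2 * g + 5 := ⟨_, rfl⟩
  have hF : Fold ((M : ℤ) * N) (M * β) := by
    have a1 : (5 : ℤ) ≤ M := by omega
    have a2 : (1 : ℤ) ≤ β := by omega
    have a3 : (β : ℤ) + 1 ≤ N := by omega
    refine ⟨by nlinarith, by nlinarith, ?_⟩
    rcases h3 with h3 | ⟨-, h3⟩
    · have a4 : 3 * (β : ℤ) + 1 ≤ N := by omega
      left
      nlinarith
    · have a4 : (N : ℤ) + 1 ≤ 2 * β := by omega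
      right
      nlinarith
  obtain ⟨c0, hc⟩ := exists_crv hF hr hω
  obtain ⟨e, u, hu, hd⟩ := hc.der
  obtain ⟨u, rfl⟩ := hu
  obtain ⟨h1, h2, h4, h5⟩ := h
  obtain ⟨z, σ, H⟩ := rcrit h1 h2 h5
  have he0 : 0 < r + 2 * ω := by omega
  choose P hP using fun l => rfilt (wA (M * N)) (UU r c (M * N) (M * β))
    ((u⁻¹ : Rˣ) * yT (-p)) (z l) (σ l)
  refine rgen (K := A) h0 g _ _ _ P fun F hF hm => ?_
  by_contra hF0
  have hγ : (PowerSeries.X ^ e * yT (-p) : R) ≠ 0 := fun h6 => by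
    have h7 := (Trans_ini e (-p) 1).2
    rw [h6, pow_one, map_zero, map_one, one_mul] at h7
    exact (LaurentPolynomial.isUnit_T _).ne_zero h7.symm
  obtain ⟨μ, hμ, hj⟩ := rlead (v := (u⁻¹ : Rˣ) * yT (-p)) hc.zero
    (γ := PowerSeries.X ^ e * yT (-p)) (by rw [hd, mul_assoc, Units.mul_inv_cancel_left]) hγ
    (fun j G => (r + 2 * ω) * j ≤ g ∧ Adm ω (g - (r + 2 * ω) * j)
      (fun l : Fin c => (PowerSeries.C (zn l) : O)) (fun l => 2 * m + o l - 2 * j) G)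
    (g / (r + 2 * ω)) (fun j G hG hG0 hz => by
      obtain ⟨G1, rfl⟩ := hc.ker G hz
      obtain ⟨b1, b2⟩ := adm_div he0 hc.top hc.ord (right_ne_zero_of_mul hG0) hG.2
      have b3 : (r + 2 * ω) * (j + 1) ≤ g := by
        have := hG.1
        rw [mul_add_one]
        omega
      refine ⟨?_, G1, ⟨b3, ?_⟩, rfl⟩
      · rw [Nat.lt_iff_add_one_le, Nat.le_div_iff_mul_le he0, mul_comm]
        exact b3
      · rw [mul_add_one, ← Nat.sub_sub]
        exact b2)
    (F := F) (fun k G hG => ⟨by omega, adm_cf hF k hG⟩) hF0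
  set Ψ := (Psi2 (wA (M * N)) (UU r c (M * N) (M * β)) ((u⁻¹ : Rˣ) * yT (-p)) F).coeff μ with hΨ
  have hex : ∃ e, co e Ψ ≠ 0 := by
    by_contra hc
    apply hμ
    refine Polynomial.ext fun j => PowerSeries.ext fun e => ?_
    have h1 : co e Ψ = 0 := by
      by_contra h2
      exact hc ⟨e, h2⟩
    rw [← co_coeff, h1]
    simp
  apply Nat.find_spec hex
  refine H _ ?_ fun l => hP l _ F (hm l) μ _
  intro j b hb
  rw [co_coeff] at hb
  rcases hj j with b1 | ⟨b1, G, hG, b2⟩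
  · rw [b1] at hb
    simp at hb
  have b3 : Mn 0 (Ψ.coeff j) b (Nat.find hex) := by
    refine ⟨by rwa [Win_nat], fun b' e' h6 => ?_⟩
    rcases lt_or_ge e' 0 with h7 | h7
    · exact absurd (Win_neg _ _ h7) h6
    obtain ⟨e', rfl⟩ := Int.eq_ofNat_of_zero_le h7
    have h8 : Nat.find hex ≤ e' := Nat.find_min' hex fun h9 => by
      rw [Win_nat, ← co_coeff, h9] at h6
      simp at h6
    omega
  rw [b2] at b3
  have b4 := rrow hr hω h0 hβ hN (fun h6 => by omega) (M := M) (by omega) hG.2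
    (by rw [Trans_sm, Trans_zc]; exact h4 j b1) (Mn_mul one_ne_zero (Trans_ini e (-p) j) b3)
  rw [Trans_sm, Trans_zc] at b4
  unfold Rw Lw
  refine ⟨b1, by linarith [b4.1], by linarith [b4.2]⟩

end Pool.Agent.Lib.MP_d03834_ag.Nag
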